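import Mathlib
import Pool.Agent.H35.NI.Defs
import Pool.Agent.H89.EN.Defs
import Pool.Agent.H89.CZ.KSer
import Pool.Agent.H35.ISO.Defs

set_option autoImplicit false

/-!
# Project ODD (MP_6cdc09_gt): definitions

Aim.  For every real subspace `E` of `ℂⁿ` of odd dimension the Brunn-Minkowski inequality for `V_E`
holds on zonoids (note 5207 of helper89).  Built on project ISO (isotropic `E`).

In the link of a family `W` of `i - 2` vectors, `W^⊥` has `B` complex coordinates (planes, Kähler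
cosines `c_k`) and one real coordinate (line), `2B + 1 = 2n - i + 2`.  Blocks: `Bk B = Option (Fin B)`,
`none` = the line.  Random set `Z` of planes: `k ∈ Z` with probability `c_k²` independently.
-/

open MeasureTheory Pool.Agent.H61.UProj Pool.Agent.H89.CZ Pool.Agent.H35.NI
open scoped ComplexConjugate

noncomputable section

namespace Pool.Agent.H35.ODD

variable {n i B : ℕ}

/-! ### Vectors and modes -/

/-- Blocks: planes `some k`, the line `none`. -/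
abbrev Bk (B : ℕ) := Option (Fin B)

/-- Vectors. -/
abbrev Vc (B : ℕ) := (Fin B → ℂ) × ℝ

def rho (u : Vc B) : Bk B → ℝ
  | none => u.2 ^ 2
  | some k => ‖u.1 k‖ ^ 2

def re2 (u v : Vc B) : Bk B → ℝ
  | none => u.2 * v.2
  | some k => (u.1 k * conj (v.1 k)).re

def im2 (u v : Vc B) (k : Fin B) : ℝ := (u.1 k * conj (v.1 k)).im

/-- The real inner product. -/
def tto (u v : Vc B) : ℝ := ∑ k, re2 u v k

/-- The numerator of the kernel for coefficients `P2` (pairs of blocks), `P1` (planes), `X2` (pairs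
of planes). -/
def num (P2 : Bk B → Bk B → ℝ) (P1 : Fin B → ℝ) (X2 : Fin B → Fin B → ℝ) (u v : Vc B) : ℝ :=
  ∑ k, P1 k * im2 u v k ^ 2 +
    ∑ j, ∑ k ∈ Finset.univ.erase j, P2 j k * (rho u j * rho v k - re2 u v j * re2 u v k) +
    ∑ j, ∑ k ∈ Finset.univ.erase j, X2 j k * (im2 u v j * im2 u v k)

/-- Modes: exponents of `a_k` (`some (k, true)`), `conj a_k` (`some (k, false)`), of the real
coordinate (`none`). -/
abbrev Mo (B : ℕ) := Option (Fin B × Bool) → ℕ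

def levo (B N : ℕ) : Finset (Mo B) := Finset.univ.piAntidiag N

def nb (n : Mo B) : Bk B → ℕ
  | none => n none
  | some k => n (some (k, true)) + n (some (k, false))

def eb (n : Mo B) (k : Fin B) : ℝ := (n (some (k, true)) : ℝ) - n (some (k, false))

/-- The degree of a block increased by two. -/
def upo (n : Mo B) : Bk B → Mo B
  | none => fun μ => n μ + if μ = none then 2 else 0
  | some k => fun μ => n μ + if μ = some (k, true) ∨ μ = some (k, false) then 1 else 0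

/-- Multinomial coefficient over `2^(degree in the planes)`. -/
def mmo (n : Mo B) : ℝ := (Nat.multinomial Finset.univ n : ℝ) / 2 ^ (∑ μ, n (some μ))

/-- `N_k² - e_k²`, for the line `N_0 (N_0 - 1)`. -/
def wt (n : Mo B) : Bk B → ℝ
  | none => (n none : ℝ) * ((n none : ℝ) - 1)
  | some k => (nb n (some k) : ℝ) ^ 2 - eb n k ^ 2

/-- The monomial. -/
def moo (u : Vc B) (n : Mo B) : ℂ :=
  (u.2 : ℂ) ^ n none * ∏ k, u.1 k ^ n (some (k, true)) * conj (u.1 k) ^ n (some (k, false))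

def FFo {ι : Type*} [Fintype ι] (u : ι → Vc B) (lam : ι → ℝ) (n : Mo B) : ℂ :=
  ∑ j, (lam j : ℂ) * moo (u j) n

/-- The own coefficient of a mode. -/
def cn (P2 : Bk B → Bk B → ℝ) (P1 : Fin B → ℝ) (X2 : Fin B → Fin B → ℝ) (n : Mo B) : ℝ :=
  ∑ j, ∑ k ∈ Finset.univ.erase j, P2 j k * ((nb n j : ℝ) * nb n k) -
    ∑ k, P1 k * ((nb n (some k) : ℝ) - eb n k ^ 2) +
    ∑ j, ∑ k ∈ Finset.univ.erase j, X2 j k * (eb n j * eb n k)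

/-- The truncated form restricted to the modes with property `p`. -/
def Qf (P2 : Bk B → Bk B → ℝ) (P1 : Fin B → ℝ) (X2 : Fin B → Fin B → ℝ) (M : ℕ) (F : Mo B → ℂ)
    (p : Mo B → Prop) [DecidablePred p] : ℝ :=
  ∑ q ∈ Finset.range (M + 1), (dd q / ((2 * q + 2) * (2 * q + 1)) *
      ∑ n ∈ (levo B (2 * q + 2)).filter p, mmo n * cn P2 P1 X2 n * ‖F n‖ ^ 2 -
    dd q * ∑ n ∈ (levo B (2 * q)).filter p, mmo n *
      ∑ j, ∑ k ∈ Finset.univ.erase j, P2 j k * (F (upo n j) * conj (F (upo n k))).re)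

/-! ### The random set of planes -/

/-- Probability of `Z`. -/
def PZ (s : Fin B → ℝ) (Z : Finset (Fin B)) : ℝ := (∏ k ∈ Z, s k) * ∏ k ∈ Zᶜ, (1 - s k)

def EZ (s : Fin B → ℝ) (g : Finset (Fin B) → ℝ) : ℝ := ∑ Z, PZ s Z * g Z

/-- `Z` without the block. -/
def rmv (Z : Finset (Fin B)) : Bk B → Finset (Fin B)
  | none => Z
  | some k => Z.erase k

/-- `φ_jk` at the vertex `Z`. -/
def p2 (φ : ℕ → ℝ) (Z : Finset (Fin B)) (j k : Bk B) : ℝ := φ (rmv (rmv Z j) k).card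

def p1 (φ : ℕ → ℝ) (Z : Finset (Fin B)) (k : Fin B) : ℝ := φ (Z.erase k).card

def AP2 (c : Fin B → ℝ) (φ : ℕ → ℝ) (j k : Bk B) : ℝ := EZ (fun k => c k ^ 2) (fun Z => p2 φ Z j k)

def AP1 (c : Fin B → ℝ) (φ : ℕ → ℝ) (k : Fin B) : ℝ := EZ (fun k => c k ^ 2) (fun Z => p1 φ Z k)

def AX2 (c : Fin B → ℝ) (φ : ℕ → ℝ) (j k : Fin B) : ℝ :=
  c j * c k * EZ (fun k => c k ^ 2)
    (fun Z => φ (((Z.erase j).erase k).card + 1) - φ ((Z.erase j).erase k).card)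

/-! ### Vertices -/

/-- The blocks of the planes in `Z`. -/
def zb (Z : Finset (Fin B)) : Finset (Bk B) := Z.map Function.Embedding.some

/-- Coefficients of pairs of blocks at a vertex: `f0` (both in `Z`), `f1`, `f2` (none in `Z`). -/
def VP2 (Z : Finset (Fin B)) (f0 f1 f2 : ℝ) (j k : Bk B) : ℝ :=
  if j ∈ zb Z then (if k ∈ zb Z then f0 else f1) else (if k ∈ zb Z then f1 else f2)

def VP1 (Z : Finset (Fin B)) (f1 f2 : ℝ) (k : Fin B) : ℝ := if k ∈ Z then f1 else f2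

/-- Degree outside `Z` (with the line). -/
def ja (Z : Finset (Fin B)) (n : Mo B) : ℕ := ∑ k ∈ (zb Z)ᶜ, nb n k

/-- Degree in `Z`. -/
def lz (Z : Finset (Fin B)) (n : Mo B) : ℕ := ∑ k ∈ zb Z, nb n k

/-- Coefficient of `v_k²` (general scheme). -/
def Dv (Z : Finset (Fin B)) (f0 f2 Ap Am Bp Bm : ℝ) (n : Mo B) (k : Bk B) : ℝ :=
  if k ∈ zb Z then (Am * ja Z n + Bm * (lz Z n + 2)) / ((nb n k : ℝ) + 2) - f0
  else (Ap * (ja Z n + 2) + Bp * lz Z n) / ((nb n k : ℝ) + if k = none then 1 else 2) - f2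

/-- The same seen from the upper level: `Dw (upo n k) k = Dv n k`. -/
def Dw (Z : Finset (Fin B)) (f0 f2 Ap Am Bp Bm : ℝ) (n : Mo B) (k : Bk B) : ℝ :=
  if k ∈ zb Z then (Am * ja Z n + Bm * lz Z n) / (nb n k : ℝ) - f0
  else (Ap * ja Z n + Bp * lz Z n) / ((nb n k : ℝ) - if k = none then 1 else 0) - f2

/-! ### Triples -/

/-- `(N-1)² T` in units: `f1 N(N-1) - Ap j - Am j (N-1) - Bp l N`. -/
def TT0 (f1 Ap Am Bp : ℝ) (j l : ℕ) : ℝ :=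
  f1 * ((j : ℝ) + l) * ((j : ℝ) + l - 1) - Ap * j - Am * j * ((j : ℝ) + l - 1) -
    Bp * l * ((j : ℝ) + l)

/-- The quadratic form (Q). -/
def QQf (r m : ℕ) (f1 Ap Am Bp Bm : ℝ) (j l : ℕ) (x y : ℝ) : ℝ :=
  (f1 * ((j : ℝ) + l - 1) - Ap * j - Am * j * ((j : ℝ) + l - 1) - Bp * l * ((j : ℝ) + l)) /
      ((j : ℝ) + l - 1) ^ 2 * (x + y) ^ 2 +
    ((Ap * ((j : ℝ) + 2) + Bp * l) / ((j : ℝ) + r) - (Ap - Am)) * x ^ 2 +
    ((Am * j + Bm * ((l : ℝ) + 2)) / ((l : ℝ) + 2 * m) + (Bp - Bm)) * y ^ 2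

/-- The condition for the charged modes (convex cone in `(f0, f1, f2)`). -/
def GoodQ (r m : ℕ) (f0 f1 f2 : ℝ) : Prop :=
  ∃ Ap Am Bp Bm : ℝ, 0 ≤ Ap ∧ 0 ≤ Am ∧ 0 ≤ Bp ∧ 0 ≤ Bm ∧ f2 = f1 + Ap - Am ∧ f0 = f1 - Bp + Bm ∧
    ∀ j l : ℕ, 2 ≤ j + l → 0 ≤ TT0 f1 Ap Am Bp j l ∧ ∀ x y : ℝ, 0 ≤ QQf r m f1 Ap Am Bp Bm j l x y

/-- Lower point: isotropic type. -/
def IsP1 (m : ℕ) (f0 f1 f2 : ℝ) : Prop :=
  0 ≤ f1 ∧ f2 = f1 * (2 * m / (2 * m + 1)) ∧ (2 ≤ m → f0 * (2 * m - 2) = f1 * (2 * m - 1))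

/-- Upper point: type `ℂ^p ⊕ ℝ`. -/
def IsP2 (r : ℕ) (f0 f1 f2 : ℝ) : Prop :=
  0 ≤ f1 ∧ f2 * r = f1 * (r + 1) ∧ f0 * (r + 3) = f1 * (r + 2)

/-- The rectangle `-1/(2m+1) ≤ A ≤ 0 ≤ B ≤ 1/(r+3)`. -/
def IsMP (r m : ℕ) (f0 f1 f2 : ℝ) : Prop :=
  0 ≤ f1 ∧ f2 ≤ f1 ∧ f0 ≤ f1 ∧ 2 * m * f1 ≤ (2 * m + 1) * f2 ∧ (r + 2) * f1 ≤ (r + 3) * f0

/-- The condition for the charge-free modes. -/
def Good0 (r m : ℕ) (f0 f1 f2 : ℝ) : Prop :=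
  ∃ a0 a1 a2 b0 b1 b2 d0 d1 d2 : ℝ, IsP1 m a0 a1 a2 ∧ (IsP2 r b0 b1 b2 ∨ (b0 = 0 ∧ b1 = 0 ∧ b2 = 0)) ∧
    IsMP r m d0 d1 d2 ∧ f0 = a0 + b0 + d0 ∧ f1 = a1 + b1 + d1 ∧ f2 = a2 + b2 + d2

/-- Both conditions. -/
def Tri (r m : ℕ) (f0 f1 f2 : ℝ) : Prop := GoodQ r m f0 f1 f2 ∧ Good0 r m f0 f1 f2

/-- The condition on `φ` at the vertices with `m` complex coordinates. -/
def OkAt (φ : ℕ → ℝ) (B m : ℕ) : Prop :=
  (m = 0 ∧ 0 ≤ φ 0) ∨ (1 ≤ m ∧ ∃ f0 f1 f2 : ℝ, Tri (2 * B + 1 - 2 * m) m f0 f1 f2 ∧ f1 = φ (m - 1) ∧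
    (m < B → f2 = φ m) ∧ (2 ≤ m → f0 = φ (m - 2)))

/-! ### Polynomial coefficients in the link -/

def Q2 (c : Fin B → ℝ) (t : ℝ) (j k : Bk B) : ℝ := ∏ l ∈ rmv (rmv Finset.univ j) k, (1 + t * c l ^ 2)

def Q1 (c : Fin B → ℝ) (t : ℝ) (k : Fin B) : ℝ := ∏ l ∈ Finset.univ.erase k, (1 + t * c l ^ 2)

def QX (c : Fin B → ℝ) (t : ℝ) (j k : Fin B) : ℝ :=
  t * c j * c k * ∏ l ∈ (Finset.univ.erase j).erase k, (1 + t * c l ^ 2)

/-! ### The numbers `gg (ℂ^q ⊕ ℝ^(i-2q)) (ℂ^k ⊕ ℝ^(i-2k))` -/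

def Fq (n i q k : ℕ) : ℝ :=
  gg (fun a : Fin i => Pool.Agent.H89.EN.vf n q a) (fun a : Fin i => Pool.Agent.H89.EN.vf n k a)

/-- What is used of `Fq`. -/
structure FH (F : ℕ → ℕ → ℕ → ℕ → ℝ) : Prop where
  symm : ∀ n i q k : ℕ, F n i q k = F n i k q
  pos : ∀ n i : ℕ, 1 ≤ i → i ≤ n → 0 < F n i 0 0
  step : ∀ n i q : ℕ, i ≤ n → 2 * (q + 1) ≤ i →
    (2 * ((n : ℝ) - i + q + 1) + 1) * F n i (q + 1) 0 = 2 * ((n : ℝ) - i + q + 1) * F n i q 0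
  rc : ∀ n i : ℕ, 1 ≤ i → i + 1 ≤ n → ∃ c : ℝ, 0 < c ∧ ∀ q k : ℕ, 2 * q ≤ i → 2 * k ≤ i + 2 →
    F (n + 1) (i + 2) (q + 1) k = c * (4 * k * ((i : ℝ) + 2 - k) * F n i q (k - 1) +
      ((i : ℝ) + 2 - 2 * k) * ((i : ℝ) + 1 - 2 * k) * F n i q k)

/-! ### Coordinates of `z ∈ ℂ^N` in `ℂ^k ⊕ ℝ^M` -/

/-- `|z_C|²`. -/
def sC {N : ℕ} (k : ℕ) (z : Cn N) : ℝ := ∑ l : Fin N, if (l : ℕ) < k then ‖z l‖ ^ 2 else 0

/-- `∑ (Re z_l)²`, `k ≤ l < k + M`. -/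
def aR {N : ℕ} (k M : ℕ) (z : Cn N) : ℝ :=
  ∑ l : Fin N, if k ≤ (l : ℕ) ∧ (l : ℕ) < k + M then (z l).re ^ 2 else 0

def dR {N : ℕ} (k M : ℕ) (z : Cn N) : ℝ :=
  ∑ l : Fin N, if k ≤ (l : ℕ) ∧ (l : ℕ) < k + M then (z l).im ^ 2 else 0

def bR {N : ℕ} (k M : ℕ) (z : Cn N) : ℝ :=
  ∑ l : Fin N, if k ≤ (l : ℕ) ∧ (l : ℕ) < k + M then (z l).re * (z l).im else 0

/-- `s² + s(a + d)`. -/
def h1 {N : ℕ} (k M : ℕ) (z : Cn N) : ℝ := sC k z ^ 2 + sC k z * (aR k M z + dR k M z)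

/-- `ad - b²`. -/
def h2 {N : ℕ} (k M : ℕ) (z : Cn N) : ℝ := aR k M z * dR k M z - bR k M z ^ 2

end Pool.Agent.H35.ODD
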