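import Mathlib
import Pool.Agent.H35.ODD.Defs

set_option autoImplicit false

/-!
# OMod: combinatorics of the modes with a real line (model: `H35/ISO/Shf.lean`)

`mmo_upo`: plane: `multinomial n' · n'_+ n'_- = multinomial n (N+2)(N+1)` for `n' = upo n (some k)`,
`n'_± = n_± + 1`, `wt = 4 n'_+ n'_-`, the power of `2` grows by `4`; line: `n'_0 = n_0 + 2`,
`multinomial n' · n'_0 (n'_0 - 1) = multinomial n (N+2)(N+1)`, power of `2` unchanged.
`sum_upo`: `(n, k) ↦ (upo n k, k)` is a bijection onto the pairs with `wt ≠ 0`.
`dbo`: charge-free modes of even degree.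
-/

open Pool.Agent.H89.CZ

noncomputable section

namespace Pool.Agent.H35.ODD

variable {B : ℕ}

/-! ### Auxiliary facts -/

private lemma mem_levo {N : ℕ} {n : Mo B} : n ∈ levo B N ↔ ∑ μ, n μ = N := by
  simp [levo, Finset.mem_piAntidiag]

private lemma upo_none_none (n : Mo B) : upo n none none = n none + 2 := by
  simp [upo]

private lemma upo_none_some (n : Mo B) (a : Fin B × Bool) :
    upo n none (some a) = n (some a) := by
  simp [upo]

private lemma upo_some_none (n : Mo B) (k : Fin B) : upo n (some k) none = n none := by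
  simp [upo]

private lemma upo_some_some (n : Mo B) (k : Fin B) (a : Fin B × Bool) :
    upo n (some k) (some a) = n (some a) + if a.1 = k then 1 else 0 := by
  obtain ⟨l, b⟩ := a
  by_cases hl : l = k
  · subst hl
    cases b <;> simp [upo]
  · simp [upo, hl]

private lemma sum_delta (k : Fin B) : ∑ μ : Fin B × Bool, (if μ.1 = k then 1 else 0) = 2 := by
  rw [Fintype.sum_prod_type, Finset.sum_eq_single k]
  · simp
  · intro l _ hl
    simp [hl]
  · intro h
    exact absurd (Finset.mem_univ _) h

private lemma sum_some_some (n : Mo B) (k : Fin B) :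
    ∑ a, upo n (some k) (some a) = ∑ a, n (some a) + 2 := by
  simp only [upo_some_some]
  rw [Finset.sum_add_distrib, sum_delta]

private lemma sum_none_some (n : Mo B) :
    ∑ a, upo n none (some a) = ∑ a, n (some a) := by
  simp only [upo_none_some]

private lemma sum_upo_val (n : Mo B) (k : Bk B) : ∑ μ, upo n k μ = ∑ μ, n μ + 2 := by
  rw [Fintype.sum_option, Fintype.sum_option]
  cases k with
  | none =>
    rw [upo_none_none, sum_none_some]
    omega
  | some k =>
    rw [upo_some_none, sum_some_some]
    omega

/-- The quotient of the products of the factorials. -/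
private def cc (n : Mo B) : Bk B → ℕ
  | none => (n none + 2) * (n none + 1)
  | some k => (n (some (k, true)) + 1) * (n (some (k, false)) + 1)

private lemma prod_delta (n : Mo B) (k : Fin B) :
    ∏ a : Fin B × Bool, (if a.1 = k then n (some a) + 1 else 1) =
      (n (some (k, true)) + 1) * (n (some (k, false)) + 1) := by
  rw [Fintype.prod_prod_type, Finset.prod_eq_single k]
  · simp
  · intro l _ hl
    simp [hl]
  · intro h
    exact absurd (Finset.mem_univ _) h

private lemma prod_fact (n : Mo B) (k : Bk B) :
    ∏ μ, (upo n k μ).factorial = (∏ μ, (n μ).factorial) * cc n k := by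
  rw [Fintype.prod_option, Fintype.prod_option]
  cases k with
  | none =>
    simp only [upo_none_none, upo_none_some, cc]
    rw [Nat.factorial_succ, Nat.factorial_succ]
    ring
  | some k =>
    have h : ∀ a : Fin B × Bool, (upo n (some k) (some a)).factorial =
        (n (some a)).factorial * (if a.1 = k then n (some a) + 1 else 1) := by
      intro a
      rw [upo_some_some]
      split_ifs
      · rw [Nat.factorial_succ, mul_comm]
      · rw [add_zero, mul_one]
    rw [Finset.prod_congr rfl fun a _ => h a, Finset.prod_mul_distrib, prod_delta, upo_some_none]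
    simp only [cc]
    ring

private lemma multi_upo (n : Mo B) (k : Bk B) :
    Nat.multinomial Finset.univ (upo n k) * cc n k =
      Nat.multinomial Finset.univ n * ((∑ μ, n μ + 2) * (∑ μ, n μ + 1)) := by
  have h1 := Nat.multinomial_spec Finset.univ (upo n k)
  have h2 := Nat.multinomial_spec Finset.univ n
  rw [prod_fact, sum_upo_val] at h1
  have h3 : (∑ μ, n μ + 2).factorial = (∑ μ, n μ + 2) * ((∑ μ, n μ + 1) *
      (∑ μ, n μ).factorial) := by
    rw [Nat.factorial_succ, Nat.factorial_succ]
  rw [h3, ← h2] at h1
  have hpos : 0 < ∏ μ, (n μ).factorial := Finset.prod_pos fun μ _ => Nat.factorial_pos _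
  apply Nat.eq_of_mul_eq_mul_left hpos
  calc _ = (∏ μ, (n μ).factorial) * cc n k * Nat.multinomial Finset.univ (upo n k) := by ring
    _ = _ := by rw [h1]; ring

private lemma wt_some (n : Mo B) (k : Fin B) :
    wt n (some k) = 4 * ((n (some (k, true)) : ℝ) * n (some (k, false))) := by
  simp only [wt, nb, eb]
  push_cast
  ring

theorem mmo_pos (n : Mo B) : 0 < mmo n := by
  unfold mmo
  have h : 0 < Nat.multinomial Finset.univ n := Nat.multinomial_pos _ _
  positivity

theorem eb_upo (n : Mo B) (k : Bk B) (l : Fin B) : eb (upo n k) l = eb n l := by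
  cases k with
  | none => simp only [eb, upo_none_some]
  | some k =>
    simp only [eb, upo_some_some]
    push_cast
    ring

theorem nb_upo (n : Mo B) (k l : Bk B) : nb (upo n k) l = nb n l + if l = k then 2 else 0 := by
  cases k with
  | none =>
    cases l with
    | none => simp [nb, upo_none_none]
    | some l => simp [nb, upo_none_some]
  | some k =>
    cases l with
    | none => simp [nb, upo_some_none]
    | some l =>
      simp only [nb, upo_some_some, Option.some.injEq]
      split_ifs <;> omega

theorem upo_mem {N : ℕ} {n : Mo B} (hn : n ∈ levo B N) (k : Bk B) : upo n k ∈ levo B (N + 2) := by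
  rw [mem_levo, sum_upo_val, mem_levo.1 hn]

theorem sum_nb {N : ℕ} {n : Mo B} (hn : n ∈ levo B N) : ∑ k, nb n k = N := by
  rw [← mem_levo.1 hn, Fintype.sum_option, Fintype.sum_option, Fintype.sum_prod_type]
  simp [nb]

theorem zero_mem : (0 : Mo B) ∈ levo B 0 := by
  rw [mem_levo]
  simp

theorem levo_zero {n : Mo B} (hn : n ∈ levo B 0) : n = 0 := by
  have h := mem_levo.1 hn
  funext μ
  exact (Finset.sum_eq_zero_iff.1 h) μ (Finset.mem_univ μ)

theorem ja_add_lz (Z : Finset (Fin B)) {N : ℕ} {n : Mo B} (hn : n ∈ levo B N) :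
    ja Z n + lz Z n = N := by
  unfold ja lz
  rw [Finset.sum_compl_add_sum, sum_nb hn]

theorem ja_upo (Z : Finset (Fin B)) (n : Mo B) (k : Bk B) :
    ja Z (upo n k) = ja Z n + if k ∈ zb Z then 0 else 2 := by
  unfold ja
  simp only [nb_upo]
  rw [Finset.sum_add_distrib, Finset.sum_ite_eq']
  by_cases h : k ∈ zb Z
  · rw [if_neg (by simpa using h), if_pos h]
  · rw [if_pos (by simpa using h), if_neg h]

theorem lz_upo (Z : Finset (Fin B)) (n : Mo B) (k : Bk B) :
    lz Z (upo n k) = lz Z n + if k ∈ zb Z then 2 else 0 := by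
  unfold lz
  simp only [nb_upo]
  rw [Finset.sum_add_distrib, Finset.sum_ite_eq']

theorem Dw_upo (Z : Finset (Fin B)) (f0 f2 Ap Am Bp Bm : ℝ) (n : Mo B) (k : Bk B) :
    Dw Z f0 f2 Ap Am Bp Bm (upo n k) k = Dv Z f0 f2 Ap Am Bp Bm n k := by
  unfold Dw Dv
  rw [ja_upo, lz_upo, nb_upo, if_pos rfl]
  by_cases h : k ∈ zb Z
  · simp only [if_pos h]
    push_cast
    ring
  · simp only [if_neg h]
    have e : ((nb n k + 2 : ℕ) : ℝ) - (if k = none then 1 else 0) =
        (nb n k : ℝ) + (if k = none then 1 else 2) := by
      push_cast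
      split_ifs <;> ring
    rw [e]
    push_cast
    ring

/-- `|e_k| ≤ N_k`. -/
theorem abs_eb_le (n : Mo B) (k : Fin B) : |eb n k| ≤ nb n (some k) := by
  have h1 : (0 : ℝ) ≤ n (some (k, true)) := Nat.cast_nonneg _
  have h2 : (0 : ℝ) ≤ n (some (k, false)) := Nat.cast_nonneg _
  simp only [eb, nb]
  rw [abs_le]
  push_cast
  constructor <;> linarith

theorem mmo_upo {N : ℕ} {n : Mo B} (hn : n ∈ levo B N) (k : Bk B) :
    mmo (upo n k) * wt (upo n k) k = mmo n * (((N : ℝ) + 2) * (N + 1)) := by
  have hN := mem_levo.1 hn
  have h1 := multi_upo n k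
  rw [hN] at h1
  have h2 : (Nat.multinomial Finset.univ (upo n k) : ℝ) * (cc n k : ℝ) =
      (Nat.multinomial Finset.univ n : ℝ) * (((N : ℝ) + 2) * ((N : ℝ) + 1)) := by
    exact_mod_cast h1
  cases k with
  | none =>
    unfold mmo
    rw [sum_none_some]
    have h3 : wt (upo n none) none = (cc n none : ℝ) := by
      simp only [wt, upo_none_none, cc]
      push_cast
      ring
    rw [h3, div_mul_eq_mul_div, h2]
    ring
  | some k =>
    unfold mmo
    rw [sum_some_some, pow_add]
    have h3 : wt (upo n (some k)) (some k) = 4 * (cc n (some k) : ℝ) := by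
      rw [wt_some]
      simp only [upo_some_some, cc, if_true]
      push_cast
      ring
    rw [h3]
    calc _ = (Nat.multinomial Finset.univ (upo n (some k)) : ℝ) * (cc n (some k) : ℝ) /
          2 ^ (∑ a, n (some a)) := by
          field_simp
          ring
      _ = _ := by rw [h2]; ring

/-- The degree of a block decreased by two. -/
private def dno (n : Mo B) : Bk B → Mo B
  | none => fun μ => n μ - if μ = none then 2 else 0
  | some k => fun μ => n μ - if μ = some (k, true) ∨ μ = some (k, false) then 1 else 0

private lemma dno_upo (n : Mo B) (k : Bk B) : dno (upo n k) k = n := by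
  funext μ
  cases k <;> simp [dno, upo]

private lemma upo_dno {n : Mo B} {k : Bk B} (h : wt n k ≠ 0) : upo (dno n k) k = n := by
  funext μ
  cases k with
  | none =>
    have h2 : 2 ≤ n none := by
      by_contra hlt
      apply h
      have h0 : n none = 0 ∨ n none = 1 := by omega
      rcases h0 with h0 | h0 <;> simp [wt, h0]
    by_cases hμ : μ = none
    · subst hμ
      simp only [upo, dno, if_true]
      omega
    · simp [upo, dno, hμ]
  | some k =>
    rw [wt_some] at h
    have h1 : n (some (k, true)) ≠ 0 := by
      intro h0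
      apply h
      rw [h0]
      simp
    have h2 : n (some (k, false)) ≠ 0 := by
      intro h0
      apply h
      rw [h0]
      simp
    by_cases hμ : μ = some (k, true) ∨ μ = some (k, false)
    · simp only [upo, dno, if_pos hμ]
      rcases hμ with hμ | hμ <;> subst hμ <;> omega
    · simp [upo, dno, if_neg hμ]

private lemma wt_upo_ne (n : Mo B) (k : Bk B) : wt (upo n k) k ≠ 0 := by
  cases k with
  | none =>
    simp only [wt, upo_none_none]
    push_cast
    have h : (0 : ℝ) ≤ n none := Nat.cast_nonneg _
    have : (0 : ℝ) < ((n none : ℝ) + 2) * ((n none : ℝ) + 2 - 1) := by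
      apply mul_pos <;> linarith
    exact this.ne'
  | some k =>
    rw [wt_some]
    simp only [upo_some_some, if_true]
    push_cast
    positivity

theorem sum_upo (N : ℕ) (p : Mo B → Prop) [DecidablePred p] (hp : ∀ n k, p (upo n k) ↔ p n)
    (g : Mo B → Bk B → ℝ) (hg : ∀ n k, wt n k = 0 → g n k = 0) :
    ∑ n ∈ (levo B N).filter p, ∑ k, g (upo n k) k = ∑ n ∈ (levo B (N + 2)).filter p, ∑ k, g n k := by
  classical
  rw [Finset.sum_comm, Finset.sum_comm (s := (levo B (N + 2)).filter p)]
  refine Finset.sum_congr rfl fun k _ => ?_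
  rw [← Finset.sum_filter_of_ne (s := (levo B (N + 2)).filter p)
    (p := fun n : Mo B => wt n k ≠ 0)]
  · refine Finset.sum_nbij' (fun n => upo n k) (fun n => dno n k) ?_ ?_ ?_ ?_ ?_
    · intro n hn
      rw [Finset.mem_filter] at hn
      rw [Finset.mem_filter, Finset.mem_filter]
      exact ⟨⟨upo_mem hn.1 k, (hp n k).2 hn.2⟩, wt_upo_ne n k⟩
    · intro n hn
      rw [Finset.mem_filter, Finset.mem_filter] at hn
      have h1 := upo_dno hn.2
      rw [Finset.mem_filter]
      constructor
      · have h2 := sum_upo_val (dno n k) k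
        rw [h1, mem_levo.1 hn.1.1] at h2
        rw [mem_levo]
        omega
      · rw [← hp (dno n k) k, h1]
        exact hn.1.2
    · intro n _
      exact dno_upo n k
    · intro n hn
      rw [Finset.mem_filter] at hn
      exact upo_dno hn.2
    · intro n _
      rfl
  · intro n _ hne h
    exact hne (hg n k h)

/-- Charge-free modes of even degree: `N_k` is even for every block (in particular for the line). -/
theorem neutral_even {q : ℕ} {n : Mo B} (hn : n ∈ levo B (2 * q)) (h : ¬ ∃ k, eb n k ≠ 0)
    (k : Bk B) : Even (nb n k) := by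
  have hs : ∀ l : Fin B, Even (nb n (some l)) := by
    intro l
    have h0 : n (some (l, true)) = n (some (l, false)) := by
      by_contra hne
      apply h
      refine ⟨l, fun he => hne ?_⟩
      unfold eb at he
      exact_mod_cast sub_eq_zero.1 he
    exact ⟨n (some (l, true)), by simp only [nb]; omega⟩
  cases k with
  | some l => exact hs l
  | none =>
    have h1 := sum_nb hn
    rw [Fintype.sum_option] at h1
    have h2 : Even (∑ l : Fin B, nb n (some l)) := Finset.even_sum _ fun l _ => hs l
    have h3 : Even (nb n none + ∑ l : Fin B, nb n (some l)) := by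
      rw [h1]
      exact even_two_mul q
    exact (Nat.even_add.1 h3).2 h2

theorem neutral_even_j (Z : Finset (Fin B)) {q : ℕ} {n : Mo B} (hn : n ∈ levo B (2 * q))
    (h : ¬ ∃ k, eb n k ≠ 0) : Even (ja Z n) ∧ Even (lz Z n) :=
  ⟨Finset.even_sum _ fun k _ => neutral_even hn h k,
    Finset.even_sum _ fun k _ => neutral_even hn h k⟩

end Pool.Agent.H35.ODD
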