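import Mathlib
import Pool.Agent.H35.ODD.OMod
import Pool.Agent.H35.ISO.Nz

set_option autoImplicit false

/-!
# OAbs: the abstract scheme (model: `H35/ISO/Nz.lean`)

`ω(n) = dd q / ((2q+2)(2q+1)) mmo n` for `|n| = 2q + 2`.  For `|n| = 2q ≥ 2`:
`dd q mmo n = (2q-1)² ω(n)` (`dd_succ`) and `dd q mmo n = ω(n') wt n' k` for `n' = upo n k` (`mmo_upo`).
`hII` for the real and the imaginary parts of `F (upo n k)` (their sum over `k` is the real
(imaginary) part of `F n`): `dd q mmo n ∑_{j≠k} P2 Re(F(upo n j) conj F(upo n k)) ≤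
(2q-1)² ω(n) T n ‖F n‖² + ∑_k ω(n') wt n' k Du n' k ‖F n'‖²`; sum over `n` (`sum_upo`) and compare the
coefficients of `ω(n')‖F n'‖²`: `hI` (levels `≤ 2M`; for the top level `2M+2` also `hT`).
Level `0`: only `n = 0`, `h0` (`∑_k F (upo 0 k) = F 0 = 0`); `hDu` is used for `n = 0` too.
-/

open Pool.Agent.H89.CZ
open scoped ComplexConjugate

noncomputable section

namespace Pool.Agent.H35.ODD

variable {B : ℕ}

/-- `∑ mmo n T n ‖F n‖²` over the modes of degree `N` with property `p`. -/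
private def Ta (p : Mo B → Prop) [DecidablePred p] (T : Mo B → ℝ) (F : Mo B → ℂ) (N : ℕ) : ℝ :=
  ∑ n ∈ (levo B N).filter p, mmo n * T n * ‖F n‖ ^ 2

private def Ba (p : Mo B → Prop) [DecidablePred p] (P2 : Bk B → Bk B → ℝ) (F : Mo B → ℂ)
    (N : ℕ) : ℝ :=
  ∑ n ∈ (levo B N).filter p, mmo n *
    ∑ j, ∑ k ∈ Finset.univ.erase j, P2 j k * (F (upo n j) * conj (F (upo n k))).re

private def Da (p : Mo B → Prop) [DecidablePred p] (Du : Mo B → Bk B → ℝ) (F : Mo B → ℂ)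
    (N : ℕ) : ℝ :=
  ∑ n ∈ (levo B N).filter p, ∑ k, mmo n * wt n k * Du n k * ‖F n‖ ^ 2

private theorem Ta_nonneg (p : Mo B → Prop) [DecidablePred p] (T : Mo B → ℝ) (F : Mo B → ℂ)
    (N : ℕ) (hT : ∀ n, n ∈ levo B N → p n → 0 ≤ T n) : 0 ≤ Ta p T F N := by
  unfold Ta
  refine Finset.sum_nonneg fun n hn => ?_
  rw [Finset.mem_filter] at hn
  exact mul_nonneg (mul_nonneg (mmo_pos n).le (hT n hn.1 hn.2)) (sq_nonneg _)

/-- `hI` summed. -/
private theorem Aa_ge (p : Mo B → Prop) [DecidablePred p] (T C : Mo B → ℝ) (Du : Mo B → Bk B → ℝ)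
    (F : Mo B → ℂ) (N : ℕ) (a : ℝ)
    (h : ∀ n, n ∈ levo B N → p n → a * T n + ∑ k, wt n k * Du n k ≤ C n) :
    a * Ta p T F N + Da p Du F N ≤ Ta p C F N := by
  unfold Ta Da
  rw [Finset.mul_sum, ← Finset.sum_add_distrib]
  refine Finset.sum_le_sum fun n hn => ?_
  rw [Finset.mem_filter] at hn
  have hpos : 0 ≤ mmo n * ‖F n‖ ^ 2 := mul_nonneg (mmo_pos n).le (sq_nonneg _)
  have h2 := mul_le_mul_of_nonneg_left (h n hn.1 hn.2) hpos
  have h3 : ∑ k, mmo n * wt n k * Du n k * ‖F n‖ ^ 2 =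
      mmo n * ‖F n‖ ^ 2 * ∑ k, wt n k * Du n k := by
    rw [Finset.mul_sum]
    exact Finset.sum_congr rfl fun k _ => by ring
  rw [h3]
  nlinarith [h2]

/-- The shift of the level. -/
private theorem Da_shift (p : Mo B → Prop) [DecidablePred p] (hp : ∀ n k, p (upo n k) ↔ p n)
    (Dt Du : Mo B → Bk B → ℝ) (F : Mo B → ℂ) (N : ℕ)
    (hDu : ∀ n k, n ∈ levo B N → p n → Du (upo n k) k = Dt n k) :
    Da p Du F (N + 2) = (((N : ℝ) + 2) * (N + 1)) * ∑ n ∈ (levo B N).filter p, mmo n *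
      ∑ k, Dt n k * ‖F (upo n k)‖ ^ 2 := by
  have h1 := sum_upo N p hp (fun n k => mmo n * wt n k * Du n k * ‖F n‖ ^ 2) (by
    intro n k h
    simp only [h]
    ring)
  unfold Da
  rw [← h1, Finset.mul_sum]
  refine Finset.sum_congr rfl fun n hn => ?_
  rw [Finset.mem_filter] at hn
  rw [Finset.mul_sum, Finset.mul_sum]
  refine Finset.sum_congr rfl fun k _ => ?_
  rw [mmo_upo hn.1 k, hDu n k hn.1 hn.2]
  ring

/-- Real and imaginary parts. -/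
private theorem re_split (P2 : Bk B → Bk B → ℝ) (z : Bk B → ℂ) :
    ∑ j, ∑ k ∈ Finset.univ.erase j, P2 j k * (z j * conj (z k)).re =
      ∑ j, ∑ k ∈ Finset.univ.erase j, P2 j k * ((z j).re * (z k).re) +
      ∑ j, ∑ k ∈ Finset.univ.erase j, P2 j k * ((z j).im * (z k).im) := by
  rw [← Finset.sum_add_distrib]
  refine Finset.sum_congr rfl fun j _ => ?_
  rw [← Finset.sum_add_distrib]
  refine Finset.sum_congr rfl fun k _ => ?_
  rw [Complex.mul_re, Complex.conj_re, Complex.conj_im]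
  ring

/-- One mode. -/
private theorem mode_le (P2 : Bk B → Bk B → ℝ) (z : Bk B → ℂ) (t : ℝ) (D : Bk B → ℝ)
    (h : ∀ v : Bk B → ℝ, ∑ k, v k = (∑ k, z k).re ∨ ∑ k, v k = (∑ k, z k).im →
      ∑ j, ∑ k ∈ Finset.univ.erase j, P2 j k * (v j * v k) ≤
        t * (∑ k, v k) ^ 2 + ∑ k, D k * v k ^ 2) :
    ∑ j, ∑ k ∈ Finset.univ.erase j, P2 j k * (z j * conj (z k)).re ≤
      t * ‖∑ k, z k‖ ^ 2 + ∑ k, D k * ‖z k‖ ^ 2 := by
  have e1 : ∑ k, (z k).re = (∑ k, z k).re := (Complex.re_sum _ _).symm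
  have e2 : ∑ k, (z k).im = (∑ k, z k).im := (Complex.im_sum _ _).symm
  have h1 := h (fun k => (z k).re) (Or.inl e1)
  have h2 := h (fun k => (z k).im) (Or.inr e2)
  rw [re_split]
  refine (add_le_add h1 h2).trans (le_of_eq ?_)
  simp only [e1, e2]
  have h3 : ‖∑ k, z k‖ ^ 2 = (∑ k, z k).re ^ 2 + (∑ k, z k).im ^ 2 := by
    rw [Complex.sq_norm, Complex.normSq_apply]
    ring
  have h4 : ∑ k, D k * ‖z k‖ ^ 2 = ∑ k, D k * (z k).re ^ 2 + ∑ k, D k * (z k).im ^ 2 := by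
    rw [← Finset.sum_add_distrib]
    refine Finset.sum_congr rfl fun k _ => ?_
    rw [Complex.sq_norm, Complex.normSq_apply]
    ring
  rw [h3, h4]
  ring

/-- `hII` summed (`T` may vanish). -/
private theorem Ba_le (p : Mo B → Prop) [DecidablePred p] (hp : ∀ n k, p (upo n k) ↔ p n)
    (P2 : Bk B → Bk B → ℝ) (T : Mo B → ℝ) (Dt Du : Mo B → Bk B → ℝ) (F : Mo B → ℂ)
    (hF : ∀ n, F n = ∑ k, F (upo n k)) (N : ℕ)
    (hDu : ∀ n k, n ∈ levo B N → p n → Du (upo n k) k = Dt n k)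
    (h : ∀ n, n ∈ levo B N → p n → ∀ v : Bk B → ℝ,
      ∑ k, v k = (F n).re ∨ ∑ k, v k = (F n).im →
      ∑ j, ∑ k ∈ Finset.univ.erase j, P2 j k * (v j * v k) ≤
        T n * (∑ k, v k) ^ 2 + ∑ k, Dt n k * v k ^ 2) :
    Ba p P2 F N ≤ Ta p T F N + Da p Du F (N + 2) / (((N : ℝ) + 2) * (N + 1)) := by
  have hN : (0 : ℝ) < ((N : ℝ) + 2) * (N + 1) := by positivity
  rw [Da_shift p hp Dt Du F N hDu, mul_div_assoc, mul_comm, div_mul_cancel₀ _ hN.ne'] 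
  unfold Ba Ta
  rw [← Finset.sum_add_distrib]
  refine Finset.sum_le_sum fun n hn => ?_
  rw [Finset.mem_filter] at hn
  have h1 := mode_le P2 (fun k => F (upo n k)) (T n) (Dt n) (by
    intro v hv
    rw [← hF n] at hv
    exact h n hn.1 hn.2 v hv)
  rw [← hF n] at h1
  have h2 := mul_le_mul_of_nonneg_left h1 (mmo_pos n).le
  refine h2.trans (le_of_eq ?_)
  ring

private theorem abs_arith {m d d1 T1 T2 D2 A2 B2 S : ℝ} (hm : 0 ≤ m) (hd1 : 0 < d1)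
    (hds : d1 = d * ((2 * m + 1) / (2 * m + 2)))
    (h1 : (2 * (m + 1) + 1) ^ 2 * T2 + D2 ≤ A2)
    (h2 : B2 ≤ T1 + D2 / ((2 * (m + 1) + 2) * (2 * (m + 1) + 1)))
    (ih : d / ((2 * m + 2) * (2 * m + 1)) * ((2 * m + 1) ^ 2 * T1) ≤ S) :
    d1 / ((2 * (m + 1) + 2) * (2 * (m + 1) + 1)) * ((2 * (m + 1) + 1) ^ 2 * T2) ≤
      S + (d1 / ((2 * (m + 1) + 2) * (2 * (m + 1) + 1)) * A2 - d1 * B2) := by
  have hw : 0 ≤ d1 / ((2 * (m + 1) + 2) * (2 * (m + 1) + 1)) := by positivity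
  have k1 := mul_le_mul_of_nonneg_left h1 hw
  have k2 := mul_le_mul_of_nonneg_left h2 hd1.le
  have q2 : (2 * m + 1) ≠ 0 := by positivity
  have q3 : (2 * m + 2) ≠ 0 := by positivity
  have q7 : d1 * T1 = d / ((2 * m + 2) * (2 * m + 1)) * ((2 * m + 1) ^ 2 * T1) := by
    rw [hds]
    field_simp
  have q8 : d1 * (D2 / ((2 * (m + 1) + 2) * (2 * (m + 1) + 1))) =
      d1 / ((2 * (m + 1) + 2) * (2 * (m + 1) + 1)) * D2 := by ring
  rw [mul_add, q7, q8] at k2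
  rw [mul_add] at k1
  linarith

theorem abs_nonneg' (P2 : Bk B → Bk B → ℝ) (P1 : Fin B → ℝ) (X2 : Fin B → Fin B → ℝ) (M : ℕ)
    (F : Mo B → ℂ) (hF : ∀ n, F n = ∑ k, F (upo n k)) (p : Mo B → Prop) [DecidablePred p]
    (hp : ∀ n k, p (upo n k) ↔ p n) (T : Mo B → ℝ) (Dt Du : Mo B → Bk B → ℝ)
    (hDu : ∀ q n k, n ∈ levo B (2 * q) → p n → Du (upo n k) k = Dt n k)
    (hT : ∀ q n, n ∈ levo B (2 * q + 2) → p n → 0 ≤ T n)
    (hI : ∀ (q : ℕ) n, n ∈ levo B (2 * q + 2) → p n →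
      (2 * (q : ℝ) + 1) ^ 2 * T n + ∑ k, wt n k * Du n k ≤ cn P2 P1 X2 n)
    (hII : ∀ q n, n ∈ levo B (2 * q + 2) → p n → ∀ v : Bk B → ℝ,
      ∑ j, ∑ k ∈ Finset.univ.erase j, P2 j k * (v j * v k) ≤
        T n * (∑ k, v k) ^ 2 + ∑ k, Dt n k * v k ^ 2)
    (h0 : p 0 → F 0 = 0 ∧ ∀ v : Bk B → ℝ, ∑ k, v k = 0 →
      ∑ j, ∑ k ∈ Finset.univ.erase j, P2 j k * (v j * v k) ≤ ∑ k, Dt 0 k * v k ^ 2) :
    0 ≤ Qf P2 P1 X2 M F p := by
  have hA : ∀ q : ℕ, (2 * (q : ℝ) + 1) ^ 2 * Ta p T F (2 * q + 2) + Da p Du F (2 * q + 2) ≤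
      Ta p (cn P2 P1 X2) F (2 * q + 2) := fun q =>
    Aa_ge p T (cn P2 P1 X2) Du F (2 * q + 2) _ (hI q)
  have hB : ∀ q : ℕ, Ba p P2 F (2 * (q + 1)) ≤ Ta p T F (2 * q + 2) +
      Da p Du F (2 * (q + 1) + 2) / ((2 * ((q : ℝ) + 1) + 2) * (2 * ((q : ℝ) + 1) + 1)) := by
    intro q
    have h := Ba_le p hp P2 T Dt Du F hF (2 * (q + 1)) (fun n k hn hpn => hDu (q + 1) n k hn hpn)
      (fun n hn hpn v _ => hII q n hn hpn v)
    push_cast at h
    exact h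
  have hB0 : Ba p P2 F 0 ≤ Da p Du F 2 / 2 := by
    have h := Ba_le p hp P2 (fun _ => 0) Dt Du F hF 0 (fun n k hn hpn => hDu 0 n k hn hpn) (by
      intro n hn hpn v hv
      have hn0 : n = 0 := levo_zero hn
      subst hn0
      obtain ⟨hF0, hq⟩ := h0 hpn
      rw [hF0] at hv
      have hv0 : ∑ k, v k = 0 := by
        rcases hv with hv | hv
        · simpa using hv
        · simpa using hv
      simpa using hq v hv0)
    have h2 : Ta p (fun _ => 0) F 0 = 0 := by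
      unfold Ta
      refine Finset.sum_eq_zero fun n _ => ?_
      ring
    rw [h2] at h
    simpa using h
  have key : dd M / ((2 * M + 2) * (2 * M + 1)) * ((2 * (M : ℝ) + 1) ^ 2 * Ta p T F (2 * M + 2)) ≤
      Qf P2 P1 X2 M F p := by
    unfold Qf
    change _ ≤ ∑ q ∈ Finset.range (M + 1), (dd q / ((2 * q + 2) * (2 * q + 1)) *
      Ta p (cn P2 P1 X2) F (2 * q + 2) - dd q * Ba p P2 F (2 * q))
    induction M with
    | zero =>
      rw [Finset.sum_range_one]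
      have h1 := hA 0
      simp only [Nat.cast_zero, mul_zero, zero_add, one_pow, one_mul, mul_one] at h1 ⊢
      have h4 := dd_pos 0
      have h5 := mul_le_mul_of_nonneg_left h1 (show 0 ≤ dd 0 / 2 by positivity)
      have h6 := mul_le_mul_of_nonneg_left hB0 h4.le
      linarith
    | succ M ih =>
      rw [Finset.sum_range_succ]
      have h1 := hA (M + 1)
      have h2 := hB M
      push_cast at h1 h2 ih ⊢
      exact abs_arith (Nat.cast_nonneg M) (dd_pos (M + 1)) (dd_succ M) h1 h2 ih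
  have h1 : 0 ≤ dd M / ((2 * M + 2) * (2 * M + 1)) *
      ((2 * (M : ℝ) + 1) ^ 2 * Ta p T F (2 * M + 2)) := by
    have h2 := dd_pos M
    have h3 := Ta_nonneg p T F (2 * M + 2) (hT M)
    positivity
  exact h1.trans key

end Pool.Agent.H35.ODD
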