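import Mathlib

set_option autoImplicit false

/-!
# OPh: the mean of `1/(quadratic form)` over the circle

`A cos² + 2 b cos sin + D sin² = P + R cos(2θ - α)`, `P = (A+D)/2`, `P² - R² = AD - b²`; by periodicity the
integral is `∫_0^{2π} dθ/(P + R cos θ) = ∫ dθ / ((P+R) cos²(θ/2) + (P-R) sin²(θ/2))`; or directly: for `A, D > 0`
`F(θ) = (θ + arctan((r-1) sin θ cos θ/(cos² θ + r sin² θ)))/√(AD)`, `r = √(D/A)`, has derivative
`1/(A cos² + D sin²)`, and a phase shift removes `b`.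
-/

noncomputable section

namespace Pool.Agent.H35.ODD

private theorem form_pos {A b D : ℝ} (hA : 0 < A) (hD : 0 < A * D - b ^ 2) (c s : ℝ)
    (h : c ^ 2 + s ^ 2 = 1) : 0 < A * c ^ 2 + 2 * b * (c * s) + D * s ^ 2 := by
  have h1 : A * (A * c ^ 2 + 2 * b * (c * s) + D * s ^ 2) =
      (A * c + b * s) ^ 2 + (A * D - b ^ 2) * s ^ 2 := by ring
  have h2 : 0 < A * (A * c ^ 2 + 2 * b * (c * s) + D * s ^ 2) := by
    rw [h1]
    by_cases hs : s = 0
    · have hc : c ≠ 0 := by
        rintro rfl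
        rw [hs] at h
        norm_num at h
      have : 0 < (A * c + b * s) ^ 2 := by
        rw [hs, mul_zero, add_zero]
        positivity
      have := mul_nonneg hD.le (sq_nonneg s)
      linarith
    · have h3 : 0 < (A * D - b ^ 2) * s ^ 2 := by positivity
      have := sq_nonneg (A * c + b * s)
      linarith
  exact (mul_pos_iff_of_pos_left hA).1 h2

theorem phase_int {A b D : ℝ} (hA : 0 < A) (hD : 0 < A * D - b ^ 2) :
    ∫ θ in (0 : ℝ)..(2 * Real.pi), 1 / (A * Real.cos θ ^ 2 + 2 * b * (Real.cos θ * Real.sin θ) +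
      D * Real.sin θ ^ 2) = 2 * Real.pi / √(A * D - b ^ 2) := by
  set Δ : ℝ := √(A * D - b ^ 2) with hΔ
  have hΔ0 : 0 < Δ := Real.sqrt_pos.2 hD
  have hΔ2 : Δ ^ 2 = A * D - b ^ 2 := Real.sq_sqrt hD.le
  have hDp : 0 < D := by
    have h1 : 0 < A * D := by nlinarith [sq_nonneg b]
    exact (mul_pos_iff_of_pos_left hA).1 h1
  have hcs : ∀ θ : ℝ, Real.cos θ ^ 2 + Real.sin θ ^ 2 = 1 := fun θ => Real.cos_sq_add_sin_sq θ
  set Q : ℝ → ℝ := fun θ => A * Real.cos θ ^ 2 + 2 * b * (Real.cos θ * Real.sin θ) +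
      D * Real.sin θ ^ 2 with hQ
  have hQ0 : ∀ θ, 0 < Q θ := fun θ => form_pos hA hD _ _ (hcs θ)
  set u : ℝ → ℝ := fun θ => Δ * Real.cos θ ^ 2 + D * Real.sin θ ^ 2 +
      b * (Real.sin θ * Real.cos θ) with hu
  set v : ℝ → ℝ := fun θ => (D - Δ) * (Real.sin θ * Real.cos θ) + b * Real.cos θ ^ 2 with hv
  set u' : ℝ → ℝ := fun θ => 2 * (D - Δ) * (Real.sin θ * Real.cos θ) +
      b * (Real.cos θ ^ 2 - Real.sin θ ^ 2) with hu'
  set v' : ℝ → ℝ := fun θ => (D - Δ) * (Real.cos θ ^ 2 - Real.sin θ ^ 2) -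
      2 * b * (Real.sin θ * Real.cos θ) with hv'
  have hdu : ∀ θ, HasDerivAt u (u' θ) θ := by
    intro θ
    have hs := Real.hasDerivAt_sin θ
    have hc := Real.hasDerivAt_cos θ
    refine ((((hc.fun_pow 2).const_mul Δ).fun_add ((hs.fun_pow 2).const_mul D)).fun_add
      ((hs.fun_mul hc).const_mul b)).congr_deriv ?_
    simp only [hu']
    ring
  have hdv : ∀ θ, HasDerivAt v (v' θ) θ := by
    intro θ
    have hs := Real.hasDerivAt_sin θ
    have hc := Real.hasDerivAt_cos θ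
    refine (((hs.fun_mul hc).const_mul (D - Δ)).fun_add ((hc.fun_pow 2).const_mul b)).congr_deriv ?_
    simp only [hv']
    ring
  have hw2 : ∀ θ, u θ ^ 2 + v θ ^ 2 = D * Q θ := by
    intro θ
    simp only [hu, hv, hQ]
    linear_combination (Real.cos θ ^ 2 * (Real.cos θ ^ 2 + Real.sin θ ^ 2)) * hΔ2 +
      D * (A * Real.cos θ ^ 2 + 2 * b * (Real.cos θ * Real.sin θ) + D * Real.sin θ ^ 2) * hcs θ
  have hw3 : ∀ θ, v' θ * u θ - u' θ * v θ = Δ * D - D * Q θ := by
    intro θ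
    simp only [hu, hv, hQ, hu', hv']
    linear_combination (-(Real.cos θ ^ 2 * (Real.cos θ ^ 2 + Real.sin θ ^ 2))) * hΔ2 +
      (Δ * D * (Real.cos θ ^ 2 + Real.sin θ ^ 2 + 1) - D * (A * Real.cos θ ^ 2 +
        2 * b * (Real.cos θ * Real.sin θ) + D * Real.sin θ ^ 2)) * hcs θ
  have hslit : ∀ θ, ((u θ : ℂ) + (v θ : ℂ) * Complex.I) ∈ Complex.slitPlane := by
    intro θ
    rw [Complex.mem_slitPlane_iff]
    by_cases h0 : v θ = 0
    · left
      have h1 : ((u θ : ℂ) + (v θ : ℂ) * Complex.I).re = u θ := by simp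
      rw [h1]
      have h2 : Real.cos θ * ((D - Δ) * Real.sin θ + b * Real.cos θ) = 0 := by
        rw [← h0]
        simp only [hv]
        ring
      rcases mul_eq_zero.1 h2 with h3 | h3
      · have h4 : u θ = D := by
          have h5 := hcs θ
          simp only [hu]
          rw [h3] at h5 ⊢
          linear_combination D * h5
        rw [h4]
        exact hDp
      · have h4 : u θ = Δ := by
          have h5 := hcs θ
          simp only [hu]
          linear_combination Δ * h5 + Real.sin θ * h3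
        rw [h4]
        exact hΔ0
    · right
      simpa using h0
  set F : ℝ → ℝ := fun θ => (θ + (Complex.log ((u θ : ℂ) + (v θ : ℂ) * Complex.I)).im) / Δ with hF
  have hdF : ∀ θ, HasDerivAt F (1 / Q θ) θ := by
    intro θ
    have h1 : HasDerivAt (fun θ => (u θ : ℂ) + (v θ : ℂ) * Complex.I)
        ((u' θ : ℂ) + (v' θ : ℂ) * Complex.I) θ :=
      (hdu θ).ofReal_comp.fun_add ((hdv θ).ofReal_comp.mul_const Complex.I)
    have h2 := h1.clog_real (hslit θ)
    have h3 : HasDerivAt (fun θ => (Complex.log ((u θ : ℂ) + (v θ : ℂ) * Complex.I)).im)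
        (((u' θ : ℂ) + (v' θ : ℂ) * Complex.I) / ((u θ : ℂ) + (v θ : ℂ) * Complex.I)).im θ :=
      Complex.imCLM.hasFDerivAt.comp_hasDerivAt θ h2
    refine (((hasDerivAt_id' θ).fun_add h3).div_const Δ).congr_deriv ?_
    have h4 : (((u' θ : ℂ) + (v' θ : ℂ) * Complex.I) /
        ((u θ : ℂ) + (v θ : ℂ) * Complex.I)).im =
        (v' θ * u θ - u' θ * v θ) / (u θ ^ 2 + v θ ^ 2) := by
      rw [Complex.div_im, Complex.normSq_apply]
      simp
      ring
    rw [h4, hw3, hw2]
    have h5 := (hQ0 θ).ne'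
    field_simp
    ring
  have hcont : Continuous fun θ => 1 / Q θ := by
    refine Continuous.div continuous_const ?_ fun θ => (hQ0 θ).ne'
    simp only [hQ]
    fun_prop
  have h1 := intervalIntegral.integral_eq_sub_of_hasDerivAt (a := 0) (b := 2 * Real.pi)
    (fun θ _ => hdF θ) (hcont.intervalIntegrable _ _)
  rw [h1]
  simp only [hF, hu, hv, Real.sin_two_pi, Real.cos_two_pi, Real.sin_zero, Real.cos_zero]
  ring

end Pool.Agent.H35.ODD
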