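import Mathlib
import Pool.Agent.H35.ODD.Defs
import Pool.Agent.H35.ODD.OPh
import Pool.Agent.H35.NI.Lin

set_option autoImplicit false

/-!
# OMnA: the phase trick

`z = φ v`, `A = sC + aR`, `D = sC + dR`, `b = bR`: `h1 + h2 = A D - b²`, `h1, h2 ≥ 0` (`b² ≤ a d`),
`0 ≤ Q ≤ h1 + h2 ≤ A D ≤ A` for a unit vector (`D ≤ 1`), so `0 ≤ Q/A ≤ 1`.  For `z_θ = e^(iθ) z`:
`Q z_θ = Q z` (`sC`, `aR + dR`, `aR dR - bR²` are invariant), `(sC + aR) z_θ = A cos² θ - 2 b cos θ sin θ + D sin² θ`,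
so `(1/2π) ∫ Q z_θ/(sC + aR) z_θ dθ = Q z/√(h1 + h2)` (`phase_int`; if `h1 + h2 = 0` both sides are `0`).
Invariance of the Haar measure under `φ ↦ e^(iθ) φ` (`e^(iθ) 1 ∈ U(N)`), Fubini (bounded, measurable).
-/

open MeasureTheory Pool.Agent.H61.UProj Pool.Agent.H89.CZ Pool.Agent.H35.NI

noncomputable section

namespace Pool.Agent.H35.ODD

variable {N : ℕ}

private theorem OMnA_s0 (k : ℕ) (z : Cn N) : 0 ≤ sC k z := by
  unfold sC
  refine Finset.sum_nonneg fun l _ => ?_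
  split_ifs <;> positivity

private theorem OMnA_a0 (k M : ℕ) (z : Cn N) : 0 ≤ aR k M z := by
  unfold aR
  refine Finset.sum_nonneg fun l _ => ?_
  split_ifs <;> positivity

private theorem OMnA_d0 (k M : ℕ) (z : Cn N) : 0 ≤ dR k M z := by
  unfold dR
  refine Finset.sum_nonneg fun l _ => ?_
  split_ifs <;> positivity

private theorem OMnA_cs (k M : ℕ) (z : Cn N) : bR k M z ^ 2 ≤ aR k M z * dR k M z := by
  have h := Finset.sum_mul_sq_le_sq_mul_sq Finset.univ
    (fun l : Fin N => if k ≤ (l : ℕ) ∧ (l : ℕ) < k + M then (z l).re else 0)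
    (fun l : Fin N => if k ≤ (l : ℕ) ∧ (l : ℕ) < k + M then (z l).im else 0)
  have e1 : bR k M z = ∑ l : Fin N,
      (if k ≤ (l : ℕ) ∧ (l : ℕ) < k + M then (z l).re else 0) *
        (if k ≤ (l : ℕ) ∧ (l : ℕ) < k + M then (z l).im else 0) := by
    unfold bR
    refine Finset.sum_congr rfl fun l _ => ?_
    split_ifs <;> simp
  have e2 : aR k M z = ∑ l : Fin N,
      (if k ≤ (l : ℕ) ∧ (l : ℕ) < k + M then (z l).re else 0) ^ 2 := by
    unfold aR
    refine Finset.sum_congr rfl fun l _ => ?_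
    split_ifs <;> simp
  have e3 : dR k M z = ∑ l : Fin N,
      (if k ≤ (l : ℕ) ∧ (l : ℕ) < k + M then (z l).im else 0) ^ 2 := by
    unfold dR
    refine Finset.sum_congr rfl fun l _ => ?_
    split_ifs <;> simp
  rw [e1, e2, e3]
  exact h

private theorem OMnA_sum (k M : ℕ) (z : Cn N) : h1 k M z + h2 k M z =
    (sC k z + aR k M z) * (sC k z + dR k M z) - bR k M z ^ 2 := by
  unfold h1 h2
  ring

theorem h1_nonneg (k M : ℕ) (z : Cn N) : 0 ≤ h1 k M z := by
  have h1 := OMnA_s0 k z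
  have h2 := OMnA_a0 k M z
  have h3 := OMnA_d0 k M z
  unfold Pool.Agent.H35.ODD.h1
  positivity

theorem h2_nonneg (k M : ℕ) (z : Cn N) : 0 ≤ h2 k M z := by
  have h := OMnA_cs k M z
  unfold h2
  linarith

private theorem OMnA_D1 {k M : ℕ} {z : Cn N} (hz : ‖z‖ = 1) : sC k z + dR k M z ≤ 1 := by
  have h := EuclideanSpace.norm_sq_eq z
  rw [hz, one_pow] at h
  rw [h]
  unfold sC dR
  rw [← Finset.sum_add_distrib]
  refine Finset.sum_le_sum fun l _ => ?_
  have h2 : (z l).im ^ 2 ≤ ‖z l‖ ^ 2 := by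
    rw [Complex.sq_norm, Complex.normSq_apply]
    nlinarith [mul_self_nonneg (z l).re]
  split_ifs with a b b
  · omega
  · linarith
  · linarith
  · simp

theorem h12_le {k M : ℕ} {z : Cn N} (hz : ‖z‖ = 1) : h1 k M z + h2 k M z ≤ sC k z + aR k M z := by
  rw [OMnA_sum]
  have h1 := OMnA_s0 k z
  have h2 := OMnA_a0 k M z
  have h3 := OMnA_D1 (k := k) (M := M) hz
  have h4 : (sC k z + aR k M z) * (sC k z + dR k M z) ≤ (sC k z + aR k M z) * 1 :=
    mul_le_mul_of_nonneg_left h3 (by linarith)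
  nlinarith [sq_nonneg (bR k M z)]

private theorem OMnA_cz (l : Fin N) : Continuous (fun z : Cn N => z l) := by
  fun_prop

private theorem OMnA_sc (k : ℕ) : Continuous (fun z : Cn N => sC k z) := by
  unfold sC
  refine continuous_finsetSum _ fun l _ => ?_
  split_ifs
  · exact ((OMnA_cz l).norm).pow 2
  · exact continuous_const

private theorem OMnA_ac (k M : ℕ) : Continuous (fun z : Cn N => aR k M z) := by
  unfold aR
  refine continuous_finsetSum _ fun l _ => ?_
  split_ifs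
  · exact (Complex.continuous_re.comp (OMnA_cz l)).pow 2
  · exact continuous_const

private theorem OMnA_dc (k M : ℕ) : Continuous (fun z : Cn N => dR k M z) := by
  unfold dR
  refine continuous_finsetSum _ fun l _ => ?_
  split_ifs
  · exact (Complex.continuous_im.comp (OMnA_cz l)).pow 2
  · exact continuous_const

private theorem OMnA_bc (k M : ℕ) : Continuous (fun z : Cn N => bR k M z) := by
  unfold bR
  refine continuous_finsetSum _ fun l _ => ?_
  split_ifs
  · exact (Complex.continuous_re.comp (OMnA_cz l)).mul (Complex.continuous_im.comp (OMnA_cz l))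
  · exact continuous_const

theorem h_cont (k M : ℕ) : Continuous (fun z : Cn N => h1 k M z) ∧
    Continuous (fun z : Cn N => h2 k M z) ∧ Continuous (fun z : Cn N => sC k z + aR k M z) := by
  refine ⟨?_, ?_, (OMnA_sc k).add (OMnA_ac k M)⟩
  · unfold h1
    exact ((OMnA_sc k).pow 2).add ((OMnA_sc k).mul ((OMnA_ac k M).add (OMnA_dc k M)))
  · unfold h2
    exact ((OMnA_ac k M).mul (OMnA_dc k M)).sub ((OMnA_bc k M).pow 2)

/-! ### Rotation -/

/-- the phase -/
private def OMnA_ph (θ : ℝ) : ℂ := ⟨Real.cos θ, Real.sin θ⟩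

private theorem OMnA_phn (θ : ℝ) : ‖OMnA_ph θ‖ = 1 := by
  have h : ‖OMnA_ph θ‖ ^ 2 = 1 := by
    rw [Complex.sq_norm, Complex.normSq_apply]
    unfold OMnA_ph
    have := Real.cos_sq_add_sin_sq θ
    simp only
    nlinarith
  nlinarith [norm_nonneg (OMnA_ph θ)]

private theorem OMnA_phc : Continuous OMnA_ph := by
  have h : OMnA_ph = fun θ => ((Real.cos θ : ℝ) : ℂ) + ((Real.sin θ : ℝ) : ℂ) * Complex.I := by
    funext θ
    unfold OMnA_ph
    apply Complex.ext <;> simp [-Complex.ofReal_cos, -Complex.ofReal_sin]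
  rw [h]
  fun_prop

private theorem OMnA_re (θ : ℝ) (z : Cn N) (l : Fin N) :
    ((OMnA_ph θ • z) l).re = Real.cos θ * (z l).re - Real.sin θ * (z l).im := by
  simp [OMnA_ph, Complex.mul_re]

private theorem OMnA_im (θ : ℝ) (z : Cn N) (l : Fin N) :
    ((OMnA_ph θ • z) l).im = Real.cos θ * (z l).im + Real.sin θ * (z l).re := by
  simp [OMnA_ph, Complex.mul_im]

private theorem OMnA_sr (k : ℕ) (θ : ℝ) (z : Cn N) : sC k (OMnA_ph θ • z) = sC k z := by
  unfold sC
  refine Finset.sum_congr rfl fun l _ => ?_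
  have h : ‖(OMnA_ph θ • z) l‖ = ‖z l‖ := by
    rw [PiLp.smul_apply, smul_eq_mul, norm_mul, OMnA_phn, one_mul]
  rw [h]

private theorem OMnA_ar (k M : ℕ) (θ : ℝ) (z : Cn N) : aR k M (OMnA_ph θ • z) =
    Real.cos θ ^ 2 * aR k M z - 2 * (Real.cos θ * Real.sin θ) * bR k M z +
      Real.sin θ ^ 2 * dR k M z := by
  unfold aR bR dR
  rw [Finset.mul_sum, Finset.mul_sum, Finset.mul_sum, ← Finset.sum_sub_distrib,
    ← Finset.sum_add_distrib]
  refine Finset.sum_congr rfl fun l _ => ?_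
  rw [OMnA_re]
  split_ifs
  · ring
  · ring

private theorem OMnA_dr (k M : ℕ) (θ : ℝ) (z : Cn N) : dR k M (OMnA_ph θ • z) =
    Real.sin θ ^ 2 * aR k M z + 2 * (Real.cos θ * Real.sin θ) * bR k M z +
      Real.cos θ ^ 2 * dR k M z := by
  unfold aR bR dR
  rw [Finset.mul_sum, Finset.mul_sum, Finset.mul_sum, ← Finset.sum_add_distrib,
    ← Finset.sum_add_distrib]
  refine Finset.sum_congr rfl fun l _ => ?_
  rw [OMnA_im]
  split_ifs
  · ring
  · ring

private theorem OMnA_br (k M : ℕ) (θ : ℝ) (z : Cn N) : bR k M (OMnA_ph θ • z) =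
    Real.cos θ * Real.sin θ * aR k M z + (Real.cos θ ^ 2 - Real.sin θ ^ 2) * bR k M z -
      Real.cos θ * Real.sin θ * dR k M z := by
  unfold aR bR dR
  rw [Finset.mul_sum, Finset.mul_sum, Finset.mul_sum, ← Finset.sum_add_distrib,
    ← Finset.sum_sub_distrib]
  refine Finset.sum_congr rfl fun l _ => ?_
  rw [OMnA_im, OMnA_re]
  split_ifs
  · ring
  · ring

private theorem OMnA_h1r (k M : ℕ) (θ : ℝ) (z : Cn N) : h1 k M (OMnA_ph θ • z) = h1 k M z := by
  have hc : Real.cos θ ^ 2 = 1 - Real.sin θ ^ 2 := by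
    have := Real.cos_sq_add_sin_sq θ
    linarith
  unfold h1
  rw [OMnA_sr, OMnA_ar, OMnA_dr, hc]
  ring

private theorem OMnA_h2r (k M : ℕ) (θ : ℝ) (z : Cn N) : h2 k M (OMnA_ph θ • z) = h2 k M z := by
  have hc := Real.cos_sq_add_sin_sq θ
  unfold h2
  rw [OMnA_br, OMnA_ar, OMnA_dr]
  set c := Real.cos θ
  set s := Real.sin θ
  have h1 : (c ^ 2 * aR k M z - 2 * (c * s) * bR k M z + s ^ 2 * dR k M z) *
      (s ^ 2 * aR k M z + 2 * (c * s) * bR k M z + c ^ 2 * dR k M z) -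
      (c * s * aR k M z + (c ^ 2 - s ^ 2) * bR k M z - c * s * dR k M z) ^ 2 =
      (c ^ 2 + s ^ 2) ^ 2 * (aR k M z * dR k M z - bR k M z ^ 2) := by
    ring
  rw [h1, hc]
  ring

/-- the integral over the phase -/
private theorem OMnA_in (k M : ℕ) (z : Cn N) {q : ℝ} (hq : 0 ≤ q)
    (hq2 : q ≤ h1 k M z + h2 k M z) :
    ∫ θ in (0 : ℝ)..(2 * Real.pi), q / (sC k (OMnA_ph θ • z) + aR k M (OMnA_ph θ • z)) =
      2 * Real.pi * (q / √(h1 k M z + h2 k M z)) := by
  rcases eq_or_lt_of_le (hq.trans hq2) with h0 | h0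
  · have h1 : q = 0 := le_antisymm (by rw [h0]; exact hq2) hq
    rw [h1]
    simp
  · rw [OMnA_sum] at h0 ⊢
    have h2 := OMnA_s0 k z
    have h3 := OMnA_a0 k M z
    have h4 : 0 < sC k z + aR k M z := by
      rcases eq_or_lt_of_le (add_nonneg h2 h3) with h5 | h5
      · rw [← h5] at h0
        nlinarith [sq_nonneg (bR k M z)]
      · exact h5
    have h6 := phase_int (A := sC k z + aR k M z) (b := -bR k M z) (D := sC k z + dR k M z) h4
      (by rw [neg_sq]; exact h0)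
    rw [neg_sq] at h6
    have h7 : ∀ θ : ℝ, q / (sC k (OMnA_ph θ • z) + aR k M (OMnA_ph θ • z)) =
        q * (1 / ((sC k z + aR k M z) * Real.cos θ ^ 2 +
          2 * (-bR k M z) * (Real.cos θ * Real.sin θ) +
          (sC k z + dR k M z) * Real.sin θ ^ 2)) := by
      intro θ
      rw [mul_one_div]
      congr 1
      rw [OMnA_sr, OMnA_ar]
      have := Real.cos_sq_add_sin_sq θ
      linear_combination (-sC k z) * this
    simp_rw [h7]
    rw [intervalIntegral.integral_const_mul, h6]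
    ring

private theorem OMnA_gen (k M : ℕ) {v : Cn N} (hv : ‖v‖ = 1) (Q : Cn N → ℝ)
    (hQc : Continuous Q) (hQ0 : ∀ z, 0 ≤ Q z) (hQ1 : ∀ z, Q z ≤ h1 k M z + h2 k M z)
    (hQr : ∀ θ z, Q (OMnA_ph θ • z) = Q z) :
    ∫ φ, Q (uni φ v) / √(h1 k M (uni φ v) + h2 k M (uni φ v)) ∂(haarU N) =
      ∫ φ, Q (uni φ v) / (sC k (uni φ v) + aR k M (uni φ v)) ∂(haarU N) := by
  set G : Cn N → ℝ := fun z => Q z / (sC k z + aR k M z) with hG
  have hGm : Measurable G := hQc.measurable.div (h_cont k M).2.2.measurable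
  have hGb : ∀ z : Cn N, ‖z‖ = 1 → ‖G z‖ ≤ 1 := by
    intro z hz
    have e1 : 0 ≤ sC k z + aR k M z := add_nonneg (OMnA_s0 k z) (OMnA_a0 k M z)
    have e2 : Q z ≤ sC k z + aR k M z := (hQ1 z).trans (h12_le hz)
    rw [hG, Real.norm_of_nonneg (div_nonneg (hQ0 z) e1)]
    exact div_le_one_of_le₀ e2 e1
  -- invariance
  have hinv : ∀ θ : ℝ, ∫ φ, G (OMnA_ph θ • uni φ v) ∂(haarU N) = ∫ φ, G (uni φ v) ∂(haarU N) := by
    intro θ
    obtain ⟨ψ, hψ⟩ := exists_uni_eq v (OMnA_ph θ • v) (by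
      rw [norm_smul, OMnA_phn, one_mul])
    have h := integral_mulRight (fun φ => G (uni φ v)) ψ
    rw [← h]
    refine integral_congr_ae (Filter.Eventually.of_forall fun φ => ?_)
    simp only
    rw [uni_mul, hψ, uni_csmul]
  have hcont : Continuous (fun p : ℝ × Un N => OMnA_ph p.1 • uni p.2 v) := by
    exact (OMnA_phc.comp continuous_fst).smul ((continuous_uni v).comp continuous_snd)
  have hint : Integrable (Function.uncurry fun (θ : ℝ) (φ : Un N) => G (OMnA_ph θ • uni φ v))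
      ((volume.restrict (Set.Ioc 0 (2 * Real.pi))).prod (haarU N)) := by
    refine Integrable.of_bound (C := 1) ?_ ?_
    · exact (hGm.comp hcont.measurable).aestronglyMeasurable
    · refine Filter.Eventually.of_forall fun p => ?_
      simp only [Function.uncurry]
      refine hGb _ ?_
      rw [norm_smul, OMnA_phn, one_mul, LinearIsometry.norm_map, hv]
  have hswap := integral_integral_swap hint
  have hl : ∫ θ in Set.Ioc 0 (2 * Real.pi), ∫ φ, G (OMnA_ph θ • uni φ v) ∂(haarU N) =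
      2 * Real.pi * ∫ φ, G (uni φ v) ∂(haarU N) := by
    simp_rw [hinv]
    rw [integral_const]
    simp [Real.pi_pos.le]
  have hr : ∀ φ : Un N, ∫ θ in Set.Ioc 0 (2 * Real.pi), G (OMnA_ph θ • uni φ v) =
      2 * Real.pi * (Q (uni φ v) / √(h1 k M (uni φ v) + h2 k M (uni φ v))) := by
    intro φ
    rw [← OMnA_in k M (uni φ v) (hQ0 _) (hQ1 _),
      intervalIntegral.integral_of_le (by positivity)]
    simp only [hG, hQr]
  rw [hl] at hswap
  simp_rw [hr] at hswap
  rw [integral_const_mul] at hswap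
  have hpi : (2 * Real.pi : ℝ) ≠ 0 := by positivity
  exact (mul_left_cancel₀ hpi hswap).symm

theorem mean_phase1 (k M : ℕ) {v : Cn N} (hv : ‖v‖ = 1) :
    ∫ φ, h1 k M (uni φ v) / √(h1 k M (uni φ v) + h2 k M (uni φ v)) ∂(haarU N) =
      ∫ φ, h1 k M (uni φ v) / (sC k (uni φ v) + aR k M (uni φ v)) ∂(haarU N) :=
  OMnA_gen k M hv (fun z => h1 k M z) (h_cont k M).1 (fun z => h1_nonneg k M z)
    (fun z => by have := h2_nonneg k M z; linarith) (fun θ z => OMnA_h1r k M θ z)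

theorem mean_phase2 (k M : ℕ) {v : Cn N} (hv : ‖v‖ = 1) :
    ∫ φ, h2 k M (uni φ v) / √(h1 k M (uni φ v) + h2 k M (uni φ v)) ∂(haarU N) =
      ∫ φ, h2 k M (uni φ v) / (sC k (uni φ v) + aR k M (uni φ v)) ∂(haarU N) :=
  OMnA_gen k M hv (fun z => h2 k M z) (h_cont k M).2.1 (fun z => h2_nonneg k M z)
    (fun z => by have := h1_nonneg k M z; linarith) (fun θ z => OMnA_h2r k M θ z)

end Pool.Agent.H35.ODD
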