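import Mathlib
import Pool.Agent.H35.ODD.Defs
import Pool.Agent.H35.NI.Lin
import Pool.Agent.H35.NI.Rot
import Pool.Agent.H89.CZ.TBall

set_option autoImplicit false

/-!
# OSph: the orbit measure of a unit vector under `U(n)` is the uniform measure of the sphere

`g v = ∫ h (φ v) dφ` does not depend on the unit vector `v` (`U(n)` is transitive on the unit sphere:
`uni_of_gram` for one vector; right invariance `integral_mulRight`).  `sph_inv`: let `O` be the real
orthogonal group of `ℂⁿ = ℝ^{2n}` with its Haar probability measure `μ` (see the private `Rot_On`, `Rot_mu`,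
`Rot_mat`, `Rot_rb` in `NI/Rot`; copy what is needed), `H(φ, o) = h (φ (o v))`, bounded and measurable:
`∫_φ h (φ v) = ∫_o ∫_φ h (φ (o v)) = ∫_φ ∫_o h (φ o v) = ∫_o h (o v)` (left invariance of `μ`), which is invariant
under `h ↦ h ∘ T`.  Or: Lebesgue measure of the unit ball and `h' z = h (z/|z|)`.
`sph_null`: `p = μ {z : ⟨z, w⟩ = 0}` does not depend on the unit vector `w` (`sph_inv` with a rotation), and for `K`
vectors `w_i`, any `2n` of them linearly independent (moment curve), `∑_i 1[⟨z, w_i⟩ = 0] ≤ 2n - 1` for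
`z ≠ 0`, so `K p ≤ 2n - 1` for all `K`; or by the ball measure: a hyperplane is null.
-/

open MeasureTheory Pool.Agent.H61.UProj Pool.Agent.H89.CZ Pool.Agent.H35.NI

noncomputable section

namespace Pool.Agent.H35.ODD

variable {n : ℕ}

/-- change of variables by a real isometry -/
private theorem OSph_iso (T : Cn n ≃ₗᵢ[ℝ] Cn n) (f : Cn n → ℝ) :
    ∫ q in Metric.closedBall (0 : Cn n) 1, f (T q) =
      ∫ q in Metric.closedBall (0 : Cn n) 1, f q := by
  have h1 := T.measurePreserving.setIntegral_preimage_emb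
    T.toHomeomorph.measurableEmbedding f (Metric.closedBall (0 : Cn n) 1)
  have h2 : (T : Cn n → Cn n) ⁻¹' Metric.closedBall (0 : Cn n) 1 =
      Metric.closedBall (0 : Cn n) 1 := by
    ext q
    simp
  rw [h2] at h1
  exact h1

private theorem OSph_const (h : Cn n → ℝ) {v v' : Cn n} (hv : ‖v‖ = 1) (hv' : ‖v'‖ = 1) :
    ∫ φ, h (uni φ v') ∂(haarU n) = ∫ φ, h (uni φ v) ∂(haarU n) := by
  obtain ⟨ψ, hψ⟩ := exists_uni_eq v v' (by rw [hv, hv'])
  have h1 : ∀ φ : Un n, h (uni φ v') = h (uni (φ * ψ) v) := by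
    intro φ
    rw [uni_mul, hψ]
  simp_rw [h1]
  exact integral_mulRight (fun φ => h (uni φ v)) ψ

private theorem OSph_ball_pos : 0 < (volume : Measure (Cn n)).real (Metric.closedBall 0 1) := by
  rw [Measure.real, ENNReal.toReal_pos_iff]
  exact ⟨Metric.measure_closedBall_pos _ _ one_pos, measure_closedBall_lt_top⟩

private theorem OSph_sub {S : Submodule ℝ (Cn n)} (hS : S ≠ ⊤) :
    ∀ᵐ q ∂(volume.restrict (Metric.closedBall (0 : Cn n) 1)), q ∉ S := by
  refine ae_restrict_of_ae ?_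
  rw [ae_iff]
  have h1 := Measure.addHaar_submodule (volume : Measure (Cn n)) S hS
  convert h1 using 2
  ext q
  simp

private theorem OSph_norm {q : Cn n} (hq : q ≠ 0) : ‖(‖q‖⁻¹ : ℝ) • q‖ = 1 := by
  rw [norm_smul, norm_inv, norm_norm]
  exact inv_mul_cancel₀ (norm_ne_zero_iff.2 hq)

private theorem OSph_avg (h : Cn n → ℝ) (hm : Measurable h) {C : ℝ}
    (hb : ∀ z, ‖z‖ = 1 → |h z| ≤ C) {v : Cn n} (hv : ‖v‖ = 1) :
    (volume : Measure (Cn n)).real (Metric.closedBall 0 1) * ∫ φ, h (uni φ v) ∂(haarU n) =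
      ∫ q in Metric.closedBall (0 : Cn n) 1, h ((‖q‖⁻¹ : ℝ) • q) := by
  have hfin : IsFiniteMeasure ((volume : Measure (Cn n)).restrict (Metric.closedBall 0 1)) :=
    ⟨by rw [Measure.restrict_apply_univ]; exact measure_closedBall_lt_top⟩
  have hv0 : v ≠ 0 := by
    intro h0
    rw [h0, norm_zero] at hv
    exact zero_ne_one hv
  have hbot : (⊥ : Submodule ℝ (Cn n)) ≠ ⊤ := by
    intro hbt
    apply hv0
    have h1 : v ∈ (⊤ : Submodule ℝ (Cn n)) := Submodule.mem_top
    rw [← hbt] at h1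
    exact (Submodule.mem_bot ℝ).1 h1
  have hmq : Measurable (fun q : Cn n => (‖q‖⁻¹ : ℝ) • q) :=
    measurable_norm.inv.smul measurable_id
  have hmf : Measurable (Function.uncurry
      (fun (q : Cn n) (φ : Un n) => h (uni φ ((‖q‖⁻¹ : ℝ) • q)))) := by
    have h1 : Measurable (fun x : Cn n × Un n => ((x.2, (‖x.1‖⁻¹ : ℝ) • x.1) : Un n × Cn n)) :=
      measurable_snd.prodMk (hmq.comp measurable_fst)
    have h2 : Measurable (fun x : Un n × Cn n => uni x.1 x.2) := continuous_uni2.measurable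
    have h3 : Measurable (fun x : Cn n × Un n => uni x.2 ((‖x.1‖⁻¹ : ℝ) • x.1)) :=
      Measurable.comp (g := fun x : Un n × Cn n => uni x.1 x.2)
        (f := fun x : Cn n × Un n => ((x.2, (‖x.1‖⁻¹ : ℝ) • x.1) : Un n × Cn n)) h2 h1
    exact Measurable.comp (g := h)
      (f := fun x : Cn n × Un n => uni x.2 ((‖x.1‖⁻¹ : ℝ) • x.1)) hm h3
  have hint : Integrable (Function.uncurry
      (fun (q : Cn n) (φ : Un n) => h (uni φ ((‖q‖⁻¹ : ℝ) • q))))
      ((volume.restrict (Metric.closedBall (0 : Cn n) 1)).prod (haarU n)) := by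
    refine Integrable.of_bound hmf.aestronglyMeasurable (max C |h 0|)
      (Filter.Eventually.of_forall ?_)
    rintro ⟨q, φ⟩
    simp only [Function.uncurry_apply_pair, Real.norm_eq_abs]
    by_cases hq : q = 0
    · subst hq
      rw [smul_zero, map_zero]
      exact le_max_right _ _
    · refine (hb _ ?_).trans (le_max_left _ _)
      rw [LinearIsometry.norm_map, OSph_norm hq]
  have hswap := integral_integral_swap hint
  have hL : ∫ q in Metric.closedBall (0 : Cn n) 1,
      (∫ φ, h (uni φ ((‖q‖⁻¹ : ℝ) • q)) ∂(haarU n)) =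
      (volume : Measure (Cn n)).real (Metric.closedBall 0 1) *
        ∫ φ, h (uni φ v) ∂(haarU n) := by
    rw [← smul_eq_mul, ← setIntegral_const]
    refine integral_congr_ae ?_
    filter_upwards [OSph_sub hbot] with q hq
    have hq0 : q ≠ 0 := fun h0 => hq ((Submodule.mem_bot ℝ).2 h0)
    exact OSph_const h hv (OSph_norm hq0)
  have hR : ∀ φ : Un n, ∫ q in Metric.closedBall (0 : Cn n) 1, h (uni φ ((‖q‖⁻¹ : ℝ) • q)) =
      ∫ q in Metric.closedBall (0 : Cn n) 1, h ((‖q‖⁻¹ : ℝ) • q) := by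
    intro φ
    rw [← ball_uni φ (fun q => h ((‖q‖⁻¹ : ℝ) • q))]
    refine integral_congr_ae (Filter.Eventually.of_forall fun q => ?_)
    simp only
    rw [LinearIsometry.norm_map, LinearIsometry.map_smul]
  rw [← hL]
  refine hswap.trans ?_
  simp_rw [hR]
  simp

theorem sph_inv (h : Cn n → ℝ) (hm : Measurable h) {C : ℝ} (hb : ∀ z, ‖z‖ = 1 → |h z| ≤ C)
    (T : Cn n →ₗᵢ[ℝ] Cn n) {v : Cn n} (hv : ‖v‖ = 1) :
    ∫ φ, h (T (uni φ v)) ∂(haarU n) = ∫ φ, h (uni φ v) ∂(haarU n) := by
  have e1 := OSph_avg (fun z => h (T z)) (hm.comp T.continuous.measurable)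
    (fun z hz => hb (T z) (by rw [T.norm_map, hz])) hv
  have e2 := OSph_avg h hm hb hv
  have e3 : ∫ q in Metric.closedBall (0 : Cn n) 1, h (T ((‖q‖⁻¹ : ℝ) • q)) =
      ∫ q in Metric.closedBall (0 : Cn n) 1, h ((‖q‖⁻¹ : ℝ) • q) := by
    rw [← OSph_iso (T.toLinearIsometryEquiv rfl) (fun q => h ((‖q‖⁻¹ : ℝ) • q))]
    refine integral_congr_ae (Filter.Eventually.of_forall fun q => ?_)
    simp only [LinearIsometry.coe_toLinearIsometryEquiv]
    rw [LinearIsometry.norm_map, LinearIsometry.map_smul]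
  rw [e3, ← e2] at e1
  exact mul_left_cancel₀ OSph_ball_pos.ne' e1

theorem sph_null {v w : Cn n} (hv : ‖v‖ = 1) (hw : w ≠ 0) :
    ∀ᵐ φ ∂(haarU n), (inner ℝ (uni φ v) w : ℝ) ≠ 0 := by
  set s : Set (Cn n) := {z | (inner ℝ z w : ℝ) = 0} with hs
  have hsm : MeasurableSet s :=
    (isClosed_eq (continuous_id.inner continuous_const) continuous_const).measurableSet
  set h : Cn n → ℝ := s.indicator (fun _ => 1) with hh
  have hm : Measurable h := measurable_const.indicator hsm
  have h0 : ∀ z, 0 ≤ h z := fun z => Set.indicator_nonneg (fun _ _ => zero_le_one) z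
  have h1 : ∀ z, h z ≤ 1 := fun z => Set.indicator_le_self' (fun _ _ => zero_le_one) z
  have hb : ∀ z : Cn n, ‖z‖ = 1 → |h z| ≤ 1 := by
    intro z _
    rw [abs_of_nonneg (h0 z)]
    exact h1 z
  have e := OSph_avg h hm hb hv
  have hS : (Submodule.span ℝ {w})ᗮ ≠ (⊤ : Submodule ℝ (Cn n)) := by
    intro htop
    have hw1 : w ∈ (⊤ : Submodule ℝ (Cn n)) := Submodule.mem_top
    rw [← htop, Submodule.mem_orthogonal_singleton_iff_inner_left] at hw1
    exact hw (inner_self_eq_zero.1 hw1)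
  have e0 : ∫ q in Metric.closedBall (0 : Cn n) 1, h ((‖q‖⁻¹ : ℝ) • q) = 0 := by
    have e1 : ∀ᵐ q ∂(volume.restrict (Metric.closedBall (0 : Cn n) 1)),
        h ((‖q‖⁻¹ : ℝ) • q) = 0 := by
      filter_upwards [OSph_sub hS] with q hq
      rw [hh, Set.indicator_of_notMem]
      intro hq1
      apply hq
      rw [Submodule.mem_orthogonal_singleton_iff_inner_left]
      have h2 : (inner ℝ ((‖q‖⁻¹ : ℝ) • q) w : ℝ) = 0 := hq1
      rw [real_inner_smul_left] at h2
      rcases mul_eq_zero.1 h2 with h3 | h3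
      · have h4 : q = 0 := norm_eq_zero.1 (inv_eq_zero.1 h3)
        rw [h4, inner_zero_left]
      · exact h3
    rw [integral_congr_ae e1]
    simp
  rw [e0] at e
  have e2 : ∫ φ, h (uni φ v) ∂(haarU n) = 0 := by
    rcases mul_eq_zero.1 e with h3 | h3
    · exact absurd h3 OSph_ball_pos.ne'
    · exact h3
  have hmu : Measurable (fun φ : Un n => h (uni φ v)) := hm.comp (continuous_uni v).measurable
  have hi : Integrable (fun φ : Un n => h (uni φ v)) (haarU n) := by
    refine Integrable.of_bound hmu.aestronglyMeasurable 1 (Filter.Eventually.of_forall ?_)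
    intro φ
    rw [Real.norm_eq_abs, abs_of_nonneg (h0 _)]
    exact h1 _
  have e3 := (integral_eq_zero_iff_of_nonneg (fun φ => h0 _) hi).1 e2
  filter_upwards [e3] with φ hφ hz
  have h5 : h (uni φ v) = 1 := by
    rw [hh]
    exact Set.indicator_of_mem (show uni φ v ∈ s from hz) _
  have h6 : h (uni φ v) = 0 := hφ
  rw [h5] at h6
  exact one_ne_zero h6

end Pool.Agent.H35.ODD
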