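import Mathlib
import Pool.Agent.H35.ODD.OSph
import Pool.Agent.H35.ODD.OMnA

set_option autoImplicit false

/-!
# OMnB: means of `h1/(s+a)`, `h2/(s+a)` over the unit sphere

`z = x + i y ∈ ℂ^N` uniformly distributed on the unit sphere of `ℝ^{2N}` (`sph_inv`: any real linear
isometry `T`: sign change of one real coordinate, exchange of two real coordinates), `i = 2k + M`,
`A = s + a = ∑` of the squares of `i` real coordinates `t` (all `x_l, y_l`, `l < k`; `x_l`, `k ≤ l < k + M`), `A ≠ 0`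
almost surely (`sph_null`).  `σ² = E t²` for any real coordinate (`= 1/(2N)`).
For a real coordinate `y` not among these, `E[t² y²/A] = E[y² A/A]/i = σ²/i` (the `i` values of `t` are
exchangeable).  `h2 = ∑_{j,l} (x_j² y_l² - x_j y_j x_l y_l)` over `k ≤ j, l < k + M`; `E[x_j y_j x_l y_l/A] = 0` for `j ≠ l`
(sign of `y_j`): `E[h2/A] = M(M-1) σ²/i`.  `h1/A = s (s + a + d)/A = s + s d/A`: `E = 2k σ² + 2k M σ²/i =
4k(i-k) σ²/i`.  So `c = σ²/i`.
-/

open MeasureTheory Pool.Agent.H61.UProj Pool.Agent.H89.CZ Pool.Agent.H35.NI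

noncomputable section

namespace Pool.Agent.H35.ODD

variable {N : ℕ}

/-- Real coordinates. -/
private def rc (x : Fin N × Bool) (z : Cn N) : ℝ := cond x.2 (z x.1).im (z x.1).re

private theorem rc_cont (x : Fin N × Bool) : Continuous (fun z : Cn N => rc x z) := by
  obtain ⟨l, b⟩ := x
  have h : Continuous (fun z : Cn N => z l) := by fun_prop
  cases b
  · exact Complex.continuous_re.comp h
  · exact Complex.continuous_im.comp h

private theorem norm_rc (z : Cn N) : ‖z‖ ^ 2 = ∑ x, rc x z ^ 2 := by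
  rw [EuclideanSpace.norm_sq_eq, Fintype.sum_prod_type]
  refine Finset.sum_congr rfl fun l _ => ?_
  rw [Fintype.sum_bool, Complex.sq_norm, Complex.normSq_apply]
  simp only [rc, cond_true, cond_false]
  ring

private theorem rc_le {z : Cn N} (hz : ‖z‖ = 1) (x : Fin N × Bool) : rc x z ^ 2 ≤ 1 := by
  have h := norm_rc z
  rw [hz, one_pow] at h
  rw [h]
  exact Finset.single_le_sum (f := fun x => rc x z ^ 2) (fun _ _ => sq_nonneg _)
    (Finset.mem_univ x)

private theorem abs_rc_le {z : Cn N} (hz : ‖z‖ = 1) (x : Fin N × Bool) : |rc x z| ≤ 1 := by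
  have h := rc_le hz x
  rw [← sq_abs] at h
  nlinarith [abs_nonneg (rc x z)]

/-- A signed permutation of the real coordinates. -/
private def ptf (σ : Equiv.Perm (Fin N × Bool)) (s : Fin N × Bool → ℝ) (z : Cn N) : Cn N :=
  WithLp.toLp 2 (fun l => (⟨s (l, false) * rc (σ (l, false)) z,
    s (l, true) * rc (σ (l, true)) z⟩ : ℂ))

private theorem rc_ptf (σ : Equiv.Perm (Fin N × Bool)) (s : Fin N × Bool → ℝ) (z : Cn N)
    (x : Fin N × Bool) : rc x (ptf σ s z) = s x * rc (σ x) z := by
  obtain ⟨l, b⟩ := x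
  cases b <;> rfl

private theorem rc_ext {z w : Cn N} (h : ∀ x, rc x z = rc x w) : z = w := by
  ext l
  apply Complex.ext
  · exact h (l, false)
  · exact h (l, true)

private theorem rc_add (x : Fin N × Bool) (z w : Cn N) : rc x (z + w) = rc x z + rc x w := by
  obtain ⟨l, b⟩ := x
  cases b
  · exact Complex.add_re _ _
  · exact Complex.add_im _ _

private theorem rc_smul (x : Fin N × Bool) (c : ℝ) (z : Cn N) : rc x (c • z) = c * rc x z := by
  obtain ⟨l, b⟩ := x
  cases b
  · change ((c • z) l).re = c * (z l).re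
    rw [PiLp.smul_apply, Complex.smul_re, smul_eq_mul]
  · change ((c • z) l).im = c * (z l).im
    rw [PiLp.smul_apply, Complex.smul_im, smul_eq_mul]

private def pt (σ : Equiv.Perm (Fin N × Bool)) (s : Fin N × Bool → ℝ) (hs : ∀ x, s x ^ 2 = 1) :
    Cn N →ₗᵢ[ℝ] Cn N where
  toFun := ptf σ s
  map_add' z w := rc_ext fun x => by
    rw [rc_add, rc_ptf, rc_ptf, rc_ptf, rc_add]
    ring
  map_smul' c z := rc_ext fun x => by
    rw [RingHom.id_apply, rc_smul, rc_ptf, rc_ptf, rc_smul]
    ring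
  norm_map' z := by
    have h : ‖ptf σ s z‖ ^ 2 = ‖z‖ ^ 2 := by
      rw [norm_rc, norm_rc, ← Equiv.sum_comp σ (fun x => rc x z ^ 2)]
      refine Finset.sum_congr rfl fun x _ => ?_
      rw [rc_ptf, mul_pow, hs, one_mul]
    exact (sq_eq_sq₀ (norm_nonneg _) (norm_nonneg _)).1 h

private theorem rc_pt (σ : Equiv.Perm (Fin N × Bool)) (s : Fin N × Bool → ℝ)
    (hs : ∀ x, s x ^ 2 = 1) (z : Cn N) (x : Fin N × Bool) :
    rc x (pt σ s hs z) = s x * rc (σ x) z := rc_ptf σ s z x

/-- Bounded and measurable. -/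
private def Bnd (f : Cn N → ℝ) : Prop := Measurable f ∧ ∃ C, ∀ z, ‖z‖ = 1 → |f z| ≤ C

private theorem norm_uni {v : Cn N} (hv : ‖v‖ = 1) (φ : Un N) : ‖uni φ v‖ = 1 := by
  rw [LinearIsometry.norm_map, hv]

private theorem Bnd.int {f : Cn N → ℝ} (hf : Bnd f) {v : Cn N} (hv : ‖v‖ = 1) :
    Integrable (fun φ => f (uni φ v)) (haarU N) := by
  obtain ⟨hm, C, hC⟩ := hf
  have h1 : Measurable (fun φ => f (uni φ v)) := hm.comp (continuous_uni v).measurable
  refine Integrable.of_bound h1.aestronglyMeasurable C (Filter.Eventually.of_forall fun φ => ?_)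
  rw [Real.norm_eq_abs]
  exact hC _ (norm_uni hv φ)

private theorem Bnd.inv {f : Cn N → ℝ} (hf : Bnd f) {v : Cn N} (hv : ‖v‖ = 1)
    (σ : Equiv.Perm (Fin N × Bool)) (s : Fin N × Bool → ℝ) (hs : ∀ x, s x ^ 2 = 1) :
    ∫ φ, f (pt σ s hs (uni φ v)) ∂(haarU N) = ∫ φ, f (uni φ v) ∂(haarU N) := by
  obtain ⟨hm, C, hC⟩ := hf
  exact sph_inv f hm hC (pt σ s hs) hv

private theorem Bnd_sq (x : Fin N × Bool) : Bnd (fun z : Cn N => rc x z ^ 2) := by
  refine ⟨((rc_cont x).pow 2).measurable, 1, fun z hz => ?_⟩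
  rw [abs_of_nonneg (sq_nonneg _)]
  exact rc_le hz x

/-- `E t² = 1/(2N)`. -/
private theorem mean_sq (hN : 0 < N) {v : Cn N} (hv : ‖v‖ = 1) (x : Fin N × Bool) :
    ∫ φ, rc x (uni φ v) ^ 2 ∂(haarU N) = 1 / (2 * N) := by
  have h1 : ∀ y : Fin N × Bool, ∫ φ, rc y (uni φ v) ^ 2 ∂(haarU N) =
      ∫ φ, rc x (uni φ v) ^ 2 ∂(haarU N) := by
    intro y
    have h := (Bnd_sq x).inv hv (Equiv.swap x y) (fun _ => 1) (fun _ => one_pow _)
    simp only [rc_pt, Equiv.swap_apply_left, one_mul] at h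
    exact h
  have h2 : ∫ φ, ∑ y : Fin N × Bool, rc y (uni φ v) ^ 2 ∂(haarU N) = 1 := by
    have : ∀ φ : Un N, ∑ y : Fin N × Bool, rc y (uni φ v) ^ 2 = 1 := by
      intro φ
      rw [← norm_rc, norm_uni hv, one_pow]
    simp only [this]
    simp
  rw [integral_finsetSum _ fun y _ => (Bnd_sq y).int hv, Finset.sum_congr rfl fun y _ => h1 y,
    Finset.sum_const, Finset.card_univ, Fintype.card_prod, Fintype.card_fin, Fintype.card_bool,
    nsmul_eq_mul] at h2
  push_cast at h2
  have hN' : (0 : ℝ) < N := by exact_mod_cast hN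
  rw [eq_div_iff (by positivity)]
  linarith

/-- The coordinates of `A`. -/
private def II (k M : ℕ) : Finset (Fin N × Bool) :=
  Finset.univ.filter fun x => (x.1 : ℕ) < k ∨ ((x.1 : ℕ) < k + M ∧ x.2 = false)

private theorem mem_II {k M : ℕ} {x : Fin N × Bool} :
    x ∈ II k M ↔ (x.1 : ℕ) < k ∨ ((x.1 : ℕ) < k + M ∧ x.2 = false) := by
  unfold II
  rw [Finset.mem_filter]
  exact and_iff_right (Finset.mem_univ x)

private theorem A_eq (k M : ℕ) (z : Cn N) :
    sC k z + aR k M z = ∑ x ∈ II k M, rc x z ^ 2 := by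
  unfold II sC aR
  rw [Finset.sum_filter, Fintype.sum_prod_type, ← Finset.sum_add_distrib]
  refine Finset.sum_congr rfl fun l _ => ?_
  rw [Fintype.sum_bool, Complex.sq_norm, Complex.normSq_apply]
  simp only [rc, cond_true, cond_false]
  by_cases h1 : (l : ℕ) < k
  · have h2 : ¬ (k ≤ (l : ℕ) ∧ (l : ℕ) < k + M) := by omega
    simp only [h1, h2, true_or, if_true, if_false]
    ring
  · by_cases h3 : (l : ℕ) < k + M
    · have h2 : k ≤ (l : ℕ) ∧ (l : ℕ) < k + M := by omega
      simp [h1, h3, h2]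
    · have h2 : ¬ (k ≤ (l : ℕ) ∧ (l : ℕ) < k + M) := by omega
      simp [h1, h3]

private theorem cnt {m : ℕ} (hm : m ≤ N) :
    ∑ l : Fin N, (if (l : ℕ) < m then (1 : ℝ) else 0) = m := by
  rw [Fin.sum_univ_eq_sum_range (fun l => if l < m then (1 : ℝ) else 0) N, ← Finset.sum_filter]
  have h : (Finset.range N).filter (fun l => l < m) = Finset.range m := by
    ext l
    simp only [Finset.mem_filter, Finset.mem_range]
    omega
  rw [h]
  simp

private theorem card_II {k M : ℕ} (h : k + M ≤ N) :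
    (((II k M : Finset (Fin N × Bool)).card : ℕ) : ℝ) = 2 * k + M := by
  have h1 : (((II k M : Finset (Fin N × Bool)).card : ℕ) : ℝ) =
      ∑ l : Fin N, ((if (l : ℕ) < k then (1 : ℝ) else 0) + if (l : ℕ) < k + M then 1 else 0) := by
    rw [Finset.card_eq_sum_ones, Nat.cast_sum]
    unfold II
    rw [Finset.sum_filter, Fintype.sum_prod_type]
    refine Finset.sum_congr rfl fun l _ => ?_
    rw [Fintype.sum_bool]
    by_cases h1 : (l : ℕ) < k
    · have h2 : (l : ℕ) < k + M := by omega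
      simp [h1, h2]
    · simp [h1]
  rw [h1, Finset.sum_add_distrib, cnt (by omega), cnt h]
  push_cast
  ring

private def AA' (k M : ℕ) (z : Cn N) : ℝ := ∑ x ∈ II k M, rc x z ^ 2

private theorem AA_cont (k M : ℕ) : Continuous (fun z : Cn N => AA' k M z) := by
  unfold AA'
  exact continuous_finsetSum _ fun x _ => (rc_cont x).pow 2

private theorem rc_le_A {k M : ℕ} {x : Fin N × Bool} (hx : x ∈ II k M) (z : Cn N) :
    rc x z ^ 2 ≤ AA' k M z :=
  Finset.single_le_sum (f := fun x => rc x z ^ 2) (fun _ _ => sq_nonneg _) hx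

private theorem AA_nonneg (k M : ℕ) (z : Cn N) : 0 ≤ AA' k M z :=
  Finset.sum_nonneg fun _ _ => sq_nonneg _

/-- `x x' y y' / A`. -/
private def pp (k M : ℕ) (x x' y y' : Fin N × Bool) (z : Cn N) : ℝ :=
  rc x z * rc x' z * (rc y z * rc y' z) / AA' k M z

private theorem Bnd_pp {k M : ℕ} {x x' : Fin N × Bool} (hx : x ∈ II k M) (hx' : x' ∈ II k M)
    (y y' : Fin N × Bool) : Bnd (pp k M x x' y y') := by
  refine ⟨?_, 1, fun z hz => ?_⟩
  · unfold pp
    refine Measurable.div ?_ (AA_cont k M).measurable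
    exact (((rc_cont x).mul (rc_cont x')).mul ((rc_cont y).mul (rc_cont y'))).measurable
  · unfold pp
    rw [abs_div, abs_mul, abs_mul (rc y z), abs_of_nonneg (AA_nonneg k M z)]
    have h1 : |rc x z * rc x' z| ≤ AA' k M z := by
      have h2 := rc_le_A hx z
      have h3 := rc_le_A hx' z
      rw [abs_le]
      constructor <;> nlinarith [sq_nonneg (rc x z + rc x' z), sq_nonneg (rc x z - rc x' z)]
    have h4 : |rc y z| * |rc y' z| ≤ 1 := by
      have h5 := abs_rc_le hz y
      have h6 := abs_rc_le hz y'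
      calc |rc y z| * |rc y' z| ≤ 1 * 1 := mul_le_mul h5 h6 (abs_nonneg _) zero_le_one
        _ = 1 := one_mul 1
    refine div_le_one_of_le₀ ?_ (AA_nonneg k M z)
    calc |rc x z * rc x' z| * (|rc y z| * |rc y' z|) ≤ AA' k M z * 1 :=
          mul_le_mul h1 h4 (by positivity) (AA_nonneg k M z)
      _ = AA' k M z := mul_one _

/-- `A ≠ 0` almost surely. -/
private theorem A_ne {k M : ℕ} {x : Fin N × Bool} (hx : x ∈ II k M) {v : Cn N} (hv : ‖v‖ = 1) :
    ∀ᵐ φ ∂(haarU N), AA' k M (uni φ v) ≠ 0 := by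
  obtain ⟨l, b⟩ := x
  have hw : ∀ c : ℂ, c ≠ 0 → (EuclideanSpace.single l c : Cn N) ≠ 0 := by
    intro c hc h0
    have h := congrArg (fun z : Cn N => z l) h0
    simp at h
    exact hc h
  have hi : ∀ (c : ℂ) (z : Cn N), (inner ℝ z (EuclideanSpace.single l c : Cn N) : ℝ) =
      ((starRingEnd ℂ) (z l) * c).re := by
    intro c z
    rw [real_inner_eq]
    congr 1
    rw [Finset.sum_eq_single l]
    · simp
    · intro j _ hj
      simp [hj]
    · intro h
      exact absurd (Finset.mem_univ _) h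
  have key : ∀ᵐ φ ∂(haarU N), rc (l, b) (uni φ v) ≠ 0 := by
    cases b
    · filter_upwards [sph_null hv (hw 1 one_ne_zero)] with φ h
      rw [hi] at h
      simpa [rc] using h
    · filter_upwards [sph_null hv (hw Complex.I Complex.I_ne_zero)] with φ h
      rw [hi] at h
      simpa [rc] using h
  filter_upwards [key] with φ h
  have h1 := rc_le_A hx (uni φ v)
  have h2 : 0 < rc (l, b) (uni φ v) ^ 2 := by positivity
  exact (lt_of_lt_of_le h2 h1).ne'

/-- `E[t² y²/A] = σ²/i`. -/
private theorem mean_pp {k M : ℕ} (hN : 0 < N) (hkM : k + M ≤ N) {v : Cn N} (hv : ‖v‖ = 1)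
    {x y : Fin N × Bool} (hx : x ∈ II k M) (hy : y ∉ II k M) :
    ∫ φ, pp k M x x y y (uni φ v) ∂(haarU N) = 1 / (2 * N) / (2 * k + M) := by
  have h1 : ∀ x' ∈ II k M, ∫ φ, pp k M x' x' y y (uni φ v) ∂(haarU N) =
      ∫ φ, pp k M x x y y (uni φ v) ∂(haarU N) := by
    intro x' hx'
    have h := (Bnd_pp hx hx y y).inv hv (Equiv.swap x x') (fun _ => 1) (fun _ => one_pow _)
    rw [← h]
    refine integral_congr_ae (Filter.Eventually.of_forall fun φ => ?_)
    have hA : ∀ z : Cn N, AA' k M (pt (Equiv.swap x x') (fun _ => 1) (fun _ => one_pow _) z) =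
        AA' k M z := by
      intro z
      unfold AA'
      refine Finset.sum_equiv (Equiv.swap x x') ?_ ?_
      · intro t
        by_cases ht : t = x
        · subst ht
          simp [hx, hx']
        · by_cases ht' : t = x'
          · subst ht'
            simp [hx, hx']
          · rw [Equiv.swap_apply_of_ne_of_ne ht ht']
      · intro t _
        rw [rc_pt, one_mul]
    have hyx : y ≠ x := fun h => hy (h ▸ hx)
    have hyx' : y ≠ x' := fun h => hy (h ▸ hx')
    simp only [pp, hA, rc_pt, one_mul, Equiv.swap_apply_left,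
      Equiv.swap_apply_of_ne_of_ne hyx hyx']
  have h2 : ∫ φ, ∑ x' ∈ II k M, pp k M x' x' y y (uni φ v) ∂(haarU N) = 1 / (2 * N) := by
    rw [← mean_sq hN hv y]
    refine integral_congr_ae ?_
    filter_upwards [A_ne hx hv] with φ h
    unfold pp
    rw [← Finset.sum_div, ← Finset.sum_mul]
    have h3 : ∑ x' ∈ II k M, rc x' (uni φ v) * rc x' (uni φ v) = AA' k M (uni φ v) := by
      unfold AA'
      exact Finset.sum_congr rfl fun t _ => (sq _).symm
    rw [h3, mul_comm, mul_div_assoc, div_self h, mul_one, sq]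
  rw [integral_finsetSum _ fun x' hx' => (Bnd_pp hx' hx' y y).int hv, Finset.sum_congr rfl h1,
    Finset.sum_const, nsmul_eq_mul, card_II hkM] at h2
  have h3 : (0 : ℝ) < 2 * k + M := by
    rw [← card_II hkM]
    exact_mod_cast Finset.card_pos.2 ⟨x, hx⟩
  rw [eq_div_iff h3.ne', ← h2, mul_comm]

/-- `E[x x' y y'/A] = 0` for `y ≠ y'`. -/
private theorem mean_pp0 {k M : ℕ} {v : Cn N} (hv : ‖v‖ = 1)
    {x x' y y' : Fin N × Bool} (hx : x ∈ II k M) (hx' : x' ∈ II k M) (hy : y ∉ II k M)
    (hyy : y ≠ y') : ∫ φ, pp k M x x' y y' (uni φ v) ∂(haarU N) = 0 := by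
  have hs : ∀ t : Fin N × Bool, (if t = y then (-1 : ℝ) else 1) ^ 2 = 1 := by
    intro t
    split_ifs <;> norm_num
  have h := (Bnd_pp hx hx' y y').inv hv (Equiv.refl _) (fun t => if t = y then -1 else 1) hs
  have h2 : ∀ z : Cn N, pp k M x x' y y' (pt (Equiv.refl _) (fun t => if t = y then -1 else 1)
      hs z) = -pp k M x x' y y' z := by
    intro z
    have hA : AA' k M (pt (Equiv.refl _) (fun t => if t = y then -1 else 1) hs z) =
        AA' k M z := by
      unfold AA'
      refine Finset.sum_congr rfl fun t _ => ?_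
      rw [rc_pt, mul_pow, hs, one_mul]
      rfl
    have h1 : x ≠ y := fun h => hy (h ▸ hx)
    have h3 : x' ≠ y := fun h => hy (h ▸ hx')
    simp only [pp, hA, rc_pt, Equiv.refl_apply, if_neg h1, if_neg h3, if_neg hyy.symm,
      if_true]
    ring
  simp only [h2, integral_neg] at h
  linarith

/-- The middle indices. -/
private def LL (k M : ℕ) : Finset (Fin N) :=
  Finset.univ.filter fun l => k ≤ (l : ℕ) ∧ (l : ℕ) < k + M

private def KK' (k : ℕ) : Finset (Fin N) := Finset.univ.filter fun l => (l : ℕ) < k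

private theorem mem_LL {k M : ℕ} {l : Fin N} : l ∈ LL k M ↔ k ≤ (l : ℕ) ∧ (l : ℕ) < k + M := by
  unfold LL
  rw [Finset.mem_filter]
  exact and_iff_right (Finset.mem_univ l)

private theorem mem_KK {k : ℕ} {l : Fin N} : l ∈ KK' k ↔ (l : ℕ) < k := by
  unfold KK'
  rw [Finset.mem_filter]
  exact and_iff_right (Finset.mem_univ l)

private theorem card_KK {k : ℕ} (h : k ≤ N) : (((KK' k : Finset (Fin N)).card : ℕ) : ℝ) = k := by
  rw [Finset.card_eq_sum_ones, Nat.cast_sum]
  unfold KK'
  rw [Finset.sum_filter]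
  simpa using cnt h

private theorem card_LL {k M : ℕ} (h : k + M ≤ N) :
    (((LL k M : Finset (Fin N)).card : ℕ) : ℝ) = M := by
  have h1 : (((LL k M : Finset (Fin N)).card : ℕ) : ℝ) =
      ∑ l : Fin N, ((if (l : ℕ) < k + M then (1 : ℝ) else 0) - if (l : ℕ) < k then 1 else 0) := by
    rw [Finset.card_eq_sum_ones, Nat.cast_sum]
    unfold LL
    rw [Finset.sum_filter]
    refine Finset.sum_congr rfl fun l _ => ?_
    by_cases h1 : (l : ℕ) < k
    · have h2 : (l : ℕ) < k + M := by omega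
      have h3 : ¬ (k ≤ (l : ℕ)) := by omega
      simp [h1, h2, h3]
    · have h3 : k ≤ (l : ℕ) := by omega
      by_cases h2 : (l : ℕ) < k + M
      · simp [h1, h2, h3]
      · simp [h1, h2]
  rw [h1, Finset.sum_sub_distrib, cnt h, cnt (by omega)]
  push_cast
  ring

private theorem sC_eq (k : ℕ) (z : Cn N) :
    sC k z = ∑ l ∈ KK' k, (rc (l, false) z ^ 2 + rc (l, true) z ^ 2) := by
  unfold sC KK'
  rw [Finset.sum_filter]
  refine Finset.sum_congr rfl fun l _ => ?_
  rw [Complex.sq_norm, Complex.normSq_apply]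
  simp only [rc, cond_true, cond_false]
  split_ifs
  · ring
  · rfl

private theorem aR_eq (k M : ℕ) (z : Cn N) : aR k M z = ∑ l ∈ LL k M, rc (l, false) z ^ 2 := by
  unfold aR LL
  rw [Finset.sum_filter]
  rfl

private theorem dR_eq (k M : ℕ) (z : Cn N) : dR k M z = ∑ l ∈ LL k M, rc (l, true) z ^ 2 := by
  unfold dR LL
  rw [Finset.sum_filter]
  rfl

private theorem bR_eq (k M : ℕ) (z : Cn N) :
    bR k M z = ∑ l ∈ LL k M, rc (l, false) z * rc (l, true) z := by
  unfold bR LL
  rw [Finset.sum_filter]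
  rfl

private theorem h1_eq {k M : ℕ} {z : Cn N} (h : AA' k M z ≠ 0) :
    h1 k M z / (sC k z + aR k M z) = ∑ l ∈ KK' k, (rc (l, false) z ^ 2 + rc (l, true) z ^ 2) +
      ∑ l ∈ KK' k, ∑ m ∈ LL k M, (pp k M (l, false) (l, false) (m, true) (m, true) z +
        pp k M (l, true) (l, true) (m, true) (m, true) z) := by
  have hA : sC k z + aR k M z = AA' k M z := A_eq k M z
  have e1 : ∑ l ∈ KK' k, ∑ m ∈ LL k M, (pp k M (l, false) (l, false) (m, true) (m, true) z +
        pp k M (l, true) (l, true) (m, true) (m, true) z) = sC k z * dR k M z / AA' k M z := by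
    rw [sC_eq, dR_eq, Finset.sum_mul_sum, Finset.sum_div]
    refine Finset.sum_congr rfl fun l _ => ?_
    rw [Finset.sum_div]
    refine Finset.sum_congr rfl fun m _ => ?_
    unfold pp
    ring
  rw [e1, ← sC_eq, hA, h1]
  have h2 : sC k z ^ 2 + sC k z * (aR k M z + dR k M z) =
      sC k z * AA' k M z + sC k z * dR k M z := by
    rw [← hA]
    ring
  rw [h2, add_div, mul_div_assoc, div_self h, mul_one]

private theorem h2_eq {k M : ℕ} (z : Cn N) :
    h2 k M z / (sC k z + aR k M z) =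
      ∑ l ∈ LL k M, ∑ m ∈ LL k M, (pp k M (l, false) (l, false) (m, true) (m, true) z -
        pp k M (l, false) (m, false) (l, true) (m, true) z) := by
  have hA : sC k z + aR k M z = AA' k M z := A_eq k M z
  rw [hA, h2, aR_eq, dR_eq, bR_eq, sq (∑ l ∈ LL k M, rc (l, false) z * rc (l, true) z),
    Finset.sum_mul_sum, Finset.sum_mul_sum, ← Finset.sum_sub_distrib, Finset.sum_div]
  refine Finset.sum_congr rfl fun l _ => ?_
  rw [← Finset.sum_sub_distrib, Finset.sum_div]
  refine Finset.sum_congr rfl fun m _ => ?_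
  unfold pp
  ring

theorem mean_sph {i : ℕ} (hi : 1 ≤ i) (hiN : i ≤ N) {v : Cn N} (hv : ‖v‖ = 1) :
    ∃ c : ℝ, 0 < c ∧ ∀ k M : ℕ, 2 * k + M = i →
      ∫ φ, h1 k M (uni φ v) / (sC k (uni φ v) + aR k M (uni φ v)) ∂(haarU N) =
        c * (4 * k * ((i : ℝ) - k)) ∧
      ∫ φ, h2 k M (uni φ v) / (sC k (uni φ v) + aR k M (uni φ v)) ∂(haarU N) =
        c * ((M : ℝ) * (M - 1)) := by
  have hN : 0 < N := by omega
  have hN' : (0 : ℝ) < N := by exact_mod_cast hN
  have hi' : (0 : ℝ) < i := by exact_mod_cast hi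
  refine ⟨1 / (2 * N) / i, by positivity, fun k M hkM => ?_⟩
  have hkN : k + M ≤ N := by omega
  have hir : (2 * k + M : ℝ) = i := by exact_mod_cast hkM
  have hKI : ∀ l ∈ (KK' k : Finset (Fin N)), ∀ b, (l, b) ∈ (II k M : Finset (Fin N × Bool)) :=
    fun l hl b => mem_II.2 (Or.inl (mem_KK.1 hl))
  have hLI : ∀ l ∈ (LL k M : Finset (Fin N)), (l, false) ∈ (II k M : Finset (Fin N × Bool)) :=
    fun l hl => mem_II.2 (Or.inr ⟨(mem_LL.1 hl).2, rfl⟩)
  have hLn : ∀ l ∈ (LL k M : Finset (Fin N)), (l, true) ∉ (II k M : Finset (Fin N × Bool)) := by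
    intro l hl h
    have h1 := (mem_LL.1 hl).1
    rcases mem_II.1 h with h2 | h2
    · exact absurd h2 (not_lt.2 h1)
    · exact absurd h2.2 (by simp)
  have hne : ∃ x, x ∈ (II k M : Finset (Fin N × Bool)) := by
    refine ⟨(⟨0, hN⟩, false), mem_II.2 ?_⟩
    by_cases hk : 0 < k
    · exact Or.inl hk
    · refine Or.inr ⟨?_, rfl⟩
      change 0 < k + M
      omega
  obtain ⟨x0, hx0⟩ := hne
  constructor
  · have e1 : ∫ φ, h1 k M (uni φ v) / (sC k (uni φ v) + aR k M (uni φ v)) ∂(haarU N) =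
        ∫ φ, (∑ l ∈ KK' k, (rc (l, false) (uni φ v) ^ 2 + rc (l, true) (uni φ v) ^ 2) +
          ∑ l ∈ KK' k, ∑ m ∈ LL k M, (pp k M (l, false) (l, false) (m, true) (m, true) (uni φ v) +
            pp k M (l, true) (l, true) (m, true) (m, true) (uni φ v))) ∂(haarU N) := by
      refine integral_congr_ae ?_
      filter_upwards [A_ne hx0 hv] with φ h
      exact h1_eq h
    have i1 : ∀ l ∈ (KK' k : Finset (Fin N)), Integrable
        (fun φ => rc (l, false) (uni φ v) ^ 2 + rc (l, true) (uni φ v) ^ 2) (haarU N) :=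
      fun l _ => ((Bnd_sq (l, false)).int hv).add ((Bnd_sq (l, true)).int hv)
    have i2 : ∀ l ∈ (KK' k : Finset (Fin N)), ∀ m ∈ (LL k M : Finset (Fin N)), Integrable
        (fun φ => pp k M (l, false) (l, false) (m, true) (m, true) (uni φ v) +
            pp k M (l, true) (l, true) (m, true) (m, true) (uni φ v)) (haarU N) :=
      fun l hl m _ => ((Bnd_pp (hKI l hl false) (hKI l hl false) _ _).int hv).add
        ((Bnd_pp (hKI l hl true) (hKI l hl true) _ _).int hv)
    rw [e1, integral_add (integrable_finsetSum _ i1)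
      (integrable_finsetSum _ fun l hl => integrable_finsetSum _ (i2 l hl)),
      integral_finsetSum _ i1, integral_finsetSum _ fun l hl => integrable_finsetSum _ (i2 l hl)]
    have e2 : ∀ l ∈ (KK' k : Finset (Fin N)),
        ∫ φ, (rc (l, false) (uni φ v) ^ 2 + rc (l, true) (uni φ v) ^ 2) ∂(haarU N) =
          2 * (1 / (2 * N)) := by
      intro l _
      rw [integral_add ((Bnd_sq (l, false)).int hv) ((Bnd_sq (l, true)).int hv), mean_sq hN hv,
        mean_sq hN hv]
      ring
    have e3 : ∀ l ∈ (KK' k : Finset (Fin N)),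
        ∫ φ, ∑ m ∈ LL k M, (pp k M (l, false) (l, false) (m, true) (m, true) (uni φ v) +
            pp k M (l, true) (l, true) (m, true) (m, true) (uni φ v)) ∂(haarU N) =
          M * (2 * (1 / (2 * N) / i)) := by
      intro l hl
      rw [integral_finsetSum _ (i2 l hl)]
      have e4 : ∀ m ∈ (LL k M : Finset (Fin N)),
          ∫ φ, (pp k M (l, false) (l, false) (m, true) (m, true) (uni φ v) +
            pp k M (l, true) (l, true) (m, true) (m, true) (uni φ v)) ∂(haarU N) =
          2 * (1 / (2 * N) / i) := by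
        intro m hm
        rw [integral_add ((Bnd_pp (hKI l hl false) (hKI l hl false) _ _).int hv)
          ((Bnd_pp (hKI l hl true) (hKI l hl true) _ _).int hv),
          mean_pp hN hkN hv (hKI l hl false) (hLn m hm),
          mean_pp hN hkN hv (hKI l hl true) (hLn m hm), hir]
        ring
      rw [Finset.sum_congr rfl e4, Finset.sum_const, nsmul_eq_mul, card_LL hkN]
    rw [Finset.sum_congr rfl e2, Finset.sum_congr rfl e3, Finset.sum_const, Finset.sum_const,
      nsmul_eq_mul, nsmul_eq_mul, card_KK (by omega)]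
    have hM : (M : ℝ) = i - 2 * k := by linarith
    rw [hM]
    field_simp
    ring
  · have e1 : ∫ φ, h2 k M (uni φ v) / (sC k (uni φ v) + aR k M (uni φ v)) ∂(haarU N) =
        ∫ φ, (∑ l ∈ LL k M, ∑ m ∈ LL k M,
          (pp k M (l, false) (l, false) (m, true) (m, true) (uni φ v) -
            pp k M (l, false) (m, false) (l, true) (m, true) (uni φ v))) ∂(haarU N) := by
      refine integral_congr_ae (Filter.Eventually.of_forall fun φ => ?_)
      exact h2_eq _
    have i2 : ∀ l ∈ (LL k M : Finset (Fin N)), ∀ m ∈ (LL k M : Finset (Fin N)), Integrable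
        (fun φ => pp k M (l, false) (l, false) (m, true) (m, true) (uni φ v) -
            pp k M (l, false) (m, false) (l, true) (m, true) (uni φ v)) (haarU N) :=
      fun l hl m hm => ((Bnd_pp (hLI l hl) (hLI l hl) _ _).int hv).sub
        ((Bnd_pp (hLI l hl) (hLI m hm) _ _).int hv)
    rw [e1, integral_finsetSum _ fun l hl => integrable_finsetSum _ (i2 l hl)]
    have e3 : ∀ l ∈ (LL k M : Finset (Fin N)),
        ∫ φ, ∑ m ∈ LL k M, (pp k M (l, false) (l, false) (m, true) (m, true) (uni φ v) -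
            pp k M (l, false) (m, false) (l, true) (m, true) (uni φ v)) ∂(haarU N) =
          (M - 1) * (1 / (2 * N) / i) := by
      intro l hl
      rw [integral_finsetSum _ (i2 l hl)]
      have e4 : ∀ m ∈ (LL k M : Finset (Fin N)),
          ∫ φ, (pp k M (l, false) (l, false) (m, true) (m, true) (uni φ v) -
            pp k M (l, false) (m, false) (l, true) (m, true) (uni φ v)) ∂(haarU N) =
          1 / (2 * (N : ℝ)) / (i : ℝ) - (if m = l then 1 / (2 * (N : ℝ)) / (i : ℝ) else 0) := by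
        intro m hm
        rw [integral_sub ((Bnd_pp (hLI l hl) (hLI l hl) _ _).int hv)
          ((Bnd_pp (hLI l hl) (hLI m hm) _ _).int hv),
          mean_pp hN hkN hv (hLI l hl) (hLn m hm), hir]
        congr 1
        split_ifs with hml
        · subst hml
          rw [mean_pp hN hkN hv (hLI m hm) (hLn m hm), hir]
        · refine mean_pp0 hv (hLI l hl) (hLI m hm) (hLn l hl) ?_
          intro h
          exact hml (congrArg Prod.fst h).symm
      rw [Finset.sum_congr rfl e4, Finset.sum_sub_distrib, Finset.sum_const,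
        Finset.sum_ite_eq' (LL k M) l, if_pos hl, nsmul_eq_mul, card_LL hkN]
      ring
    rw [Finset.sum_congr rfl e3, Finset.sum_const, nsmul_eq_mul, card_LL hkN]
    ring

end Pool.Agent.H35.ODD
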