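import Mathlib
import Pool.Agent.H35.ODD.Defs
import Pool.Agent.H35.NI.Ext
import Pool.Agent.H35.ISO.FunL

set_option autoImplicit false

/-!
# OFun: the functional of a frame

`exists_fun`: `gg_strA` (`NI/Ext`): `L p = ∑_{l ≤ n} β_l p(l²)`, `β_l = ∑_k Γ k l dz e k`.
`vf_orth`, `dz_vf`: `vf n k` on `Fin i` uses the coordinates `< k + (i - 2k) = i - k ≤ n`; the matrix
`⟨ , ⟩ + z om` has `k` blocks `(1, z; -z, 1)` and `1`s (`dz_ef` with cosines `1, …, 1, 0, …` for `i ≤ n`; in general
directly; ISO/FunL and ISO/AqS have private versions for `i ≤ n`).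
`gg_dec` (`i ≤ n`): `dz e z = ∏ (1 + z² c²) = ∏ ((1 - c²) + c² (1 + z²)) = ∑_q lam_q (1 + z²)^q`, `lam_q ≥ 0`
(`orth_pol` in `ISO/Pol`; product of polynomials with nonnegative coefficients in `Y = 1 + z²`), so by
`gg_strA` `gg e w √GG w = ∑_q lam_q gg (vf n q) w √GG w`; if `GG w = 0` all `gg _ w = 0` (`frame`).  At `z = 0`:
`∑ lam_q = 1`.
`gg_dual`: complement `f'` of `w = vf n (x+i-n)`: `dz f' z = (1+z²)^x` (`Cpl.dz_eq`), `= dz (vf n x)`, so
`gg e w = gg e' f' = gg e' (vf n x)` (`Cpl.gg_eq`, `exists_fun` for `e'` and `pol_unique`/the same `p`).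
-/

open MeasureTheory Pool.Agent.H61.UProj Pool.Agent.H89.CZ Pool.Agent.H35.NI Pool.Agent.H89.EN

noncomputable section

namespace Pool.Agent.H35.ODD

variable {n i : ℕ}

theorem exists_fun (hi : 0 < i) (hin : i < 2 * n) {e : Fin i → Cn n} (he : Orthonormal ℝ e) :
    ∃ L : Polynomial ℝ →ₗ[ℝ] ℝ, ∀ (w : Fin i → Cn n) (p : Polynomial ℝ),
      (∀ z : ℝ, p.eval (z ^ 2) = dz w z) → gg e w * √(GG w) = L p := by
  obtain ⟨Γ, hΓ⟩ := gg_strA (n := n) hi hin
  refine ⟨∑ l ∈ Finset.range (n + 1),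
    (∑ k ∈ Finset.range (n + 1), Γ k l * dz e k) • Polynomial.leval ((l : ℝ) ^ 2),
    fun w p hp => ?_⟩
  rw [hΓ e he w, LinearMap.sum_apply]
  refine Finset.sum_congr rfl fun l _ => ?_
  rw [LinearMap.smul_apply, Polynomial.leval_apply, smul_eq_mul, hp]

/-! ### The standard frames -/

/-- The cosines `1, …, 1, 0, …` (`j` ones). -/
private def fo_sc (j m : ℕ) : ℝ := if m < j then 1 else 0

private theorem fo_bd (j m : ℕ) : 0 ≤ fo_sc j m ∧ fo_sc j m ≤ 1 := by
  unfold fo_sc
  split_ifs <;> norm_num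

private def fo_c (q a : ℕ) : ℂ := if a < 2 * q ∧ a % 2 = 1 then Complex.I else 1

private def fo_d (q a : ℕ) : ℕ := if a < 2 * q then a / 2 else q + (a - 2 * q)

private def fo_e (q a : ℕ) : ℕ := if a < 2 * q then 2 * (a / 2) else a

private theorem fo_vf (n q a : ℕ) : vf n q a = fo_c q a • st n (fo_d q a) := by
  unfold vf fo_c fo_d
  by_cases h : a < 2 * q
  · rw [if_pos h, if_pos h]
    rcases Nat.mod_two_eq_zero_or_one a with h2 | h2
    · rw [if_pos h2, if_neg (by omega), one_smul]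
    · rw [if_neg (by omega), if_pos ⟨h, h2⟩]
  · rw [if_neg h, if_neg h, if_neg (by omega), one_smul]

private theorem fo_ef (hin : i ≤ n) (q : ℕ) (a : Fin i) :
    ef hin (fo_sc q) a = fo_c q a • st n (fo_e q a) := by
  have ha : (a : ℕ) < n := lt_of_lt_of_le a.2 hin
  unfold ef fo_c fo_e
  rcases Nat.mod_two_eq_zero_or_one (a : ℕ) with h2 | h2
  · rw [if_pos h2, if_neg (by omega), one_smul]
    have h3 : (if (a : ℕ) < 2 * q then 2 * ((a : ℕ) / 2) else (a : ℕ)) = a := by
      split_ifs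
      · omega
      · rfl
    rw [h3]
    ext j
    rw [st_apply, PiLp.single_apply]
    by_cases hj : j = Fin.castLE hin a
    · rw [if_pos hj, if_pos (by rw [hj]; rfl)]
    · rw [if_neg hj, if_neg]
      intro h
      exact hj (Fin.ext h)
  · rw [if_neg (by omega)]
    by_cases h : (a : ℕ) < 2 * q
    · have h4 : fo_sc q ((a : ℕ) / 2) = 1 := by
        unfold fo_sc
        rw [if_pos (by omega)]
      rw [if_pos ⟨h, h2⟩, if_pos h, h4]
      ext j
      simp only [Complex.ofReal_one, one_mul, one_pow, sub_self, Real.sqrt_zero,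
        Complex.ofReal_zero, PiLp.add_apply, PiLp.single_apply, PiLp.smul_apply, st_apply,
        smul_eq_mul]
      have h5 : 2 * ((a : ℕ) / 2) = (a : ℕ) - 1 := by omega
      rw [h5]
      by_cases hj : (j : ℕ) = (a : ℕ) - 1
      · rw [if_pos hj, if_pos (Fin.ext hj)]
        simp
      · rw [if_neg hj, if_neg (fun h => hj (congrArg Fin.val h))]
        simp
    · have h4 : fo_sc q ((a : ℕ) / 2) = 0 := by
        unfold fo_sc
        rw [if_neg (by omega)]
      rw [if_neg (fun h' => h h'.1), if_neg h, h4]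
      ext j
      simp only [Complex.ofReal_zero, zero_mul, ne_eq, OfNat.ofNat_ne_zero, not_false_eq_true,
        zero_pow, sub_zero, Real.sqrt_one, Complex.ofReal_one, PiLp.add_apply, PiLp.single_apply,
        PiLp.smul_apply, st_apply, smul_eq_mul, one_mul, ite_self, zero_add]
      by_cases hj : (j : ℕ) = (a : ℕ)
      · rw [if_pos hj, if_pos (Fin.ext hj)]
      · rw [if_neg hj, if_neg (fun h => hj (congrArg Fin.val h))]

/-- The Gram matrix of the standard frame. -/
private theorem fo_gram {k : ℕ} (hk : 2 * k ≤ i) (hn : i ≤ n + k) (a b : Fin i) :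
    (inner ℂ (vf n k a) (vf n k b) : ℂ) =
      fo_c k b * ((starRingEnd ℂ) (fo_c k a) * if fo_d k a = fo_d k b then 1 else 0) := by
  have ha := a.2
  have h1 : fo_d k a < n := by
    unfold fo_d
    split_ifs <;> omega
  rw [fo_vf, fo_vf, inner_smul_left, inner_smul_right, cinner_st _ _ _ h1]
  ring

private theorem fo_gram_ef (hin : i ≤ n) {q : ℕ} (hq : 2 * q ≤ i) (a b : Fin i) :
    (inner ℂ (vf n q a) (vf n q b) : ℂ) =
      inner ℂ (ef hin (fo_sc q) a) (ef hin (fo_sc q) b) := by
  have ha : (a : ℕ) < n := lt_of_lt_of_le a.2 hin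
  have h2 : fo_e q a < n := by
    unfold fo_e
    split_ifs <;> omega
  have h3 : fo_d q a = fo_d q b ↔ fo_e q a = fo_e q b := by
    unfold fo_d fo_e
    constructor <;> intro h <;> split_ifs at h ⊢ <;> omega
  rw [fo_gram hq (by omega), fo_ef, fo_ef, inner_smul_left, inner_smul_right,
    cinner_st _ _ _ h2]
  by_cases h : fo_d q a = fo_d q b
  · rw [if_pos h, if_pos (h3.1 h)]
    ring
  · rw [if_neg h, if_neg fun h' => h (h3.2 h')]
    ring

private theorem fo_dz (hin : i ≤ n) {q : ℕ} (hq : 2 * q ≤ i) (z : ℝ) :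
    dz (fun a : Fin i => vf n q a) z = (1 + z ^ 2) ^ q := by
  have h1 : dz (fun a : Fin i => vf n q a) z = dz (ef hin (fo_sc q)) z := by
    unfold dz
    congr 1
    ext a b
    simp only [Matrix.of_apply]
    unfold om
    rw [rinner_eq, rinner_eq, fo_gram_ef hin hq]
  rw [h1, dz_ef hin (fo_bd q) z]
  have h2 : ∀ m, (1 + z ^ 2 * fo_sc q m ^ 2 : ℝ) = if m < q then 1 + z ^ 2 else 1 := by
    intro m
    unfold fo_sc
    split_ifs <;> simp
  simp only [h2]
  rw [Finset.prod_ite, Finset.prod_const_one, mul_one, Finset.prod_const]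
  congr 1
  have h3 : (Finset.range (i / 2)).filter (fun m => m < q) = Finset.range q := by
    ext m
    simp only [Finset.mem_filter, Finset.mem_range]
    omega
  rw [h3, Finset.card_range]

theorem vf_orth {k : ℕ} (hk : 2 * k ≤ i) (hn : i ≤ n + k) :
    Orthonormal ℝ (fun a : Fin i => vf n k a) := by
  rw [orthonormal_iff_ite]
  intro a b
  rw [rinner_eq, fo_gram hk hn]
  by_cases hab : a = b
  · subst hab
    rw [if_pos rfl, if_pos rfl]
    unfold fo_c
    split_ifs <;> simp
  · rw [if_neg hab]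
    have hab' : (a : ℕ) ≠ b := fun h => hab (Fin.ext h)
    by_cases hd : fo_d k a = fo_d k b
    · rw [if_pos hd, mul_one]
      unfold fo_d at hd
      unfold fo_c
      split_ifs at hd ⊢ <;> first | (exfalso; omega) | simp
    · rw [if_neg hd]
      simp

theorem dz_vf {k : ℕ} (hk : 2 * k ≤ i) (hn : i ≤ n + k) (z : ℝ) :
    dz (fun a : Fin i => vf n k a) z = (1 + z ^ 2) ^ k := by
  rw [← fo_dz (n := n + k) (i := i) hn hk z]
  unfold dz
  congr 1
  ext a b
  simp only [Matrix.of_apply]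
  unfold om
  rw [rinner_eq, rinner_eq, fo_gram hk hn, fo_gram (n := n + k) hk (by omega)]

/-- Product of polynomials with nonnegative coefficients. -/
private theorem fo_coeff {ι : Type*} (s : Finset ι) (c : ι → ℝ) (hc : ∀ k, 0 ≤ c k ∧ c k ≤ 1)
    (q : ℕ) : 0 ≤ (∏ k ∈ s, (Polynomial.C (1 - c k ^ 2) +
      Polynomial.X * Polynomial.C (c k ^ 2))).coeff q := by
  classical
  induction s using Finset.induction_on generalizing q with
  | empty =>
    rw [Finset.prod_empty, Polynomial.coeff_one]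
    split_ifs <;> norm_num
  | insert a s ha ih =>
    rw [Finset.prod_insert ha, Polynomial.coeff_mul]
    refine Finset.sum_nonneg fun x _ => mul_nonneg ?_ (ih _)
    rw [Polynomial.coeff_add, Polynomial.coeff_C, Polynomial.coeff_mul_C, Polynomial.coeff_X]
    have h1 : c a ^ 2 ≤ 1 := pow_le_one₀ (hc a).1 (hc a).2
    have h2 : 0 ≤ c a ^ 2 := sq_nonneg _
    split_ifs <;> linarith

theorem gg_dec (hi : 0 < i) (hin : i ≤ n) {e : Fin i → Cn n} (he : Orthonormal ℝ e) :
    ∃ lam : ℕ → ℝ, (∀ q, 0 ≤ lam q) ∧ ∑ q ∈ Finset.range (i / 2 + 1), lam q = 1 ∧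
      ∀ w : Fin i → Cn n, gg e w =
        ∑ q ∈ Finset.range (i / 2 + 1), lam q * gg (fun a : Fin i => vf n q a) w := by
  obtain ⟨c, hc, hce⟩ := Pool.Agent.H35.ISO.orth_pol he
  obtain ⟨Γ, hΓ⟩ := gg_strA (n := n) (i := i) hi (by omega)
  set P : Polynomial ℝ := ∏ k, (Polynomial.C (1 - c k ^ 2) +
    Polynomial.X * Polynomial.C (c k ^ 2)) with hP
  have hdeg : P.natDegree < i / 2 + 1 := by
    refine Nat.lt_succ_of_le ((Polynomial.natDegree_prod_le _ _).trans ?_)
    refine (Finset.sum_le_card_nsmul _ _ 1 fun k _ => ?_).trans ?_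
    · refine (Polynomial.natDegree_add_le _ _).trans ?_
      rw [Polynomial.natDegree_C]
      refine max_le (Nat.zero_le _) ?_
      exact (Polynomial.natDegree_mul_C_le _ _).trans Polynomial.natDegree_X_le
    · simp
  have hev : ∀ y : ℝ, P.eval y = ∑ q ∈ Finset.range (i / 2 + 1), P.coeff q * y ^ q := fun y =>
    Polynomial.eval_eq_sum_range' hdeg y
  have hdz : ∀ z : ℝ, dz e z = ∑ q ∈ Finset.range (i / 2 + 1),
      P.coeff q * dz (fun a : Fin i => vf n q a) z := by
    intro z
    have h1 : dz e z = P.eval (1 + z ^ 2) := by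
      rw [hce z, hP, Polynomial.eval_prod]
      refine Finset.prod_congr rfl fun k _ => ?_
      rw [Polynomial.eval_add, Polynomial.eval_C, Polynomial.eval_mul, Polynomial.eval_X,
        Polynomial.eval_C]
      ring
    rw [h1, hev]
    refine Finset.sum_congr rfl fun q hq => ?_
    have hq' := Finset.mem_range.1 hq
    rw [dz_vf (by omega) (by omega)]
  refine ⟨fun q => P.coeff q, fun q => fo_coeff _ c hc q, ?_, fun w => ?_⟩
  · have h1 := hev 1
    simp only [one_pow, mul_one] at h1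
    rw [← h1, hP, Polynomial.eval_prod]
    refine Finset.prod_eq_one fun k _ => ?_
    rw [Polynomial.eval_add, Polynomial.eval_C, Polynomial.eval_mul, Polynomial.eval_X,
      Polynomial.eval_C]
    ring
  · rcases frame hi w with ⟨-, h0, -⟩ | ⟨f, t, hf, ht, hGG, -, -⟩
    · have hz : ∀ x : Fin i → Cn n, gg x w = 0 := by
        intro x
        unfold gg
        simp [h0]
      simp [hz]
    · have hs : √(GG w) ≠ 0 := by
        rw [hGG, Real.sqrt_sq ht.le]
        exact ht.ne'
      refine mul_right_cancel₀ hs ?_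
      rw [hΓ e he w, Finset.sum_mul]
      have h1 : ∀ q ∈ Finset.range (i / 2 + 1),
          P.coeff q * gg (fun a : Fin i => vf n q a) w * √(GG w) =
            ∑ l ∈ Finset.range (n + 1), (∑ k ∈ Finset.range (n + 1),
              Γ k l * (P.coeff q * dz (fun a : Fin i => vf n q a) k)) * dz w l := by
        intro q hq
        have hq' := Finset.mem_range.1 hq
        rw [mul_assoc, hΓ _ (vf_orth (n := n) (k := q) (by omega) (by omega)) w, Finset.mul_sum]
        refine Finset.sum_congr rfl fun l _ => ?_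
        rw [← mul_assoc, Finset.mul_sum]
        congr 1
        refine Finset.sum_congr rfl fun k _ => ?_
        ring
      rw [Finset.sum_congr rfl h1, Finset.sum_comm]
      refine Finset.sum_congr rfl fun l _ => ?_
      rw [← Finset.sum_mul]
      congr 1
      rw [Finset.sum_comm]
      refine Finset.sum_congr rfl fun k _ => ?_
      rw [← Finset.mul_sum, ← hdz]

theorem gg_dual {i' x : ℕ} (hii : i + i' = 2 * n) (hi' : 0 < i') (hn : n ≤ i) (hx : 2 * x ≤ i')
    {e : Fin i → Cn n} {e' : Fin i' → Cn n} (hc : Cpl e e') :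
    gg e (fun a : Fin i => vf n (x + i - n) a) = gg e' (fun a : Fin i' => vf n x a) := by
  have hw : Orthonormal ℝ (fun a : Fin i => vf n (x + i - n) a) :=
    vf_orth (by omega) (by omega)
  have hv : Orthonormal ℝ (fun a : Fin i' => vf n x a) := vf_orth (by omega) (by omega)
  obtain ⟨f', hf'⟩ := exists_cpl hii hw
  have hdf : ∀ z : ℝ, dz f' z = (1 + z ^ 2) ^ x := by
    intro z
    have h1 := Cpl.dz_eq hii hf' z
    rw [dz_vf (by omega) (by omega), ← pow_add] at h1
    have h2 : i' + (x + i - n) = n + x := by omega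
    rw [h2, pow_add] at h1
    have h3 : (0 : ℝ) < (1 + z ^ 2) ^ n := by positivity
    exact (mul_left_cancel₀ h3.ne' h1).symm
  obtain ⟨L, hL⟩ := exists_fun (n := n) (i := i') hi' (by omega) hc.2.1
  have hp : ∀ z : ℝ, ((1 + Polynomial.X : Polynomial ℝ) ^ x).eval (z ^ 2) = (1 + z ^ 2) ^ x := by
    intro z
    simp
  have h1 := hL f' ((1 + Polynomial.X) ^ x) (fun z => by rw [hp, hdf])
  have h2 := hL (fun a : Fin i' => vf n x a) ((1 + Polynomial.X) ^ x)
    (fun z => by rw [hp, dz_vf (by omega) (by omega)])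
  rw [GG_orth hf'.2.1, Real.sqrt_one, mul_one] at h1
  rw [GG_orth hv, Real.sqrt_one, mul_one] at h2
  rw [Cpl.gg_eq hii hc hf', h1, h2]

end Pool.Agent.H35.ODD
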