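import Mathlib
import Pool.Agent.H35.ODD.Defs
import Pool.Agent.H35.ODD.OFun
import Pool.Agent.H35.NI.Lin
import Pool.Agent.H35.NI.NFu
import Pool.Agent.H89.EN.GReal

set_option autoImplicit false

/-!
# OPeA: a complex line against the frame of `ℂ^k ⊕ ℝ^(i+2-2k)` (model: `pc_fix` in `H35/ISO/PelC.lean`)

`z = φ s_0`, `w = vf (n+1) k`, `x_b = ⟨φ s_0, w_b⟩`, `y_b = ⟨φ (i s_0), w_b⟩`; orthonormal basis `O` of `ℝ^(i+2)` with
`O_l ⊥ x, y` for `l ≥ 2`, `w'_l = ∑_b O_l b w_b`; `φ⁻¹ w'_l` (`l ≥ 2`) is orthogonal to `s_0, i s_0`, `H_l` = its other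
coordinates (`Cn n`), `⟨lf z, φ⁻¹ w'_l⟩ = ⟨z, H_l⟩`, `H` orthonormal.  `|x|² = sC + aR`, `|y|² = sC + dR`, `x·y = - bR`,
so `gram2(x,y) = √(h1 + h2)` and `|DD X w| = |DD X w'| = √(h1 + h2) |DD z H|`.
`dz H s`: let `G` be the matrix `⟨w_a, w_b⟩ + s om(w_a, w_b)`, `det G = (1+s²)^k`; `T x` the solution of `G T x = x`.
With `X` = the matrix with rows `x, y, O_l` and `Y` = the matrix with columns `T x, T y, O_l`:
`det (X G Y) = det G det (X Y)`; `X G Y` and `X Y` are block triangular, so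
`(h1 + h2) dz H s = det G (⟨x, T x⟩ ⟨y, T y⟩ - ⟨x, T y⟩ ⟨y, T x⟩)`,
`⟨x, T x⟩ = sC/(1+s²) + aR`, `⟨y, T y⟩ = sC/(1+s²) + dR`, the others `± s sC/(1+s²) - bR`; the determinant is
`h1/(1+s²) + h2`.  (For `k = 0`: `sC = 0`, `h1 = 0`.)
-/

open MeasureTheory Pool.Agent.H61.UProj Pool.Agent.H89.CZ Pool.Agent.H35.NI Pool.Agent.H89.EN
open scoped ComplexConjugate

noncomputable section

namespace Pool.Agent.H35.ODD

/-! ### The frame `vf` -/

/-- The coordinate of `vf n k a`. -/
private def ix (k a : ℕ) : ℕ := if a < 2 * k then a / 2 else k + (a - 2 * k)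

/-- The coefficient of `vf n k a`. -/
private def cc (k a : ℕ) : ℂ := if a < 2 * k then (if a % 2 = 0 then 1 else Complex.I) else 1

private theorem vf_eq (n k a : ℕ) : vf n k a = cc k a • st n (ix k a) := by
  unfold vf cc ix
  split_ifs <;> simp

private theorem cinner_vf {n k a : ℕ} (b : ℕ) (ha : ix k a < n) :
    (inner ℂ (vf n k a) (vf n k b) : ℂ) =
      (starRingEnd ℂ) (cc k a) * cc k b * (if ix k a = ix k b then 1 else 0) := by
  rw [vf_eq, vf_eq, inner_smul_left, inner_smul_right, cinner_st n _ _ ha]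
  ring

private theorem ix_lt {n m k a : ℕ} (hk : 2 * k ≤ m) (h : m ≤ n + k) (ha : a < m) :
    ix k a < n := by
  unfold ix
  split_ifs <;> omega

private theorem rinner_vf {n m k : ℕ} (hk : 2 * k ≤ m) (h : m ≤ n + k) (a b : Fin m) :
    (inner ℝ (vf n k a) (vf n k b) : ℝ) = if a = b then 1 else 0 := by
  rw [rinner_eq, cinner_vf _ (ix_lt hk h a.2)]
  by_cases hab : a = b
  · subst hab
    rw [if_pos rfl, if_pos rfl]
    unfold cc
    split_ifs <;> simp
  · rw [if_neg hab]
    by_cases hi : ix k a = ix k b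
    · rw [if_pos hi]
      have hab' : (a : ℕ) ≠ b := fun h => hab (Fin.ext h)
      unfold ix at hi
      unfold cc
      split_ifs at hi ⊢ <;> first | (exfalso; omega) | simp
    · rw [if_neg hi]
      simp

private theorem om_vf {n m k : ℕ} (hk : 2 * k ≤ m) (h : m ≤ n + k) (a b : Fin m) :
    om (vf n k a) (vf n k b) =
      if (a : ℕ) / 2 = (b : ℕ) / 2 ∧ (a : ℕ) / 2 < k ∧ (a : ℕ) ≠ b then
        (if (a : ℕ) % 2 = 0 then 1 else -1) else 0 := by
  unfold om
  rw [cinner_vf _ (ix_lt hk h a.2)]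
  by_cases hi : ix k a = ix k b
  · rw [if_pos hi]
    unfold ix at hi
    unfold cc
    split_ifs at hi ⊢ <;> first | (exfalso; omega) | simp
  · rw [if_neg hi, if_neg]
    · simp
    · rintro ⟨h1, h2, h3⟩
      apply hi
      unfold ix
      rw [if_pos (by omega), if_pos (by omega)]
      exact h1

/-! ### Sums over the frame -/

private theorem sum_even_odd (F : ℕ → ℝ) (k : ℕ) :
    ∑ b ∈ Finset.range (2 * k), F b = ∑ l ∈ Finset.range k, (F (2 * l) + F (2 * l + 1)) := by
  induction k with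
  | zero => simp
  | succ k ih =>
    rw [Finset.sum_range_succ, ← ih, show 2 * (k + 1) = 2 * k + 1 + 1 from by ring,
      Finset.sum_range_succ, Finset.sum_range_succ]
    ring

private theorem sum_frame {N m k : ℕ} (hk : 2 * k ≤ m) (h : m ≤ N + k) (F : ℕ → ℝ) :
    ∑ b : Fin m, F b = (∑ l : Fin N, if (l : ℕ) < k then F (2 * l) + F (2 * l + 1) else 0) +
      ∑ l : Fin N, if k ≤ (l : ℕ) ∧ (l : ℕ) < k + (m - 2 * k) then F (l + k) else 0 := by
  rw [Fin.sum_univ_eq_sum_range (fun b => F b) m,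
    Fin.sum_univ_eq_sum_range (fun l => if l < k then F (2 * l) + F (2 * l + 1) else 0) N,
    Fin.sum_univ_eq_sum_range
      (fun l => if k ≤ l ∧ l < k + (m - 2 * k) then F (l + k) else 0) N,
    ← Finset.sum_filter, ← Finset.sum_filter]
  have h1 : (Finset.range N).filter (fun l => l < k) = Finset.range k := by
    ext l
    simp only [Finset.mem_filter, Finset.mem_range]
    omega
  have h2 : (Finset.range N).filter (fun l => k ≤ l ∧ l < k + (m - 2 * k)) =
      Finset.Ico k (k + (m - 2 * k)) := by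
    ext l
    simp only [Finset.mem_filter, Finset.mem_range, Finset.mem_Ico]
    omega
  rw [h1, h2, ← sum_even_odd, Finset.sum_Ico_eq_sum_range, Nat.add_sub_cancel_left]
  have h3 : m = 2 * k + (m - 2 * k) := by omega
  conv_lhs => rw [h3, Finset.sum_range_add]
  congr 1
  refine Finset.sum_congr rfl fun l _ => ?_
  congr 1
  ring

private theorem sumQ {N m k : ℕ} (hk : 2 * k ≤ m) (h : m ≤ N + k) (z : Cn N) (F : ℕ → ℝ)
    (A p q r : ℝ)
    (h1 : ∀ l : Fin N, (l : ℕ) < k → F (2 * l) + F (2 * l + 1) = A * ‖z l‖ ^ 2)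
    (h2 : ∀ l : Fin N, k ≤ (l : ℕ) → F (l + k) =
      p * (z l).re ^ 2 + q * (z l).im ^ 2 + r * ((z l).re * (z l).im)) :
    ∑ b : Fin m, F b = A * sC k z + p * aR k (m - 2 * k) z + q * dR k (m - 2 * k) z +
      r * bR k (m - 2 * k) z := by
  rw [sum_frame hk h F]
  unfold sC aR dR bR
  conv_rhs => rw [Finset.mul_sum, Finset.mul_sum, Finset.mul_sum, Finset.mul_sum, add_assoc,
    add_assoc, ← Finset.sum_add_distrib, ← Finset.sum_add_distrib]
  congr 1
  · refine Finset.sum_congr rfl fun l _ => ?_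
    by_cases hl : (l : ℕ) < k
    · rw [if_pos hl, if_pos hl, h1 l hl]
    · rw [if_neg hl, if_neg hl, mul_zero]
  · refine Finset.sum_congr rfl fun l _ => ?_
    by_cases hl : k ≤ (l : ℕ) ∧ (l : ℕ) < k + (m - 2 * k)
    · rw [if_pos hl, if_pos hl, if_pos hl, if_pos hl, h2 l hl.1]
      ring
    · rw [if_neg hl, if_neg hl, if_neg hl, if_neg hl]
      ring

/-- The coordinates of `z`. -/
private def ze {N : ℕ} (k : ℕ) (z : Cn N) (b : ℕ) : ℂ := inner ℂ z (vf N k b)

private theorem cin_st {N : ℕ} (z : Cn N) (l : Fin N) : (inner ℂ z (st N l) : ℂ) = conj (z l) := by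
  rw [← inner_conj_symm, inner_st_left]

private theorem ze_even {N : ℕ} (k : ℕ) (z : Cn N) (l : Fin N) (hl : (l : ℕ) < k) :
    ze k z (2 * l) = conj (z l) := by
  unfold ze
  rw [vf, if_pos (by omega), if_pos (by omega), show 2 * (l : ℕ) / 2 = l from by omega, cin_st]

private theorem ze_odd {N : ℕ} (k : ℕ) (z : Cn N) (l : Fin N) (hl : (l : ℕ) < k) :
    ze k z (2 * l + 1) = Complex.I * conj (z l) := by
  unfold ze
  rw [vf, if_pos (by omega), if_neg (by omega), show (2 * (l : ℕ) + 1) / 2 = l from by omega,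
    inner_smul_right, cin_st]

private theorem ze_real {N : ℕ} (k : ℕ) (z : Cn N) (l : Fin N) (hl : k ≤ (l : ℕ)) :
    ze k z (l + k) = conj (z l) := by
  unfold ze
  rw [vf, if_neg (by omega), show k + ((l : ℕ) + k - 2 * k) = l from by omega, cin_st]

/-- `T x` (`c = 1 / (1 + s²)`). -/
private def tx {N : ℕ} (k : ℕ) (z : Cn N) (s : ℝ) (b : ℕ) : ℝ :=
  if b < 2 * k then ((ze k z b).re + s * (ze k z b).im) / (1 + s ^ 2) else (ze k z b).re

private def ty {N : ℕ} (k : ℕ) (z : Cn N) (s : ℝ) (b : ℕ) : ℝ :=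
  if b < 2 * k then ((ze k z b).im - s * (ze k z b).re) / (1 + s ^ 2) else (ze k z b).im

private theorem nsq (w : ℂ) : ‖w‖ ^ 2 = w.re ^ 2 + w.im ^ 2 := by
  rw [Complex.sq_norm, Complex.normSq_apply]
  ring

section sums

variable {N m k : ℕ} (hk : 2 * k ≤ m) (h : m ≤ N + k) (z : Cn N) (s : ℝ)

include hk h

private theorem s_xx : ∑ b : Fin m, (ze k z b).re * (ze k z b).re =
    sC k z + aR k (m - 2 * k) z := by
  rw [sumQ hk h z (fun b => (ze k z b).re * (ze k z b).re) 1 1 0 0]
  · ring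
  · intro l hl
    simp only [ze_even k z l hl, ze_odd k z l hl, nsq]
    simp
    ring
  · intro l hl
    simp only [ze_real k z l hl]
    simp
    ring

private theorem s_yy : ∑ b : Fin m, (ze k z b).im * (ze k z b).im =
    sC k z + dR k (m - 2 * k) z := by
  rw [sumQ hk h z (fun b => (ze k z b).im * (ze k z b).im) 1 0 1 0]
  · ring
  · intro l hl
    simp only [ze_even k z l hl, ze_odd k z l hl, nsq]
    simp
    ring
  · intro l hl
    simp only [ze_real k z l hl]
    simp
    ring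

private theorem s_xy : ∑ b : Fin m, (ze k z b).re * (ze k z b).im = - bR k (m - 2 * k) z := by
  rw [sumQ hk h z (fun b => (ze k z b).re * (ze k z b).im) 0 0 0 (-1)]
  · ring
  · intro l hl
    simp only [ze_even k z l hl, ze_odd k z l hl, nsq]
    simp
    ring
  · intro l hl
    simp only [ze_real k z l hl]
    simp

private theorem s_xtx : ∑ b : Fin m, (ze k z b).re * tx k z s b =
    sC k z / (1 + s ^ 2) + aR k (m - 2 * k) z := by
  have hs : (1 + s ^ 2) ≠ 0 := by positivity
  rw [sumQ hk h z (fun b => (ze k z b).re * tx k z s b) (1 / (1 + s ^ 2)) 1 0 0]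
  · ring
  · intro l hl
    simp only [tx, if_pos (show 2 * (l : ℕ) < 2 * k by omega),
      if_pos (show 2 * (l : ℕ) + 1 < 2 * k by omega), ze_even k z l hl, ze_odd k z l hl, nsq]
    simp
    field_simp
    ring
  · intro l hl
    simp only [tx, if_neg (show ¬ ((l : ℕ) + k < 2 * k) by omega), ze_real k z l hl]
    simp
    ring

private theorem s_yty : ∑ b : Fin m, (ze k z b).im * ty k z s b =
    sC k z / (1 + s ^ 2) + dR k (m - 2 * k) z := by
  have hs : (1 + s ^ 2) ≠ 0 := by positivity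
  rw [sumQ hk h z (fun b => (ze k z b).im * ty k z s b) (1 / (1 + s ^ 2)) 0 1 0]
  · ring
  · intro l hl
    simp only [ty, if_pos (show 2 * (l : ℕ) < 2 * k by omega),
      if_pos (show 2 * (l : ℕ) + 1 < 2 * k by omega), ze_even k z l hl, ze_odd k z l hl, nsq]
    simp
    field_simp
    ring
  · intro l hl
    simp only [ty, if_neg (show ¬ ((l : ℕ) + k < 2 * k) by omega), ze_real k z l hl]
    simp
    ring

private theorem s_xty : ∑ b : Fin m, (ze k z b).re * ty k z s b =
    - (s * sC k z / (1 + s ^ 2)) - bR k (m - 2 * k) z := by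
  have hs : (1 + s ^ 2) ≠ 0 := by positivity
  rw [sumQ hk h z (fun b => (ze k z b).re * ty k z s b) (- s / (1 + s ^ 2)) 0 0 (-1)]
  · ring
  · intro l hl
    simp only [ty, if_pos (show 2 * (l : ℕ) < 2 * k by omega),
      if_pos (show 2 * (l : ℕ) + 1 < 2 * k by omega), ze_even k z l hl, ze_odd k z l hl, nsq]
    simp
    field_simp
    ring
  · intro l hl
    simp only [ty, if_neg (show ¬ ((l : ℕ) + k < 2 * k) by omega), ze_real k z l hl]
    simp

private theorem s_ytx : ∑ b : Fin m, (ze k z b).im * tx k z s b =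
    s * sC k z / (1 + s ^ 2) - bR k (m - 2 * k) z := by
  have hs : (1 + s ^ 2) ≠ 0 := by positivity
  rw [sumQ hk h z (fun b => (ze k z b).im * tx k z s b) (s / (1 + s ^ 2)) 0 0 (-1)]
  · ring
  · intro l hl
    simp only [tx, if_pos (show 2 * (l : ℕ) < 2 * k by omega),
      if_pos (show 2 * (l : ℕ) + 1 < 2 * k by omega), ze_even k z l hl, ze_odd k z l hl, nsq]
    simp
    field_simp
    ring
  · intro l hl
    simp only [tx, if_neg (show ¬ ((l : ℕ) + k < 2 * k) by omega), ze_real k z l hl]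
    simp
    ring

end sums

/-! ### The vectors `T x`, `T y` -/

private theorem ze_next {N : ℕ} (k : ℕ) (z : Cn N) (l : ℕ) (hl : l < k) :
    ze k z (2 * l + 1) = Complex.I * ze k z (2 * l) := by
  unfold ze
  rw [vf, vf, if_pos (by omega), if_neg (by omega), if_pos (by omega), if_pos (by omega),
    show (2 * l + 1) / 2 = l from by omega, show 2 * l / 2 = l from by omega, inner_smul_right]

/-- The matrix `⟨w_a, w_b⟩ + s om(w_a, w_b)`. -/
private def Gm (N m k : ℕ) (s : ℝ) : Matrix (Fin m) (Fin m) ℝ :=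
  Matrix.of fun a b => (inner ℝ (vf N k a) (vf N k b) : ℝ) + s * om (vf N k a) (vf N k b)

private theorem Gm_sum {N m k : ℕ} (hk : 2 * k ≤ m) (h : m ≤ N + k) (s : ℝ) (V : ℕ → ℝ)
    (a : Fin m) : ∑ b : Fin m, Gm N m k s a b * V b = V a + s *
      (if (a : ℕ) / 2 < k then (if (a : ℕ) % 2 = 0 then V (2 * (a / 2) + 1) else - V (2 * (a / 2)))
        else 0) := by
  have h1 : ∀ b : Fin m, Gm N m k s a b * V b = (if a = b then V b else 0) + s *
      ((if (a : ℕ) / 2 = (b : ℕ) / 2 ∧ (a : ℕ) / 2 < k ∧ (a : ℕ) ≠ b then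
        (if (a : ℕ) % 2 = 0 then 1 else -1) else 0) * V b) := by
    intro b
    rw [Gm, Matrix.of_apply, rinner_vf hk h, om_vf hk h]
    split_ifs <;> ring
  rw [Finset.sum_congr rfl fun b _ => h1 b, Finset.sum_add_distrib, Finset.sum_ite_eq,
    if_pos (Finset.mem_univ _), ← Finset.mul_sum]
  congr 2
  by_cases ha : (a : ℕ) / 2 < k
  · rw [if_pos ha]
    have ha' := a.2
    by_cases h2 : (a : ℕ) % 2 = 0
    · rw [if_pos h2, Finset.sum_eq_single (⟨2 * (a / 2) + 1, by omega⟩ : Fin m)]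
      · rw [if_pos (by simp only; omega), if_pos h2, one_mul]
      · intro b _ hb
        rw [if_neg, zero_mul]
        rintro ⟨e1, _, e3⟩
        apply hb
        apply Fin.ext
        simp only
        omega
      · intro hh
        exact absurd (Finset.mem_univ _) hh
    · rw [if_neg h2, Finset.sum_eq_single (⟨2 * (a / 2), by omega⟩ : Fin m)]
      · rw [if_pos (by simp only; omega), if_neg h2, neg_one_mul]
      · intro b _ hb
        rw [if_neg, zero_mul]
        rintro ⟨e1, _, e3⟩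
        apply hb
        apply Fin.ext
        simp only
        omega
      · intro hh
        exact absurd (Finset.mem_univ _) hh
  · rw [if_neg ha]
    refine Finset.sum_eq_zero fun b _ => ?_
    rw [if_neg, zero_mul]
    rintro ⟨_, e2, _⟩
    exact ha e2

private theorem G_tx {N m k : ℕ} (hk : 2 * k ≤ m) (h : m ≤ N + k) (z : Cn N) (s : ℝ)
    (a : Fin m) : ∑ b : Fin m, Gm N m k s a b * tx k z s b = (ze k z a).re := by
  have hs : (1 + s ^ 2) ≠ 0 := by positivity
  rw [Gm_sum hk h s (fun b => tx k z s b) a]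
  by_cases ha : (a : ℕ) / 2 < k
  · rw [if_pos ha]
    have h1 := ze_next k z (a / 2) ha
    by_cases h2 : (a : ℕ) % 2 = 0
    · rw [if_pos h2]
      have h3 : 2 * ((a : ℕ) / 2) = a := by omega
      rw [h3] at h1 ⊢
      simp only [tx, if_pos (show (a : ℕ) < 2 * k by omega),
        if_pos (show (a : ℕ) + 1 < 2 * k by omega), h1]
      simp
      field_simp
      ring
    · rw [if_neg h2]
      have h3 : 2 * ((a : ℕ) / 2) + 1 = a := by omega
      rw [h3] at h1
      simp only [tx, if_pos (show (a : ℕ) < 2 * k by omega),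
        if_pos (show 2 * ((a : ℕ) / 2) < 2 * k by omega), h1]
      simp
      field_simp
      ring
  · rw [if_neg ha]
    simp only [tx, if_neg (show ¬ ((a : ℕ) < 2 * k) by omega)]
    ring

private theorem G_ty {N m k : ℕ} (hk : 2 * k ≤ m) (h : m ≤ N + k) (z : Cn N) (s : ℝ)
    (a : Fin m) : ∑ b : Fin m, Gm N m k s a b * ty k z s b = (ze k z a).im := by
  have hs : (1 + s ^ 2) ≠ 0 := by positivity
  rw [Gm_sum hk h s (fun b => ty k z s b) a]
  by_cases ha : (a : ℕ) / 2 < k
  · rw [if_pos ha]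
    have h1 := ze_next k z (a / 2) ha
    by_cases h2 : (a : ℕ) % 2 = 0
    · rw [if_pos h2]
      have h3 : 2 * ((a : ℕ) / 2) = a := by omega
      rw [h3] at h1 ⊢
      simp only [ty, if_pos (show (a : ℕ) < 2 * k by omega),
        if_pos (show (a : ℕ) + 1 < 2 * k by omega), h1]
      simp
      field_simp
      ring
    · rw [if_neg h2]
      have h3 : 2 * ((a : ℕ) / 2) + 1 = a := by omega
      rw [h3] at h1
      simp only [ty, if_pos (show (a : ℕ) < 2 * k by omega),
        if_pos (show 2 * ((a : ℕ) / 2) < 2 * k by omega), h1]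
      simp
      field_simp
      ring
  · rw [if_neg ha]
    simp only [ty, if_neg (show ¬ ((a : ℕ) < 2 * k) by omega)]
    ring

/-! ### Block determinants -/

private theorem pc_block {q : ℕ} (M : Matrix (Fin (q + 2)) (Fin (q + 2)) ℝ)
    (hM : ∀ l : Fin (q), M 0 l.succ.succ = 0 ∧ M 1 l.succ.succ = 0) :
    M.det = (M 0 0 * M 1 1 - M 0 1 * M 1 0) *
      (Matrix.of fun l k : Fin (q) => M l.succ.succ k.succ.succ).det := by
  let e : Fin 2 ⊕ Fin (q) ≃ Fin (q + 2) := finSumFinEquiv.trans (finCongr (by omega))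
  have e0 : e (Sum.inl 0) = 0 := by
    apply Fin.ext
    simp [e]
  have e1 : e (Sum.inl 1) = 1 := by
    apply Fin.ext
    simp [e]
  have e2 : ∀ l, e (Sum.inr l) = l.succ.succ := by
    intro l
    apply Fin.ext
    simp [e]
  have h1 : M.submatrix e e = Matrix.fromBlocks (!![M 0 0, M 0 1; M 1 0, M 1 1]) 0
      (Matrix.of fun (l : Fin (q)) (j : Fin 2) => M l.succ.succ (e (Sum.inl j)))
      (Matrix.of fun l k : Fin (q) => M l.succ.succ k.succ.succ) := by
    ext i j
    rcases i with i | i <;> rcases j with j | j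
    · fin_cases i <;> fin_cases j <;> simp [e0, e1]
    · fin_cases i
      · simp [e0, e2, (hM j).1]
      · simp [e1, e2, (hM j).2]
    · simp [e2]
    · simp [e2]
  rw [← Matrix.det_submatrix_equiv_self e M, h1, Matrix.det_fromBlocks_zero₁₂,
    Matrix.det_fin_two_of]

private theorem bl_up {q : ℕ} (M : Matrix (Fin (q + 2)) (Fin (q + 2)) ℝ)
    (hM : ∀ l : Fin q, M l.succ.succ 0 = 0 ∧ M l.succ.succ 1 = 0) :
    M.det = (M 0 0 * M 1 1 - M 0 1 * M 1 0) *
      (Matrix.of fun l k : Fin q => M l.succ.succ k.succ.succ).det := by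
  rw [← Matrix.det_transpose, pc_block M.transpose hM,
    ← Matrix.det_transpose (Matrix.of fun l k : Fin q => M l.succ.succ k.succ.succ)]
  simp only [Matrix.transpose_apply]
  congr 1
  ring

private theorem minor_id {q : ℕ} (G R : Matrix (Fin (q + 2)) (Fin (q + 2)) ℝ)
    (x y t u : Fin (q + 2) → ℝ) (hR : R * R.transpose = 1)
    (hx : ∀ l : Fin q, ∑ b, R l.succ.succ b * x b = 0)
    (hy : ∀ l : Fin q, ∑ b, R l.succ.succ b * y b = 0)
    (ht : ∀ a, ∑ b, G a b * t b = x a) (hu : ∀ a, ∑ b, G a b * u b = y a) :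
    ((∑ b, x b * x b) * (∑ b, y b * y b) - (∑ b, x b * y b) * (∑ b, y b * x b)) *
      (Matrix.of fun l k : Fin q => (R * G * R.transpose) l.succ.succ k.succ.succ).det =
    G.det * ((∑ b, x b * t b) * (∑ b, y b * u b) - (∑ b, x b * u b) * (∑ b, y b * t b)) := by
  let X : Matrix (Fin (q + 2)) (Fin (q + 2)) ℝ :=
    Matrix.of (Fin.cons x (Fin.cons y (fun l b => R l.succ.succ b) :
      Fin (q + 1) → Fin (q + 2) → ℝ) : Fin (q + 2) → Fin (q + 2) → ℝ)
  let Y : Matrix (Fin (q + 2)) (Fin (q + 2)) ℝ :=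
    Matrix.of fun b a => (Fin.cons t (Fin.cons u (fun l b => R l.succ.succ b) :
      Fin (q + 1) → Fin (q + 2) → ℝ) : Fin (q + 2) → Fin (q + 2) → ℝ) a b
  have X0 : ∀ b, X 0 b = x b := fun b => rfl
  have X1 : ∀ b, X 1 b = y b := fun b => rfl
  have X2 : ∀ (l : Fin q) b, X l.succ.succ b = R l.succ.succ b := fun l b => rfl
  have Y0 : ∀ b, Y b 0 = t b := fun b => rfl
  have Y1 : ∀ b, Y b 1 = u b := fun b => rfl
  have Y2 : ∀ (l : Fin q) b, Y b l.succ.succ = R l.succ.succ b := fun l b => rfl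
  have hRR : ∀ a c, ∑ b, R a b * R c b = if a = c then 1 else 0 := by
    intro a c
    have := congrFun (congrFun hR a) c
    rw [Matrix.mul_apply, Matrix.one_apply] at this
    simpa [Matrix.transpose_apply] using this
  have hGY0 : ∀ a, (G * Y) a 0 = x a := by
    intro a
    rw [Matrix.mul_apply, ← ht a]
    exact Finset.sum_congr rfl fun b _ => by rw [Y0]
  have hGY1 : ∀ a, (G * Y) a 1 = y a := by
    intro a
    rw [Matrix.mul_apply, ← hu a]
    exact Finset.sum_congr rfl fun b _ => by rw [Y1]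
  have e1 : (X * Y).det = (∑ b, x b * t b) * (∑ b, y b * u b) -
      (∑ b, x b * u b) * (∑ b, y b * t b) := by
    rw [pc_block (X * Y)]
    · have h1 : (Matrix.of fun l k : Fin q => (X * Y) l.succ.succ k.succ.succ) = 1 := by
        ext l k
        rw [Matrix.of_apply, Matrix.mul_apply, Matrix.one_apply]
        simp only [X2, Y2, hRR]
        by_cases hlk : l = k
        · subst hlk
          simp
        · rw [if_neg hlk, if_neg]
          intro h'
          exact hlk (Fin.succ_injective _ (Fin.succ_injective _ h'))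
      rw [h1, Matrix.det_one, mul_one]
      simp only [Matrix.mul_apply, X0, X1, Y0, Y1]
    · intro l
      simp only [Matrix.mul_apply, X0, X1, Y2]
      constructor
      · rw [← hx l]
        exact Finset.sum_congr rfl fun b _ => mul_comm _ _
      · rw [← hy l]
        exact Finset.sum_congr rfl fun b _ => mul_comm _ _
  have e2 : (X * (G * Y)).det = ((∑ b, x b * x b) * (∑ b, y b * y b) -
      (∑ b, x b * y b) * (∑ b, y b * x b)) *
      (Matrix.of fun l k : Fin q => (R * G * R.transpose) l.succ.succ k.succ.succ).det := by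
    rw [bl_up (X * (G * Y))]
    · congr 1
      · simp only [Matrix.mul_apply (M := X), X0, X1, hGY0, hGY1]
      · congr 1
        ext l k
        rw [Matrix.of_apply, Matrix.of_apply, Matrix.mul_assoc, Matrix.mul_apply,
          Matrix.mul_apply]
        refine Finset.sum_congr rfl fun b _ => ?_
        rw [X2, Matrix.mul_apply, Matrix.mul_apply]
        congr 1
    · intro l
      simp only [Matrix.mul_apply (M := X), X2, hGY0, hGY1, hx, hy, and_self]
  rw [← e2, ← e1, Matrix.det_mul, Matrix.det_mul, Matrix.det_mul]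
  ring

/-! ### Change of the frame -/

private theorem om_sum_left {n : ℕ} {ι : Type*} (s : Finset ι) (r : ι → ℝ) (x : ι → Cn n)
    (y : Cn n) : om (∑ b ∈ s, r b • x b) y = ∑ b ∈ s, r b * om (x b) y := by
  classical
  induction s using Finset.induction_on with
  | empty => simp [om]
  | insert a s ha ih =>
    rw [Finset.sum_insert ha, Finset.sum_insert ha, om_add_left, om_smul_left, ih]

private theorem om_sum_right {n : ℕ} {ι : Type*} (s : Finset ι) (r : ι → ℝ) (x : ι → Cn n)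
    (y : Cn n) : om y (∑ b ∈ s, r b • x b) = ∑ b ∈ s, r b * om y (x b) := by
  classical
  induction s using Finset.induction_on with
  | empty => simp [om]
  | insert a s ha ih =>
    rw [Finset.sum_insert ha, Finset.sum_insert ha, om_add_right, om_smul_right, ih]

private theorem comb_entry {m n : ℕ} {x x' : Fin m → Cn n} {R : Matrix (Fin m) (Fin m) ℝ}
    (h : ∀ a, x a = ∑ b, R a b • x' b) (z : ℝ) (a b : Fin m) :
    (inner ℝ (x a) (x b) : ℝ) + z * om (x a) (x b) =
      (R * (Matrix.of fun a b => (inner ℝ (x' a) (x' b) : ℝ) + z * om (x' a) (x' b)) *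
        R.transpose) a b := by
  simp only [Matrix.of_apply, Matrix.mul_apply, Matrix.transpose_apply]
  rw [h a, h b, sum_inner, om_sum_left, Finset.mul_sum, ← Finset.sum_add_distrib]
  simp only [inner_sum, om_sum_right, real_inner_smul_left, real_inner_smul_right,
    Finset.mul_sum, Finset.sum_mul]
  rw [Finset.sum_comm]
  refine Finset.sum_congr rfl fun c _ => ?_
  rw [← Finset.sum_add_distrib]
  refine Finset.sum_congr rfl fun d _ => ?_
  ring

private theorem pc_basis {q : ℕ} (x y : EuclideanSpace ℝ (Fin (q + 2))) :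
    ∃ b : OrthonormalBasis (Fin (q + 2)) ℝ (EuclideanSpace ℝ (Fin (q + 2))),
      ∀ a : Fin (q + 2), 2 ≤ (a : ℕ) →
        (inner ℝ x (b a) : ℝ) = 0 ∧ (inner ℝ y (b a) : ℝ) = 0 := by
  classical
  let S : Submodule ℝ (EuclideanSpace ℝ (Fin (q + 2))) := Submodule.span ℝ (Set.range ![x, y])
  have hS : Module.finrank ℝ S ≤ 2 := by
    have := finrank_range_le_card (R := ℝ) ![x, y]
    simpa [S, Set.finrank] using this
  have hd : q ≤ Module.finrank ℝ Sᗮ := by
    have h1 := Submodule.finrank_add_finrank_orthogonal S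
    rw [finrank_euclideanSpace_fin] at h1
    omega
  have hx : x ∈ S := Submodule.subset_span ⟨0, rfl⟩
  have hy : y ∈ S := Submodule.subset_span ⟨1, rfl⟩
  let g := stdOrthonormalBasis ℝ Sᗮ
  let v : Fin (q + 2) → EuclideanSpace ℝ (Fin (q + 2)) := fun a =>
    if h : 2 ≤ (a : ℕ) then ((g ⟨(a : ℕ) - 2, by omega⟩ : Sᗮ) : EuclideanSpace ℝ _) else 0
  have hva : ∀ (a : Fin (q + 2)) (h : 2 ≤ (a : ℕ)),
      v a = ((g ⟨(a : ℕ) - 2, by omega⟩ : Sᗮ) : EuclideanSpace ℝ _) := fun a h => dif_pos h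
  have hv : Orthonormal ℝ (Set.domRestrict {a : Fin (q + 2) | 2 ≤ (a : ℕ)} v) := by
    rw [orthonormal_iff_ite]
    rintro ⟨a, ha⟩ ⟨c, hc⟩
    have ha' : 2 ≤ (a : ℕ) := ha
    have hc' : 2 ≤ (c : ℕ) := hc
    have h1 := orthonormal_iff_ite.1 g.orthonormal ⟨(a : ℕ) - 2, by omega⟩ ⟨(c : ℕ) - 2, by omega⟩
    rw [Submodule.coe_inner] at h1
    change (inner ℝ (v a) (v c) : ℝ) = _
    rw [hva a ha', hva c hc', h1]
    by_cases hac : a = c
    · subst hac
      simp
    · rw [if_neg, if_neg]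
      · intro h
        exact hac (Subtype.mk.inj h)
      · intro h
        have := Fin.mk.inj h
        exact hac (Fin.ext (by omega))
  obtain ⟨b, hb⟩ := hv.exists_orthonormalBasis_extension_of_card_eq (by simp)
  refine ⟨b, fun a ha => ?_⟩
  rw [hb a ha, hva a ha]
  exact ⟨Submodule.inner_right_of_mem_orthogonal hx (Subtype.mem _),
    Submodule.inner_right_of_mem_orthogonal hy (Subtype.mem _)⟩

/-- An orthogonal matrix whose rows from the third are orthogonal to `x, y`. -/
private theorem exists_R {q : ℕ} (x y : Fin (q + 2) → ℝ) :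
    ∃ R : Matrix (Fin (q + 2)) (Fin (q + 2)) ℝ, R * R.transpose = 1 ∧
      (∀ l : Fin q, ∑ b, R l.succ.succ b * x b = 0) ∧
      ∀ l : Fin q, ∑ b, R l.succ.succ b * y b = 0 := by
  obtain ⟨O, hO⟩ := pc_basis (WithLp.toLp 2 x) (WithLp.toLp 2 y)
  have hinn : ∀ u v : EuclideanSpace ℝ (Fin (q + 2)), (inner ℝ u v : ℝ) = ∑ b, u b * v b := by
    intro u v
    rw [PiLp.inner_apply]
    refine Finset.sum_congr rfl fun b _ => ?_
    simp [mul_comm]
  refine ⟨Matrix.of fun a b => O a b, ?_, fun l => ?_, fun l => ?_⟩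
  · ext a c
    rw [Matrix.mul_apply, Matrix.one_apply]
    simp only [Matrix.transpose_apply, Matrix.of_apply]
    rw [← hinn]
    exact orthonormal_iff_ite.1 O.orthonormal a c
  · have h1 := (hO l.succ.succ (by simp)).1
    rw [hinn] at h1
    rw [← h1]
    refine Finset.sum_congr rfl fun b _ => ?_
    simp [mul_comm]
  · have h1 := (hO l.succ.succ (by simp)).2
    rw [hinn] at h1
    rw [← h1]
    refine Finset.sum_congr rfl fun b _ => ?_
    simp [mul_comm]

private theorem pc_lift {n : ℕ} (u : Cn (n + 1))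
    (h0 : (inner ℝ (st (n + 1) 0) u : ℝ) = 0)
    (h1 : (inner ℝ (Complex.I • st (n + 1) 0) u : ℝ) = 0) :
    ∃ v : Cn n, u = lf v := by
  have h2 : (inner ℂ (st (n + 1) 0) u : ℂ) = u 0 := inner_st_left (n + 1) 0 u
  rw [rinner_eq, h2] at h0
  rw [rinner_eq, inner_smul_left, h2] at h1
  have h3 : (u 0).im = 0 := by
    have : ((starRingEnd ℂ) Complex.I * u 0).re = (u 0).im := by
      simp
    rw [this] at h1
    exact h1
  have h4 : u 0 = 0 := Complex.ext h0 h3
  refine ⟨WithLp.toLp 2 (fun j => u j.succ), ?_⟩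
  ext j
  refine Fin.cases ?_ (fun j => ?_) j
  · rw [lf_zero, h4]
  · rw [lf_succ]

private theorem abs_det_R {m : ℕ} {R : Matrix (Fin m) (Fin m) ℝ} (hR : R * R.transpose = 1) :
    |R.det| = 1 := by
  have h1 : R.det * R.det = 1 := by
    have h2 := congrArg Matrix.det hR
    rw [Matrix.det_mul, Matrix.det_transpose, Matrix.det_one] at h2
    exact h2
  have h3 : |R.det| * |R.det| = 1 := by rw [← abs_mul, h1, abs_one]
  nlinarith [abs_nonneg R.det]

private theorem re_ze {N : ℕ} (k : ℕ) (z : Cn N) (b : ℕ) :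
    (inner ℝ z (vf N k b) : ℝ) = (ze k z b).re := rinner_eq _ _

private theorem im_ze {N : ℕ} (k : ℕ) (z : Cn N) (b : ℕ) :
    (inner ℝ (Complex.I • z) (vf N k b) : ℝ) = (ze k z b).im := by
  rw [rinner_eq, inner_smul_left, ze]
  simp

/-! ### The determinant for fixed `φ` -/

private theorem par {m : ℕ} {R : Matrix (Fin m) (Fin m) ℝ} (hR : R * R.transpose = 1)
    (x y : Fin m → ℝ) :
    ∑ b, x b * y b = ∑ a, (∑ b, R a b * x b) * (∑ c, R a c * y c) := by
  have hR' : R.transpose * R = 1 := mul_eq_one_comm.1 hR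
  have h1 : (R.mulVec x) ⬝ᵥ (R.mulVec y) = x ⬝ᵥ y := by
    rw [Matrix.dotProduct_mulVec, ← Matrix.vecMul_transpose, Matrix.vecMul_vecMul, hR',
      Matrix.vecMul_one]
  simpa [dotProduct, Matrix.mulVec] using h1.symm

private theorem sum2 {q : ℕ} (f : Fin (q + 2) → ℝ) (hf : ∀ l : Fin q, f l.succ.succ = 0) :
    ∑ a, f a = f 0 + f 1 := by
  rw [Fin.sum_univ_succ, Fin.sum_univ_succ, Finset.sum_eq_zero, add_zero]
  · rfl
  · intro l _
    exact hf l

private theorem gram_eq {N : ℕ} (k M : ℕ) (z : Cn N) : h1 k M z + h2 k M z =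
    (sC k z + aR k M z) * (sC k z + dR k M z) - bR k M z ^ 2 := by
  unfold h1 h2
  ring

private theorem core {n i k : ℕ} (h : i + 1 ≤ n) (hk : 2 * k ≤ i + 2) (z : Cn (n + 1))
    {R : Matrix (Fin (i + 2)) (Fin (i + 2)) ℝ} (hR : R * R.transpose = 1)
    (hx : ∀ l : Fin i, ∑ b, R l.succ.succ b * (ze k z b).re = 0)
    (hy : ∀ l : Fin i, ∑ b, R l.succ.succ b * (ze k z b).im = 0)
    (X : Fin (i + 2) → Cn (n + 1)) (hX0 : X 0 = z) (hX1 : X 1 = Complex.I • z) :
    |DD X (fun b : Fin (i + 2) => vf (n + 1) k b)| =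
      √(h1 k (i + 2 - 2 * k) z + h2 k (i + 2 - 2 * k) z) *
        |(Matrix.of fun l j : Fin i => (inner ℝ (X l.succ.succ)
          (∑ b : Fin (i + 2), R j.succ.succ b • vf (n + 1) k b) : ℝ)).det| := by
  set w : Fin (i + 2) → Cn (n + 1) := fun a => ∑ b : Fin (i + 2), R a b • vf (n + 1) k b with hw
  have e1 : DD X w = R.det * DD X (fun b : Fin (i + 2) => vf (n + 1) k b) := by
    rw [DD_comm X, DD_comm X]
    exact DD_comb (fun a => rfl) X
  have e2 : |DD X (fun b : Fin (i + 2) => vf (n + 1) k b)| = |DD X w| := by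
    rw [e1, abs_mul, abs_det_R hR, one_mul]
  have hwx : ∀ a, (inner ℝ (X 0) (w a) : ℝ) = ∑ b, R a b * (ze k z b).re := by
    intro a
    rw [hw, hX0, inner_sum]
    refine Finset.sum_congr rfl fun b _ => ?_
    rw [real_inner_smul_right, re_ze]
  have hwy : ∀ a, (inner ℝ (X 1) (w a) : ℝ) = ∑ b, R a b * (ze k z b).im := by
    intro a
    rw [hw, hX1, inner_sum]
    refine Finset.sum_congr rfl fun b _ => ?_
    rw [real_inner_smul_right, im_ze]
  have e3 : DD X w = ((inner ℝ (X 0) (w 0) : ℝ) * inner ℝ (X 1) (w 1) -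
      (inner ℝ (X 0) (w 1) : ℝ) * inner ℝ (X 1) (w 0)) *
      (Matrix.of fun l j : Fin i => (inner ℝ (X l.succ.succ) (w j.succ.succ) : ℝ)).det := by
    unfold DD
    rw [pc_block]
    · simp only [Matrix.of_apply]
    · intro l
      simp only [Matrix.of_apply]
      exact ⟨by rw [hwx, hx], by rw [hwy, hy]⟩
  have hm : i + 2 ≤ n + 1 + k := by omega
  have p1 := s_xx hk hm z
  have p2 := s_yy hk hm z
  have p3 := s_xy hk hm z
  rw [par hR, sum2 _ (fun l => by rw [hx, zero_mul])] at p1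
  rw [par hR, sum2 _ (fun l => by rw [hy, zero_mul])] at p2
  rw [par hR, sum2 _ (fun l => by rw [hx, zero_mul])] at p3
  rw [e2, e3, abs_mul]
  congr 1
  rw [hwx, hwx, hwy, hwy, ← Real.sqrt_sq_eq_abs, gram_eq, ← p1, ← p2]
  congr 1
  have p4 : bR k (i + 2 - 2 * k) z ^ 2 = (-bR k (i + 2 - 2 * k) z) ^ 2 := by ring
  rw [p4, ← p3]
  ring

theorem fix_odd {n i k : ℕ} (h : i + 1 ≤ n) (hk : 2 * k ≤ i + 2) (φ : Un (n + 1))
    (hpos : 0 < h1 k (i + 2 - 2 * k) (uni φ (st (n + 1) 0)) +
      h2 k (i + 2 - 2 * k) (uni φ (st (n + 1) 0))) :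
    ∃ H : Fin i → Cn n, Orthonormal ℝ H ∧
      (∀ s : ℝ, (h1 k (i + 2 - 2 * k) (uni φ (st (n + 1) 0)) +
          h2 k (i + 2 - 2 * k) (uni φ (st (n + 1) 0))) * dz H s =
        h1 k (i + 2 - 2 * k) (uni φ (st (n + 1) 0)) * (1 + s ^ 2) ^ (k - 1) +
          h2 k (i + 2 - 2 * k) (uni φ (st (n + 1) 0)) * (1 + s ^ 2) ^ k) ∧
      ∀ (z : Fin i → Cn n) (X : Fin (i + 2) → Cn (n + 1)),
        X 0 = uni φ (st (n + 1) 0) → X 1 = uni φ (Complex.I • st (n + 1) 0) →
        (∀ l : Fin i, X l.succ.succ = uni φ (lf (z l))) →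
        |DD X (fun b : Fin (i + 2) => vf (n + 1) k b)| =
          √(h1 k (i + 2 - 2 * k) (uni φ (st (n + 1) 0)) +
            h2 k (i + 2 - 2 * k) (uni φ (st (n + 1) 0))) * |DD z H| := by
  set z := uni φ (st (n + 1) 0) with hz
  have hIz : uni φ (Complex.I • st (n + 1) 0) = Complex.I • z := uni_csmul _ _ _
  have hm : i + 2 ≤ n + 1 + k := by omega
  obtain ⟨R, hR, hx, hy⟩ := exists_R (fun b : Fin (i + 2) => (ze k z b).re)
    (fun b : Fin (i + 2) => (ze k z b).im)
  set w : Fin (i + 2) → Cn (n + 1) := fun a => ∑ b : Fin (i + 2), R a b • vf (n + 1) k b with hw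
  have hwx : ∀ a, (inner ℝ z (w a) : ℝ) = ∑ b, R a b * (ze k z b).re := by
    intro a
    rw [hw, inner_sum]
    refine Finset.sum_congr rfl fun b _ => ?_
    rw [real_inner_smul_right, re_ze]
  have hwy : ∀ a, (inner ℝ (Complex.I • z) (w a) : ℝ) = ∑ b, R a b * (ze k z b).im := by
    intro a
    rw [hw, inner_sum]
    refine Finset.sum_congr rfl fun b _ => ?_
    rw [real_inner_smul_right, im_ze]
  have hlift : ∀ l : Fin i, ∃ v : Cn n, uni φ⁻¹ (w l.succ.succ) = lf v := by
    intro l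
    apply pc_lift
    · rw [← LinearIsometry.inner_map_map (uni φ), uni_uni_inv, ← hz, hwx]
      exact hx l
    · rw [← LinearIsometry.inner_map_map (uni φ), uni_uni_inv, hIz, hwy]
      exact hy l
  choose H hH using hlift
  have hH2 : ∀ l, w l.succ.succ = uni φ (lf (H l)) := fun l => by rw [← hH, uni_uni_inv]
  have hin : ∀ l j, (inner ℝ (H l) (H j) : ℝ) = inner ℝ (w l.succ.succ) (w j.succ.succ) := by
    intro l j
    rw [hH2, hH2, LinearIsometry.inner_map_map, rinner_lf]
  have hom : ∀ l j, om (H l) (H j) = om (w l.succ.succ) (w j.succ.succ) := by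
    intro l j
    rw [hH2, hH2, om_uni, om_lf]
  have hent : ∀ (s : ℝ) (a b : Fin (i + 2)), (inner ℝ (w a) (w b) : ℝ) + s * om (w a) (w b) =
      (R * Gm (n + 1) (i + 2) k s * R.transpose) a b := fun s a b =>
    comb_entry (x' := fun b : Fin (i + 2) => vf (n + 1) k b) (fun a => rfl) s a b
  have hG0 : Gm (n + 1) (i + 2) k 0 = 1 := by
    ext a b
    rw [Gm, Matrix.of_apply, rinner_vf hk hm, Matrix.one_apply]
    ring
  refine ⟨H, ?_, fun s => ?_, fun v X hX0 hX1 hX2 => ?_⟩
  · rw [orthonormal_iff_ite]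
    intro l j
    have h1 := hent 0 l.succ.succ j.succ.succ
    rw [hG0, Matrix.mul_one, hR, Matrix.one_apply, zero_mul, add_zero] at h1
    rw [hin, h1]
    by_cases hlj : l = j
    · subst hlj
      simp
    · rw [if_neg hlj, if_neg]
      intro h'
      exact hlj (Fin.succ_injective _ (Fin.succ_injective _ h'))
  · have hs : (1 + s ^ 2) ≠ 0 := by positivity
    have key := minor_id (Gm (n + 1) (i + 2) k s) R (fun b : Fin (i + 2) => (ze k z b).re)
      (fun b : Fin (i + 2) => (ze k z b).im) (fun b : Fin (i + 2) => tx k z s b)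
      (fun b : Fin (i + 2) => ty k z s b) hR hx hy (G_tx hk hm z s) (G_ty hk hm z s)
    have h1' : (Matrix.of fun l j : Fin i =>
        (R * Gm (n + 1) (i + 2) k s * R.transpose) l.succ.succ j.succ.succ).det = dz H s := by
      unfold dz
      congr 1
      ext l j
      rw [Matrix.of_apply, Matrix.of_apply, hin, hom, hent]
    have h2' : (Gm (n + 1) (i + 2) k s).det = (1 + s ^ 2) ^ k := dz_vf hk hm s
    have h3' : ∑ b : Fin (i + 2), (ze k z b).im * (ze k z b).re = - bR k (i + 2 - 2 * k) z := by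
      rw [← s_xy hk hm z]
      exact Finset.sum_congr rfl fun b _ => mul_comm _ _
    simp only [h1', h2', h3', s_xx hk hm z, s_yy hk hm z, s_xy hk hm z, s_xtx hk hm z s,
      s_yty hk hm z s, s_xty hk hm z s, s_ytx hk hm z s] at key
    have h4' : h1 k (i + 2 - 2 * k) z + h2 k (i + 2 - 2 * k) z =
        (sC k z + aR k (i + 2 - 2 * k) z) * (sC k z + dR k (i + 2 - 2 * k) z) -
          -bR k (i + 2 - 2 * k) z * -bR k (i + 2 - 2 * k) z := by
      rw [gram_eq]
      ring
    rw [h4', key]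
    rcases Nat.eq_zero_or_pos k with hk0 | hk0
    · subst hk0
      have hs0 : sC 0 z = 0 := by
        unfold sC
        simp
      unfold h1 h2
      rw [hs0]
      simp
      ring
    · obtain ⟨j, rfl⟩ : ∃ j, k = j + 1 := ⟨k - 1, by omega⟩
      rw [Nat.add_sub_cancel, pow_succ]
      unfold h1 h2
      field_simp
      ring
  · rw [core h hk z hR hx hy X hX0 (hX1.trans hIz)]
    congr 2
    unfold DD
    congr 1
    ext l j
    rw [Matrix.of_apply, Matrix.of_apply, hX2]
    have h5 := hH2 j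
    rw [hw] at h5
    simp only at h5
    rw [h5, LinearIsometry.inner_map_map, rinner_lf]

theorem fix_zero {n i k : ℕ} (h : i + 1 ≤ n) (hk : 2 * k ≤ i + 2) (φ : Un (n + 1))
    (h0 : h1 k (i + 2 - 2 * k) (uni φ (st (n + 1) 0)) +
      h2 k (i + 2 - 2 * k) (uni φ (st (n + 1) 0)) = 0) (X : Fin (i + 2) → Cn (n + 1))
    (hX0 : X 0 = uni φ (st (n + 1) 0)) (hX1 : X 1 = uni φ (Complex.I • st (n + 1) 0)) :
    DD X (fun b : Fin (i + 2) => vf (n + 1) k b) = 0 := by
  obtain ⟨R, hR, hx, hy⟩ :=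
    exists_R (fun b : Fin (i + 2) => (ze k (uni φ (st (n + 1) 0)) b).re)
      (fun b : Fin (i + 2) => (ze k (uni φ (st (n + 1) 0)) b).im)
  have h1 := core h hk (uni φ (st (n + 1) 0)) hR hx hy X hX0 (hX1.trans (uni_csmul _ _ _))
  rw [h0, Real.sqrt_zero, zero_mul, abs_eq_zero] at h1
  exact h1

end Pool.Agent.H35.ODD
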