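import Mathlib
import Pool.Agent.H35.ODD.OPeA
import Pool.Agent.H35.ODD.OFun
import Pool.Agent.H35.ODD.OMnA

set_option autoImplicit false

/-!
# OPeB: peeling off a complex line (model: `peel_cplx` in `H35/ISO/PelC.lean`)

`exists_embL`, `int_embL`: `gg (s_0, i s_0, lf e) w = ∫_φ ∫_ψ |DD (uni φ (uni (g ψ) …)) w|`; for fixed `φ`, `fix_odd` with
`z = uni ψ (e ·)`: the inner integral is `√(h1 + h2) gg e H`; `exists_fun` for `e` (`i ≤ n`, `i < 2n`): `gg e H = L p_H`,
`(h1 + h2) p_H = h1 (1+X)^(k-1) + h2 (1+X)^k`, `L ((1+X)^m) = gg e (vf n m)` for `2m ≤ i` (`dz_vf`, `vf_orth`, `GG_orth`).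
If `h2 ≠ 0` then `i + 2 - 2k ≥ 2`, so `2k ≤ i`; if `h1 ≠ 0` then `k ≥ 1`, so `2(k-1) ≤ i`.  `fix_zero` if
`h1 + h2 = 0` (`0/0 = 0`).
-/

open MeasureTheory Pool.Agent.H61.UProj Pool.Agent.H89.CZ Pool.Agent.H35.NI Pool.Agent.H89.EN

noncomputable section

namespace Pool.Agent.H35.ODD

private theorem pb_cont {n m : ℕ} (E W : Fin m → Cn n) :
    Continuous (fun φ : Un n => |DD (fun a => uni φ (E a)) W|) := by
  refine Continuous.abs ?_
  have h1 : Continuous (fun φ : Un n => ((fun a => uni φ (E a), W) :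
      (Fin m → Cn n) × (Fin m → Cn n))) :=
    (continuous_pi fun a => continuous_uni (E a)).prodMk continuous_const
  have h2 := (continuous_DD (n := n) (i := m)).comp h1
  exact h2

private theorem pb_small {N k M : ℕ} (hM : M ≤ 1) (z : Cn N) : h2 k M z = 0 := by
  unfold h2 aR dR bR
  by_cases h : ∃ l0 : Fin N, k ≤ (l0 : ℕ) ∧ (l0 : ℕ) < k + M
  · obtain ⟨l0, hl0⟩ := h
    have key : ∀ f : Fin N → ℝ,
        (∑ l : Fin N, if k ≤ (l : ℕ) ∧ (l : ℕ) < k + M then f l else 0) = f l0 := by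
      intro f
      rw [Finset.sum_eq_single l0]
      · rw [if_pos hl0]
      · intro b _ hb
        rw [if_neg]
        rintro ⟨h1, h2⟩
        exact hb (Fin.ext (by omega))
      · intro h
        exact absurd (Finset.mem_univ _) h
    rw [key, key, key]
    ring
  · have key : ∀ f : Fin N → ℝ,
        (∑ l : Fin N, if k ≤ (l : ℕ) ∧ (l : ℕ) < k + M then f l else 0) = 0 := by
      intro f
      refine Finset.sum_eq_zero fun l _ => ?_
      rw [if_neg]
      exact fun hl => h ⟨l, hl⟩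
    rw [key, key, key]
    ring

private theorem pb_div {x y : ℝ} (hx : 0 ≤ x) (hy : 0 ≤ y) : ‖x / √(x + y)‖ ≤ √(x + y) := by
  rw [Real.norm_of_nonneg (div_nonneg hx (Real.sqrt_nonneg _))]
  calc x / √(x + y) ≤ (x + y) / √(x + y) :=
        div_le_div_of_nonneg_right (by linarith) (Real.sqrt_nonneg _)
    _ = √(x + y) := Real.div_sqrt

theorem peel_odd {n i k : ℕ} (hi : 1 ≤ i) (h : i + 1 ≤ n) (hk : 2 * k ≤ i + 2)
    {e : Fin i → Cn n} (he : Orthonormal ℝ e) :
    gg (Fin.cons (st (n + 1) 0) (Fin.cons (Complex.I • st (n + 1) 0) (fun a => lf (e a)) :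
        Fin (i + 1) → Cn (n + 1)) : Fin (i + 2) → Cn (n + 1))
      (fun a : Fin (i + 2) => vf (n + 1) k a) =
    (∫ φ, h1 k (i + 2 - 2 * k) (uni φ (st (n + 1) 0)) /
        √(h1 k (i + 2 - 2 * k) (uni φ (st (n + 1) 0)) +
          h2 k (i + 2 - 2 * k) (uni φ (st (n + 1) 0))) ∂(haarU (n + 1))) *
        gg e (fun a : Fin i => vf n (k - 1) a) +
      (∫ φ, h2 k (i + 2 - 2 * k) (uni φ (st (n + 1) 0)) /
        √(h1 k (i + 2 - 2 * k) (uni φ (st (n + 1) 0)) +
          h2 k (i + 2 - 2 * k) (uni φ (st (n + 1) 0))) ∂(haarU (n + 1))) *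
        gg e (fun a : Fin i => vf n k a) := by
  set E : Fin (i + 2) → Cn (n + 1) :=
    (Fin.cons (st (n + 1) 0) (Fin.cons (Complex.I • st (n + 1) 0) (fun a => lf (e a)) :
        Fin (i + 1) → Cn (n + 1)) : Fin (i + 2) → Cn (n + 1)) with hE
  set w : Fin (i + 2) → Cn (n + 1) := fun a => vf (n + 1) k a with hw
  set a1 : Un (n + 1) → ℝ := fun φ => h1 k (i + 2 - 2 * k) (uni φ (st (n + 1) 0)) with ha1
  set a2 : Un (n + 1) → ℝ := fun φ => h2 k (i + 2 - 2 * k) (uni φ (st (n + 1) 0)) with ha2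
  change gg E w = (∫ φ, a1 φ / √(a1 φ + a2 φ) ∂(haarU (n + 1))) *
        gg e (fun a : Fin i => vf n (k - 1) a) +
      (∫ φ, a2 φ / √(a1 φ + a2 φ) ∂(haarU (n + 1))) * gg e (fun a : Fin i => vf n k a)
  have hE0 : E 0 = st (n + 1) 0 := rfl
  have hE1 : E 1 = Complex.I • st (n + 1) 0 := rfl
  have hE2 : ∀ l : Fin i, E l.succ.succ = lf (e l) := fun l => rfl
  have hn1 : ∀ φ, 0 ≤ a1 φ := fun φ => h1_nonneg _ _ _
  have hn2 : ∀ φ, 0 ≤ a2 φ := fun φ => h2_nonneg _ _ _
  obtain ⟨g, hc, hg⟩ := exists_embL n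
  have hgg : gg E w = ∫ φ, ∫ ψ, |DD (fun a => uni (φ * g ψ) (E a)) w|
        ∂(haarU n) ∂(haarU (n + 1)) :=
    int_embL (pb_cont E _) hc
  obtain ⟨L, hL⟩ := exists_fun (n := n) (i := i) (by omega) (by omega) he
  have hLm : ∀ m, 2 * m ≤ i → L ((1 + Polynomial.X) ^ m) = gg e (fun a : Fin i => vf n m a) := by
    intro m hm
    have h1 := hL (fun a : Fin i => vf n m a) ((1 + Polynomial.X) ^ m) (by
      intro z
      rw [dz_vf hm (by omega)]
      simp)
    rw [GG_orth (vf_orth hm (by omega)), Real.sqrt_one, mul_one] at h1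
    exact h1.symm
  have hin : ∀ φ : Un (n + 1), ∫ ψ, |DD (fun a => uni (φ * g ψ) (E a)) w| ∂(haarU n) =
      a1 φ / √(a1 φ + a2 φ) * gg e (fun a : Fin i => vf n (k - 1) a) +
        a2 φ / √(a1 φ + a2 φ) * gg e (fun a : Fin i => vf n k a) := by
    intro φ
    have hX0 : ∀ ψ, uni (φ * g ψ) (E 0) = uni φ (st (n + 1) 0) := by
      intro ψ
      rw [uni_mul, hE0, (hg ψ).2]
    have hX1 : ∀ ψ, uni (φ * g ψ) (E 1) = uni φ (Complex.I • st (n + 1) 0) := by
      intro ψ
      rw [uni_mul, hE1, uni_csmul, (hg ψ).2]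
    rcases (add_nonneg (hn1 φ) (hn2 φ)).eq_or_lt with h0 | hpos
    · have h3 : ∀ ψ : Un n, |DD (fun a => uni (φ * g ψ) (E a)) w| = 0 := by
        intro ψ
        rw [fix_zero h hk φ h0.symm (fun a => uni (φ * g ψ) (E a)) (hX0 ψ) (hX1 ψ), abs_zero]
      simp only [h3]
      rw [← h0]
      simp
    · obtain ⟨H, hH, hHp, hfix⟩ := fix_odd h hk φ hpos
      have h3 : ∀ ψ : Un n, |DD (fun a => uni (φ * g ψ) (E a)) w| =
          √(a1 φ + a2 φ) * |DD (fun l => uni ψ (e l)) H| := by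
        intro ψ
        refine hfix (fun l => uni ψ (e l)) (fun a => uni (φ * g ψ) (E a)) (hX0 ψ) (hX1 ψ) ?_
        intro l
        rw [uni_mul, hE2, (hg ψ).1]
      simp only [h3]
      rw [integral_const_mul]
      change √(a1 φ + a2 φ) * gg e H = _
      have hS : a1 φ + a2 φ ≠ 0 := hpos.ne'
      have h4 := hL H (Polynomial.C (a1 φ / (a1 φ + a2 φ)) * (1 + Polynomial.X) ^ (k - 1) +
        Polynomial.C (a2 φ / (a1 φ + a2 φ)) * (1 + Polynomial.X) ^ k) (by
          intro s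
          have h5 : (a1 φ + a2 φ) * dz H s = a1 φ * (1 + s ^ 2) ^ (k - 1) +
            a2 φ * (1 + s ^ 2) ^ k := hHp s
          have h6 : dz H s = (a1 φ * (1 + s ^ 2) ^ (k - 1) + a2 φ * (1 + s ^ 2) ^ k) /
              (a1 φ + a2 φ) := by
            rw [← h5, mul_div_cancel_left₀ _ hS]
          rw [h6]
          simp only [Polynomial.eval_add, Polynomial.eval_mul, Polynomial.eval_C,
            Polynomial.eval_pow, Polynomial.eval_one, Polynomial.eval_X]
          rw [add_div]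
          ring)
      rw [GG_orth hH, Real.sqrt_one, mul_one, map_add, ← Polynomial.smul_eq_C_mul,
        ← Polynomial.smul_eq_C_mul, map_smul, map_smul, smul_eq_mul, smul_eq_mul,
        hLm (k - 1) (by omega)] at h4
      rw [h4]
      have hsq : √(a1 φ + a2 φ) ≠ 0 := (Real.sqrt_pos.2 hpos).ne'
      have hss : √(a1 φ + a2 φ) * √(a1 φ + a2 φ) = a1 φ + a2 φ := Real.mul_self_sqrt hpos.le
      have hdiv : ∀ x : ℝ, √(a1 φ + a2 φ) * (x / (a1 φ + a2 φ)) = x / √(a1 φ + a2 φ) := by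
        intro x
        rw [mul_div_assoc', div_eq_div_iff hS hsq, mul_right_comm, hss]
        ring
      by_cases hki : 2 * k ≤ i
      · rw [hLm k hki, mul_add, ← mul_assoc, ← mul_assoc, hdiv, hdiv]
      · have h0 : a2 φ = 0 := pb_small (by omega) _
        rw [mul_add, ← mul_assoc, ← mul_assoc, hdiv, hdiv, h0, zero_div, zero_mul, zero_mul]
  have hc1 : Continuous a1 := (h_cont k (i + 2 - 2 * k)).1.comp (continuous_uni _)
  have hc2 : Continuous a2 := (h_cont k (i + 2 - 2 * k)).2.1.comp (continuous_uni _)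
  have hcs : Continuous (fun φ => √(a1 φ + a2 φ)) := (hc1.add hc2).sqrt
  have hi1 : Integrable (fun φ => a1 φ / √(a1 φ + a2 φ)) (haarU (n + 1)) :=
    (integrable_of_continuous hcs).mono' (hc1.measurable.div hcs.measurable).aestronglyMeasurable
      (Filter.Eventually.of_forall fun φ => pb_div (hn1 φ) (hn2 φ))
  have hi2 : Integrable (fun φ => a2 φ / √(a1 φ + a2 φ)) (haarU (n + 1)) := by
    refine (integrable_of_continuous hcs).mono'
      (hc2.measurable.div hcs.measurable).aestronglyMeasurable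
      (Filter.Eventually.of_forall fun φ => ?_)
    have := pb_div (hn2 φ) (hn1 φ)
    rw [add_comm (a2 φ) (a1 φ)] at this
    exact this
  rw [hgg]
  simp only [hin]
  rw [integral_add (hi1.mul_const _) (hi2.mul_const _), integral_mul_const, integral_mul_const]

end Pool.Agent.H35.ODD
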