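import Mathlib
import Pool.Agent.H35.ODD.OPeB
import Pool.Agent.H35.ODD.OMnB
import Pool.Agent.H35.ISO.AqS

set_option autoImplicit false

/-!
# OBri: the numbers `Fq` satisfy `FH`

`symm`: `gg_symm`.  `pos`: `vf_orth`, `gg_self_pos`.  `step`: `aq_step` (`ISO/AqS`) and `vf n 0 a = st n a`.
`rc`: `vf (n+1) (q+1)` on `Fin (i+2)` is `Fin.cons (st (n+1) 0) (Fin.cons (i st (n+1) 0) (lf (vf n q ·)))` (see
`ISO/AqS`), `vf_orth` (`2q ≤ i ≤ n`), `peel_odd`, `mean_phase1`, `mean_phase2`, `mean_sph` with `i + 2 ≤ n + 1`,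
`M = i + 2 - 2k`, `‖st (n+1) 0‖ = 1`.
-/

open MeasureTheory Pool.Agent.H61.UProj Pool.Agent.H89.CZ Pool.Agent.H35.NI Pool.Agent.H89.EN

noncomputable section

namespace Pool.Agent.H35.ODD

private theorem ob_st_lf (n k : ℕ) : st (n + 1) (k + 1) = lf (st n k) := by
  ext j
  refine Fin.cases ?_ (fun i => ?_) j
  · rw [lf_zero, st_apply]
    simp
  · rw [lf_succ, st_apply, st_apply]
    simp

private theorem ob_vf0 (n k : ℕ) : vf (n + 1) (k + 1) 0 = st (n + 1) 0 := by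
  unfold vf
  rw [if_pos (by omega)]
  simp

private theorem ob_vf1 (n k : ℕ) : vf (n + 1) (k + 1) 1 = Complex.I • st (n + 1) 0 := by
  unfold vf
  rw [if_pos (by omega)]
  simp

private theorem ob_vf2 (n k a : ℕ) : vf (n + 1) (k + 1) (a + 2) = lf (vf n k a) := by
  unfold vf
  by_cases ha : a < 2 * k
  · rw [if_pos ha, if_pos (by omega)]
    have h2 : (a + 2) / 2 = a / 2 + 1 := by omega
    have h3 : (a + 2) % 2 = a % 2 := by omega
    rw [h2, h3, ob_st_lf]
    split_ifs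
    · rfl
    · rw [lf_smul]
  · rw [if_neg ha, if_neg (by omega)]
    have h2 : k + 1 + (a + 2 - 2 * (k + 1)) = (k + (a - 2 * k)) + 1 := by omega
    rw [h2, ob_st_lf]

private theorem ob_vfr (n a : ℕ) : vf n 0 a = st n a := by
  unfold vf
  rw [if_neg (by omega)]
  simp

private theorem ob_cplx (n i k : ℕ) :
    (fun a : Fin (i + 2) => vf (n + 1) (k + 1) a) =
      (Fin.cons (st (n + 1) 0) (Fin.cons (Complex.I • st (n + 1) 0)
        (fun a : Fin i => lf (vf n k a)) : Fin (i + 1) → Cn (n + 1)) :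
        Fin (i + 2) → Cn (n + 1)) := by
  funext a
  refine Fin.cases ?_ (fun b => Fin.cases ?_ (fun c => ?_) b) a
  · exact ob_vf0 n k
  · exact ob_vf1 n k
  · rw [Fin.cons_succ, Fin.cons_succ]
    exact ob_vf2 n k c

private theorem ob_norm (n : ℕ) : ‖st (n + 1) 0‖ = 1 := by
  have h : ‖st (n + 1) 0‖ ^ 2 = 1 := by
    rw [← real_inner_self_eq_norm_sq, rinner_eq, cinner_st _ _ _ (Nat.succ_pos n), if_pos rfl]
    rfl
  exact (pow_eq_one_iff_of_nonneg (norm_nonneg _) two_ne_zero).1 h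

private theorem ob_rc (n i : ℕ) (hi : 1 ≤ i) (hin : i + 1 ≤ n) :
    ∃ c : ℝ, 0 < c ∧ ∀ q k : ℕ, 2 * q ≤ i → 2 * k ≤ i + 2 →
      Fq (n + 1) (i + 2) (q + 1) k = c * (4 * k * ((i : ℝ) + 2 - k) * Fq n i q (k - 1) +
        ((i : ℝ) + 2 - 2 * k) * ((i : ℝ) + 1 - 2 * k) * Fq n i q k) := by
  have hv := ob_norm n
  obtain ⟨c, hc, h⟩ := mean_sph (N := n + 1) (i := i + 2) (by omega) (by omega) hv
  refine ⟨c, hc, fun q k hq hk => ?_⟩
  have hp := peel_odd hi hin hk (vf_orth (n := n) (i := i) (k := q) hq (by omega))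
  obtain ⟨m1, m2⟩ := h k (i + 2 - 2 * k) (by omega)
  rw [mean_phase1 k (i + 2 - 2 * k) hv, mean_phase2 k (i + 2 - 2 * k) hv, m1, m2, ← ob_cplx] at hp
  have hM : ((i + 2 - 2 * k : ℕ) : ℝ) = (i : ℝ) + 2 - 2 * k := by
    rw [Nat.cast_sub hk]
    push_cast
    ring
  rw [hM] at hp
  push_cast at hp
  unfold Fq
  rw [hp]
  ring

theorem fh : FH Fq where
  symm n i q k := gg_symm _ _
  pos n i hi hin := gg_self_pos (vf_orth (by omega) (by omega))
  step n i q hi hq := by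
    have h := Pool.Agent.H35.ISO.aq_step hi hq
    have e : (fun a : Fin i => st n (a : ℕ)) = fun a : Fin i => vf n 0 a :=
      funext fun a => (ob_vfr n a).symm
    rw [e] at h
    exact h
  rc n i hi hin := ob_rc n i hi hin

end Pool.Agent.H35.ODD
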