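import Mathlib
import Pool.Agent.H35.ODD.Defs

set_option autoImplicit false

/-!
# OEz: the random set `Z`

`Finset.prod_add` (`∏ (s_k + (1 - s_k)) = ∑_Z …`), `Finset.prod_ite`.  `EZ_gen`: coordinates in `S`
contribute `s_l x + (1 - s_l)`, the others `1`.  `EZ_ind`: sets with and without `k` in pairs.
-/

open Pool.Agent.H89.CZ

noncomputable section

namespace Pool.Agent.H35.ODD

variable {B : ℕ}

private theorem OEz_univ (f g : Fin B → ℝ) :
    ∑ Z : Finset (Fin B), (∏ k ∈ Z, f k) * ∏ k ∈ Zᶜ, g k = ∏ k, (f k + g k) := by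
  rw [Finset.prod_add, Finset.powerset_univ]
  refine Finset.sum_congr rfl fun Z _ => ?_
  rw [Finset.compl_eq_univ_sdiff]

theorem PZ_nonneg {s : Fin B → ℝ} (hs : ∀ k, 0 ≤ s k ∧ s k ≤ 1) (Z : Finset (Fin B)) :
    0 ≤ PZ s Z := by
  unfold PZ
  refine mul_nonneg (Finset.prod_nonneg fun k _ => (hs k).1) (Finset.prod_nonneg fun k _ => ?_)
  have := (hs k).2
  linarith

theorem PZ_ne {s : Fin B → ℝ} {Z : Finset (Fin B)} (h : PZ s Z ≠ 0) (k : Fin B) (hk : s k = 1) :
    k ∈ Z := by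
  by_contra hkZ
  apply h
  unfold PZ
  have h1 : ∏ k ∈ Zᶜ, (1 - s k) = 0 :=
    Finset.prod_eq_zero (Finset.mem_compl.mpr hkZ) (by rw [hk, sub_self])
  rw [h1, mul_zero]

theorem EZ_const (s : Fin B → ℝ) (x : ℝ) : EZ s (fun _ => x) = x := by
  unfold EZ PZ
  rw [← Finset.sum_mul, OEz_univ]
  have h : ∏ k, (s k + (1 - s k)) = 1 := Finset.prod_eq_one fun k _ => by ring
  rw [h, one_mul]

theorem EZ_add (s : Fin B → ℝ) (g h : Finset (Fin B) → ℝ) :
    EZ s (fun Z => g Z + h Z) = EZ s g + EZ s h := by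
  unfold EZ
  rw [← Finset.sum_add_distrib]
  exact Finset.sum_congr rfl fun Z _ => mul_add _ _ _

theorem EZ_mul (s : Fin B → ℝ) (x : ℝ) (g : Finset (Fin B) → ℝ) :
    EZ s (fun Z => x * g Z) = x * EZ s g := by
  unfold EZ
  rw [Finset.mul_sum]
  exact Finset.sum_congr rfl fun Z _ => by ring

theorem EZ_sum (s : Fin B → ℝ) {ι : Type*} (T : Finset ι) (g : ι → Finset (Fin B) → ℝ) :
    EZ s (fun Z => ∑ t ∈ T, g t Z) = ∑ t ∈ T, EZ s (g t) := by
  unfold EZ
  rw [Finset.sum_comm]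
  exact Finset.sum_congr rfl fun Z _ => Finset.mul_sum _ _ _

theorem EZ_mono {s : Fin B → ℝ} (hs : ∀ k, 0 ≤ s k ∧ s k ≤ 1) {g h : Finset (Fin B) → ℝ}
    (hgh : ∀ Z, PZ s Z ≠ 0 → g Z ≤ h Z) : EZ s g ≤ EZ s h := by
  unfold EZ
  refine Finset.sum_le_sum fun Z _ => ?_
  by_cases hZ : PZ s Z = 0
  · rw [hZ, zero_mul, zero_mul]
  · exact mul_le_mul_of_nonneg_left (hgh Z hZ) (PZ_nonneg hs Z)

private theorem OEz_split (k : Fin B) (f : Finset (Fin B) → ℝ) :
    ∑ Z : Finset (Fin B), f Z =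
      ∑ Z ∈ (Finset.univ.erase k).powerset, f Z +
        ∑ Z ∈ (Finset.univ.erase k).powerset, f (insert k Z) := by
  rw [← Finset.sum_powerset_insert (Finset.notMem_erase k Finset.univ),
    Finset.insert_erase (Finset.mem_univ k), Finset.powerset_univ]

/-- `k ∈ Z` is independent of `Z ∖ k`. -/
theorem EZ_ind (s : Fin B → ℝ) (k : Fin B) (g : Finset (Fin B) → ℝ) :
    EZ s (fun Z => if k ∈ Z then g (Z.erase k) else 0) = s k * EZ s (fun Z => g (Z.erase k)) := by
  unfold EZ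
  rw [OEz_split k, OEz_split k]
  have hk : ∀ Z ∈ (Finset.univ.erase k).powerset, k ∉ Z := fun Z hZ h =>
    Finset.notMem_erase k Finset.univ (Finset.mem_powerset.mp hZ h)
  have h1 : ∑ Z ∈ (Finset.univ.erase k).powerset,
      PZ s Z * (if k ∈ Z then g (Z.erase k) else 0) = 0 := by
    refine Finset.sum_eq_zero fun Z hZ => ?_
    rw [if_neg (hk Z hZ), mul_zero]
  rw [h1, zero_add, ← Finset.sum_add_distrib, Finset.mul_sum]
  refine Finset.sum_congr rfl fun Z hZ => ?_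
  have hkZ := hk Z hZ
  have h2 : PZ s (insert k Z) = s k * ((∏ l ∈ Z, s l) * ∏ l ∈ (insert k Z)ᶜ, (1 - s l)) := by
    unfold PZ
    rw [Finset.prod_insert hkZ]
    ring
  have h3 : PZ s Z = (1 - s k) * ((∏ l ∈ Z, s l) * ∏ l ∈ (insert k Z)ᶜ, (1 - s l)) := by
    unfold PZ
    have h4 : Zᶜ = insert k (insert k Z)ᶜ := by
      ext l
      simp only [Finset.mem_compl, Finset.mem_insert]
      by_cases hl : l = k
      · simp [hl, hkZ]
      · simp [hl]
    have h5 : k ∉ (insert k Z)ᶜ := by simp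
    rw [h4, Finset.prod_insert h5]
    ring
  beta_reduce
  rw [if_pos (Finset.mem_insert_self k Z), Finset.erase_insert hkZ, Finset.erase_eq_of_notMem hkZ,
    h2, h3]
  ring

theorem EZ_gen (s : Fin B → ℝ) (S : Finset (Fin B)) (x : ℝ) :
    EZ s (fun Z => x ^ (Z ∩ S).card) = ∏ l ∈ S, (1 + (x - 1) * s l) := by
  have h1 : ∏ l ∈ S, (1 + (x - 1) * s l) =
      ∏ l, (s l * (if l ∈ S then x else 1) + (1 - s l)) := by
    rw [← Finset.univ_inter S, ← Finset.prod_ite_mem]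
    refine Finset.prod_congr rfl fun l _ => ?_
    split_ifs with h h' h'
    · ring
    · exact absurd (by simpa using h) h'
    · exact absurd (by simpa using h') h
    · ring
  rw [h1, ← OEz_univ]
  unfold EZ PZ
  refine Finset.sum_congr rfl fun Z _ => ?_
  rw [Finset.prod_mul_distrib, Finset.prod_ite_mem, Finset.prod_const]
  ring

end Pool.Agent.H35.ODD
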