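import Mathlib
import Pool.Agent.H35.ODD.OEz

set_option autoImplicit false

/-!
# OCr: the cross terms

`s_k = c_k²`, `X_jk = |Z ∖ {j,k}|`, `l(x) = φ(x+1) - φ(x) = l⁺ - l⁻`.
(a) For `H = E[1_{|Z| ≥ 2} l⁺(|Z|-2) (∑_{k ∈ Z} e_k/c_k)²] ≥ 0` (`x/0 = 0`): off-diagonal part
`∑_{j≠k} e_j e_k c_j c_k E l⁺(X_jk)` (`EZ_ind` twice; both sides `0` if `c_j c_k = 0`), diagonal part
`≤ ∑_k e_k² E[1_{|Z∖k| ≥ 1} l⁺(|Z∖k|-1)]`, and `|Z∖k| = |Z|` for `k ∉ Z`, `|Z| - 1` for `k ∈ Z`.
(b) `e_j e_k c_j c_k ≤ (e_j² s_j N_k/N_j + e_k² s_k N_j/N_k)/2` (if `N_j = 0` then `e_j = 0`), so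
`∑_{j≠k} e_j e_k c_j c_k E l⁻(X_jk) ≤ ∑_j (e_j²/N_j) ∑_{k≠j} N_k s_j E l⁻(X_jk)` (symmetry) and
`s_j E l⁻(X_jk) = E[1_{j∈Z} (l⁻(|Z|-1) if k ∉ Z, l⁻(|Z|-2) if k ∈ Z)]` (`EZ_ind`).
`l⁺(|Z|-1) = max 0 (φ|Z| - φ(|Z|-1))` etc.
-/

open Pool.Agent.H89.CZ

noncomputable section

namespace Pool.Agent.H35.ODD

variable {B : ℕ}

private theorem EZ_ind2 (s : Fin B → ℝ) {j k : Fin B} (hjk : j ≠ k) (f : ℕ → ℝ) :
    EZ s (fun Z => if j ∈ Z ∧ k ∈ Z then f ((Z.erase j).erase k).card else 0) =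
      s j * s k * EZ s (fun Z => f ((Z.erase j).erase k).card) := by
  have h1 : (fun Z : Finset (Fin B) => if j ∈ Z ∧ k ∈ Z then f ((Z.erase j).erase k).card else 0) =
      fun Z => if j ∈ Z then (fun W : Finset (Fin B) => if k ∈ W then f (W.erase k).card else 0)
        (Z.erase j) else 0 := by
    funext Z
    by_cases hj : j ∈ Z <;> by_cases hk : k ∈ Z <;> simp [hj, hk, hjk.symm]
  rw [h1, EZ_ind s j (fun W : Finset (Fin B) => if k ∈ W then f (W.erase k).card else 0)]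
  have h2 : (fun Z : Finset (Fin B) => if k ∈ Z.erase j then f ((Z.erase j).erase k).card else 0) =
      fun Z => if k ∈ Z then (fun W : Finset (Fin B) => f (W.erase j).card) (Z.erase k) else 0 := by
    funext Z
    by_cases hk : k ∈ Z <;> simp [hk, hjk.symm, Finset.erase_right_comm (a := j) (b := k)]
  rw [h2, EZ_ind s k (fun W : Finset (Fin B) => f (W.erase j).card), ← mul_assoc]
  congr 2
  funext Z
  rw [Finset.erase_right_comm]

private theorem EZ_nonneg {s : Fin B → ℝ} (hs : ∀ k, 0 ≤ s k ∧ s k ≤ 1)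
    {g : Finset (Fin B) → ℝ} (hg : ∀ Z, 0 ≤ g Z) : 0 ≤ EZ s g := by
  have h := EZ_mono hs (g := fun _ => 0) (h := g) (fun Z _ => hg Z)
  rwa [EZ_const] at h

/-- The function of the diagonal part. -/
private def gd (f : ℕ → ℝ) (x : ℕ) : ℝ := if 1 ≤ x then f (x - 1) else 0

private theorem gd_nonneg {f : ℕ → ℝ} (hf : ∀ x, 0 ≤ f x) (x : ℕ) : 0 ≤ gd f x := by
  unfold gd
  split_ifs
  · exact hf _
  · exact le_rfl

private theorem point_a (c e : Fin B → ℝ) (f : ℕ → ℝ) (Z : Finset (Fin B)) :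
    (if 2 ≤ Z.card then f (Z.card - 2) else 0) * (∑ k ∈ Z, e k / c k) ^ 2 =
      ∑ j, ∑ k ∈ Finset.univ.erase j, (e j / c j * (e k / c k)) *
        (if j ∈ Z ∧ k ∈ Z then f ((Z.erase j).erase k).card else 0) +
      ∑ k, (e k / c k) ^ 2 * (if k ∈ Z then gd f (Z.erase k).card else 0) := by
  have h1 : (∑ k ∈ Z, e k / c k) ^ 2 = ∑ j ∈ Z, ∑ k ∈ Z.erase j, (e j / c j * (e k / c k)) +
      ∑ k ∈ Z, (e k / c k) ^ 2 := by
    rw [sq, Finset.sum_mul_sum, ← Finset.sum_add_distrib]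
    refine Finset.sum_congr rfl fun j hj => ?_
    rw [← Finset.sum_erase_add _ _ hj, sq]
  have h2 : ∀ j, ∑ k ∈ Finset.univ.erase j, (e j / c j * (e k / c k)) *
      (if j ∈ Z ∧ k ∈ Z then f ((Z.erase j).erase k).card else 0) =
      if j ∈ Z then ∑ k ∈ Z.erase j, (e j / c j * (e k / c k)) * f ((Z.erase j).erase k).card
        else 0 := by
    intro j
    by_cases hj : j ∈ Z
    · rw [if_pos hj]
      symm
      have hsub : Z.erase j ⊆ Finset.univ.erase j := Finset.erase_subset_erase _ (Finset.subset_univ _)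
      rw [← Finset.sum_subset hsub (f := fun k => (e j / c j * (e k / c k)) *
        (if j ∈ Z ∧ k ∈ Z then f ((Z.erase j).erase k).card else 0))]
      · refine Finset.sum_congr rfl fun k hk => ?_
        rw [if_pos ⟨hj, Finset.mem_of_mem_erase hk⟩]
      · intro k hk hk'
        have : k ∉ Z := fun h => hk' (Finset.mem_erase.2 ⟨Finset.ne_of_mem_erase hk, h⟩)
        simp [this]
    · simp [hj]
  simp_rw [h2]
  rw [← Finset.sum_filter, Finset.filter_mem_eq_inter, Finset.univ_inter, h1, mul_add]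
  congr 1
  · rw [Finset.mul_sum]
    refine Finset.sum_congr rfl fun j hj => ?_
    rw [Finset.mul_sum]
    refine Finset.sum_congr rfl fun k hk => ?_
    have hk2 : k ∈ Z.erase j := hk
    have hc1 : ((Z.erase j).erase k).card = Z.card - 2 := by
      rw [Finset.card_erase_of_mem hk2, Finset.card_erase_of_mem hj]
      omega
    have hc2 : 2 ≤ Z.card := by
      have h3 := Finset.card_pos.2 ⟨k, hk2⟩
      rw [Finset.card_erase_of_mem hj] at h3
      omega
    rw [if_pos hc2, hc1]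
    ring
  · rw [Finset.mul_sum]
    have h4 : ∑ k, (e k / c k) ^ 2 * (if k ∈ Z then gd f (Z.erase k).card else 0) =
        ∑ k ∈ Z, (e k / c k) ^ 2 * gd f (Z.erase k).card := by
      simp_rw [mul_ite, mul_zero]
      rw [← Finset.sum_filter, Finset.filter_mem_eq_inter, Finset.univ_inter]
    rw [h4]
    refine Finset.sum_congr rfl fun k hk => ?_
    have h5 : (if 2 ≤ Z.card then f (Z.card - 2) else 0) = gd f (Z.erase k).card := by
      unfold gd
      rw [Finset.card_erase_of_mem hk]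
      have h6 : (2 ≤ Z.card) ↔ (1 ≤ Z.card - 1) := by omega
      by_cases h7 : 2 ≤ Z.card
      · rw [if_pos h7, if_pos (h6.1 h7)]
        congr 1
      · rw [if_neg h7, if_neg (fun h => h7 (h6.2 h))]
    rw [h5]
    ring

private theorem diag_a (e : Fin B → ℝ) (f : ℕ → ℝ) (Z : Finset (Fin B)) :
    ∑ k, e k ^ 2 * gd f (Z.erase k).card =
      (if 1 ≤ Z.card then f (Z.card - 1) else 0) * ∑ k ∈ Zᶜ, e k ^ 2 +
        (if 2 ≤ Z.card then f (Z.card - 2) else 0) * ∑ k ∈ Z, e k ^ 2 := by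
  rw [← Finset.sum_compl_add_sum Z, Finset.mul_sum, Finset.mul_sum]
  congr 1
  · refine Finset.sum_congr rfl fun k hk => ?_
    rw [Finset.erase_eq_of_notMem (Finset.mem_compl.1 hk)]
    unfold gd
    ring
  · refine Finset.sum_congr rfl fun k hk => ?_
    have h5 : (if 2 ≤ Z.card then f (Z.card - 2) else 0) = gd f (Z.erase k).card := by
      unfold gd
      rw [Finset.card_erase_of_mem hk]
      have h6 : (2 ≤ Z.card) ↔ (1 ≤ Z.card - 1) := by omega
      by_cases h7 : 2 ≤ Z.card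
      · rw [if_pos h7, if_pos (h6.1 h7)]
        congr 1
      · rw [if_neg h7, if_neg (fun h => h7 (h6.2 h))]
    rw [h5]
    ring

private theorem cross_a {c : Fin B → ℝ} (hc : ∀ k, 0 ≤ c k ∧ c k ≤ 1) (e : Fin B → ℝ)
    {f : ℕ → ℝ} (hf : ∀ x, 0 ≤ f x) :
    -(EZ (fun k => c k ^ 2) (fun Z =>
        (if 1 ≤ Z.card then f (Z.card - 1) else 0) * ∑ k ∈ Zᶜ, e k ^ 2 +
        (if 2 ≤ Z.card then f (Z.card - 2) else 0) * ∑ k ∈ Z, e k ^ 2)) ≤
      ∑ j, ∑ k ∈ Finset.univ.erase j, c j * c k *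
        EZ (fun k => c k ^ 2) (fun Z => f ((Z.erase j).erase k).card) * (e j * e k) := by
  set s : Fin B → ℝ := fun k => c k ^ 2 with hsdef
  have hs : ∀ k, 0 ≤ s k ∧ s k ≤ 1 := fun k =>
    ⟨sq_nonneg _, by simpa [hsdef] using pow_le_one₀ (n := 2) (hc k).1 (hc k).2⟩
  have hH : 0 ≤ EZ s (fun Z => (if 2 ≤ Z.card then f (Z.card - 2) else 0) *
      (∑ k ∈ Z, e k / c k) ^ 2) := by
    refine EZ_nonneg hs fun Z => mul_nonneg ?_ (sq_nonneg _)
    split_ifs
    · exact hf _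
    · exact le_rfl
  simp_rw [point_a c e f] at hH
  rw [EZ_add, EZ_sum, EZ_sum] at hH
  have h1 : ∀ j, EZ s (fun Z => ∑ k ∈ Finset.univ.erase j, (e j / c j * (e k / c k)) *
        (if j ∈ Z ∧ k ∈ Z then f ((Z.erase j).erase k).card else 0)) =
      ∑ k ∈ Finset.univ.erase j, c j * c k *
        EZ s (fun Z => f ((Z.erase j).erase k).card) * (e j * e k) := by
    intro j
    rw [EZ_sum]
    refine Finset.sum_congr rfl fun k hk => ?_
    rw [EZ_mul, EZ_ind2 s (Finset.ne_of_mem_erase hk).symm]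
    have hcj : c j ^ 2 * (e j / c j) = c j * e j := by
      rcases eq_or_ne (c j) 0 with h | h
      · simp [h]
      · field_simp
    have hck : c k ^ 2 * (e k / c k) = c k * e k := by
      rcases eq_or_ne (c k) 0 with h | h
      · simp [h]
      · field_simp
    calc e j / c j * (e k / c k) * (s j * s k * EZ s fun Z => f ((Z.erase j).erase k).card)
        = (c j ^ 2 * (e j / c j)) * (c k ^ 2 * (e k / c k)) *
          EZ s (fun Z => f ((Z.erase j).erase k).card) := by simp only [hsdef]; ring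
      _ = _ := by rw [hcj, hck]; ring
  simp_rw [h1] at hH
  have h2 : ∀ k, EZ s (fun Z => (e k / c k) ^ 2 * (if k ∈ Z then gd f (Z.erase k).card else 0)) ≤
      EZ s (fun Z => e k ^ 2 * gd f (Z.erase k).card) := by
    intro k
    rw [EZ_mul, EZ_ind s k (fun W => gd f W.card), EZ_mul, ← mul_assoc]
    refine mul_le_mul_of_nonneg_right ?_ (EZ_nonneg hs fun Z => gd_nonneg hf _)
    rcases eq_or_ne (c k) 0 with h | h
    · simp only [h, div_zero]
      nlinarith [sq_nonneg (e k)]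
    · have : (e k / c k) ^ 2 * s k = e k ^ 2 := by
        simp only [hsdef]
        field_simp
      exact this.le
  have h3 := Finset.sum_le_sum (fun k (_ : k ∈ Finset.univ) => h2 k)
  have h4 : ∑ k, EZ s (fun Z => e k ^ 2 * gd f (Z.erase k).card) = EZ s (fun Z =>
        (if 1 ≤ Z.card then f (Z.card - 1) else 0) * ∑ k ∈ Zᶜ, e k ^ 2 +
        (if 2 ≤ Z.card then f (Z.card - 2) else 0) * ∑ k ∈ Z, e k ^ 2) := by
    rw [← EZ_sum]
    congr 1
    funext Z
    exact diag_a e f Z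
  rw [← h4]
  linarith

private theorem am_gm {x y : ℝ} {M N : ℕ} (hx : M = 0 → x = 0) (hy : N = 0 → y = 0) :
    x * y ≤ (x ^ 2 * (N / M) + y ^ 2 * (M / N)) / 2 := by
  rcases Nat.eq_zero_or_pos M with hM | hM
  · rw [hx hM]
    have : (0 : ℝ) ≤ y ^ 2 * (M / N) := by positivity
    simp only [zero_mul, ne_eq, OfNat.ofNat_ne_zero, not_false_eq_true, zero_pow]
    linarith
  rcases Nat.eq_zero_or_pos N with hN | hN
  · rw [hy hN]
    have : (0 : ℝ) ≤ x ^ 2 * (N / M) := by positivity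
    simp only [mul_zero, ne_eq, OfNat.ofNat_ne_zero, not_false_eq_true, zero_pow, zero_mul]
    linarith
  · have hM' : (0 : ℝ) < M := by exact_mod_cast hM
    have hN' : (0 : ℝ) < N := by exact_mod_cast hN
    have h : (x ^ 2 * (N / M) + y ^ 2 * (M / N)) / 2 - x * y = (x * N - y * M) ^ 2 / (2 * M * N) := by
      field_simp
      ring
    have h2 : 0 ≤ (x * N - y * M) ^ 2 / (2 * M * N) := by positivity
    linarith

private theorem point_b (e : Fin B → ℝ) (N : Fin B → ℕ) (f : ℕ → ℝ) (Z : Finset (Fin B)) :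
    ∑ j, ∑ k ∈ Finset.univ.erase j, (e j ^ 2 / N j * N k) *
        (if j ∈ Z then f ((Z.erase j).erase k).card else 0) =
      ∑ k ∈ Z, e k ^ 2 / N k * (f (Z.card - 1) * ∑ l ∈ Zᶜ, (N l : ℝ) +
        f (Z.card - 2) * ∑ l ∈ Z.erase k, (N l : ℝ)) := by
  have h1 : ∀ j, ∑ k ∈ Finset.univ.erase j, (e j ^ 2 / N j * N k) *
        (if j ∈ Z then f ((Z.erase j).erase k).card else 0) =
      if j ∈ Z then ∑ k ∈ Finset.univ.erase j, (e j ^ 2 / N j * N k) *
        f ((Z.erase j).erase k).card else 0 := by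
    intro j
    by_cases hj : j ∈ Z <;> simp [hj]
  simp_rw [h1]
  rw [← Finset.sum_filter, Finset.filter_mem_eq_inter, Finset.univ_inter]
  refine Finset.sum_congr rfl fun j hj => ?_
  have h2 : Finset.univ.erase j = Zᶜ ∪ Z.erase j := by
    ext k
    simp only [Finset.mem_erase, Finset.mem_univ, Finset.mem_union, Finset.mem_compl]
    constructor
    · intro h
      by_cases hk : k ∈ Z
      · exact Or.inr ⟨h.1, hk⟩
      · exact Or.inl hk
    · rintro (h | h)
      · exact ⟨fun h' => h (h' ▸ hj), trivial⟩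
      · exact ⟨h.1, trivial⟩
  have h3 : Disjoint Zᶜ (Z.erase j) := by
    rw [Finset.disjoint_left]
    intro k hk hk'
    exact Finset.mem_compl.1 hk (Finset.mem_of_mem_erase hk')
  rw [h2, Finset.sum_union h3, mul_add, Finset.mul_sum, Finset.mul_sum, Finset.mul_sum,
    Finset.mul_sum]
  congr 1
  · refine Finset.sum_congr rfl fun k hk => ?_
    have hk' : k ∉ Z.erase j := fun h => Finset.mem_compl.1 hk (Finset.mem_of_mem_erase h)
    rw [Finset.erase_eq_of_notMem hk', Finset.card_erase_of_mem hj]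
    ring
  · refine Finset.sum_congr rfl fun k hk => ?_
    have hc1 : ((Z.erase j).erase k).card = Z.card - 2 := by
      rw [Finset.card_erase_of_mem hk, Finset.card_erase_of_mem hj]
      omega
    rw [hc1]
    ring

private theorem cross_b {c : Fin B → ℝ} (hc : ∀ k, 0 ≤ c k ∧ c k ≤ 1) (e : Fin B → ℝ)
    (N : Fin B → ℕ) (he : ∀ k, N k = 0 → e k = 0) {f : ℕ → ℝ} (hf : ∀ x, 0 ≤ f x) :
    ∑ j, ∑ k ∈ Finset.univ.erase j, c j * c k *
        EZ (fun k => c k ^ 2) (fun Z => f ((Z.erase j).erase k).card) * (e j * e k) ≤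
      EZ (fun k => c k ^ 2) (fun Z =>
        ∑ k ∈ Z, e k ^ 2 / N k * (f (Z.card - 1) * ∑ l ∈ Zᶜ, (N l : ℝ) +
          f (Z.card - 2) * ∑ l ∈ Z.erase k, (N l : ℝ))) := by
  set s : Fin B → ℝ := fun k => c k ^ 2 with hsdef
  have hs : ∀ k, 0 ≤ s k ∧ s k ≤ 1 := fun k =>
    ⟨sq_nonneg _, by simpa [hsdef] using pow_le_one₀ (n := 2) (hc k).1 (hc k).2⟩
  set X : Fin B → Fin B → ℝ := fun j k => EZ s (fun Z => f ((Z.erase j).erase k).card) with hX
  have hXs : ∀ j k, X j k = X k j := by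
    intro j k
    simp only [hX]
    congr 1
    funext Z
    rw [Finset.erase_right_comm]
  have hX0 : ∀ j k, 0 ≤ X j k := fun j k => EZ_nonneg hs fun Z => hf _
  have h1 : ∑ j, ∑ k ∈ Finset.univ.erase j, c j * c k * X j k * (e j * e k) ≤
      ∑ j, ∑ k ∈ Finset.univ.erase j, ((e j ^ 2 / N j * N k) * (s j * X j k) +
        (e k ^ 2 / N k * N j) * (s k * X k j)) / 2 := by
    refine Finset.sum_le_sum fun j _ => Finset.sum_le_sum fun k _ => ?_
    have h2 := am_gm (x := c j * e j) (y := c k * e k) (M := N j) (N := N k)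
      (fun h => by rw [he j h, mul_zero]) (fun h => by rw [he k h, mul_zero])
    have h3 := mul_le_mul_of_nonneg_right h2 (hX0 j k)
    rw [hXs k j]
    simp only [hsdef]
    calc c j * c k * X j k * (e j * e k) = c j * e j * (c k * e k) * X j k := by ring
      _ ≤ _ := h3
      _ = _ := by ring
  have h4 : ∑ j, ∑ k ∈ Finset.univ.erase j, ((e j ^ 2 / N j * N k) * (s j * X j k) +
        (e k ^ 2 / N k * N j) * (s k * X k j)) / 2 =
      ∑ j, ∑ k ∈ Finset.univ.erase j, (e j ^ 2 / N j * N k) * (s j * X j k) := by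
    have h5 : ∑ j, ∑ k ∈ Finset.univ.erase j, (e k ^ 2 / N k * N j) * (s k * X k j) =
        ∑ j, ∑ k ∈ Finset.univ.erase j, (e j ^ 2 / N j * N k) * (s j * X j k) := by
      rw [Finset.sum_comm' (t' := Finset.univ) (s' := fun k => Finset.univ.erase k)]
      intro x y
      simp [eq_comm]
    simp_rw [← Finset.sum_div, Finset.sum_add_distrib]
    rw [h5]
    ring
  have h6 : ∀ j k, s j * X j k = EZ s (fun Z => if j ∈ Z then f ((Z.erase j).erase k).card
      else 0) := by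
    intro j k
    rw [EZ_ind s j (fun W => f (W.erase k).card)]
  calc _ ≤ _ := h1
    _ = _ := h4
    _ = EZ s (fun Z => ∑ j, ∑ k ∈ Finset.univ.erase j, (e j ^ 2 / N j * N k) *
        (if j ∈ Z then f ((Z.erase j).erase k).card else 0)) := by
      rw [EZ_sum]
      refine Finset.sum_congr rfl fun j _ => ?_
      rw [EZ_sum]
      refine Finset.sum_congr rfl fun k _ => ?_
      rw [EZ_mul, h6]
    _ = _ := by
      congr 1
      funext Z
      exact point_b e N f Z

theorem cross {c : Fin B → ℝ} (hc : ∀ k, 0 ≤ c k ∧ c k ≤ 1) (φ : ℕ → ℝ) (e : Fin B → ℝ)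
    (N : Fin B → ℕ) (he : ∀ k, N k = 0 → e k = 0) :
    -(EZ (fun k => c k ^ 2) (fun Z =>
        (if 1 ≤ Z.card then max 0 (φ Z.card - φ (Z.card - 1)) else 0) * ∑ k ∈ Zᶜ, e k ^ 2 +
        (if 2 ≤ Z.card then max 0 (φ (Z.card - 1) - φ (Z.card - 2)) else 0) * ∑ k ∈ Z, e k ^ 2 +
        ∑ k ∈ Z, e k ^ 2 / N k *
          (max 0 (φ (Z.card - 1) - φ Z.card) * ∑ l ∈ Zᶜ, (N l : ℝ) +
            max 0 (φ (Z.card - 2) - φ (Z.card - 1)) * ∑ l ∈ Z.erase k, (N l : ℝ)))) ≤
      ∑ j, ∑ k ∈ Finset.univ.erase j, AX2 c φ j k * (e j * e k) := by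
  have ha := cross_a hc e (f := fun x => max 0 (φ (x + 1) - φ x)) (fun x => le_max_left _ _)
  have hb := cross_b hc e N he (f := fun x => max 0 (φ x - φ (x + 1))) (fun x => le_max_left _ _)
  have hX : ∀ j k, AX2 c φ j k * (e j * e k) =
      c j * c k * EZ (fun k => c k ^ 2) (fun Z => max 0 (φ (((Z.erase j).erase k).card + 1) -
        φ ((Z.erase j).erase k).card)) * (e j * e k) -
      c j * c k * EZ (fun k => c k ^ 2) (fun Z => max 0 (φ ((Z.erase j).erase k).card -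
        φ (((Z.erase j).erase k).card + 1))) * (e j * e k) := by
    intro j k
    unfold AX2
    have h1 : (fun Z : Finset (Fin B) => φ (((Z.erase j).erase k).card + 1) -
        φ ((Z.erase j).erase k).card) = fun Z => max 0 (φ (((Z.erase j).erase k).card + 1) -
        φ ((Z.erase j).erase k).card) + (-1) * max 0 (φ ((Z.erase j).erase k).card -
        φ (((Z.erase j).erase k).card + 1)) := by
      funext Z
      rcases le_total (φ (((Z.erase j).erase k).card + 1)) (φ ((Z.erase j).erase k).card) with h | h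
      · rw [max_eq_left (by linarith), max_eq_right (by linarith)]
        ring
      · rw [max_eq_right (by linarith), max_eq_left (by linarith)]
        ring
    rw [h1, EZ_add, EZ_mul]
    ring
  have hsum : ∑ j, ∑ k ∈ Finset.univ.erase j, AX2 c φ j k * (e j * e k) =
      ∑ j, ∑ k ∈ Finset.univ.erase j, c j * c k * EZ (fun k => c k ^ 2) (fun Z =>
        max 0 (φ (((Z.erase j).erase k).card + 1) - φ ((Z.erase j).erase k).card)) * (e j * e k) -
      ∑ j, ∑ k ∈ Finset.univ.erase j, c j * c k * EZ (fun k => c k ^ 2) (fun Z =>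
        max 0 (φ ((Z.erase j).erase k).card - φ (((Z.erase j).erase k).card + 1))) *
          (e j * e k) := by
    simp_rw [hX, Finset.sum_sub_distrib]
  rw [hsum, EZ_add]
  have ha' : EZ (fun k => c k ^ 2) (fun Z : Finset (Fin B) =>
        (if 1 ≤ Z.card then max 0 (φ Z.card - φ (Z.card - 1)) else 0) * ∑ k ∈ Zᶜ, e k ^ 2 +
        (if 2 ≤ Z.card then max 0 (φ (Z.card - 1) - φ (Z.card - 2)) else 0) *
          ∑ k ∈ Z, e k ^ 2) =
      EZ (fun k => c k ^ 2) (fun Z =>
        (if 1 ≤ Z.card then max 0 (φ (Z.card - 1 + 1) - φ (Z.card - 1)) else 0) *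
          ∑ k ∈ Zᶜ, e k ^ 2 +
        (if 2 ≤ Z.card then max 0 (φ (Z.card - 2 + 1) - φ (Z.card - 2)) else 0) *
          ∑ k ∈ Z, e k ^ 2) := by
    congr 1
    funext Z
    congr 1
    · by_cases h : 1 ≤ Z.card
      · rw [if_pos h, if_pos h, show Z.card - 1 + 1 = Z.card by omega]
      · rw [if_neg h, if_neg h]
    · by_cases h : 2 ≤ Z.card
      · rw [if_pos h, if_pos h, show Z.card - 2 + 1 = Z.card - 1 by omega]
      · rw [if_neg h, if_neg h]
  have hb' : EZ (fun k => c k ^ 2) (fun Z : Finset (Fin B) =>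
        ∑ k ∈ Z, e k ^ 2 / N k *
          (max 0 (φ (Z.card - 1) - φ Z.card) * ∑ l ∈ Zᶜ, (N l : ℝ) +
            max 0 (φ (Z.card - 2) - φ (Z.card - 1)) * ∑ l ∈ Z.erase k, (N l : ℝ))) =
      EZ (fun k => c k ^ 2) (fun Z =>
        ∑ k ∈ Z, e k ^ 2 / N k *
          (max 0 (φ (Z.card - 1) - φ (Z.card - 1 + 1)) * ∑ l ∈ Zᶜ, (N l : ℝ) +
            max 0 (φ (Z.card - 2) - φ (Z.card - 2 + 1)) * ∑ l ∈ Z.erase k, (N l : ℝ))) := by
    congr 1
    funext Z
    refine Finset.sum_congr rfl fun k hk => ?_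
    have h1 : 1 ≤ Z.card := Finset.card_pos.2 ⟨k, hk⟩
    rw [show Z.card - 1 + 1 = Z.card by omega]
    congr 2
    by_cases h2 : 2 ≤ Z.card
    · rw [show Z.card - 2 + 1 = Z.card - 1 by omega]
    · have h3 : Z.erase k = ∅ := by
        rw [← Finset.card_eq_zero, Finset.card_erase_of_mem hk]
        omega
      rw [h3]
      simp
  rw [ha', hb']
  linarith

end Pool.Agent.H35.ODD
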