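import Mathlib
import Pool.Agent.H35.ODD.OMod

set_option autoImplicit false

/-!
# OVer: the general scheme at a vertex `Z`

`f2 = f1 + Ap - Am`, `f0 = f1 - Bp + Bm`; `x = ∑_{k ∉ Z} v_k` (with the line), `y = ∑_{k ∈ Z} v_k`,
`j = ja Z n`, `l = lz Z n`, `N = j + l`.
`ver_II`: left side `= f2 (x² - ∑_{∉Z} v²) + 2 f1 x y + f0 (y² - ∑_{∈Z} v²)`; Cauchy:
`x² ≤ (j + r) ∑_{∉Z} v_k²/(N_k + 2 or N_0 + 1)`, `y² ≤ (l + 2m) ∑_{∈Z} v_k²/(N_k + 2)`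
(`∑ (N_k + 2) + (N_0 + 1) = j + 2(B - m) + 1 = j + r`); right - left
`≥ (T - f1)(x+y)² + ((Ap(j+2) + Bp l)/(j+r) - (Ap - Am)) x² + ((Am j + Bm(l+2))/(l+2m) + Bp - Bm) y² = QQf ≥ 0`,
`(N-1)² (T - f1) = f1 (N-1) - Ap j - Am j (N-1) - Bp l N` (if `m = 0` then `y = 0`, `x/0 = 0`).
`ver_I`: with `E_a = ∑_{planes ∉ Z} e²`, `E_z = ∑_Z e²`, `ε = ∑ e²/N`: `∑ wt Dw ≤ (Ap j + Bp l)(j - ε_a) -
f2 (∑_{∉Z} N² - N_0 - E_a) + (Am j + Bm l)(l - ε_z) - f0 (∑_Z N² - E_z)` (equality unless `N_0 = 1`), and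
right - left `≥ Ap (j ε_a - E_a) + Bp l ε_a + Am N_0 ε_z ≥ 0`, because the `f1`, `Ap`, `Am`, `Bp`, `Bm` parts of
`f2 j² + 2 f1 j l + f0 l² - f2 j - f1 l + (f1 - f0) E_z - (Ap j + Bp l)(j - ε_a) - (Am j + Bm l)(l - ε_z) - TT0`
are `0`, `Ap j ε_a`, `Am j ε_z`, `Bp (E_z + l ε_a)`, `Bm (l ε_z - E_z)`.
-/

open Pool.Agent.H89.CZ

noncomputable section

namespace Pool.Agent.H35.ODD

variable {B : ℕ}

private theorem sum_blk (Z : Finset (Fin B)) (g : Bk B → ℝ) :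
    ∑ k, g k = ∑ k ∈ zb Z, g k + ∑ k ∈ (zb Z)ᶜ, g k :=
  (Finset.sum_add_sum_compl _ _).symm

private theorem sum_zb {R : Type*} [AddCommMonoid R] (Z : Finset (Fin B)) (g : Bk B → R) :
    ∑ k ∈ zb Z, g k = ∑ k ∈ Z, g (some k) := by
  simp [zb, Finset.sum_map]

private theorem compl_zb (Z : Finset (Fin B)) : (zb Z)ᶜ = insert none (zb Zᶜ) := by
  ext k
  cases k <;> simp [zb]

private theorem sum_zbc {R : Type*} [AddCommMonoid R] (Z : Finset (Fin B)) (g : Bk B → R) :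
    ∑ k ∈ (zb Z)ᶜ, g k = g none + ∑ k ∈ Zᶜ, g (some k) := by
  rw [compl_zb, Finset.sum_insert (by simp [zb]), sum_zb]

private theorem dsum (Z : Finset (Fin B)) (f0 f1 f2 : ℝ) (v : Bk B → ℝ) :
    ∑ j, ∑ k ∈ Finset.univ.erase j, VP2 Z f0 f1 f2 j k * (v j * v k) =
      f2 * ((∑ k ∈ (zb Z)ᶜ, v k) ^ 2 - ∑ k ∈ (zb Z)ᶜ, v k ^ 2) +
        2 * f1 * (∑ k ∈ (zb Z)ᶜ, v k) * (∑ k ∈ zb Z, v k) +
        f0 * ((∑ k ∈ zb Z, v k) ^ 2 - ∑ k ∈ zb Z, v k ^ 2) := by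
  have h1 : ∀ j : Bk B, ∑ k ∈ Finset.univ.erase j, VP2 Z f0 f1 f2 j k * (v j * v k) =
      ∑ k, VP2 Z f0 f1 f2 j k * (v j * v k) - VP2 Z f0 f1 f2 j j * (v j * v j) := fun j =>
    Finset.sum_erase_eq_sub (Finset.mem_univ j)
  have A : ∀ j ∈ zb Z, ∑ k, VP2 Z f0 f1 f2 j k * (v j * v k) =
      v j * (f0 * (∑ k ∈ zb Z, v k) + f1 * ∑ k ∈ (zb Z)ᶜ, v k) := by
    intro j hj
    rw [sum_blk Z, mul_add, Finset.mul_sum, Finset.mul_sum, Finset.mul_sum, Finset.mul_sum]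
    congr 1
    · refine Finset.sum_congr rfl fun k hk => ?_
      rw [VP2, if_pos hj, if_pos hk]; ring
    · refine Finset.sum_congr rfl fun k hk => ?_
      rw [VP2, if_pos hj, if_neg (Finset.mem_compl.1 hk)]; ring
  have A' : ∀ j ∈ (zb Z)ᶜ, ∑ k, VP2 Z f0 f1 f2 j k * (v j * v k) =
      v j * (f1 * (∑ k ∈ zb Z, v k) + f2 * ∑ k ∈ (zb Z)ᶜ, v k) := by
    intro j hj
    have hj' := Finset.mem_compl.1 hj
    rw [sum_blk Z, mul_add, Finset.mul_sum, Finset.mul_sum, Finset.mul_sum, Finset.mul_sum]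
    congr 1
    · refine Finset.sum_congr rfl fun k hk => ?_
      rw [VP2, if_neg hj', if_pos hk]; ring
    · refine Finset.sum_congr rfl fun k hk => ?_
      rw [VP2, if_neg hj', if_neg (Finset.mem_compl.1 hk)]; ring
  have D : ∑ j, VP2 Z f0 f1 f2 j j * (v j * v j) =
      f0 * (∑ k ∈ zb Z, v k ^ 2) + f2 * ∑ k ∈ (zb Z)ᶜ, v k ^ 2 := by
    rw [sum_blk Z, Finset.mul_sum, Finset.mul_sum]
    congr 1
    · refine Finset.sum_congr rfl fun k hk => ?_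
      rw [VP2, if_pos hk, if_pos hk]; ring
    · refine Finset.sum_congr rfl fun k hk => ?_
      rw [VP2, if_neg (Finset.mem_compl.1 hk), if_neg (Finset.mem_compl.1 hk)]; ring
  simp_rw [h1]
  rw [Finset.sum_sub_distrib, D, sum_blk Z (fun j => ∑ k, VP2 Z f0 f1 f2 j k * (v j * v k)),
    Finset.sum_congr rfl A, Finset.sum_congr rfl A', ← Finset.sum_mul, ← Finset.sum_mul]
  ring

private theorem sumDv (Z : Finset (Fin B)) (f0 f2 Ap Am Bp Bm : ℝ) (n : Mo B) (v : Bk B → ℝ) :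
    ∑ k, Dv Z f0 f2 Ap Am Bp Bm n k * v k ^ 2 =
      (Am * ja Z n + Bm * (lz Z n + 2)) * (∑ k ∈ zb Z, v k ^ 2 / ((nb n k : ℝ) + 2)) -
        f0 * (∑ k ∈ zb Z, v k ^ 2) +
      ((Ap * (ja Z n + 2) + Bp * lz Z n) *
        (∑ k ∈ (zb Z)ᶜ, v k ^ 2 / ((nb n k : ℝ) + if k = none then 1 else 2)) -
        f2 * ∑ k ∈ (zb Z)ᶜ, v k ^ 2) := by
  rw [sum_blk Z, Finset.mul_sum, Finset.mul_sum, Finset.mul_sum, Finset.mul_sum,
    ← Finset.sum_sub_distrib, ← Finset.sum_sub_distrib]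
  congr 1
  · refine Finset.sum_congr rfl fun k hk => ?_
    rw [Dv, if_pos hk]; ring
  · refine Finset.sum_congr rfl fun k hk => ?_
    rw [Dv, if_neg (Finset.mem_compl.1 hk)]; ring

theorem ver_II (Z : Finset (Fin B)) {r m : ℕ} (hm : Z.card = m) (hr : r + 2 * m = 2 * B + 1)
    {f0 f1 f2 Ap Am Bp Bm : ℝ} (hAp : 0 ≤ Ap) (hAm : 0 ≤ Am) (hBp : 0 ≤ Bp) (hBm : 0 ≤ Bm)
    (h2 : f2 = f1 + Ap - Am) (h0 : f0 = f1 - Bp + Bm) (n : Mo B) (hN : 2 ≤ ja Z n + lz Z n)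
    (hQ : ∀ x y, 0 ≤ QQf r m f1 Ap Am Bp Bm (ja Z n) (lz Z n) x y) (v : Bk B → ℝ) :
    ∑ j, ∑ k ∈ Finset.univ.erase j, VP2 Z f0 f1 f2 j k * (v j * v k) ≤
      TT0 f1 Ap Am Bp (ja Z n) (lz Z n) / ((ja Z n : ℝ) + lz Z n - 1) ^ 2 * (∑ k, v k) ^ 2 +
        ∑ k, Dv Z f0 f2 Ap Am Bp Bm n k * v k ^ 2 := by
  have hQ' := hQ (∑ k ∈ (zb Z)ᶜ, v k) (∑ k ∈ zb Z, v k)
  have hca : (∑ k ∈ (zb Z)ᶜ, v k) ^ 2 / ((ja Z n : ℝ) + r) ≤
      ∑ k ∈ (zb Z)ᶜ, v k ^ 2 / ((nb n k : ℝ) + if k = none then 1 else 2) := by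
    have h := Finset.sq_sum_div_le_sum_sq_div (zb Z)ᶜ v
      (g := fun k => (nb n k : ℝ) + if k = none then 1 else 2) (by
        intro k _
        have : (0 : ℝ) ≤ nb n k := Nat.cast_nonneg _
        split_ifs <;> linarith)
    have e : ∑ k ∈ (zb Z)ᶜ, ((nb n k : ℝ) + if k = none then 1 else 2) = (ja Z n : ℝ) + r := by
      rw [Finset.sum_add_distrib, ja, Nat.cast_sum, sum_zbc Z (fun k => (if k = none then (1 : ℝ) else 2))]
      congr 1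
      simp only [if_true, reduceCtorEq, if_false, Finset.sum_const, Finset.card_compl,
        Fintype.card_fin, hm, nsmul_eq_mul]
      have hmB : m ≤ B := by rw [← hm]; exact card_finset_fin_le Z
      rw [Nat.cast_sub hmB]
      have : (r : ℝ) + 2 * m = 2 * B + 1 := by exact_mod_cast hr
      linarith
    rw [e] at h
    exact h
  have hcz : (∑ k ∈ zb Z, v k) ^ 2 / ((lz Z n : ℝ) + 2 * m) ≤
      ∑ k ∈ zb Z, v k ^ 2 / ((nb n k : ℝ) + 2) := by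
    have h := Finset.sq_sum_div_le_sum_sq_div (zb Z) v (g := fun k => (nb n k : ℝ) + 2) (by
        intro k _
        have : (0 : ℝ) ≤ nb n k := Nat.cast_nonneg _
        linarith)
    have e : ∑ k ∈ zb Z, ((nb n k : ℝ) + 2) = (lz Z n : ℝ) + 2 * m := by
      rw [Finset.sum_add_distrib, lz, Nat.cast_sum]
      congr 1
      rw [Finset.sum_const, zb, Finset.card_map, hm, nsmul_eq_mul]
      ring
    rw [e] at h
    exact h
  have hj : (0 : ℝ) ≤ ja Z n := Nat.cast_nonneg _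
  have hl : (0 : ℝ) ≤ lz Z n := Nat.cast_nonneg _
  have hN1 : (ja Z n : ℝ) + lz Z n - 1 ≠ 0 := by
    have : (2 : ℝ) ≤ (ja Z n : ℝ) + lz Z n := by exact_mod_cast hN
    linarith
  rw [dsum, sumDv, sum_blk Z v]
  have k1 := mul_le_mul_of_nonneg_left hca
    (show (0 : ℝ) ≤ Ap * (ja Z n + 2) + Bp * lz Z n by positivity)
  have k2 := mul_le_mul_of_nonneg_left hcz
    (show (0 : ℝ) ≤ Am * ja Z n + Bm * (lz Z n + 2) by positivity)
  have hT : TT0 f1 Ap Am Bp (ja Z n) (lz Z n) / ((ja Z n : ℝ) + lz Z n - 1) ^ 2 =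
      f1 + (f1 * ((ja Z n : ℝ) + lz Z n - 1) - Ap * ja Z n -
        Am * ja Z n * ((ja Z n : ℝ) + lz Z n - 1) -
        Bp * lz Z n * ((ja Z n : ℝ) + lz Z n)) / ((ja Z n : ℝ) + lz Z n - 1) ^ 2 := by
    rw [TT0]
    field_simp
    ring
  rw [hT]
  rw [QQf] at hQ'
  set x := ∑ k ∈ (zb Z)ᶜ, v k
  set y := ∑ k ∈ zb Z, v k
  set X2 := ∑ k ∈ (zb Z)ᶜ, v k ^ 2
  set Y2 := ∑ k ∈ zb Z, v k ^ 2
  set T := (f1 * ((ja Z n : ℝ) + lz Z n - 1) - Ap * ja Z n -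
        Am * ja Z n * ((ja Z n : ℝ) + lz Z n - 1) -
        Bp * lz Z n * ((ja Z n : ℝ) + lz Z n)) / ((ja Z n : ℝ) + lz Z n - 1) ^ 2
  have e1 : (Ap * ((ja Z n : ℝ) + 2) + Bp * lz Z n) / ((ja Z n : ℝ) + r) * x ^ 2 =
      (Ap * (ja Z n + 2) + Bp * lz Z n) * (x ^ 2 / ((ja Z n : ℝ) + r)) := by ring
  have e2 : (Am * (ja Z n : ℝ) + Bm * ((lz Z n : ℝ) + 2)) / ((lz Z n : ℝ) + 2 * m) * y ^ 2 =
      (Am * ja Z n + Bm * (lz Z n + 2)) * (y ^ 2 / ((lz Z n : ℝ) + 2 * m)) := by ring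
  rw [sub_mul, e1, add_mul ((Am * (ja Z n : ℝ) + Bm * ((lz Z n : ℝ) + 2)) / _), e2] at hQ'
  subst h2 h0
  nlinarith [hQ', k1, k2]

theorem ver_0 (Z : Finset (Fin B)) {f0 f1 f2 Am Bp : ℝ} (hAm : 0 ≤ Am) (hBp : 0 ≤ Bp)
    (h2 : f2 = f1 - Am) (h0 : f0 = f1 - Bp) (v : Bk B → ℝ) (hv : ∑ k, v k = 0) :
    ∑ j, ∑ k ∈ Finset.univ.erase j, VP2 Z f0 f1 f2 j k * (v j * v k) ≤
      ∑ k, Dv Z f0 f2 0 Am Bp 0 (0 : Mo B) k * v k ^ 2 := by
  have hj : ja Z (0 : Mo B) = 0 := by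
    rw [ja]
    refine Finset.sum_eq_zero fun k _ => ?_
    cases k <;> simp [nb]
  have hl : lz Z (0 : Mo B) = 0 := by
    rw [lz]
    refine Finset.sum_eq_zero fun k _ => ?_
    cases k <;> simp [nb]
  rw [dsum, sumDv, hj, hl]
  rw [sum_blk Z] at hv
  set x := ∑ k ∈ (zb Z)ᶜ, v k
  have hy : ∑ k ∈ zb Z, v k = -x := by linarith
  rw [hy]
  have : 0 ≤ (Am + Bp) * x ^ 2 := by positivity
  subst h2 h0
  simp only [Nat.cast_zero, mul_zero, zero_mul, add_zero, zero_sub, zero_add]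
  nlinarith

private theorem frac (N e : ℝ) (h : N = 0 → e = 0) (c f : ℝ) :
    (N ^ 2 - e ^ 2) * (c / N - f) = c * (N - e ^ 2 / N) - f * (N ^ 2 - e ^ 2) := by
  by_cases hN : N = 0
  · rw [hN, h hN]; simp
  · field_simp

theorem ver_I (Z : Finset (Fin B)) {f0 f1 f2 Ap Am Bp Bm : ℝ} (hAp : 0 ≤ Ap) (hAm : 0 ≤ Am)
    (hBp : 0 ≤ Bp) (hBm : 0 ≤ Bm) (h2 : f2 = f1 + Ap - Am) (h0 : f0 = f1 - Bp + Bm) (n : Mo B) :
    TT0 f1 Ap Am Bp (ja Z n) (lz Z n) + ∑ k, wt n k * Dw Z f0 f2 Ap Am Bp Bm n k +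
      (Ap * ∑ k ∈ Zᶜ, eb n k ^ 2 + Bp * ∑ k ∈ Z, eb n k ^ 2 +
        ∑ k ∈ Z, eb n k ^ 2 / nb n (some k) *
          (Am * ∑ l ∈ Zᶜ, (nb n (some l) : ℝ) + Bm * ∑ l ∈ Z.erase k, (nb n (some l) : ℝ))) ≤
    ∑ j, ∑ k ∈ Finset.univ.erase j, VP2 Z f0 f1 f2 j k * ((nb n j : ℝ) * nb n k) -
      ∑ k, VP1 Z f1 f2 k * ((nb n (some k) : ℝ) - eb n k ^ 2) := by
  have he : ∀ k, (nb n (some k) : ℝ) = 0 → eb n k = 0 := by
    intro k hk
    have := abs_eb_le n k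
    rw [hk] at this
    exact abs_eq_zero.1 (le_antisymm this (abs_nonneg _))
  have hnn : ∀ k : Bk B, (0 : ℝ) ≤ nb n k := fun k => Nat.cast_nonneg _
  -- names
  have hja : (ja Z n : ℝ) = nb n none + ∑ k ∈ Zᶜ, (nb n (some k) : ℝ) := by
    rw [ja, sum_zbc]; push_cast; ring
  have hlz : (lz Z n : ℝ) = ∑ k ∈ Z, (nb n (some k) : ℝ) := by
    rw [lz, sum_zb]; push_cast; ring
  have hj0 : (0 : ℝ) ≤ ja Z n := Nat.cast_nonneg _
  have hl0 : (0 : ℝ) ≤ lz Z n := Nat.cast_nonneg _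
  -- the double sum
  have hds := dsum Z f0 f1 f2 (fun k => (nb n k : ℝ))
  rw [sum_zbc Z (fun k => (nb n k : ℝ)), sum_zb Z (fun k => (nb n k : ℝ)),
    sum_zbc Z (fun k => (nb n k : ℝ) ^ 2), sum_zb Z (fun k => (nb n k : ℝ) ^ 2), ← hja, ← hlz] at hds
  rw [hds]
  -- the P1 part
  have hp1 : ∑ k, VP1 Z f1 f2 k * ((nb n (some k) : ℝ) - eb n k ^ 2) =
      f1 * (lz Z n - ∑ k ∈ Z, eb n k ^ 2) +
        f2 * (ja Z n - nb n none - ∑ k ∈ Zᶜ, eb n k ^ 2) := by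
    rw [← Finset.sum_add_sum_compl Z, hja, hlz, add_sub_cancel_left, ← Finset.sum_sub_distrib,
      ← Finset.sum_sub_distrib, Finset.mul_sum, Finset.mul_sum]
    congr 1
    · refine Finset.sum_congr rfl fun k hk => ?_
      rw [VP1, if_pos hk]
    · refine Finset.sum_congr rfl fun k hk => ?_
      rw [VP1, if_neg (Finset.mem_compl.1 hk)]
  rw [hp1]
  -- the weights
  have hw : ∑ k, wt n k * Dw Z f0 f2 Ap Am Bp Bm n k ≤
      (Am * ja Z n + Bm * lz Z n) * (lz Z n - ∑ k ∈ Z, eb n k ^ 2 / nb n (some k)) -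
        f0 * (∑ k ∈ Z, (nb n (some k) : ℝ) ^ 2 - ∑ k ∈ Z, eb n k ^ 2) +
      ((Ap * ja Z n + Bp * lz Z n) * (ja Z n - ∑ k ∈ Zᶜ, eb n k ^ 2 / nb n (some k)) -
        f2 * ((nb n none : ℝ) ^ 2 - nb n none +
          (∑ k ∈ Zᶜ, (nb n (some k) : ℝ) ^ 2 - ∑ k ∈ Zᶜ, eb n k ^ 2))) := by
    rw [sum_blk Z, sum_zb, sum_zbc]
    have a1 : ∑ k ∈ Z, wt n (some k) * Dw Z f0 f2 Ap Am Bp Bm n (some k) =
        (Am * ja Z n + Bm * lz Z n) * (lz Z n - ∑ k ∈ Z, eb n k ^ 2 / nb n (some k)) -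
        f0 * (∑ k ∈ Z, (nb n (some k) : ℝ) ^ 2 - ∑ k ∈ Z, eb n k ^ 2) := by
      have : ∀ k ∈ Z, wt n (some k) * Dw Z f0 f2 Ap Am Bp Bm n (some k) =
          (Am * ja Z n + Bm * lz Z n) * ((nb n (some k) : ℝ) - eb n k ^ 2 / nb n (some k)) -
          f0 * ((nb n (some k) : ℝ) ^ 2 - eb n k ^ 2) := by
        intro k hk
        rw [wt, Dw, if_pos (by simpa [zb] using hk), frac _ _ (he k)]
      rw [Finset.sum_congr rfl this, Finset.sum_sub_distrib, ← Finset.mul_sum, ← Finset.mul_sum,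
        Finset.sum_sub_distrib, Finset.sum_sub_distrib, ← hlz]
    have a2 : ∑ k ∈ Zᶜ, wt n (some k) * Dw Z f0 f2 Ap Am Bp Bm n (some k) =
        (Ap * ja Z n + Bp * lz Z n) *
          (ja Z n - nb n none - ∑ k ∈ Zᶜ, eb n k ^ 2 / nb n (some k)) -
        f2 * (∑ k ∈ Zᶜ, (nb n (some k) : ℝ) ^ 2 - ∑ k ∈ Zᶜ, eb n k ^ 2) := by
      have : ∀ k ∈ Zᶜ, wt n (some k) * Dw Z f0 f2 Ap Am Bp Bm n (some k) =
          (Ap * ja Z n + Bp * lz Z n) * ((nb n (some k) : ℝ) - eb n k ^ 2 / nb n (some k)) -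
          f2 * ((nb n (some k) : ℝ) ^ 2 - eb n k ^ 2) := by
        intro k hk
        have hk' := Finset.mem_compl.1 hk
        rw [wt, Dw, if_neg (by simpa [zb] using hk'), if_neg (by simp), sub_zero,
          frac _ _ (he k)]
      rw [Finset.sum_congr rfl this, Finset.sum_sub_distrib, ← Finset.mul_sum, ← Finset.mul_sum,
        Finset.sum_sub_distrib, Finset.sum_sub_distrib, hja, add_sub_cancel_left]
    have a3 : wt n none * Dw Z f0 f2 Ap Am Bp Bm n none ≤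
        (Ap * ja Z n + Bp * lz Z n) * nb n none - f2 * ((nb n none : ℝ) ^ 2 - nb n none) := by
      have hc : 0 ≤ Ap * (ja Z n : ℝ) + Bp * lz Z n := by positivity
      have hnb : (nb n none : ℝ) = n none := rfl
      rw [wt, Dw, if_neg (by simp [zb]), if_pos rfl, hnb]
      by_cases h1 : (n none : ℝ) = 1
      · rw [h1]; simp; linarith
      · have : (n none : ℝ) - 1 ≠ 0 := sub_ne_zero.2 h1
        apply le_of_eq
        field_simp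
    rw [a1, a2]
    nlinarith [a3]
  -- estimates
  have hEa : ∑ k ∈ Zᶜ, eb n k ^ 2 ≤ ja Z n * ∑ k ∈ Zᶜ, eb n k ^ 2 / nb n (some k) := by
    rw [Finset.mul_sum]
    refine Finset.sum_le_sum fun k hk => ?_
    by_cases h : (nb n (some k) : ℝ) = 0
    · rw [he k h, h]; simp
    · have h1 : (nb n (some k) : ℝ) ≤ ja Z n := by
        rw [hja]
        have := Finset.single_le_sum (f := fun k => (nb n (some k) : ℝ))
          (fun i _ => hnn _) hk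
        have h3 := hnn none
        linarith
      have h2 : 0 < (nb n (some k) : ℝ) := lt_of_le_of_ne (hnn _) (Ne.symm h)
      rw [mul_div_assoc', le_div_iff₀ h2]
      nlinarith [sq_nonneg (eb n k)]
  have hea0 : 0 ≤ ∑ k ∈ Zᶜ, eb n k ^ 2 / nb n (some k) :=
    Finset.sum_nonneg fun k _ => div_nonneg (sq_nonneg _) (hnn _)
  have hez0 : 0 ≤ ∑ k ∈ Z, eb n k ^ 2 / nb n (some k) :=
    Finset.sum_nonneg fun k _ => div_nonneg (sq_nonneg _) (hnn _)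
  have hbr : ∑ k ∈ Z, eb n k ^ 2 / nb n (some k) *
          (Am * ∑ l ∈ Zᶜ, (nb n (some l) : ℝ) + Bm * ∑ l ∈ Z.erase k, (nb n (some l) : ℝ)) =
      Am * (ja Z n - nb n none) * (∑ k ∈ Z, eb n k ^ 2 / nb n (some k)) +
        Bm * (lz Z n * (∑ k ∈ Z, eb n k ^ 2 / nb n (some k)) - ∑ k ∈ Z, eb n k ^ 2) := by
    have : ∀ k ∈ Z, eb n k ^ 2 / nb n (some k) *
          (Am * ∑ l ∈ Zᶜ, (nb n (some l) : ℝ) + Bm * ∑ l ∈ Z.erase k, (nb n (some l) : ℝ)) =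
        Am * (ja Z n - nb n none) * (eb n k ^ 2 / nb n (some k)) +
        Bm * (lz Z n * (eb n k ^ 2 / nb n (some k)) - eb n k ^ 2) := by
      intro k hk
      have e1 : ∑ l ∈ Z.erase k, (nb n (some l) : ℝ) = lz Z n - nb n (some k) := by
        rw [hlz]; exact Finset.sum_erase_eq_sub hk
      have e2 : ∑ l ∈ Zᶜ, (nb n (some l) : ℝ) = ja Z n - nb n none := by rw [hja]; ring
      have e3 : eb n k ^ 2 / nb n (some k) * nb n (some k) = eb n k ^ 2 := by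
        by_cases h : (nb n (some k) : ℝ) = 0
        · rw [he k h, h]; simp
        · exact div_mul_cancel₀ _ h
      rw [e1, e2]
      linear_combination (-Bm) * e3
    rw [Finset.sum_congr rfl this, Finset.sum_add_distrib, ← Finset.mul_sum, ← Finset.mul_sum,
      Finset.sum_sub_distrib, ← Finset.mul_sum]
  rw [hbr, TT0]
  have hn0 := hnn none
  have t1 : 0 ≤ Ap * ((ja Z n : ℝ) * (∑ k ∈ Zᶜ, eb n k ^ 2 / nb n (some k)) -
      ∑ k ∈ Zᶜ, eb n k ^ 2) := mul_nonneg hAp (by linarith)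
  have t2 : 0 ≤ Bp * ((lz Z n : ℝ) * ∑ k ∈ Zᶜ, eb n k ^ 2 / nb n (some k)) :=
    mul_nonneg hBp (mul_nonneg hl0 hea0)
  have t3 : 0 ≤ Am * ((nb n none : ℝ) * ∑ k ∈ Z, eb n k ^ 2 / nb n (some k)) :=
    mul_nonneg hAm (mul_nonneg hn0 hez0)
  set j : ℝ := (ja Z n : ℝ)
  set l : ℝ := (lz Z n : ℝ)
  set N0 : ℝ := (nb n none : ℝ)
  set Ea := ∑ k ∈ Zᶜ, eb n k ^ 2
  set Ez := ∑ k ∈ Z, eb n k ^ 2
  set ea := ∑ k ∈ Zᶜ, eb n k ^ 2 / nb n (some k)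
  set ez := ∑ k ∈ Z, eb n k ^ 2 / nb n (some k)
  set Sa := ∑ k ∈ Zᶜ, (nb n (some k) : ℝ) ^ 2
  set Sz := ∑ k ∈ Z, (nb n (some k) : ℝ) ^ 2
  subst h2 h0
  refine le_trans (add_le_add_left (add_le_add_right hw _) _) ?_
  nlinarith [t1, t2, t3]

/-- The coefficients at the vertex `Z`. -/
theorem p2_vert (Z : Finset (Fin B)) (φ : ℕ → ℝ) {f0 f1 f2 : ℝ} (h1 : 1 ≤ Z.card → f1 = φ (Z.card - 1))
    (h2 : Z.card < B → f2 = φ Z.card) (h0 : 2 ≤ Z.card → f0 = φ (Z.card - 2)) {j k : Bk B}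
    (hjk : j ≠ k) : p2 φ Z j k = VP2 Z f0 f1 f2 j k := by
  have hlt : ∀ a : Fin B, a ∉ Z → Z.card < B := by
    intro a ha
    have h := Finset.card_lt_card (Finset.ssubset_univ_iff.2
      (fun h => ha (h ▸ Finset.mem_univ a)) : Z ⊂ Finset.univ)
    simpa using h
  have hpos : ∀ a : Fin B, a ∈ Z → 1 ≤ Z.card := fun a ha => Finset.card_pos.2 ⟨a, ha⟩
  rcases j with _ | a <;> rcases k with _ | b
  · exact absurd rfl hjk
  · by_cases hb : b ∈ Z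
    · simp [p2, rmv, VP2, zb, hb, Finset.card_erase_of_mem hb, h1 (hpos b hb)]
    · simp [p2, rmv, VP2, zb, hb, h2 (hlt b hb)]
  · by_cases ha : a ∈ Z
    · simp [p2, rmv, VP2, zb, ha, Finset.card_erase_of_mem ha, h1 (hpos a ha)]
    · simp [p2, rmv, VP2, zb, ha, h2 (hlt a ha)]
  · have hab : a ≠ b := fun h => hjk (by rw [h])
    by_cases ha : a ∈ Z
    · by_cases hb : b ∈ Z
      · have hb' : b ∈ Z.erase a := Finset.mem_erase.2 ⟨hab.symm, hb⟩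
        have hc : 2 ≤ Z.card := by
          have := Finset.card_pos.2 ⟨b, hb'⟩
          rw [Finset.card_erase_of_mem ha] at this
          omega
        simp [p2, rmv, VP2, zb, ha, hb, Finset.card_erase_of_mem ha, Finset.card_erase_of_mem hb',
          h0 hc, Nat.sub_sub]
      · have hb' : b ∉ Z.erase a := fun h => hb (Finset.mem_of_mem_erase h)
        simp [p2, rmv, VP2, zb, ha, hb, Finset.card_erase_of_mem ha, Finset.erase_eq_of_notMem hb',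
          h1 (hpos a ha)]
    · by_cases hb : b ∈ Z
      · simp [p2, rmv, VP2, zb, ha, hb, Finset.card_erase_of_mem hb, h1 (hpos b hb)]
      · simp [p2, rmv, VP2, zb, ha, hb, h2 (hlt b hb)]

theorem p1_vert (Z : Finset (Fin B)) (φ : ℕ → ℝ) {f1 f2 : ℝ} (h1 : 1 ≤ Z.card → f1 = φ (Z.card - 1))
    (h2 : Z.card < B → f2 = φ Z.card) (k : Fin B) : p1 φ Z k = VP1 Z f1 f2 k := by
  by_cases hk : k ∈ Z
  · rw [p1, VP1, if_pos hk, Finset.card_erase_of_mem hk, h1 (Finset.card_pos.2 ⟨k, hk⟩)]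
  · have h := Finset.card_lt_card (Finset.ssubset_univ_iff.2
      (fun h => hk (h ▸ Finset.mem_univ k)) : Z ⊂ Finset.univ)
    rw [p1, VP1, if_neg hk, Finset.erase_eq_of_notMem hk, h2 (by simpa using h)]

end Pool.Agent.H35.ODD
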