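import Mathlib
import Pool.Agent.H35.ODD.OAbs
import Pool.Agent.H35.ODD.OVer
import Pool.Agent.H35.ODD.OCr

set_option autoImplicit false

/-!
# OCha: the charged modes

For each `Z` with `PZ ≠ 0` choose from `hok Z` numbers `f1, Ap, Am, Bp, Bm ≥ 0`, `f2 = f1 + Ap - Am`,
`f0 = f1 - Bp + Bm` with `0 ≤ TT0`, `0 ≤ QQf` for `N ≥ 2` (`r = 2B + 1 - 2m`, `m = |Z|`): `m ≥ 1`: `GoodQ` in `Tri`;
`m = 0`: `f1 = f2 = f0 = φ 0`, all others `0` (`TT0 = φ 0 N(N-1)`, `QQf = φ 0 (x+y)²/(N-1)`).  By `p2_vert`,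
`p1_vert` `AP2 c φ j k = EZ (VP2 Z …)` (`j ≠ k`), `AP1 c φ k = EZ (VP1 Z …)`.
`abs_nonneg'` with `T n = EZ (TT0 …/(N-1)²)`, `Dt n k = EZ (Dv Z …)`, `Du n k = EZ (Dw Z …)`
(for `Z` with `PZ = 0` anything): (II) is `EZ` of `ver_II`; (I) is `EZ` of `ver_I` and `cross` with `e = eb n`,
`N = nb n (some ·)` (`abs_eb_le`): true values are at most the chosen ones,
`(if 1 ≤ m then max 0 (φ m - φ(m-1)) else 0) ≤ Ap` where `m < B` (for `m = B` there is no `k ∉ Z`),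
`max 0 (φ(m-1) - φ m) ≤ Am` (`1 ≤ m < B`), `max 0 (φ(m-1) - φ(m-2)) ≤ Bp`, `max 0 (φ(m-2) - φ(m-1)) ≤ Bm`
(`m ≥ 2`).  `h0`: the zero mode is not charged.  `EZ_add`, `EZ_sum`, `EZ_mul`, `EZ_mono`.
-/

open Pool.Agent.H89.CZ

noncomputable section

namespace Pool.Agent.H35.ODD

variable {B : ℕ}

/-- The numbers chosen at a vertex. -/
private structure Cho (φ : ℕ → ℝ) (B m : ℕ) (f0 f1 f2 Ap Am Bp Bm : ℝ) : Prop where
  hAp : 0 ≤ Ap
  hAm : 0 ≤ Am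
  hBp : 0 ≤ Bp
  hBm : 0 ≤ Bm
  h2 : f2 = f1 + Ap - Am
  h0 : f0 = f1 - Bp + Bm
  hT : ∀ j l : ℕ, 2 ≤ j + l → 0 ≤ TT0 f1 Ap Am Bp j l
  hQ : ∀ j l : ℕ, 2 ≤ j + l → ∀ x y : ℝ, 0 ≤ QQf (2 * B + 1 - 2 * m) m f1 Ap Am Bp Bm j l x y
  v1 : 1 ≤ m → f1 = φ (m - 1)
  v2 : m < B → f2 = φ m
  v0 : 2 ≤ m → f0 = φ (m - 2)

private theorem cho_of (φ : ℕ → ℝ) (m : ℕ) (h : OkAt φ B m) :
    ∃ f0 f1 f2 Ap Am Bp Bm : ℝ, Cho φ B m f0 f1 f2 Ap Am Bp Bm := by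
  rcases h with ⟨hm, h⟩ | ⟨hm, f0, f1, f2, ⟨⟨Ap, Am, Bp, Bm, a1, a2, a3, a4, e2, e0, hq⟩, -⟩,
    h1, h2, h0⟩
  · subst hm
    refine ⟨φ 0, φ 0, φ 0, 0, 0, 0, 0, le_refl _, le_refl _, le_refl _, le_refl _, by ring, by ring,
      ?_, ?_, by omega, fun _ => rfl, by omega⟩
    · intro j l hjl
      have hN : (2 : ℝ) ≤ (j : ℝ) + l := by exact_mod_cast hjl
      have e : TT0 (φ 0) 0 0 0 j l = φ 0 * ((j : ℝ) + l) * ((j : ℝ) + l - 1) := by
        unfold TT0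
        ring
      rw [e]
      exact mul_nonneg (mul_nonneg h (by linarith)) (by linarith)
    · intro j l hjl x y
      have hN : (2 : ℝ) ≤ (j : ℝ) + l := by exact_mod_cast hjl
      have e : QQf (2 * B + 1 - 2 * 0) 0 (φ 0) 0 0 0 0 j l x y =
          φ 0 * ((j : ℝ) + l - 1) / ((j : ℝ) + l - 1) ^ 2 * (x + y) ^ 2 := by
        unfold QQf
        simp
      rw [e]
      exact mul_nonneg (div_nonneg (mul_nonneg h (by linarith)) (sq_nonneg _)) (sq_nonneg _)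
  · exact ⟨f0, f1, f2, Ap, Am, Bp, Bm, a1, a2, a3, a4, e2, e0, fun j l hjl => (hq j l hjl).1,
      fun j l hjl => (hq j l hjl).2, fun _ => h1, h2, h0⟩

private theorem EZ_nn {s : Fin B → ℝ} (hs : ∀ k, 0 ≤ s k ∧ s k ≤ 1) {g : Finset (Fin B) → ℝ}
    (h : ∀ Z, PZ s Z ≠ 0 → 0 ≤ g Z) : 0 ≤ EZ s g := by
  have := EZ_mono hs (g := fun _ => 0) (h := g) h
  rwa [EZ_const] at this

/-- The cross terms with the true values are at most those with the chosen ones. -/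
private theorem cross_le (Z : Finset (Fin B)) {φ : ℕ → ℝ} {f0 f1 f2 Ap Am Bp Bm : ℝ}
    (H : Cho φ B Z.card f0 f1 f2 Ap Am Bp Bm) (e : Fin B → ℝ) (N : Fin B → ℕ) :
    (if 1 ≤ Z.card then max 0 (φ Z.card - φ (Z.card - 1)) else 0) * ∑ k ∈ Zᶜ, e k ^ 2 +
        (if 2 ≤ Z.card then max 0 (φ (Z.card - 1) - φ (Z.card - 2)) else 0) * ∑ k ∈ Z, e k ^ 2 +
        ∑ k ∈ Z, e k ^ 2 / N k *
          (max 0 (φ (Z.card - 1) - φ Z.card) * ∑ l ∈ Zᶜ, (N l : ℝ) +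
            max 0 (φ (Z.card - 2) - φ (Z.card - 1)) * ∑ l ∈ Z.erase k, (N l : ℝ)) ≤
    Ap * ∑ k ∈ Zᶜ, e k ^ 2 + Bp * ∑ k ∈ Z, e k ^ 2 +
        ∑ k ∈ Z, e k ^ 2 / N k *
          (Am * ∑ l ∈ Zᶜ, (N l : ℝ) + Bm * ∑ l ∈ Z.erase k, (N l : ℝ)) := by
  have hcard : Z.card ≤ B := by simpa using Finset.card_le_univ Z
  have hlt : (Zᶜ).Nonempty → Z.card < B := by
    intro h
    have := Finset.card_pos.2 h
    rw [Finset.card_compl, Fintype.card_fin] at this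
    omega
  have e2 := H.h2
  have e0 := H.h0
  refine add_le_add (add_le_add ?_ ?_) ?_
  · rcases Finset.eq_empty_or_nonempty Zᶜ with h | h
    · rw [h]
      simp
    · refine mul_le_mul_of_nonneg_right ?_ (Finset.sum_nonneg fun k _ => sq_nonneg _)
      split_ifs with h1
      · have a1 := H.v1 h1
        have a2 := H.v2 (hlt h)
        refine max_le H.hAp ?_
        have := H.hAm
        linarith
      · exact H.hAp
  · refine mul_le_mul_of_nonneg_right ?_ (Finset.sum_nonneg fun k _ => sq_nonneg _)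
    split_ifs with h1
    · have a1 := H.v1 (by omega)
      have a0 := H.v0 h1
      refine max_le H.hBp ?_
      have := H.hBm
      linarith
    · exact H.hBp
  · refine Finset.sum_le_sum fun k hk => mul_le_mul_of_nonneg_left ?_ (by positivity)
    have hm : 1 ≤ Z.card := Finset.card_pos.2 ⟨k, hk⟩
    have a1 := H.v1 hm
    refine add_le_add ?_ ?_
    · rcases Finset.eq_empty_or_nonempty Zᶜ with h | h
      · rw [h]
        simp
      · refine mul_le_mul_of_nonneg_right ?_ (Finset.sum_nonneg fun k _ => by positivity)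
        have a2 := H.v2 (hlt h)
        refine max_le H.hAm ?_
        have := H.hAp
        linarith
    · rcases Finset.eq_empty_or_nonempty (Z.erase k) with h | h
      · rw [h]
        simp
      · refine mul_le_mul_of_nonneg_right ?_ (Finset.sum_nonneg fun k _ => by positivity)
        have h3 := Finset.card_pos.2 h
        rw [Finset.card_erase_of_mem hk] at h3
        have a0 := H.v0 (by omega)
        refine max_le H.hBm ?_
        have := H.hBp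
        linarith

theorem charged_nonneg {c : Fin B → ℝ} (hc : ∀ k, 0 ≤ c k ∧ c k ≤ 1) (φ : ℕ → ℝ)
    (hok : ∀ Z, PZ (fun k => c k ^ 2) Z ≠ 0 → OkAt φ B Z.card) (M : ℕ) (F : Mo B → ℂ)
    (hF : ∀ n, F n = ∑ k, F (upo n k)) :
    0 ≤ Qf (AP2 c φ) (AP1 c φ) (AX2 c φ) M F (fun n => ∃ k, eb n k ≠ 0) := by
  set s : Fin B → ℝ := fun k => c k ^ 2 with hsdef
  have hs : ∀ k, 0 ≤ s k ∧ s k ≤ 1 := fun k =>
    ⟨sq_nonneg _, by simpa [hsdef] using pow_le_one₀ (n := 2) (hc k).1 (hc k).2⟩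
  have hex : ∀ Z : Finset (Fin B), ∃ f0 f1 f2 Ap Am Bp Bm : ℝ, PZ s Z ≠ 0 →
      Cho φ B Z.card f0 f1 f2 Ap Am Bp Bm := by
    intro Z
    by_cases h : PZ s Z = 0
    · exact ⟨0, 0, 0, 0, 0, 0, 0, fun h' => absurd h h'⟩
    · obtain ⟨f0, f1, f2, Ap, Am, Bp, Bm, H⟩ := cho_of φ Z.card (hok Z h)
      exact ⟨f0, f1, f2, Ap, Am, Bp, Bm, fun _ => H⟩
  choose f0 f1 f2 Ap Am Bp Bm H using hex
  have hN : ∀ (q : ℕ) (Z : Finset (Fin B)) (n : Mo B), n ∈ levo B (2 * q + 2) →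
      2 ≤ ja Z n + lz Z n := by
    intro q Z n hn
    rw [ja_add_lz Z hn]
    omega
  have hNR : ∀ (q : ℕ) (Z : Finset (Fin B)) (n : Mo B), n ∈ levo B (2 * q + 2) →
      (ja Z n : ℝ) + lz Z n - 1 = 2 * (q : ℝ) + 1 := by
    intro q Z n hn
    have h := ja_add_lz Z hn
    have h' : (ja Z n : ℝ) + lz Z n = ((2 * q + 2 : ℕ) : ℝ) := by exact_mod_cast h
    rw [h']
    push_cast
    ring
  have hP2 : ∀ g : Bk B → Bk B → ℝ, ∑ j, ∑ k ∈ Finset.univ.erase j, AP2 c φ j k * g j k =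
      EZ s (fun Z => ∑ j, ∑ k ∈ Finset.univ.erase j, p2 φ Z j k * g j k) := by
    intro g
    rw [EZ_sum]
    refine Finset.sum_congr rfl fun j _ => ?_
    rw [EZ_sum]
    refine Finset.sum_congr rfl fun k _ => ?_
    unfold AP2
    rw [mul_comm, ← EZ_mul]
    congr 1
    funext Z
    ring
  have hP1 : ∀ g : Fin B → ℝ, ∑ k, AP1 c φ k * g k = EZ s (fun Z => ∑ k, p1 φ Z k * g k) := by
    intro g
    rw [EZ_sum]
    refine Finset.sum_congr rfl fun k _ => ?_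
    unfold AP1
    rw [mul_comm, ← EZ_mul]
    congr 1
    funext Z
    ring
  have hV2 : ∀ Z, PZ s Z ≠ 0 → ∀ g : Bk B → Bk B → ℝ,
      ∑ j, ∑ k ∈ Finset.univ.erase j, p2 φ Z j k * g j k =
        ∑ j, ∑ k ∈ Finset.univ.erase j, VP2 Z (f0 Z) (f1 Z) (f2 Z) j k * g j k := by
    intro Z hZ g
    have h := H Z hZ
    refine Finset.sum_congr rfl fun j _ => Finset.sum_congr rfl fun k hk => ?_
    rw [p2_vert Z φ h.v1 h.v2 h.v0 (Finset.ne_of_mem_erase hk).symm]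
  have hV1 : ∀ Z, PZ s Z ≠ 0 → ∀ g : Fin B → ℝ,
      ∑ k, p1 φ Z k * g k = ∑ k, VP1 Z (f1 Z) (f2 Z) k * g k := by
    intro Z hZ g
    have h := H Z hZ
    refine Finset.sum_congr rfl fun k _ => ?_
    rw [p1_vert Z φ h.v1 h.v2]
  refine abs_nonneg' (AP2 c φ) (AP1 c φ) (AX2 c φ) M F hF _ ?_
    (fun n => EZ s (fun Z => TT0 (f1 Z) (Ap Z) (Am Z) (Bp Z) (ja Z n) (lz Z n) /
      ((ja Z n : ℝ) + lz Z n - 1) ^ 2))
    (fun n k => EZ s (fun Z => Dv Z (f0 Z) (f2 Z) (Ap Z) (Am Z) (Bp Z) (Bm Z) n k))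
    (fun n k => EZ s (fun Z => Dw Z (f0 Z) (f2 Z) (Ap Z) (Am Z) (Bp Z) (Bm Z) n k))
    ?_ ?_ ?_ ?_ ?_
  · intro n k
    simp only [eb_upo]
  · intro q n k _ _
    simp only [Dw_upo]
  · intro q n hn _
    refine EZ_nn hs fun Z hZ => ?_
    exact div_nonneg ((H Z hZ).hT _ _ (hN q Z n hn)) (sq_nonneg _)
  · intro q n hn _
    unfold cn
    rw [hP2 (fun j k => (nb n j : ℝ) * nb n k), hP1 (fun k => (nb n (some k) : ℝ) - eb n k ^ 2)]
    have hcr := cross hc φ (eb n) (fun k => nb n (some k)) (by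
      intro k hk
      have h := abs_eb_le n k
      rw [hk, Nat.cast_zero] at h
      exact abs_eq_zero.1 (le_antisymm h (abs_nonneg _)))
    have e1 : (2 * (q : ℝ) + 1) ^ 2 * EZ s (fun Z => TT0 (f1 Z) (Ap Z) (Am Z) (Bp Z) (ja Z n) (lz Z n) /
        ((ja Z n : ℝ) + lz Z n - 1) ^ 2) =
        EZ s (fun Z => TT0 (f1 Z) (Ap Z) (Am Z) (Bp Z) (ja Z n) (lz Z n)) := by
      rw [← EZ_mul]
      congr 1
      funext Z
      rw [hNR q Z n hn]
      have : (2 * (q : ℝ) + 1) ≠ 0 := by positivity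
      field_simp
    have e2 : ∑ k, wt n k * EZ s (fun Z => Dw Z (f0 Z) (f2 Z) (Ap Z) (Am Z) (Bp Z) (Bm Z) n k) =
        EZ s (fun Z => ∑ k, wt n k * Dw Z (f0 Z) (f2 Z) (Ap Z) (Am Z) (Bp Z) (Bm Z) n k) := by
      rw [EZ_sum]
      refine Finset.sum_congr rfl fun k _ => ?_
      rw [EZ_mul]
    rw [e1, e2]
    have key := EZ_mono hs (g := fun Z => (TT0 (f1 Z) (Ap Z) (Am Z) (Bp Z) (ja Z n) (lz Z n) +
          ∑ k, wt n k * Dw Z (f0 Z) (f2 Z) (Ap Z) (Am Z) (Bp Z) (Bm Z) n k) +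
        ((if 1 ≤ Z.card then max 0 (φ Z.card - φ (Z.card - 1)) else 0) * ∑ k ∈ Zᶜ, eb n k ^ 2 +
        (if 2 ≤ Z.card then max 0 (φ (Z.card - 1) - φ (Z.card - 2)) else 0) * ∑ k ∈ Z, eb n k ^ 2 +
        ∑ k ∈ Z, eb n k ^ 2 / nb n (some k) *
          (max 0 (φ (Z.card - 1) - φ Z.card) * ∑ l ∈ Zᶜ, (nb n (some l) : ℝ) +
            max 0 (φ (Z.card - 2) - φ (Z.card - 1)) * ∑ l ∈ Z.erase k, (nb n (some l) : ℝ))) +
        ∑ k, p1 φ Z k * ((nb n (some k) : ℝ) - eb n k ^ 2))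
      (h := fun Z => ∑ j, ∑ k ∈ Finset.univ.erase j, p2 φ Z j k * ((nb n j : ℝ) * nb n k)) (by
      intro Z hZ
      have h := H Z hZ
      have h1 := ver_I Z h.hAp h.hAm h.hBp h.hBm h.h2 h.h0 n
      have h2 := cross_le Z h (eb n) (fun k => nb n (some k))
      rw [hV2 Z hZ (fun j k => (nb n j : ℝ) * nb n k),
        hV1 Z hZ (fun k => (nb n (some k) : ℝ) - eb n k ^ 2)]
      linarith)
    rw [EZ_add, EZ_add, EZ_add] at key
    linarith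
  · intro q n hn _ v
    rw [hP2 (fun j k => v j * v k)]
    have e1 : EZ s (fun Z => TT0 (f1 Z) (Ap Z) (Am Z) (Bp Z) (ja Z n) (lz Z n) /
        ((ja Z n : ℝ) + lz Z n - 1) ^ 2) * (∑ k, v k) ^ 2 +
        ∑ k, EZ s (fun Z => Dv Z (f0 Z) (f2 Z) (Ap Z) (Am Z) (Bp Z) (Bm Z) n k) * v k ^ 2 =
        EZ s (fun Z => TT0 (f1 Z) (Ap Z) (Am Z) (Bp Z) (ja Z n) (lz Z n) /
        ((ja Z n : ℝ) + lz Z n - 1) ^ 2 * (∑ k, v k) ^ 2 +
        ∑ k, Dv Z (f0 Z) (f2 Z) (Ap Z) (Am Z) (Bp Z) (Bm Z) n k * v k ^ 2) := by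
      rw [EZ_add, EZ_sum]
      congr 1
      · rw [mul_comm, ← EZ_mul]
        congr 1
        funext Z
        ring
      · refine Finset.sum_congr rfl fun k _ => ?_
        rw [mul_comm, ← EZ_mul]
        congr 1
        funext Z
        ring
    rw [e1]
    refine EZ_mono hs fun Z hZ => ?_
    have h := H Z hZ
    rw [hV2 Z hZ (fun j k => v j * v k)]
    have hcard : Z.card ≤ B := by simpa using Finset.card_le_univ Z
    exact ver_II Z (m := Z.card) rfl (r := 2 * B + 1 - 2 * Z.card) (by omega) h.hAp h.hAm h.hBp h.hBm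
      h.h2 h.h0 n (hN q Z n hn) (h.hQ _ _ (hN q Z n hn)) v
  · rintro ⟨k, hk⟩
    exact absurd (by simp [eb]) hk

end Pool.Agent.H35.ODD
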