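import Mathlib
import Pool.Agent.H35.ODD.Defs
import Pool.Agent.H35.ISO.Mul
import Pool.Agent.H35.ISO.Exp

set_option autoImplicit false

/-!
# OExp: expansion in modes for arbitrary coefficient arrays (model: `H35/ISO/Exp.lean`)

`g_(some (k,true)) = h_k/2`, `g_(some (k,false)) = conj h_k / 2` (`h_k = u_k conj v_k`), `g_none = u_0 v_0`
(real): `∑ g = tto u v`, `∏ g^n = 2^(-∑ n (some μ)) moo u n conj (moo v n)`.  `re2 u v k = ∑ α g` with `α = 1`
on the block `k`; `i im2 u v k = ∑ α g` with `α = ±1` on `(k, ±)`.  `multi_two` gives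
`(N+2)(N+1) re2_j re2_k t^N = ∑_{|n|=N+2} mmo n N_j N_k moo moo'` (`j ≠ k`),
`(N+2)(N+1) im2_k² t^N = -∑ mmo n (e_k² - N_k) moo moo'`,
`(N+2)(N+1) im2_j im2_k t^N = -∑ mmo n e_j e_k moo moo'` (`j ≠ k`), and
`rho_j(u) rho_k(v) t^N = ∑_{|n|=N} mmo n moo u (upo n j) conj (moo v (upo n k))`
(`rho_k(u) moo u n = moo u (upo n k)`).  So
`(N+2)(N+1) num t^N = -∑_{|n|=N+2} mmo n cn moo moo' + (N+2)(N+1) ∑_{|n|=N} mmo n ∑_{j≠k} P2 …`.
Sum with `λ_a λ_b`, real parts (`∑_ab λ_a λ_b moo(u_a) n conj (moo(u_b) n) = |F_n|²`).  No symmetry of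
`P2`, `X2` is needed (real parts of both sides).
-/

open Pool.Agent.H89.CZ
open Pool.Agent.H35.ISO (tr)
open scoped ComplexConjugate

noncomputable section

namespace Pool.Agent.H35.ODD

variable {B : ℕ}

private def gmo (u v : Vc B) : Option (Fin B × Bool) → ℂ
  | none => ((u.2 * v.2 : ℝ) : ℂ)
  | some (k, true) => u.1 k * conj (v.1 k) / 2
  | some (k, false) => conj (u.1 k * conj (v.1 k)) / 2

private theorem re_half (z : ℂ) : z / 2 + conj z / 2 = (z.re : ℂ) := by
  rw [← add_div, Complex.add_conj]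
  push_cast
  ring

private theorem im_half (z : ℂ) : z / 2 - conj z / 2 = Complex.I * (z.im : ℂ) := by
  rw [← sub_div, Complex.sub_conj]
  push_cast
  ring

private def ra : Bk B → Option (Fin B × Bool) → ℂ
  | none, none => 1
  | none, some _ => 0
  | some _, none => 0
  | some k, some (l, _) => if l = k then 1 else 0

private def ia (k : Fin B) : Option (Fin B × Bool) → ℂ
  | none => 0
  | some (l, true) => if l = k then 1 else 0
  | some (l, false) => if l = k then -1 else 0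

private theorem sum_o (f : Option (Fin B × Bool) → ℂ) :
    ∑ μ, f μ = f none + ∑ k, (f (some (k, true)) + f (some (k, false))) := by
  rw [Fintype.sum_option, Fintype.sum_prod_type]
  simp only [Fintype.sum_bool]

private theorem sum_gmo (u v : Vc B) : ∑ μ, gmo u v μ = (tto u v : ℂ) := by
  rw [sum_o]
  unfold tto
  rw [Fintype.sum_option, Complex.ofReal_add, Complex.ofReal_sum]
  congr 1
  apply Finset.sum_congr rfl
  intro k _
  exact re_half _

private theorem sum_ra_g (u v : Vc B) (b : Bk B) :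
    ∑ μ, ra b μ * gmo u v μ = (re2 u v b : ℂ) := by
  rw [sum_o]
  cases b with
  | none => simp [ra, gmo, re2]
  | some k =>
    rw [Finset.sum_eq_single k]
    · have h := re_half (u.1 k * conj (v.1 k))
      simp only [ra, gmo, re2, if_true, one_mul, zero_mul, zero_add]
      exact h
    · intro l _ hl
      simp [ra, hl]
    · simp

private theorem sum_ra_n (n : Mo B) (b : Bk B) : ∑ μ, ra b μ * n μ = (nb n b : ℂ) := by
  rw [sum_o]
  cases b with
  | none => simp [ra, nb]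
  | some k =>
    rw [Finset.sum_eq_single k]
    · simp [ra, nb]
    · intro l _ hl
      simp [ra, hl]
    · simp

private theorem sum_ra_ra (n : Mo B) {j k : Bk B} (h : j ≠ k) :
    ∑ μ, ra j μ * ra k μ * n μ = 0 := by
  apply Finset.sum_eq_zero
  rintro (_ | ⟨l, e⟩) _
  · cases j with
    | none => cases k with
      | none => exact absurd rfl h
      | some k => simp [ra]
    | some j => simp [ra]
  · cases j with
    | none => simp [ra]
    | some j => cases k with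
      | none => simp [ra]
      | some k =>
        by_cases h1 : l = j
        · have h2 : l ≠ k := by
            intro h3
            exact h (by rw [← h1, h3])
          simp [ra, h2]
        · simp [ra, h1]

private theorem sum_ia_g (u v : Vc B) (k : Fin B) :
    ∑ μ, ia k μ * gmo u v μ = Complex.I * (im2 u v k : ℂ) := by
  rw [sum_o, Finset.sum_eq_single k]
  · have h := im_half (u.1 k * conj (v.1 k))
    simp only [ia, gmo, im2, if_true, one_mul, zero_mul, zero_add]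
    rw [← h]
    ring
  · intro l _ hl
    simp [ia, hl]
  · simp

private theorem sum_ia_n (n : Mo B) (k : Fin B) : ∑ μ, ia k μ * n μ = (eb n k : ℂ) := by
  rw [sum_o, Finset.sum_eq_single k]
  · simp only [ia, eb, if_true, one_mul, zero_mul, zero_add]
    push_cast
    ring
  · intro l _ hl
    simp [ia, hl]
  · simp

private theorem sum_ia_ia (n : Mo B) (k : Fin B) :
    ∑ μ, ia k μ * ia k μ * n μ = (nb n (some k) : ℂ) := by
  rw [sum_o, Finset.sum_eq_single k]
  · simp only [ia, nb, if_true, one_mul, zero_mul, zero_add]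
    push_cast
    ring
  · intro l _ hl
    simp [ia, hl]
  · simp

private theorem sum_ia_ne (n : Mo B) {j k : Fin B} (h : j ≠ k) :
    ∑ μ, ia j μ * ia k μ * n μ = 0 := by
  apply Finset.sum_eq_zero
  rintro (_ | ⟨l, e⟩) _
  · simp [ia]
  · by_cases h1 : l = j
    · have h2 : l ≠ k := by
        intro h3
        exact h (by rw [← h1, h3])
      cases e <;> simp [ia, h2]
    · cases e <;> simp [ia, h1]

private theorem prod_gmo (u v : Vc B) (n : Mo B) :
    ∏ μ, gmo u v μ ^ n μ = 1 / 2 ^ (∑ μ, n (some μ)) * (moo u n * conj (moo v n)) := by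
  have h : ∏ μ : Fin B × Bool, gmo u v (some μ) ^ n (some μ) =
      1 / 2 ^ (∑ μ, n (some μ)) *
        ((∏ k, u.1 k ^ n (some (k, true)) * conj (u.1 k) ^ n (some (k, false))) *
        conj (∏ k, v.1 k ^ n (some (k, true)) * conj (v.1 k) ^ n (some (k, false)))) := by
    rw [map_prod, ← Finset.prod_mul_distrib,
      ← Finset.prod_pow_eq_pow_sum Finset.univ (fun μ => n (some μ)) (2 : ℂ),
      one_div, ← Finset.prod_inv_distrib, Fintype.prod_prod_type, Fintype.prod_prod_type,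
      ← Finset.prod_mul_distrib]
    apply Finset.prod_congr rfl
    intro k _
    rw [Fintype.prod_bool, Fintype.prod_bool]
    simp only [gmo, map_mul, map_pow, Complex.conj_conj, div_pow, mul_pow]
    field_simp
  rw [Fintype.prod_option, h]
  unfold moo
  simp only [gmo, map_mul, map_pow, Complex.conj_ofReal, Complex.ofReal_mul, mul_pow]
  ring

private theorem two_gen (u v : Vc B) (α β : Option (Fin B × Bool) → ℂ) (N : ℕ) :
    ((N : ℂ) + 2) * (N + 1) *
        (((∑ m, α m * gmo u v m) * (∑ m, β m * gmo u v m)) * (tto u v : ℂ) ^ N) =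
      ∑ n ∈ levo B (N + 2), (mmo n : ℂ) *
        ((∑ m, α m * n m) * (∑ m, β m * n m) - ∑ m, α m * β m * n m) *
        (moo u n * conj (moo v n)) := by
  have h := Pool.Agent.H35.ISO.multi_two (gmo u v) α β N
  rw [sum_gmo] at h
  rw [← mul_assoc, h]
  unfold levo
  apply Finset.sum_congr rfl
  intro n _
  rw [prod_gmo]
  unfold mmo
  push_cast
  ring

private theorem powo (u v : Vc B) (N : ℕ) :
    (tto u v : ℂ) ^ N = ∑ n ∈ levo B N, (mmo n : ℂ) * (moo u n * conj (moo v n)) := by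
  rw [← sum_gmo, Finset.sum_pow_eq_sum_piAntidiag]
  unfold levo
  apply Finset.sum_congr rfl
  intro n _
  rw [prod_gmo]
  unfold mmo
  push_cast
  ring

private theorem moo_up (u : Vc B) (n : Mo B) (k : Bk B) :
    moo u (upo n k) = ((rho u k : ℝ) : ℂ) * moo u n := by
  cases k with
  | none =>
    unfold moo upo rho
    simp only [if_true, reduceCtorEq, if_false, add_zero, pow_add, Complex.ofReal_pow]
    ring
  | some k =>
    have h1 : ((‖u.1 k‖ ^ 2 : ℝ) : ℂ) =
        ∏ l, (u.1 l * conj (u.1 l)) ^ (if l = k then 1 else 0) := by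
      simp only [pow_ite, pow_one, pow_zero]
      rw [Finset.prod_ite_eq' Finset.univ k, if_pos (Finset.mem_univ k), Complex.mul_conj,
        Complex.normSq_eq_norm_sq]
    have h2 : ∏ l, u.1 l ^ (upo n (some k)) (some (l, true)) *
        conj (u.1 l) ^ (upo n (some k)) (some (l, false)) =
        ((‖u.1 k‖ ^ 2 : ℝ) : ℂ) *
          ∏ l, u.1 l ^ n (some (l, true)) * conj (u.1 l) ^ n (some (l, false)) := by
      rw [h1, ← Finset.prod_mul_distrib]
      apply Finset.prod_congr rfl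
      intro l _
      have e1 : (upo n (some k)) (some (l, true)) = n (some (l, true)) + if l = k then 1 else 0 := by
        simp [upo]
      have e2 : (upo n (some k)) (some (l, false)) =
          n (some (l, false)) + if l = k then 1 else 0 := by
        simp [upo]
      rw [e1, e2, pow_add, pow_add, mul_pow]
      ring
    have h3 : (upo n (some k)) none = n none := by simp [upo]
    unfold moo
    rw [h2, h3]
    unfold rho
    ring

private theorem lin1 {κ ν : Type*} (T : Finset κ) (S : Finset ν) (E t : ℂ) (c x : κ → ℂ)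
    (w M : ν → ℂ) (y : κ → ν → ℂ)
    (h : ∀ p ∈ T, E * (x p * t) = ∑ n ∈ S, w n * y p n * M n) :
    E * ((∑ p ∈ T, c p * x p) * t) = ∑ n ∈ S, w n * (∑ p ∈ T, c p * y p n) * M n := by
  calc E * ((∑ p ∈ T, c p * x p) * t) = ∑ p ∈ T, c p * (E * (x p * t)) := by
        rw [Finset.sum_mul, Finset.mul_sum]
        exact Finset.sum_congr rfl fun p _ => by ring
    _ = ∑ p ∈ T, ∑ n ∈ S, c p * (w n * y p n * M n) := by
        refine Finset.sum_congr rfl fun p hp => ?_
        rw [h p hp, Finset.mul_sum]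
    _ = ∑ n ∈ S, w n * (∑ p ∈ T, c p * y p n) * M n := by
        rw [Finset.sum_comm]
        refine Finset.sum_congr rfl fun n _ => ?_
        rw [Finset.mul_sum, Finset.sum_mul]
        exact Finset.sum_congr rfl fun p _ => by ring

private theorem lin2 {κ ν : Type*} [Fintype κ] [DecidableEq κ] (S : Finset ν) (E t : ℂ)
    (c x : κ → κ → ℂ) (w M : ν → ℂ) (y : κ → κ → ν → ℂ)
    (h : ∀ j k, j ≠ k → E * (x j k * t) = ∑ n ∈ S, w n * y j k n * M n) :
    E * ((∑ j, ∑ k ∈ Finset.univ.erase j, c j k * x j k) * t) =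
      ∑ n ∈ S, w n * (∑ j, ∑ k ∈ Finset.univ.erase j, c j k * y j k n) * M n := by
  have h1 : ∀ j ∈ (Finset.univ : Finset κ),
      E * ((∑ k ∈ Finset.univ.erase j, c j k * x j k) * t) =
      ∑ n ∈ S, w n * (∑ k ∈ Finset.univ.erase j, c j k * y j k n) * M n :=
    fun j _ => lin1 _ S E t (c j) (x j) w M (y j)
      (fun k hk => h j k (Finset.ne_of_mem_erase hk).symm)
  have h2 := lin1 Finset.univ S E t (fun _ => 1)
    (fun j => ∑ k ∈ Finset.univ.erase j, c j k * x j k) w M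
    (fun j n => ∑ k ∈ Finset.univ.erase j, c j k * y j k n) h1
  simpa only [one_mul] using h2

private theorem numS (P2 : Bk B → Bk B → ℝ) (P1 : Fin B → ℝ) (X2 : Fin B → Fin B → ℝ)
    (u v : Vc B) (N : ℕ) :
    ((N : ℂ) + 2) * (N + 1) * ((num P2 P1 X2 u v : ℂ) * (tto u v : ℂ) ^ N) =
      -(∑ n ∈ levo B (N + 2), ((mmo n * cn P2 P1 X2 n : ℝ) : ℂ) * (moo u n * conj (moo v n))) +
      ((N : ℂ) + 2) * (N + 1) * ∑ n ∈ levo B N, (mmo n : ℂ) *
        ∑ j, ∑ k ∈ Finset.univ.erase j, (P2 j k : ℂ) *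
          (moo u (upo n j) * conj (moo v (upo n k))) := by
  have L1 : ((N : ℂ) + 2) * (N + 1) *
      ((∑ k, (P1 k : ℂ) * (im2 u v k : ℂ) ^ 2) * (tto u v : ℂ) ^ N) =
      ∑ n ∈ levo B (N + 2), (mmo n : ℂ) *
        (∑ k, (P1 k : ℂ) * ((nb n (some k) : ℂ) - (eb n k : ℂ) ^ 2)) *
        (moo u n * conj (moo v n)) := by
    refine lin1 Finset.univ _ _ _ _ _ _ _ _ fun k _ => ?_
    have h := two_gen u v (ia k) (ia k) N
    rw [sum_ia_g] at h
    have h1 : Complex.I * (im2 u v k : ℂ) * (Complex.I * (im2 u v k : ℂ)) =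
        -((im2 u v k : ℂ) ^ 2) := by
      linear_combination ((im2 u v k : ℂ) ^ 2) * Complex.I_sq
    rw [h1] at h
    have h2 : ((N : ℂ) + 2) * (N + 1) * ((im2 u v k : ℂ) ^ 2 * (tto u v : ℂ) ^ N) =
        -(((N : ℂ) + 2) * (N + 1) * (-((im2 u v k : ℂ) ^ 2) * (tto u v : ℂ) ^ N)) := by ring
    rw [h2, h, ← Finset.sum_neg_distrib]
    refine Finset.sum_congr rfl fun n _ => ?_
    rw [sum_ia_n, sum_ia_ia]
    ring
  have L2 : ((N : ℂ) + 2) * (N + 1) *
      ((∑ j, ∑ k ∈ Finset.univ.erase j, (P2 j k : ℂ) * ((re2 u v j : ℂ) * (re2 u v k : ℂ))) *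
        (tto u v : ℂ) ^ N) =
      ∑ n ∈ levo B (N + 2), (mmo n : ℂ) *
        (∑ j, ∑ k ∈ Finset.univ.erase j, (P2 j k : ℂ) * ((nb n j : ℂ) * (nb n k : ℂ))) *
        (moo u n * conj (moo v n)) := by
    refine lin2 _ _ _ _ _ _ _ _ fun j k hjk => ?_
    have h := two_gen u v (ra j) (ra k) N
    rw [sum_ra_g, sum_ra_g] at h
    rw [h]
    refine Finset.sum_congr rfl fun n _ => ?_
    rw [sum_ra_n, sum_ra_n, sum_ra_ra n hjk, sub_zero]
  have L3 : ((N : ℂ) + 2) * (N + 1) *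
      ((∑ j, ∑ k ∈ Finset.univ.erase j, (X2 j k : ℂ) * ((im2 u v j : ℂ) * (im2 u v k : ℂ))) *
        (tto u v : ℂ) ^ N) =
      ∑ n ∈ levo B (N + 2), (mmo n : ℂ) *
        (∑ j, ∑ k ∈ Finset.univ.erase j, (X2 j k : ℂ) * (-((eb n j : ℂ) * (eb n k : ℂ)))) *
        (moo u n * conj (moo v n)) := by
    refine lin2 _ _ _ _ _ _ _ _ fun j k hjk => ?_
    have h := two_gen u v (ia j) (ia k) N
    rw [sum_ia_g, sum_ia_g] at h
    have h1 : Complex.I * (im2 u v j : ℂ) * (Complex.I * (im2 u v k : ℂ)) =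
        -((im2 u v j : ℂ) * (im2 u v k : ℂ)) := by
      linear_combination ((im2 u v j : ℂ) * (im2 u v k : ℂ)) * Complex.I_sq
    rw [h1] at h
    have h2 : ((N : ℂ) + 2) * (N + 1) *
        (((im2 u v j : ℂ) * (im2 u v k : ℂ)) * (tto u v : ℂ) ^ N) =
        -(((N : ℂ) + 2) * (N + 1) *
          (-((im2 u v j : ℂ) * (im2 u v k : ℂ)) * (tto u v : ℂ) ^ N)) := by ring
    rw [h2, h, ← Finset.sum_neg_distrib]
    refine Finset.sum_congr rfl fun n _ => ?_
    rw [sum_ia_n, sum_ia_n, sum_ia_ne n hjk, sub_zero]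
    ring
  have L4 : (1 : ℂ) *
      ((∑ j, ∑ k ∈ Finset.univ.erase j, (P2 j k : ℂ) * ((rho u j : ℂ) * (rho v k : ℂ))) *
        (tto u v : ℂ) ^ N) =
      ∑ n ∈ levo B N, (mmo n : ℂ) *
        (∑ j, ∑ k ∈ Finset.univ.erase j, (P2 j k : ℂ) *
          (moo u (upo n j) * conj (moo v (upo n k)))) * (fun _ => (1 : ℂ)) n := by
    refine lin2 _ _ _ _ _ _ _ _ fun j k _ => ?_
    rw [powo, one_mul, Finset.mul_sum]
    refine Finset.sum_congr rfl fun n _ => ?_
    rw [moo_up, moo_up, map_mul, Complex.conj_ofReal]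
    ring
  simp only [one_mul, mul_one] at L4
  rw [← L4]
  have hc : ∀ n : Mo B, ((mmo n * cn P2 P1 X2 n : ℝ) : ℂ) = (mmo n : ℂ) *
      ((∑ j, ∑ k ∈ Finset.univ.erase j, (P2 j k : ℂ) * ((nb n j : ℂ) * (nb n k : ℂ))) -
      (∑ k, (P1 k : ℂ) * ((nb n (some k) : ℂ) - (eb n k : ℂ) ^ 2)) -
      (∑ j, ∑ k ∈ Finset.univ.erase j, (X2 j k : ℂ) * (-((eb n j : ℂ) * (eb n k : ℂ))))) := by
    intro n
    unfold cn
    push_cast
    simp only [mul_neg, Finset.sum_neg_distrib, sub_neg_eq_add]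
  have hs : (∑ n ∈ levo B (N + 2), ((mmo n * cn P2 P1 X2 n : ℝ) : ℂ) *
      (moo u n * conj (moo v n))) =
      ((N : ℂ) + 2) * (N + 1) *
      ((∑ j, ∑ k ∈ Finset.univ.erase j, (P2 j k : ℂ) * ((re2 u v j : ℂ) * (re2 u v k : ℂ))) *
        (tto u v : ℂ) ^ N) -
      ((N : ℂ) + 2) * (N + 1) *
      ((∑ k, (P1 k : ℂ) * (im2 u v k : ℂ) ^ 2) * (tto u v : ℂ) ^ N) -
      ((N : ℂ) + 2) * (N + 1) *
      ((∑ j, ∑ k ∈ Finset.univ.erase j, (X2 j k : ℂ) * ((im2 u v j : ℂ) * (im2 u v k : ℂ))) *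
        (tto u v : ℂ) ^ N) := by
    rw [L1, L2, L3, ← Finset.sum_sub_distrib, ← Finset.sum_sub_distrib]
    refine Finset.sum_congr rfl fun n _ => ?_
    rw [hc]
    ring
  rw [hs]
  have hn : (num P2 P1 X2 u v : ℂ) = (∑ k, (P1 k : ℂ) * (im2 u v k : ℂ) ^ 2) +
      ((∑ j, ∑ k ∈ Finset.univ.erase j, (P2 j k : ℂ) * ((rho u j : ℂ) * (rho v k : ℂ))) -
      (∑ j, ∑ k ∈ Finset.univ.erase j, (P2 j k : ℂ) * ((re2 u v j : ℂ) * (re2 u v k : ℂ)))) +
      (∑ j, ∑ k ∈ Finset.univ.erase j, (X2 j k : ℂ) * ((im2 u v j : ℂ) * (im2 u v k : ℂ))) := by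
    unfold num
    push_cast
    simp only [mul_sub, Finset.sum_sub_distrib]
  rw [hn]
  ring

private theorem sum_sq2 {ι : Type*} [Fintype ι] (lam : ι → ℝ) (f g : ι → ℂ) :
    ∑ a, ∑ b, ((lam a * lam b : ℝ) : ℂ) * (f a * conj (g b)) =
      (∑ a, (lam a : ℂ) * f a) * conj (∑ b, (lam b : ℂ) * g b) := by
  rw [map_sum, Finset.sum_mul_sum]
  refine Finset.sum_congr rfl fun a _ => Finset.sum_congr rfl fun b _ => ?_
  rw [map_mul, Complex.conj_ofReal]
  push_cast
  ring

private theorem L_sum {ι ν : Type*} [Fintype ι] (l : ι → ι → ℂ) (S : Finset ν) (c : ν → ℂ)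
    (f : ν → ι → ι → ℂ) :
    ∑ a, ∑ b, l a b * ∑ n ∈ S, c n * f n a b = ∑ n ∈ S, c n * ∑ a, ∑ b, l a b * f n a b := by
  calc ∑ a, ∑ b, l a b * ∑ n ∈ S, c n * f n a b =
        ∑ a, ∑ n ∈ S, ∑ b, c n * (l a b * f n a b) := by
        refine Finset.sum_congr rfl fun a _ => ?_
        simp only [Finset.mul_sum]
        rw [Finset.sum_comm]
        exact Finset.sum_congr rfl fun n _ => Finset.sum_congr rfl fun b _ => by ring
    _ = ∑ n ∈ S, ∑ a, ∑ b, c n * (l a b * f n a b) := Finset.sum_comm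
    _ = _ := by simp only [Finset.mul_sum]

private theorem sumO (P2 : Bk B → Bk B → ℝ) (P1 : Fin B → ℝ) (X2 : Fin B → Fin B → ℝ)
    {ι : Type*} [Fintype ι] (u : ι → Vc B) (lam : ι → ℝ) (N : ℕ) :
    ((N : ℝ) + 2) * (N + 1) * ∑ a, ∑ b, lam a * lam b *
        (num P2 P1 X2 (u a) (u b) * tto (u a) (u b) ^ N) =
      -(∑ n ∈ levo B (N + 2), mmo n * cn P2 P1 X2 n * ‖FFo u lam n‖ ^ 2) +
      ((N : ℝ) + 2) * (N + 1) * ∑ n ∈ levo B N, mmo n *
        ∑ j, ∑ k ∈ Finset.univ.erase j, P2 j k *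
          (FFo u lam (upo n j) * conj (FFo u lam (upo n k))).re := by
  have H : ((((N : ℝ) + 2) * (N + 1) * ∑ a, ∑ b, lam a * lam b *
        (num P2 P1 X2 (u a) (u b) * tto (u a) (u b) ^ N) : ℝ) : ℂ) =
      -(∑ n ∈ levo B (N + 2), ((mmo n * cn P2 P1 X2 n : ℝ) : ℂ) *
        ((‖FFo u lam n‖ ^ 2 : ℝ) : ℂ)) +
      (((N : ℝ) + 2) * (N + 1) : ℝ) * ∑ n ∈ levo B N, ((mmo n : ℝ) : ℂ) *
        ∑ j, ∑ k ∈ Finset.univ.erase j, ((P2 j k : ℝ) : ℂ) *
          (FFo u lam (upo n j) * conj (FFo u lam (upo n k))) := by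
    have h1 : ((((N : ℝ) + 2) * (N + 1) * ∑ a, ∑ b, lam a * lam b *
        (num P2 P1 X2 (u a) (u b) * tto (u a) (u b) ^ N) : ℝ) : ℂ) =
        ∑ a, ∑ b, ((lam a * lam b : ℝ) : ℂ) * (((N : ℂ) + 2) * (N + 1) *
          ((num P2 P1 X2 (u a) (u b) : ℂ) * (tto (u a) (u b) : ℂ) ^ N)) := by
      push_cast
      rw [Finset.mul_sum]
      refine Finset.sum_congr rfl fun a _ => ?_
      rw [Finset.mul_sum]
      refine Finset.sum_congr rfl fun b _ => ?_
      ring
    rw [h1]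
    have h2 : ∀ a b, ((lam a * lam b : ℝ) : ℂ) * (((N : ℂ) + 2) * (N + 1) *
          ((num P2 P1 X2 (u a) (u b) : ℂ) * (tto (u a) (u b) : ℂ) ^ N)) =
        -(((lam a * lam b : ℝ) : ℂ) * ∑ n ∈ levo B (N + 2),
          ((mmo n * cn P2 P1 X2 n : ℝ) : ℂ) * (moo (u a) n * conj (moo (u b) n))) +
        ((N : ℂ) + 2) * (N + 1) * (((lam a * lam b : ℝ) : ℂ) * ∑ n ∈ levo B N, (mmo n : ℂ) *
          ∑ j, ∑ k ∈ Finset.univ.erase j, (P2 j k : ℂ) *
            (moo (u a) (upo n j) * conj (moo (u b) (upo n k)))) := by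
      intro a b
      rw [numS]
      ring
    rw [Finset.sum_congr rfl fun a _ => Finset.sum_congr rfl fun b _ => h2 a b]
    simp only [Finset.sum_add_distrib, Finset.sum_neg_distrib, ← Finset.mul_sum]
    rw [L_sum (fun a b => ((lam a * lam b : ℝ) : ℂ)) (levo B (N + 2))
        (fun n => ((mmo n * cn P2 P1 X2 n : ℝ) : ℂ))
        (fun n a b => moo (u a) n * conj (moo (u b) n)),
      L_sum (fun a b => ((lam a * lam b : ℝ) : ℂ)) (levo B N) (fun n => (mmo n : ℂ))
        (fun n a b => ∑ j, ∑ k ∈ Finset.univ.erase j, (P2 j k : ℂ) *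
            (moo (u a) (upo n j) * conj (moo (u b) (upo n k))))]
    have h3 : ∀ n, ∑ a, ∑ b, ((lam a * lam b : ℝ) : ℂ) * (moo (u a) n * conj (moo (u b) n)) =
        ((‖FFo u lam n‖ ^ 2 : ℝ) : ℂ) := by
      intro n
      rw [sum_sq2 lam (fun a => moo (u a) n) (fun a => moo (u a) n), Complex.mul_conj,
        Complex.normSq_eq_norm_sq]
      rfl
    have h4 : ∀ n, ∑ a, ∑ b, ((lam a * lam b : ℝ) : ℂ) *
        (∑ j, ∑ k ∈ Finset.univ.erase j, (P2 j k : ℂ) *
            (moo (u a) (upo n j) * conj (moo (u b) (upo n k)))) =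
        ∑ j, ∑ k ∈ Finset.univ.erase j, (P2 j k : ℂ) *
          (FFo u lam (upo n j) * conj (FFo u lam (upo n k))) := by
      intro n
      have e1 := L_sum (fun a b => ((lam a * lam b : ℝ) : ℂ)) (Finset.univ : Finset (Bk B))
        (fun _ => (1 : ℂ)) (fun j a b => ∑ k ∈ Finset.univ.erase j, (P2 j k : ℂ) *
            (moo (u a) (upo n j) * conj (moo (u b) (upo n k))))
      simp only [one_mul] at e1
      rw [e1]
      refine Finset.sum_congr rfl fun j _ => ?_
      rw [L_sum (fun a b => ((lam a * lam b : ℝ) : ℂ)) (Finset.univ.erase j)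
        (fun k => (P2 j k : ℂ)) (fun k a b => moo (u a) (upo n j) * conj (moo (u b) (upo n k)))]
      refine Finset.sum_congr rfl fun k _ => ?_
      rw [sum_sq2 lam (fun a => moo (u a) (upo n j)) (fun b => moo (u b) (upo n k))]
      rfl
    rw [Finset.sum_congr rfl fun n _ => by rw [h3 n],
      Finset.sum_congr (s₁ := levo B N) rfl fun n _ => by rw [h4 n]]
    push_cast
    ring
  have H2 := congrArg Complex.re H
  rw [Complex.ofReal_re, Complex.add_re, Complex.neg_re, Complex.re_ofReal_mul,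
    Complex.re_sum, Complex.re_sum] at H2
  rw [H2]
  congr 1
  · congr 1
    refine Finset.sum_congr rfl fun n _ => ?_
    rw [Complex.re_ofReal_mul, Complex.ofReal_re]
  · congr 1
    refine Finset.sum_congr rfl fun n _ => ?_
    rw [Complex.re_ofReal_mul, Complex.re_sum]
    congr 1
    refine Finset.sum_congr rfl fun j _ => ?_
    rw [Complex.re_sum]
    refine Finset.sum_congr rfl fun k _ => ?_
    rw [Complex.re_ofReal_mul]

theorem expando (P2 : Bk B → Bk B → ℝ) (P1 : Fin B → ℝ) (X2 : Fin B → Fin B → ℝ) (M : ℕ)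
    {ι : Type*} [Fintype ι] (u : ι → Vc B) (lam : ι → ℝ) :
    -(∑ j, ∑ k, lam j * lam k * (num P2 P1 X2 (u j) (u k) * tr M (tto (u j) (u k)))) =
      Qf P2 P1 X2 M (FFo u lam) (fun _ => True) := by
  have h1 : ∀ j k, lam j * lam k * (num P2 P1 X2 (u j) (u k) * tr M (tto (u j) (u k))) =
      ∑ p ∈ Finset.range (M + 1), dd p *
        (lam j * lam k * (num P2 P1 X2 (u j) (u k) * tto (u j) (u k) ^ (2 * p))) := by
    intro j k
    unfold tr
    rw [Finset.mul_sum, Finset.mul_sum]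
    refine Finset.sum_congr rfl fun p _ => ?_
    ring
  have h2 : ∑ j, ∑ k, lam j * lam k * (num P2 P1 X2 (u j) (u k) * tr M (tto (u j) (u k))) =
      ∑ p ∈ Finset.range (M + 1), dd p * ∑ j, ∑ k,
        lam j * lam k * (num P2 P1 X2 (u j) (u k) * tto (u j) (u k) ^ (2 * p)) := by
    have h3 : ∀ j, ∑ k, lam j * lam k *
        (num P2 P1 X2 (u j) (u k) * tr M (tto (u j) (u k))) =
        ∑ p ∈ Finset.range (M + 1), ∑ k, dd p *
        (lam j * lam k * (num P2 P1 X2 (u j) (u k) * tto (u j) (u k) ^ (2 * p))) := by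
      intro j
      rw [Finset.sum_congr rfl (fun k _ => h1 j k), Finset.sum_comm]
    rw [Finset.sum_congr rfl (fun j _ => h3 j), Finset.sum_comm]
    simp only [Finset.mul_sum]
  rw [h2, ← Finset.sum_neg_distrib]
  unfold Qf
  apply Finset.sum_congr rfl
  intro p _
  rw [Finset.filter_true, Finset.filter_true]
  have h5 := sumO P2 P1 X2 u lam (2 * p)
  have h4 : (2 * (p : ℝ) + 2) * (2 * p + 1) ≠ 0 := by positivity
  push_cast at h5
  set X := ∑ a, ∑ b, lam a * lam b * (num P2 P1 X2 (u a) (u b) * tto (u a) (u b) ^ (2 * p))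
  set Y := ∑ n ∈ levo B (2 * p + 2), mmo n * cn P2 P1 X2 n * ‖FFo u lam n‖ ^ 2
  set Z := ∑ n ∈ levo B (2 * p), mmo n *
        ∑ j, ∑ k ∈ Finset.univ.erase j, P2 j k *
          (FFo u lam (upo n j) * conj (FFo u lam (upo n k))).re
  field_simp
  linear_combination (-dd p) * h5

/-- For unit vectors `F_n = ∑_k F_(upo n k)`. -/
theorem FFo_up {ι : Type*} [Fintype ι] (u : ι → Vc B) (hu : ∀ j, ∑ k, rho (u j) k = 1)
    (lam : ι → ℝ) (n : Mo B) : FFo u lam n = ∑ k, FFo u lam (upo n k) := by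
  unfold FFo
  rw [Finset.sum_comm]
  apply Finset.sum_congr rfl
  intro j _
  have h1 : ∑ k, (lam j : ℂ) * moo (u j) (upo n k) =
      (lam j : ℂ) * (((∑ k, rho (u j) k : ℝ) : ℂ) * moo (u j) n) := by
    rw [Complex.ofReal_sum, Finset.sum_mul, Finset.mul_sum]
    apply Finset.sum_congr rfl
    intro k _
    rw [moo_up]
  rw [h1, hu j, Complex.ofReal_one, one_mul]

theorem FFo_zero {ι : Type*} [Fintype ι] (u : ι → Vc B) (lam : ι → ℝ) :
    FFo u lam 0 = ((∑ j, lam j : ℝ) : ℂ) := by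
  unfold FFo moo
  simp

end Pool.Agent.H35.ODD
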