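import Mathlib
import Pool.Agent.H35.ODD.OEz

set_option autoImplicit false

/-!
# OLin: `Qf` is linear in the coefficient arrays

Only the entries `P2 j k`, `X2 j k` with `j ≠ k` occur.  Charge-free modes: `eb = 0`, so `X2` does not
matter.
-/

open Pool.Agent.H89.CZ
open scoped ComplexConjugate

noncomputable section

namespace Pool.Agent.H35.ODD

variable {B : ℕ}

private lemma cn_congr {P2 P2' : Bk B → Bk B → ℝ} {P1 P1' : Fin B → ℝ}
    {X2 X2' : Fin B → Fin B → ℝ} (h2 : ∀ j k, j ≠ k → P2 j k = P2' j k) (h1 : ∀ k, P1 k = P1' k)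
    (hx : ∀ j k, j ≠ k → X2 j k = X2' j k) (n : Mo B) : cn P2 P1 X2 n = cn P2' P1' X2' n := by
  unfold cn
  congr 1
  · congr 1
    · refine Finset.sum_congr rfl fun j _ => Finset.sum_congr rfl fun k hk => ?_
      rw [h2 j k (Finset.ne_of_mem_erase hk).symm]
    · exact Finset.sum_congr rfl fun k _ => by rw [h1 k]
  · refine Finset.sum_congr rfl fun j _ => Finset.sum_congr rfl fun k hk => ?_
    rw [hx j k (Finset.ne_of_mem_erase hk).symm]

private lemma cn_add (P2 P2' : Bk B → Bk B → ℝ) (P1 P1' : Fin B → ℝ)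
    (X2 X2' : Fin B → Fin B → ℝ) (n : Mo B) :
    cn (fun j k => P2 j k + P2' j k) (fun k => P1 k + P1' k) (fun j k => X2 j k + X2' j k) n =
      cn P2 P1 X2 n + cn P2' P1' X2' n := by
  simp only [cn, add_mul, Finset.sum_add_distrib]
  ring

private lemma cn_smul (c : ℝ) (P2 : Bk B → Bk B → ℝ) (P1 : Fin B → ℝ)
    (X2 : Fin B → Fin B → ℝ) (n : Mo B) :
    cn (fun j k => c * P2 j k) (fun k => c * P1 k) (fun j k => c * X2 j k) n =
      c * cn P2 P1 X2 n := by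
  simp only [cn, mul_add, mul_sub, Finset.mul_sum, mul_assoc]

private lemma cn_neutral (P2 : Bk B → Bk B → ℝ) (P1 : Fin B → ℝ) (X2 : Fin B → Fin B → ℝ)
    {n : Mo B} (h : ¬ ∃ k, eb n k ≠ 0) : cn P2 P1 X2 n = cn P2 P1 (fun _ _ => 0) n := by
  have h0 : ∀ k, eb n k = 0 := by
    intro k
    by_contra hk
    exact h ⟨k, hk⟩
  simp only [cn, h0]
  simp

private lemma Qf_smul (c : ℝ) (P2 : Bk B → Bk B → ℝ) (P1 : Fin B → ℝ)
    (X2 : Fin B → Fin B → ℝ) (M : ℕ) (F : Mo B → ℂ) (p : Mo B → Prop) [DecidablePred p] :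
    Qf (fun j k => c * P2 j k) (fun k => c * P1 k) (fun j k => c * X2 j k) M F p =
      c * Qf P2 P1 X2 M F p := by
  unfold Qf
  rw [Finset.mul_sum]
  refine Finset.sum_congr rfl fun q _ => ?_
  have e1 : ∑ n ∈ (levo B (2 * q + 2)).filter p, mmo n *
      cn (fun j k => c * P2 j k) (fun k => c * P1 k) (fun j k => c * X2 j k) n * ‖F n‖ ^ 2 =
      c * ∑ n ∈ (levo B (2 * q + 2)).filter p, mmo n * cn P2 P1 X2 n * ‖F n‖ ^ 2 := by
    rw [Finset.mul_sum]
    refine Finset.sum_congr rfl fun n _ => ?_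
    rw [cn_smul]
    ring
  have e2 : ∑ n ∈ (levo B (2 * q)).filter p, mmo n *
      ∑ j, ∑ k ∈ Finset.univ.erase j, c * P2 j k * (F (upo n j) * conj (F (upo n k))).re =
      c * ∑ n ∈ (levo B (2 * q)).filter p, mmo n *
      ∑ j, ∑ k ∈ Finset.univ.erase j, P2 j k * (F (upo n j) * conj (F (upo n k))).re := by
    rw [Finset.mul_sum]
    refine Finset.sum_congr rfl fun n _ => ?_
    have e3 : ∑ j, ∑ k ∈ Finset.univ.erase j, c * P2 j k * (F (upo n j) * conj (F (upo n k))).re =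
        c * ∑ j, ∑ k ∈ Finset.univ.erase j, P2 j k * (F (upo n j) * conj (F (upo n k))).re := by
      simp only [Finset.mul_sum, mul_assoc]
    rw [e3]
    ring
  rw [e1, e2]
  ring

theorem Qf_congr {P2 P2' : Bk B → Bk B → ℝ} {P1 P1' : Fin B → ℝ} {X2 X2' : Fin B → Fin B → ℝ}
    (h2 : ∀ j k, j ≠ k → P2 j k = P2' j k) (h1 : ∀ k, P1 k = P1' k)
    (hx : ∀ j k, j ≠ k → X2 j k = X2' j k) (M : ℕ) (F : Mo B → ℂ) (p : Mo B → Prop)
    [DecidablePred p] : Qf P2 P1 X2 M F p = Qf P2' P1' X2' M F p := by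
  unfold Qf
  refine Finset.sum_congr rfl fun q _ => ?_
  congr 1
  · congr 1
    refine Finset.sum_congr rfl fun n _ => ?_
    rw [cn_congr h2 h1 hx n]
  · congr 1
    refine Finset.sum_congr rfl fun n _ => ?_
    congr 1
    refine Finset.sum_congr rfl fun j _ => Finset.sum_congr rfl fun k hk => ?_
    rw [h2 j k (Finset.ne_of_mem_erase hk).symm]

theorem Qf_add (P2 P2' : Bk B → Bk B → ℝ) (P1 P1' : Fin B → ℝ) (X2 X2' : Fin B → Fin B → ℝ)
    (M : ℕ) (F : Mo B → ℂ) (p : Mo B → Prop) [DecidablePred p] :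
    Qf (fun j k => P2 j k + P2' j k) (fun k => P1 k + P1' k) (fun j k => X2 j k + X2' j k) M F p =
      Qf P2 P1 X2 M F p + Qf P2' P1' X2' M F p := by
  unfold Qf
  rw [← Finset.sum_add_distrib]
  refine Finset.sum_congr rfl fun q _ => ?_
  simp only [cn_add, mul_add, add_mul, Finset.sum_add_distrib]
  ring

private lemma Qf_zero (M : ℕ) (F : Mo B → ℂ) (p : Mo B → Prop) [DecidablePred p] :
    Qf (fun _ _ => 0) (fun _ => 0) (fun _ _ => 0) M F p = 0 := by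
  have h := Qf_smul 0 (fun _ _ => 0) (fun _ => 0) (fun _ _ => 0) M F p
  simpa using h

private lemma Qf_lin {ι : Type*} (T : Finset ι) (a : ι → ℝ) (P2 : ι → Bk B → Bk B → ℝ)
    (P1 : ι → Fin B → ℝ) (M : ℕ) (F : Mo B → ℂ) (p : Mo B → Prop) [DecidablePred p] :
    Qf (fun j k => ∑ Z ∈ T, a Z * P2 Z j k) (fun k => ∑ Z ∈ T, a Z * P1 Z k) (fun _ _ => 0) M F p =
      ∑ Z ∈ T, a Z * Qf (P2 Z) (P1 Z) (fun _ _ => 0) M F p := by
  classical
  induction T using Finset.induction_on with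
  | empty => simpa using Qf_zero M F p
  | insert Z T hZ ih =>
    rw [Finset.sum_insert hZ, ← ih, ← Qf_smul, ← Qf_add]
    refine Qf_congr (fun j k _ => ?_) (fun k => ?_) (fun j k _ => ?_) M F p
    · rw [Finset.sum_insert hZ]
    · rw [Finset.sum_insert hZ]
    · simp

theorem Qf_EZ (s : Fin B → ℝ) (P2 : Finset (Fin B) → Bk B → Bk B → ℝ)
    (P1 : Finset (Fin B) → Fin B → ℝ) (M : ℕ) (F : Mo B → ℂ) (p : Mo B → Prop)
    [DecidablePred p] :
    Qf (fun j k => EZ s (fun Z => P2 Z j k)) (fun k => EZ s (fun Z => P1 Z k)) (fun _ _ => 0) M F p =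
      EZ s (fun Z => Qf (P2 Z) (P1 Z) (fun _ _ => 0) M F p) :=
  Qf_lin Finset.univ (PZ s) P2 P1 M F p

theorem Qf_neutral (P2 : Bk B → Bk B → ℝ) (P1 : Fin B → ℝ) (X2 : Fin B → Fin B → ℝ) (M : ℕ)
    (F : Mo B → ℂ) :
    Qf P2 P1 X2 M F (fun n => ¬ ∃ k, eb n k ≠ 0) =
      Qf P2 P1 (fun _ _ => 0) M F (fun n => ¬ ∃ k, eb n k ≠ 0) := by
  unfold Qf
  refine Finset.sum_congr rfl fun q _ => ?_
  congr 1
  congr 1
  refine Finset.sum_congr rfl fun n hn => ?_
  rw [cn_neutral P2 P1 X2 (Finset.mem_filter.1 hn).2]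

theorem Qf_split (P2 : Bk B → Bk B → ℝ) (P1 : Fin B → ℝ) (X2 : Fin B → Fin B → ℝ) (M : ℕ)
    (F : Mo B → ℂ) :
    Qf P2 P1 X2 M F (fun _ => True) =
      Qf P2 P1 X2 M F (fun n => ∃ k, eb n k ≠ 0) + Qf P2 P1 X2 M F (fun n => ¬ ∃ k, eb n k ≠ 0) := by
  unfold Qf
  rw [← Finset.sum_add_distrib]
  refine Finset.sum_congr rfl fun q _ => ?_
  rw [Finset.filter_true, Finset.filter_true,
    ← Finset.sum_filter_add_sum_filter_not (levo B (2 * q + 2)) (fun n => ∃ k, eb n k ≠ 0),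
    ← Finset.sum_filter_add_sum_filter_not (levo B (2 * q)) (fun n => ∃ k, eb n k ≠ 0)]
  ring

end Pool.Agent.H35.ODD
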