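import Mathlib
import Pool.Agent.H35.ODD.OAbs
import Pool.Agent.H35.ODD.OLin

set_option autoImplicit false

/-!
# ONeA: the charge-free modes at a vertex, isotropic type (model: `H35/ISO/Zve.lean`, same weights)

`a = 1/(2m+1)`, `f2 = f1 (1 - a)`, `f0 = f1 (1 + b)`, `b = 1/(2m-2)` for `m ≥ 2`; for `m = 1` `f0` does not
matter (`Qf_congr`: no pairs in `Z`), take `f0 = f1`, `b = 0`.  `j = ja Z n`, `l = lz Z n`, both even
(`neutral_even_j`), `N = j + l`, `x = ∑_{k ∉ Z} v_k`, `y = ∑_{k ∈ Z} v_k`, `s = x + y`.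
Apply `abs_nonneg'` with
`T n = f1 (1 - a (1 - p))`, `Dt n k = f1 q(j,l) (l + 2m)/(N_k + 2) - f0` (`k ∈ Z`), `-f2` (`k ∉ Z`),
`Du n k = f1 q(j,l-2) (l - 2 + 2m)/N_k - f0` (`k ∈ Z`), `-f2` (`k ∉ Z`), `q = b - a (1 - 1/p) ≥ 0`.
(II): `f2 x² + 2 f1 x y + f0 y² = f1 (s² - a x² + b y²)`, `x² ≥ (1-p) s² + (1 - 1/p) y²`,
`y² ≤ (l + 2m) ∑_{k ∈ Z} v_k²/(N_k + 2)`.  (I) becomes (`e = 0`)
`c(j,l) = N-1 + a(j-j²) + b l² + a(1-p(j,l))(N-1)² - q(j,l-2) l(l+2m-2) ≥ 0`: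
* `m ≥ 2`.  `2 ≤ j ≤ 2m`: `p = 1`, `q = b`: `c = (j-1)(1-aj) ≥ 0`.  `j ≥ 2m+2`: `p = (l+2m)/(N-1)`,
  `q = b-a+a(N-1)/(l+2m)`: `c = 0` (also for `l = 0`).  `j = 0`, `l ≥ 2`: `p = (l+2m-2)/(l-1)`,
  `q = b-a+a(l-1)/(l+2m-2)`, `q(0,0) = b-a`: `c(0,2) = 0`, `l ≥ 4`:
  `c = -1 + ((2m-1)/(2m+1))(1 + 2l/(l+2m-4)) ≥ 0`.
* `m = 1`, `a = 1/3`, `b = 0`.  `j = 0, 2`: `p = 1`, `q = 0`: `c = l - 1`, resp. `l + 1/3` (`l ≥ 2` if
  `j = 0`); `q(0,0) = 0`.  `j ≥ 4`: `p = (l+2)/(N-1)`, `q = a(j-3)/(l+2)`: `c = l`.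
(0) (`N = 0`, `y = -x`): `f1 (b - a) y² ≤ f1 q(0,0) 2m ∑_{k∈Z} v_k²/2`.
-/

open Pool.Agent.H89.CZ

noncomputable section

namespace Pool.Agent.H35.ODD

variable {B : ℕ}

/-! ### Sums over the blocks -/

private theorem na_mem (Z : Finset (Fin B)) (k : Fin B) : (some k : Bk B) ∈ zb Z ↔ k ∈ Z := by
  unfold zb
  simp

private theorem na_none (Z : Finset (Fin B)) : (none : Bk B) ∉ zb Z := by
  unfold zb
  simp

private theorem na_sum (Z : Finset (Fin B)) (g : Bk B → ℝ) :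
    ∑ k ∈ zb Z, g k = ∑ k ∈ Z, g (some k) := by
  unfold zb
  rw [Finset.sum_map]
  rfl

private theorem na_sumc (Z : Finset (Fin B)) (g : Bk B → ℝ) :
    ∑ k ∈ (zb Z)ᶜ, g k = g none + ∑ k ∈ Zᶜ, g (some k) := by
  have h1 : ∑ k, g k = ∑ k ∈ zb Z, g k + ∑ k ∈ (zb Z)ᶜ, g k := (Finset.sum_add_sum_compl _ _).symm
  have h2 : ∑ k : Fin B, g (some k) = ∑ k ∈ Z, g (some k) + ∑ k ∈ Zᶜ, g (some k) :=
    (Finset.sum_add_sum_compl _ _).symm
  rw [Fintype.sum_option, h2, na_sum] at h1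
  linarith

private theorem na_quad (Z : Finset (Fin B)) (f0 f1 f2 : ℝ) (v : Bk B → ℝ) :
    ∑ j, ∑ k ∈ Finset.univ.erase j, VP2 Z f0 f1 f2 j k * (v j * v k) =
      f2 * (∑ k ∈ (zb Z)ᶜ, v k) ^ 2 + 2 * f1 * (∑ k ∈ (zb Z)ᶜ, v k) * (∑ k ∈ zb Z, v k) +
        f0 * (∑ k ∈ zb Z, v k) ^ 2 - ∑ k, (if k ∈ zb Z then f0 else f2) * v k ^ 2 := by
  have e1 : ∀ j, ∑ k ∈ Finset.univ.erase j, VP2 Z f0 f1 f2 j k * (v j * v k) =
      ∑ k, VP2 Z f0 f1 f2 j k * (v j * v k) - (if j ∈ zb Z then f0 else f2) * v j ^ 2 := by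
    intro j
    rw [Finset.sum_erase_eq_sub (Finset.mem_univ j)]
    congr 1
    unfold VP2
    split_ifs <;> ring
  rw [Finset.sum_congr rfl fun j _ => e1 j, Finset.sum_sub_distrib]
  congr 1
  have e2 : ∀ j, ∑ k, VP2 Z f0 f1 f2 j k * (v j * v k) =
      (if j ∈ zb Z then f0 * v j * (∑ k ∈ zb Z, v k) + f1 * v j * (∑ k ∈ (zb Z)ᶜ, v k) else
        f1 * v j * (∑ k ∈ zb Z, v k) + f2 * v j * (∑ k ∈ (zb Z)ᶜ, v k)) := by
    intro j
    rw [← Finset.sum_add_sum_compl (zb Z)]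
    by_cases hj : j ∈ zb Z
    · rw [if_pos hj, Finset.mul_sum, Finset.mul_sum]
      congr 1
      · refine Finset.sum_congr rfl fun k hk => ?_
        unfold VP2
        rw [if_pos hj, if_pos hk]
        ring
      · refine Finset.sum_congr rfl fun k hk => ?_
        unfold VP2
        rw [if_pos hj, if_neg (Finset.mem_compl.1 hk)]
        ring
    · rw [if_neg hj, Finset.mul_sum, Finset.mul_sum]
      congr 1
      · refine Finset.sum_congr rfl fun k hk => ?_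
        unfold VP2
        rw [if_neg hj, if_pos hk]
        ring
      · refine Finset.sum_congr rfl fun k hk => ?_
        unfold VP2
        rw [if_neg hj, if_neg (Finset.mem_compl.1 hk)]
        ring
  rw [Finset.sum_congr rfl fun j _ => e2 j, ← Finset.sum_add_sum_compl (zb Z)]
  have e3 : ∑ j ∈ zb Z, (if j ∈ zb Z then f0 * v j * (∑ k ∈ zb Z, v k) +
        f1 * v j * (∑ k ∈ (zb Z)ᶜ, v k) else
        f1 * v j * (∑ k ∈ zb Z, v k) + f2 * v j * (∑ k ∈ (zb Z)ᶜ, v k)) =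
      f0 * (∑ k ∈ zb Z, v k) * (∑ k ∈ zb Z, v k) +
        f1 * (∑ k ∈ zb Z, v k) * (∑ k ∈ (zb Z)ᶜ, v k) := by
    rw [Finset.sum_congr rfl fun j hj => if_pos hj, Finset.sum_add_distrib, ← Finset.sum_mul,
      ← Finset.sum_mul, ← Finset.mul_sum, ← Finset.mul_sum]
  have e4 : ∑ j ∈ (zb Z)ᶜ, (if j ∈ zb Z then f0 * v j * (∑ k ∈ zb Z, v k) +
        f1 * v j * (∑ k ∈ (zb Z)ᶜ, v k) else
        f1 * v j * (∑ k ∈ zb Z, v k) + f2 * v j * (∑ k ∈ (zb Z)ᶜ, v k)) =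
      f1 * (∑ k ∈ (zb Z)ᶜ, v k) * (∑ k ∈ zb Z, v k) +
        f2 * (∑ k ∈ (zb Z)ᶜ, v k) * (∑ k ∈ (zb Z)ᶜ, v k) := by
    rw [Finset.sum_congr rfl fun j hj => if_neg (Finset.mem_compl.1 hj), Finset.sum_add_distrib,
      ← Finset.sum_mul, ← Finset.sum_mul, ← Finset.mul_sum, ← Finset.mul_sum]
  rw [e3, e4]
  ring

/-- The Cauchy inequality. -/
private theorem na_cauchy (Z : Finset (Fin B)) (n : Mo B) (v : Bk B → ℝ) :
    (∑ k ∈ zb Z, v k) ^ 2 ≤ ((lz Z n : ℝ) + 2 * Z.card) *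
      ∑ k ∈ zb Z, v k ^ 2 / ((nb n k : ℝ) + 2) := by
  have e1 : (lz Z n : ℝ) + 2 * Z.card = ∑ k ∈ zb Z, ((nb n k : ℝ) + 2) := by
    rw [Finset.sum_add_distrib]
    unfold lz
    push_cast
    have : (zb Z).card = Z.card := Finset.card_map _
    simp [this]
    ring
  rw [e1]
  apply Finset.sum_sq_le_sum_mul_sum_of_sq_le_mul
  · intro k _
    positivity
  · intro k _
    positivity
  · intro k _
    have hν1 : (0 : ℝ) < (nb n k : ℝ) + 2 := by positivity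
    apply le_of_eq
    field_simp

private def naT (Z : Finset (Fin B)) (f1 a : ℝ) (P : ℕ → ℕ → ℝ) (n : Mo B) : ℝ :=
  f1 * (1 - a * (1 - P (ja Z n / 2) (lz Z n / 2)))

private def naDt (Z : Finset (Fin B)) (f0 f1 f2 : ℝ) (Q : ℕ → ℕ → ℝ) (n : Mo B) (k : Bk B) : ℝ :=
  if k ∈ zb Z then f1 * Q (ja Z n / 2) (lz Z n / 2) * ((lz Z n : ℝ) + 2 * Z.card) /
    ((nb n k : ℝ) + 2) - f0 else -f2

private def naDu (Z : Finset (Fin B)) (f0 f1 f2 : ℝ) (Q : ℕ → ℕ → ℝ) (n : Mo B) (k : Bk B) : ℝ :=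
  if k ∈ zb Z then f1 * Q (ja Z n / 2) (lz Z n / 2 - 1) * ((lz Z n : ℝ) - 2 + 2 * Z.card) /
    (nb n k : ℝ) - f0 else -f2

private theorem na_Du (Z : Finset (Fin B)) (f0 f1 f2 : ℝ) (Q : ℕ → ℕ → ℝ) (n : Mo B) (k : Bk B) :
    naDu Z f0 f1 f2 Q (upo n k) k = naDt Z f0 f1 f2 Q n k := by
  unfold naDu naDt
  rw [ja_upo, lz_upo, nb_upo, if_pos rfl]
  by_cases h : k ∈ zb Z
  · simp only [if_pos h]
    have e1 : (lz Z n + 2) / 2 - 1 = lz Z n / 2 := by omega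
    rw [add_zero, e1]
    push_cast
    congr 2
    ring
  · simp only [if_neg h]

/-- The diagonal terms of `naDt`. -/
private theorem na_sumDt (Z : Finset (Fin B)) (f0 f1 f2 : ℝ) (Q : ℕ → ℕ → ℝ) (n : Mo B)
    (v : Bk B → ℝ) : ∑ k, naDt Z f0 f1 f2 Q n k * v k ^ 2 =
      f1 * Q (ja Z n / 2) (lz Z n / 2) * (((lz Z n : ℝ) + 2 * Z.card) *
        ∑ k ∈ zb Z, v k ^ 2 / ((nb n k : ℝ) + 2)) -
      ∑ k, (if k ∈ zb Z then f0 else f2) * v k ^ 2 := by
  rw [← Finset.sum_add_sum_compl (zb Z), ← Finset.sum_add_sum_compl (zb Z)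
    (fun k => (if k ∈ zb Z then f0 else f2) * v k ^ 2)]
  have e1 : ∑ k ∈ zb Z, naDt Z f0 f1 f2 Q n k * v k ^ 2 =
      f1 * Q (ja Z n / 2) (lz Z n / 2) * (((lz Z n : ℝ) + 2 * Z.card) *
        ∑ k ∈ zb Z, v k ^ 2 / ((nb n k : ℝ) + 2)) -
      ∑ k ∈ zb Z, (if k ∈ zb Z then f0 else f2) * v k ^ 2 := by
    rw [Finset.mul_sum, Finset.mul_sum, ← Finset.sum_sub_distrib]
    refine Finset.sum_congr rfl fun k hk => ?_
    unfold naDt
    rw [if_pos hk, if_pos hk]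
    ring
  have e2 : ∑ k ∈ (zb Z)ᶜ, naDt Z f0 f1 f2 Q n k * v k ^ 2 =
      - ∑ k ∈ (zb Z)ᶜ, (if k ∈ zb Z then f0 else f2) * v k ^ 2 := by
    rw [← Finset.sum_neg_distrib]
    refine Finset.sum_congr rfl fun k hk => ?_
    unfold naDt
    rw [if_neg (Finset.mem_compl.1 hk), if_neg (Finset.mem_compl.1 hk)]
    ring
  rw [e1, e2]
  ring

/-- `wt`, charge-free. -/
private theorem na_wt {n : Mo B} (h : ¬ ∃ k, eb n k ≠ 0) (k : Fin B) :
    wt n (some k) = (nb n (some k) : ℝ) ^ 2 := by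
  have h0 : eb n k = 0 := by
    by_contra hne
    exact h ⟨k, hne⟩
  simp only [wt, h0]
  ring

/-- The own coefficient minus the shifted terms. -/
private theorem na_cn (Z : Finset (Fin B)) (f0 f1 f2 : ℝ) (Q : ℕ → ℕ → ℝ) {n : Mo B}
    (h : ¬ ∃ k, eb n k ≠ 0) :
    cn (VP2 Z f0 f1 f2) (VP1 Z f1 f2) (fun _ _ => 0) n - ∑ k, wt n k * naDu Z f0 f1 f2 Q n k =
      f2 * ((ja Z n : ℝ) ^ 2 - ja Z n) + 2 * f1 * ja Z n * lz Z n + f0 * (lz Z n : ℝ) ^ 2 -
        f1 * lz Z n - f1 * Q (ja Z n / 2) (lz Z n / 2 - 1) * (lz Z n : ℝ) *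
          ((lz Z n : ℝ) - 2 + 2 * Z.card) := by
  have h0 : ∀ k, eb n k = 0 := by
    intro k
    by_contra hne
    exact h ⟨k, hne⟩
  have ej : ((ja Z n : ℕ) : ℝ) = ∑ k ∈ (zb Z)ᶜ, (nb n k : ℝ) := by
    unfold ja
    push_cast
    rfl
  have el : ((lz Z n : ℕ) : ℝ) = ∑ k ∈ zb Z, (nb n k : ℝ) := by
    unfold lz
    push_cast
    rfl
  unfold cn
  rw [na_quad Z f0 f1 f2 (fun k => (nb n k : ℝ)), ← ej, ← el]
  have e1 : ∑ k, VP1 Z f1 f2 k * ((nb n (some k) : ℝ) - eb n k ^ 2) =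
      f1 * lz Z n + f2 * (ja Z n - nb n none) := by
    rw [← Finset.sum_add_sum_compl Z, ej, el, na_sumc, na_sum, add_sub_cancel_left,
      Finset.mul_sum, Finset.mul_sum]
    congr 1
    · refine Finset.sum_congr rfl fun k hk => ?_
      unfold VP1
      rw [if_pos hk, h0]
      ring
    · refine Finset.sum_congr rfl fun k hk => ?_
      unfold VP1
      rw [if_neg (Finset.mem_compl.1 hk), h0]
      ring
  have e2 : ∑ j, ∑ k ∈ Finset.univ.erase j, (fun _ _ => (0 : ℝ)) j k * (eb n j * eb n k) = 0 := by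
    refine Finset.sum_eq_zero fun j _ => Finset.sum_eq_zero fun k _ => ?_
    simp
  have e3 : ∑ k, wt n k * naDu Z f0 f1 f2 Q n k =
      f1 * Q (ja Z n / 2) (lz Z n / 2 - 1) * (lz Z n : ℝ) * ((lz Z n : ℝ) - 2 + 2 * Z.card) -
        ∑ k, (if k ∈ zb Z then f0 else f2) * (nb n k : ℝ) ^ 2 + f2 * nb n none := by
    set c : ℝ := f1 * Q (ja Z n / 2) (lz Z n / 2 - 1) * ((lz Z n : ℝ) - 2 + 2 * Z.card) with hc
    have g1 : ∑ k ∈ Z, wt n (some k) * naDu Z f0 f1 f2 Q n (some k) =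
        c * ∑ k ∈ Z, (nb n (some k) : ℝ) -
          ∑ k ∈ Z, (if (some k : Bk B) ∈ zb Z then f0 else f2) * (nb n (some k) : ℝ) ^ 2 := by
      rw [Finset.mul_sum, ← Finset.sum_sub_distrib]
      refine Finset.sum_congr rfl fun k hk => ?_
      rw [na_wt h, if_pos ((na_mem Z k).2 hk)]
      unfold naDu
      rw [if_pos ((na_mem Z k).2 hk), ← hc]
      by_cases hz : (nb n (some k) : ℝ) = 0
      · rw [hz]
        ring
      · field_simp
    have g2 : ∑ k ∈ Zᶜ, wt n (some k) * naDu Z f0 f1 f2 Q n (some k) =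
        - ∑ k ∈ Zᶜ, (if (some k : Bk B) ∈ zb Z then f0 else f2) * (nb n (some k) : ℝ) ^ 2 := by
      rw [← Finset.sum_neg_distrib]
      refine Finset.sum_congr rfl fun k hk => ?_
      have hk' : (some k : Bk B) ∉ zb Z := fun hm => Finset.mem_compl.1 hk ((na_mem Z k).1 hm)
      rw [na_wt h, if_neg hk']
      unfold naDu
      rw [if_neg hk']
      ring
    have g3 : wt n none * naDu Z f0 f1 f2 Q n none =
        - (f2 * (nb n none : ℝ) ^ 2) + f2 * nb n none := by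
      unfold naDu
      rw [if_neg (na_none Z)]
      simp only [wt, nb]
      ring
    rw [Fintype.sum_option, Fintype.sum_option, ← Finset.sum_add_sum_compl Z,
      ← Finset.sum_add_sum_compl Z
        (fun k => (if (some k : Bk B) ∈ zb Z then f0 else f2) * (nb n (some k) : ℝ) ^ 2),
      g1, g2, g3, if_neg (na_none Z), el, na_sum, ← na_sum Z (fun k => (nb n k : ℝ)), ← el, hc]
    ring
  rw [e1, e2, e3]
  ring

private theorem na_core (M : ℕ) (F : Mo B → ℂ) (hF : ∀ n, F n = ∑ k, F (upo n k)) (hz : F 0 = 0)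
    (Z : Finset (Fin B)) (f0 f1 f2 a b : ℝ) (hf1 : 0 ≤ f1) (hf2 : f2 = f1 * (1 - a))
    (hf0 : f0 = f1 * (1 + b)) (P Q : ℕ → ℕ → ℝ) (ha0 : 0 ≤ a) (ha1 : a ≤ 1)
    (hP : ∀ j l, 1 ≤ j + l → 0 < P j l)
    (hQ : ∀ j l, 1 ≤ j + l → b - a * (1 - 1 / P j l) ≤ Q j l) (hQ0 : b - a ≤ Q 0 0)
    (hQn : ∀ j l, 0 ≤ Q j l)
    (hc : ∀ j l : ℕ, 1 ≤ j + l → 0 ≤ 2 * ((j : ℝ) + l) - 1 + a * (2 * (j : ℝ) - 4 * (j : ℝ) ^ 2) +
      b * (4 * (l : ℝ) ^ 2) + a * (1 - P j l) * (2 * ((j : ℝ) + l) - 1) ^ 2 -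
      Q j (l - 1) * (2 * (l : ℝ)) * (2 * (l : ℝ) + 2 * (Z.card : ℝ) - 2)) :
    0 ≤ Qf (VP2 Z f0 f1 f2) (VP1 Z f1 f2) (fun _ _ => 0) M F (fun n => ¬ ∃ k, eb n k ≠ 0) := by
  have hhalf : ∀ (q : ℕ) (n : Mo B), n ∈ levo B (2 * q) → (¬ ∃ k, eb n k ≠ 0) →
      ja Z n = 2 * (ja Z n / 2) ∧ lz Z n = 2 * (lz Z n / 2) ∧ ja Z n / 2 + lz Z n / 2 = q := by
    intro q n hn hp
    obtain ⟨⟨x, hx⟩, ⟨y, hy⟩⟩ := neutral_even_j Z hn hp
    have := ja_add_lz Z hn
    omega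
  have hII0 : ∀ (n : Mo B) (v : Bk B → ℝ) (t : ℝ),
      f1 * (-a * (∑ k ∈ (zb Z)ᶜ, v k) ^ 2 + b * (∑ k ∈ zb Z, v k) ^ 2) ≤
        t * (∑ k, v k) ^ 2 + f1 * (Q (ja Z n / 2) (lz Z n / 2) * (∑ k ∈ zb Z, v k) ^ 2) →
      ∑ j, ∑ k ∈ Finset.univ.erase j, VP2 Z f0 f1 f2 j k * (v j * v k) ≤
        (f1 + t) * (∑ k, v k) ^ 2 + ∑ k, naDt Z f0 f1 f2 Q n k * v k ^ 2 := by
    intro n v t ht
    rw [na_quad, na_sumDt]
    have hs : ∑ k, v k = ∑ k ∈ (zb Z)ᶜ, v k + ∑ k ∈ zb Z, v k := by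
      rw [add_comm, Finset.sum_add_sum_compl]
    have hcau := na_cauchy Z n v
    have h1 := mul_le_mul_of_nonneg_left hcau (mul_nonneg hf1 (hQn (ja Z n / 2) (lz Z n / 2)))
    rw [hf2, hf0] at *
    rw [hs] at ht ⊢
    set x := ∑ k ∈ (zb Z)ᶜ, v k
    set y := ∑ k ∈ zb Z, v k
    nlinarith [h1, ht]
  refine abs_nonneg' _ _ _ M F hF _ (fun n k => by simp only [eb_upo]) (naT Z f1 a P)
    (naDt Z f0 f1 f2 Q) (naDu Z f0 f1 f2 Q) (fun q n k _ _ => na_Du Z f0 f1 f2 Q n k) ?_ ?_ ?_ ?_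
  · intro q n hn hp
    obtain ⟨_, _, h3⟩ := hhalf (q + 1) n hn hp
    have hPp := hP (ja Z n / 2) (lz Z n / 2) (by omega)
    unfold naT
    apply mul_nonneg hf1
    nlinarith [mul_nonneg ha0 hPp.le]
  · intro q n hn hp
    obtain ⟨hj, hl, h3⟩ := hhalf (q + 1) n hn hp
    have hcc := hc (ja Z n / 2) (lz Z n / 2) (by omega)
    have hcn := na_cn Z f0 f1 f2 Q hp
    have hjr : (ja Z n : ℝ) = 2 * ((ja Z n / 2 : ℕ) : ℝ) := by exact_mod_cast hj
    have hlr : (lz Z n : ℝ) = 2 * ((lz Z n / 2 : ℕ) : ℝ) := by exact_mod_cast hl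
    have hqr : ((ja Z n / 2 : ℕ) : ℝ) + ((lz Z n / 2 : ℕ) : ℝ) = (q : ℝ) + 1 := by exact_mod_cast h3
    have hkey := mul_nonneg hf1 hcc
    unfold naT
    rw [hf2, hf0] at hcn ⊢
    rw [hjr, hlr] at hcn
    set j : ℝ := ((ja Z n / 2 : ℕ) : ℝ)
    set l : ℝ := ((lz Z n / 2 : ℕ) : ℝ)
    have hq' : (q : ℝ) = j + l - 1 := by linarith
    rw [hq']
    set PP := P (ja Z n / 2) (lz Z n / 2)
    set QQ := Q (ja Z n / 2) (lz Z n / 2 - 1)
    nlinarith [hkey, hcn]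
  · intro q n hn hp v
    obtain ⟨_, _, h3⟩ := hhalf (q + 1) n hn hp
    have hjl1 : 1 ≤ ja Z n / 2 + lz Z n / 2 := by omega
    have hPp := hP _ _ hjl1
    have hQq := hQ _ _ hjl1
    have hs : ∑ k, v k = ∑ k ∈ (zb Z)ᶜ, v k + ∑ k ∈ zb Z, v k := by
      rw [add_comm, Finset.sum_add_sum_compl]
    have h5 := hII0 n v (f1 * (- a * (1 - P (ja Z n / 2) (lz Z n / 2)))) (by
      rw [hs]
      set P' := P (ja Z n / 2) (lz Z n / 2)
      set Q' := Q (ja Z n / 2) (lz Z n / 2)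
      set x := ∑ k ∈ (zb Z)ᶜ, v k
      set y := ∑ k ∈ zb Z, v k
      have h3 : (1 - P') * (x + y) ^ 2 + (1 - 1 / P') * y ^ 2 ≤ x ^ 2 := by
        have h4 : x ^ 2 - ((1 - P') * (x + y) ^ 2 + (1 - 1 / P') * y ^ 2) =
            (P' * (x + y) - y) ^ 2 / P' := by
          field_simp
          ring
        have h5 : 0 ≤ (P' * (x + y) - y) ^ 2 / P' := div_nonneg (sq_nonneg _) hPp.le
        linarith
      have h6 := mul_le_mul_of_nonneg_left h3 ha0
      have h7 := mul_le_mul_of_nonneg_right hQq (sq_nonneg y)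
      have h8 : -a * x ^ 2 + b * y ^ 2 ≤ -a * (1 - P') * (x + y) ^ 2 + Q' * y ^ 2 := by
        nlinarith [h6, h7]
      have h9 := mul_le_mul_of_nonneg_left h8 hf1
      nlinarith [h9])
    refine h5.trans (le_of_eq ?_)
    unfold naT
    ring
  · intro _
    refine ⟨hz, fun v hv => ?_⟩
    have h5 := hII0 0 v (-f1) (by
      have hs : ∑ k, v k = ∑ k ∈ (zb Z)ᶜ, v k + ∑ k ∈ zb Z, v k := by
        rw [add_comm, Finset.sum_add_sum_compl]
      have hj0 : ja Z (0 : Mo B) = 0 := by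
        have := ja_add_lz Z (zero_mem (B := B))
        omega
      have hl0 : lz Z (0 : Mo B) = 0 := by
        have := ja_add_lz Z (zero_mem (B := B))
        omega
      rw [hj0, hl0, Nat.zero_div]
      rw [hv] at hs ⊢
      set x := ∑ k ∈ (zb Z)ᶜ, v k
      set y := ∑ k ∈ zb Z, v k
      have hx : x = -y := by linarith
      rw [hx]
      have h7 := mul_le_mul_of_nonneg_left
        (mul_le_mul_of_nonneg_right hQ0 (sq_nonneg y)) hf1
      nlinarith [h7])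
    rw [hv] at h5
    linarith [h5]

private theorem na_one (M : ℕ) (F : Mo B → ℂ) (hF : ∀ n, F n = ∑ k, F (upo n k)) (hz : F 0 = 0)
    (Z : Finset (Fin B)) (hZ : Z.card = 1) (f1 : ℝ) (hf1 : 0 ≤ f1) :
    0 ≤ Qf (VP2 Z (f1 * (1 + 0)) f1 (f1 * (1 - 1 / 3))) (VP1 Z f1 (f1 * (1 - 1 / 3)))
      (fun _ _ => 0) M F (fun n => ¬ ∃ k, eb n k ≠ 0) := by
  apply na_core M F hF hz Z (f1 * (1 + 0)) f1 (f1 * (1 - 1 / 3)) (1 / 3) 0 hf1 rfl rfl
    (fun j l => if j ≤ 1 then 1 else (2 * (l : ℝ) + 2) / (2 * ((j : ℝ) + l) - 1))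
    (fun j l => if j ≤ 1 then 0 else 1 / 3 * (2 * (j : ℝ) - 3) / (2 * (l : ℝ) + 2))
  · norm_num
  · norm_num
  · intro j l hjl
    split_ifs with hj
    · exact one_pos
    · have h2 : (2 : ℝ) ≤ j := by exact_mod_cast (by omega : 2 ≤ j)
      apply div_pos (by positivity)
      have : (0 : ℝ) ≤ l := by positivity
      linarith
  · intro j l hjl
    split_ifs with hj
    · norm_num
    · have h2 : (2 : ℝ) ≤ j := by exact_mod_cast (by omega : 2 ≤ j)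
      have h3 : (0 : ℝ) ≤ l := by positivity
      have h4 : (0 : ℝ) < 2 * ((j : ℝ) + l) - 1 := by linarith
      have h5 : (0 : ℝ) < 2 * (l : ℝ) + 2 := by linarith
      apply le_of_eq
      field_simp
      ring
  · norm_num
  · intro j l
    split_ifs with hj
    · exact le_rfl
    · have h2 : (2 : ℝ) ≤ j := by exact_mod_cast (by omega : 2 ≤ j)
      have h3 : (0 : ℝ) ≤ l := by positivity
      apply div_nonneg _ (by linarith)
      linarith
  · intro j l hjl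
    rw [hZ]
    rcases Nat.lt_or_ge 1 j with hj | hj
    · simp only [if_neg (not_le.2 hj)]
      have h2 : (2 : ℝ) ≤ j := by exact_mod_cast hj
      have h3 : (0 : ℝ) ≤ l := by positivity
      have h4 : (0 : ℝ) < 2 * ((j : ℝ) + l) - 1 := by linarith
      rcases Nat.eq_zero_or_pos l with hl | hl
      · subst hl
        have e : (2 * ((j : ℝ) + (0 : ℕ)) - 1 + 1 / 3 * (2 * (j : ℝ) - 4 * (j : ℝ) ^ 2) +
            0 * (4 * ((0 : ℕ) : ℝ) ^ 2) +
            1 / 3 * (1 - (2 * ((0 : ℕ) : ℝ) + 2) / (2 * ((j : ℝ) + (0 : ℕ)) - 1)) *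
              (2 * ((j : ℝ) + (0 : ℕ)) - 1) ^ 2 -
            1 / 3 * (2 * (j : ℝ) - 3) / (2 * ((0 - 1 : ℕ) : ℝ) + 2) * (2 * ((0 : ℕ) : ℝ)) *
              (2 * ((0 : ℕ) : ℝ) + 2 * ((1 : ℕ) : ℝ) - 2)) = 0 := by
          push_cast at h4 ⊢
          field_simp
          ring
        rw [e]
      · have hl1 : ((l - 1 : ℕ) : ℝ) = (l : ℝ) - 1 := by
          push_cast [Nat.cast_sub hl]
          ring
        have h5 : (1 : ℝ) ≤ l := by exact_mod_cast hl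
        have e : (2 * ((j : ℝ) + l) - 1 + 1 / 3 * (2 * (j : ℝ) - 4 * (j : ℝ) ^ 2) +
            0 * (4 * (l : ℝ) ^ 2) +
            1 / 3 * (1 - (2 * (l : ℝ) + 2) / (2 * ((j : ℝ) + l) - 1)) *
              (2 * ((j : ℝ) + l) - 1) ^ 2 -
            1 / 3 * (2 * (j : ℝ) - 3) / (2 * ((l - 1 : ℕ) : ℝ) + 2) * (2 * (l : ℝ)) *
              (2 * (l : ℝ) + 2 * ((1 : ℕ) : ℝ) - 2)) = 2 * (l : ℝ) := by
          rw [hl1]
          have h6 : 2 * ((l : ℝ) - 1) + 2 = 2 * (l : ℝ) := by ring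
          have h7 : (l : ℝ) ≠ 0 := by linarith
          rw [h6]
          push_cast
          field_simp
          ring
        rw [e]
        linarith
    · simp only [if_pos hj]
      have h3 : (1 : ℝ) ≤ (j : ℝ) + l := by exact_mod_cast hjl
      have h4 : (j : ℝ) = 0 ∨ (j : ℝ) = 1 := by
        rcases Nat.le_one_iff_eq_zero_or_eq_one.1 hj with h | h
        · left; exact_mod_cast h
        · right; exact_mod_cast h
      have h5 : (0 : ℝ) ≤ l := by positivity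
      rcases h4 with h | h
      · rw [h] at h3 ⊢
        norm_num
        linarith
      · rw [h] at h3 ⊢
        norm_num
        linarith

private theorem na_two (M : ℕ) (F : Mo B → ℂ) (hF : ∀ n, F n = ∑ k, F (upo n k)) (hz : F 0 = 0)
    (Z : Finset (Fin B)) (m : ℕ) (hZ : Z.card = m + 2) (f1 : ℝ) (hf1 : 0 ≤ f1) :
    0 ≤ Qf (VP2 Z (f1 * (1 + 1 / (2 * (m : ℝ) + 2))) f1 (f1 * (1 - 1 / (2 * (m : ℝ) + 5))))
      (VP1 Z f1 (f1 * (1 - 1 / (2 * (m : ℝ) + 5)))) (fun _ _ => 0) M F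
      (fun n => ¬ ∃ k, eb n k ≠ 0) := by
  have hm0 : (0 : ℝ) ≤ m := by positivity
  have hba : 1 / (2 * (m : ℝ) + 5) ≤ 1 / (2 * (m : ℝ) + 2) := by
    apply one_div_le_one_div_of_le (by positivity)
    linarith
  apply na_core M F hF hz Z (f1 * (1 + 1 / (2 * (m : ℝ) + 2))) f1 (f1 * (1 - 1 / (2 * (m : ℝ) + 5)))
    (1 / (2 * (m : ℝ) + 5)) (1 / (2 * (m : ℝ) + 2)) hf1 rfl rfl
    (fun j l => if j = 0 then (2 * (l : ℝ) + 2 * m + 2) / (2 * (l : ℝ) - 1) else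
      if j ≤ m + 2 then 1 else (2 * (l : ℝ) + 2 * m + 4) / (2 * ((j : ℝ) + l) - 1))
    (fun j l => if j = 0 then (if l = 0 then 1 / (2 * (m : ℝ) + 2) - 1 / (2 * (m : ℝ) + 5) else
        1 / (2 * (m : ℝ) + 2) - 1 / (2 * (m : ℝ) + 5) +
          1 / (2 * (m : ℝ) + 5) * (2 * (l : ℝ) - 1) / (2 * (l : ℝ) + 2 * m + 2)) else
      if j ≤ m + 2 then 1 / (2 * (m : ℝ) + 2) else
        1 / (2 * (m : ℝ) + 2) - 1 / (2 * (m : ℝ) + 5) +
          1 / (2 * (m : ℝ) + 5) * (2 * ((j : ℝ) + l) - 1) / (2 * (l : ℝ) + 2 * m + 4))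
  · positivity
  · rw [div_le_one (by positivity)]
    linarith
  · intro j l hjl
    have h3 : (0 : ℝ) ≤ l := by positivity
    have h3' : (0 : ℝ) ≤ j := by positivity
    have h4 : (1 : ℝ) ≤ (j : ℝ) + l := by exact_mod_cast hjl
    split_ifs with hj hj
    · subst hj
      have h5 : (1 : ℝ) ≤ l := by
        push_cast at h4
        linarith
      apply div_pos (by positivity)
      linarith
    · exact one_pos
    · apply div_pos (by positivity)
      linarith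
  · intro j l hjl
    have h3 : (0 : ℝ) ≤ l := by positivity
    have h4 : (1 : ℝ) ≤ (j : ℝ) + l := by exact_mod_cast hjl
    by_cases hj : j = 0
    · subst hj
      have h5 : (1 : ℝ) ≤ l := by
        push_cast at h4
        linarith
      have hl : l ≠ 0 := by
        rintro rfl
        norm_num at h5
      simp only [if_true, if_neg hl]
      have h6 : (0 : ℝ) < 2 * (l : ℝ) - 1 := by linarith
      have h7 : (0 : ℝ) < 2 * (l : ℝ) + 2 * m + 2 := by positivity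
      apply le_of_eq
      field_simp
      ring
    · simp only [if_neg hj]
      by_cases hj2 : j ≤ m + 2
      · simp only [if_pos hj2]
        norm_num
      · simp only [if_neg hj2]
        have h6 : (0 : ℝ) < 2 * ((j : ℝ) + l) - 1 := by linarith
        have h7 : (0 : ℝ) < 2 * (l : ℝ) + 2 * m + 4 := by positivity
        apply le_of_eq
        field_simp
        ring
  · simp
  · intro j l
    have h3 : (0 : ℝ) ≤ l := by positivity
    split_ifs with hj hl hj2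
    · linarith
    · have h5 : (1 : ℝ) ≤ l := by exact_mod_cast Nat.one_le_iff_ne_zero.2 hl
      have h6 : 0 ≤ 1 / (2 * (m : ℝ) + 5) * (2 * (l : ℝ) - 1) / (2 * (l : ℝ) + 2 * m + 2) := by
        apply div_nonneg _ (by positivity)
        apply mul_nonneg (by positivity)
        linarith
      linarith
    · positivity
    · have h5 : (1 : ℝ) ≤ j := by exact_mod_cast Nat.one_le_iff_ne_zero.2 hj
      have h6 : 0 ≤ 1 / (2 * (m : ℝ) + 5) * (2 * ((j : ℝ) + l) - 1) /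
          (2 * (l : ℝ) + 2 * m + 4) := by
        apply div_nonneg _ (by positivity)
        apply mul_nonneg (by positivity)
        linarith
      linarith
  · intro j l hjl
    have h3 : (0 : ℝ) ≤ l := by positivity
    have h4 : (1 : ℝ) ≤ (j : ℝ) + l := by exact_mod_cast hjl
    rw [hZ]
    push_cast
    by_cases hj : j = 0
    · subst hj
      simp only [if_true]
      have h5 : (1 : ℝ) ≤ l := by
        push_cast at h4
        linarith
      have hl : 1 ≤ l := by exact_mod_cast h5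
      rcases Nat.lt_or_ge 1 l with hl2 | hl2
      · have hl1 : ((l - 1 : ℕ) : ℝ) = (l : ℝ) - 1 := by
          push_cast [Nat.cast_sub hl]
          ring
        have h6 : (2 : ℝ) ≤ l := by exact_mod_cast hl2
        rw [if_neg (by omega), hl1]
        have h7 : (0 : ℝ) < 2 * (l : ℝ) - 1 := by linarith
        have h8 : (0 : ℝ) < 2 * ((l : ℝ) - 1) + 2 * m + 2 := by linarith
        have h9 : (0 : ℝ) < (l : ℝ) + m := by linarith
        have e : 2 * (((0 : ℕ) : ℝ) + l) - 1 +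
            1 / (2 * (m : ℝ) + 5) * (2 * ((0 : ℕ) : ℝ) - 4 * ((0 : ℕ) : ℝ) ^ 2) +
            1 / (2 * (m : ℝ) + 2) * (4 * (l : ℝ) ^ 2) +
            1 / (2 * (m : ℝ) + 5) * (1 - (2 * (l : ℝ) + 2 * m + 2) / (2 * (l : ℝ) - 1)) *
              (2 * (((0 : ℕ) : ℝ) + l) - 1) ^ 2 -
            (1 / (2 * (m : ℝ) + 2) - 1 / (2 * (m : ℝ) + 5) +
              1 / (2 * (m : ℝ) + 5) * (2 * ((l : ℝ) - 1) - 1) /
                (2 * ((l : ℝ) - 1) + 2 * m + 2)) * (2 * (l : ℝ)) *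
              (2 * (l : ℝ) + 2 * ((m : ℝ) + 2) - 2) =
            ((2 * (m : ℝ) + 3) * (1 + 2 * (l : ℝ) / ((l : ℝ) + m)) - (2 * (m : ℝ) + 5)) /
              (2 * (m : ℝ) + 5) := by
          push_cast
          have h8' : 2 * ((l : ℝ) - 1) + 2 * m + 2 = 2 * ((l : ℝ) + m) := by ring
          rw [h8']
          field_simp
          ring
        have h10 : 0 ≤ ((2 * (m : ℝ) + 3) * (1 + 2 * (l : ℝ) / ((l : ℝ) + m)) -
            (2 * (m : ℝ) + 5)) / (2 * (m : ℝ) + 5) := by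
          apply div_nonneg _ (by positivity)
          have h11 : (2 * (m : ℝ) + 3) * (1 + 2 * (l : ℝ) / ((l : ℝ) + m)) -
            (2 * (m : ℝ) + 5) = ((2 * (m : ℝ) + 3) * (2 * (l : ℝ)) - 2 * ((l : ℝ) + m)) /
              ((l : ℝ) + m) := by
            field_simp
            ring
          rw [h11]
          apply div_nonneg _ h9.le
          nlinarith [mul_nonneg hm0 h3]
        have := e ▸ h10
        convert this using 1
      · have hl1 : l = 1 := by omega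
        subst hl1
        apply le_of_eq
        norm_num
        field_simp
        ring
    · have hj1 : (1 : ℝ) ≤ j := by exact_mod_cast Nat.one_le_iff_ne_zero.2 hj
      simp only [if_neg hj]
      by_cases hj2 : j ≤ m + 2
      · simp only [if_pos hj2]
        have hj3 : (j : ℝ) ≤ m + 2 := by exact_mod_cast hj2
        have e : 2 * ((j : ℝ) + l) - 1 +
            1 / (2 * (m : ℝ) + 5) * (2 * (j : ℝ) - 4 * (j : ℝ) ^ 2) +
            1 / (2 * (m : ℝ) + 2) * (4 * (l : ℝ) ^ 2) +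
            1 / (2 * (m : ℝ) + 5) * (1 - 1) * (2 * ((j : ℝ) + l) - 1) ^ 2 -
            1 / (2 * (m : ℝ) + 2) * (2 * (l : ℝ)) * (2 * (l : ℝ) + 2 * ((m : ℝ) + 2) - 2) =
            (2 * (j : ℝ) - 1) * (2 * ((m : ℝ) + 2 - j) + 1) / (2 * (m : ℝ) + 5) := by
          field_simp
          ring
        rw [e]
        apply div_nonneg _ (by positivity)
        apply mul_nonneg <;> linarith
      · simp only [if_neg hj2]
        have h6 : (0 : ℝ) < 2 * ((j : ℝ) + l) - 1 := by linarith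
        rcases Nat.eq_zero_or_pos l with hl | hl
        · subst hl
          apply le_of_eq
          push_cast at h6 ⊢
          have h6' : 2 * (j : ℝ) - 1 ≠ 0 := by linarith
          field_simp
          ring
        · have hl1 : ((l - 1 : ℕ) : ℝ) = (l : ℝ) - 1 := by
            push_cast [Nat.cast_sub hl]
            ring
          have h5 : (1 : ℝ) ≤ l := by exact_mod_cast hl
          rw [hl1]
          have h7 : 2 * ((l : ℝ) - 1) + 2 * m + 4 = 2 * ((l : ℝ) + m + 1) := by ring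
          have h8 : (0 : ℝ) < (l : ℝ) + m + 1 := by positivity
          rw [h7]
          apply le_of_eq
          field_simp
          ring

theorem neu_P1 (Z : Finset (Fin B)) {m : ℕ} (hm : Z.card = m) (hm1 : 1 ≤ m) {f0 f1 f2 : ℝ}
    (h : IsP1 m f0 f1 f2) (M : ℕ) (F : Mo B → ℂ) (hF : ∀ n, F n = ∑ k, F (upo n k))
    (hz : F 0 = 0) :
    0 ≤ Qf (VP2 Z f0 f1 f2) (VP1 Z f1 f2) (fun _ _ => 0) M F (fun n => ¬ ∃ k, eb n k ≠ 0) := by
  obtain ⟨hf1, hf2, hf0⟩ := h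
  obtain h1 | h1 : m = 1 ∨ 2 ≤ m := by omega
  · subst h1
    have hZ : Z.card = 1 := hm
    have e2 : f2 = f1 * (1 - 1 / 3) := by
      rw [hf2]
      norm_num
    rw [Qf_congr (P2' := VP2 Z (f1 * (1 + 0)) f1 (f1 * (1 - 1 / 3)))
      (P1' := VP1 Z f1 (f1 * (1 - 1 / 3))) (X2' := fun _ _ => 0) ?_ ?_ (fun _ _ _ => rfl)]
    · exact na_one M F hF hz Z hZ f1 hf1
    · intro j k hjk
      unfold VP2
      rw [← e2]
      by_cases hj : j ∈ zb Z
      · by_cases hk : k ∈ zb Z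
        · exact absurd (Finset.card_le_one.1 (le_of_eq (by
            rw [← hZ]
            exact Finset.card_map _)) j hj k hk) hjk
        · rw [if_pos hj, if_neg hk, if_pos hj, if_neg hk]
      · rw [if_neg hj, if_neg hj]
    · intro k
      rw [← e2]
  · obtain ⟨p, rfl⟩ := Nat.exists_eq_add_of_le h1
    have hZ : Z.card = p + 2 := by omega
    have hp : (0 : ℝ) ≤ p := by positivity
    have e2 : f2 = f1 * (1 - 1 / (2 * (p : ℝ) + 5)) := by
      rw [hf2]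
      push_cast
      field_simp
      ring
    have e0 : f0 = f1 * (1 + 1 / (2 * (p : ℝ) + 2)) := by
      have h5 := hf0 h1
      push_cast at h5
      field_simp
      linarith
    rw [e2, e0]
    exact na_two M F hF hz Z p hZ f1 hf1

end Pool.Agent.H35.ODD
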