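import Mathlib
import Pool.Agent.H35.ODD.OAbs

set_option autoImplicit false

/-!
# ONeB: the charge-free modes at a vertex, type `ℂ^p ⊕ ℝ`

`A = 1/r`, `b = 1/(r+3)`, `f2 = f1 (1 + A)`, `f0 = f1 (1 - b)`.  `j = ja Z n`, `l = lz Z n`, both even
(`neutral_even_j`), `N = j + l`, `x = ∑_{k ∉ Z} v_k` (with the line), `y = ∑_{k ∈ Z} v_k`, `s = x + y`; `r` odd.
Apply `abs_nonneg'` with
`T n = f1 (1 + b (p - 1))`, `Dt n k = -f0` (`k ∈ Z`), `f1 q(j,l) (j + r)/(N_k + 2) - f2` (planes `∉ Z`),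
`f1 q(j,l) (j + r)/(N_0 + 1) - f2` (line), `Du n k = -f0`, resp. `f1 q(j-2,l) (j - 2 + r)/N_k - f2`, resp.
`f1 q(j-2,l) (j - 2 + r)/(N_0 - 1) - f2`, `q = A - b + b/p ≥ 0`.
(II): `f2 x² + 2 f1 x y + f0 y² = f1 (s² + A x² - b y²)`, `y² ≥ (1-p) s² + (1 - 1/p) x²`,
`x² ≤ (j + r) (∑_{planes ∉ Z} v_k²/(N_k + 2) + v_0²/(N_0 + 1))` (`∑ (N_k + 2) + (N_0 + 1) = j + r`).
(I) follows from (`e = 0`; `∑_{k ∉ Z} wt/(N_k or N_0 - 1) ≤ j`)
`c(j,l) = N-1 + A(j²-j) - b l² - b (p(j,l) - 1)(N-1)² - q(j-2,l) j (j+r-2) ≥ 0` (last term absent for `j = 0`):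
* `l ≥ 2`: `p = (j+r)/(N-1)` (`N = j + l`; for `j = 0` too), `q = A - b + b (N-1)/(j+r)`:
  `c = j/r + (l-2)/(r+3)` (`j ≥ 2`), `(l-2)/(r+3)` (`j = 0`).
* `l = 0`, `j ≥ 2`: `p = 2` for `j < r`, `p = 1` for `j ≥ r`; `q = A - b/2`, resp. `A`; `q(0,0) = A - b`.
  `c(2,0) = (r + 6/r - p)/(r+3)`; `4 ≤ j < r`: `(r+3) c = -r - 4 + 2j + 3j/r - j²/2 + jr/2 ≥ 0` (concave
  in `j`, check `j = 4`, `j = r - 1`); `j = r + 1 ≥ 4`: `c = -1 + j/r + b j (j+r-2)/2`; `j - 2 ≥ r`: `c = -1 + j/r`.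
(0) (`N = 0`, `y = -x`): `f1 (A - b) x² ≤ f1 q(0,0) r (∑_{planes ∉ Z} v_k²/2 + v_0²)`.
-/

open Pool.Agent.H89.CZ

noncomputable section

namespace Pool.Agent.H35.ODD

variable {B : ℕ}

/-! ### Sums over the blocks -/

private theorem nbb_mem (Z : Finset (Fin B)) (k : Fin B) : (some k : Bk B) ∈ zb Z ↔ k ∈ Z := by
  unfold zb
  simp

private theorem nbb_none (Z : Finset (Fin B)) : (none : Bk B) ∉ zb Z := by
  unfold zb
  simp

private theorem nbb_sum (Z : Finset (Fin B)) (g : Bk B → ℝ) :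
    ∑ k ∈ zb Z, g k = ∑ k ∈ Z, g (some k) := by
  unfold zb
  rw [Finset.sum_map]
  rfl

private theorem nbb_sumc (Z : Finset (Fin B)) (g : Bk B → ℝ) :
    ∑ k ∈ (zb Z)ᶜ, g k = g none + ∑ k ∈ Zᶜ, g (some k) := by
  have h1 : ∑ k, g k = ∑ k ∈ zb Z, g k + ∑ k ∈ (zb Z)ᶜ, g k := (Finset.sum_add_sum_compl _ _).symm
  have h2 : ∑ k : Fin B, g (some k) = ∑ k ∈ Z, g (some k) + ∑ k ∈ Zᶜ, g (some k) :=
    (Finset.sum_add_sum_compl _ _).symm
  rw [Fintype.sum_option, h2, nbb_sum] at h1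
  linarith

private theorem nbb_quad (Z : Finset (Fin B)) (f0 f1 f2 : ℝ) (v : Bk B → ℝ) :
    ∑ j, ∑ k ∈ Finset.univ.erase j, VP2 Z f0 f1 f2 j k * (v j * v k) =
      f2 * (∑ k ∈ (zb Z)ᶜ, v k) ^ 2 + 2 * f1 * (∑ k ∈ (zb Z)ᶜ, v k) * (∑ k ∈ zb Z, v k) +
        f0 * (∑ k ∈ zb Z, v k) ^ 2 - ∑ k, (if k ∈ zb Z then f0 else f2) * v k ^ 2 := by
  have e1 : ∀ j, ∑ k ∈ Finset.univ.erase j, VP2 Z f0 f1 f2 j k * (v j * v k) =
      ∑ k, VP2 Z f0 f1 f2 j k * (v j * v k) - (if j ∈ zb Z then f0 else f2) * v j ^ 2 := by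
    intro j
    rw [Finset.sum_erase_eq_sub (Finset.mem_univ j)]
    congr 1
    unfold VP2
    split_ifs <;> ring
  rw [Finset.sum_congr rfl fun j _ => e1 j, Finset.sum_sub_distrib]
  congr 1
  have e2 : ∀ j, ∑ k, VP2 Z f0 f1 f2 j k * (v j * v k) =
      (if j ∈ zb Z then f0 * v j * (∑ k ∈ zb Z, v k) + f1 * v j * (∑ k ∈ (zb Z)ᶜ, v k) else
        f1 * v j * (∑ k ∈ zb Z, v k) + f2 * v j * (∑ k ∈ (zb Z)ᶜ, v k)) := by
    intro j
    rw [← Finset.sum_add_sum_compl (zb Z)]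
    by_cases hj : j ∈ zb Z
    · rw [if_pos hj, Finset.mul_sum, Finset.mul_sum]
      congr 1
      · refine Finset.sum_congr rfl fun k hk => ?_
        unfold VP2
        rw [if_pos hj, if_pos hk]
        ring
      · refine Finset.sum_congr rfl fun k hk => ?_
        unfold VP2
        rw [if_pos hj, if_neg (Finset.mem_compl.1 hk)]
        ring
    · rw [if_neg hj, Finset.mul_sum, Finset.mul_sum]
      congr 1
      · refine Finset.sum_congr rfl fun k hk => ?_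
        unfold VP2
        rw [if_neg hj, if_pos hk]
        ring
      · refine Finset.sum_congr rfl fun k hk => ?_
        unfold VP2
        rw [if_neg hj, if_neg (Finset.mem_compl.1 hk)]
        ring
  rw [Finset.sum_congr rfl fun j _ => e2 j, ← Finset.sum_add_sum_compl (zb Z)]
  have e3 : ∑ j ∈ zb Z, (if j ∈ zb Z then f0 * v j * (∑ k ∈ zb Z, v k) +
        f1 * v j * (∑ k ∈ (zb Z)ᶜ, v k) else
        f1 * v j * (∑ k ∈ zb Z, v k) + f2 * v j * (∑ k ∈ (zb Z)ᶜ, v k)) =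
      f0 * (∑ k ∈ zb Z, v k) * (∑ k ∈ zb Z, v k) +
        f1 * (∑ k ∈ zb Z, v k) * (∑ k ∈ (zb Z)ᶜ, v k) := by
    rw [Finset.sum_congr rfl fun j hj => if_pos hj, Finset.sum_add_distrib, ← Finset.sum_mul,
      ← Finset.sum_mul, ← Finset.mul_sum, ← Finset.mul_sum]
  have e4 : ∑ j ∈ (zb Z)ᶜ, (if j ∈ zb Z then f0 * v j * (∑ k ∈ zb Z, v k) +
        f1 * v j * (∑ k ∈ (zb Z)ᶜ, v k) else
        f1 * v j * (∑ k ∈ zb Z, v k) + f2 * v j * (∑ k ∈ (zb Z)ᶜ, v k)) =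
      f1 * (∑ k ∈ (zb Z)ᶜ, v k) * (∑ k ∈ zb Z, v k) +
        f2 * (∑ k ∈ (zb Z)ᶜ, v k) * (∑ k ∈ (zb Z)ᶜ, v k) := by
    rw [Finset.sum_congr rfl fun j hj => if_neg (Finset.mem_compl.1 hj), Finset.sum_add_distrib,
      ← Finset.sum_mul, ← Finset.sum_mul, ← Finset.mul_sum, ← Finset.mul_sum]
  rw [e3, e4]
  ring

/-- The Cauchy inequality. -/
private theorem nbb_cauchy (Z : Finset (Fin B)) {r : ℕ} (hr : r + 2 * Z.card = 2 * B + 1) (n : Mo B)
    (v : Bk B → ℝ) :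
    (∑ k ∈ (zb Z)ᶜ, v k) ^ 2 ≤ ((ja Z n : ℝ) + r) *
      ∑ k ∈ (zb Z)ᶜ, v k ^ 2 / ((nb n k : ℝ) + if k = none then 1 else 2) := by
  have e1 : (ja Z n : ℝ) + r = ∑ k ∈ (zb Z)ᶜ, ((nb n k : ℝ) + if k = none then 1 else 2) := by
    rw [Finset.sum_add_distrib]
    unfold ja
    push_cast
    congr 1
    rw [nbb_sumc]
    simp only [if_true, reduceCtorEq, if_false]
    rw [Finset.sum_const, Finset.card_compl, Fintype.card_fin, nsmul_eq_mul,
      Nat.cast_sub (by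
        have := Finset.card_le_univ Z
        rwa [Fintype.card_fin] at this)]
    have hr' : (r : ℝ) + 2 * Z.card = 2 * B + 1 := by exact_mod_cast hr
    linarith
  have hpos : ∀ k : Bk B, (0 : ℝ) < (nb n k : ℝ) + if k = none then 1 else 2 := by
    intro k
    have h0 : (0 : ℝ) ≤ nb n k := Nat.cast_nonneg _
    split_ifs <;> linarith
  rw [e1]
  apply Finset.sum_sq_le_sum_mul_sum_of_sq_le_mul
  · intro k _
    exact (hpos k).le
  · intro k _
    exact div_nonneg (sq_nonneg _) (hpos k).le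
  · intro k _
    apply le_of_eq
    rw [mul_comm, div_mul_cancel₀ _ (hpos k).ne']

private def nbT (Z : Finset (Fin B)) (f1 b : ℝ) (P : ℕ → ℕ → ℝ) (n : Mo B) : ℝ :=
  f1 * (1 + b * (P (ja Z n / 2) (lz Z n / 2) - 1))

private def nbDt (Z : Finset (Fin B)) (r : ℕ) (f0 f1 f2 : ℝ) (Q : ℕ → ℕ → ℝ) (n : Mo B)
    (k : Bk B) : ℝ :=
  if k ∈ zb Z then -f0 else f1 * Q (ja Z n / 2) (lz Z n / 2) * ((ja Z n : ℝ) + r) /
    ((nb n k : ℝ) + if k = none then 1 else 2) - f2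

private def nbDu (Z : Finset (Fin B)) (r : ℕ) (f0 f1 f2 : ℝ) (Q : ℕ → ℕ → ℝ) (n : Mo B)
    (k : Bk B) : ℝ :=
  if k ∈ zb Z then -f0 else f1 * Q (ja Z n / 2 - 1) (lz Z n / 2) * ((ja Z n : ℝ) - 2 + r) /
    ((nb n k : ℝ) - if k = none then 1 else 0) - f2

private theorem nbb_Du (Z : Finset (Fin B)) (r : ℕ) (f0 f1 f2 : ℝ) (Q : ℕ → ℕ → ℝ) (n : Mo B)
    (k : Bk B) : nbDu Z r f0 f1 f2 Q (upo n k) k = nbDt Z r f0 f1 f2 Q n k := by
  unfold nbDu nbDt
  rw [ja_upo, lz_upo, nb_upo, if_pos rfl]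
  by_cases h : k ∈ zb Z
  · simp only [if_pos h]
  · simp only [if_neg h]
    have e1 : (ja Z n + 2) / 2 - 1 = ja Z n / 2 := by omega
    rw [add_zero, e1]
    push_cast
    have e2 : (ja Z n : ℝ) + 2 - 2 + r = ja Z n + r := by ring
    have e3 : ((nb n k : ℝ) + 2 - if k = none then 1 else 0) =
        (nb n k : ℝ) + if k = none then 1 else 2 := by
      split_ifs <;> ring
    rw [e2, e3]

/-- The diagonal terms of `nbDt`. -/
private theorem nbb_sumDt (Z : Finset (Fin B)) (r : ℕ) (f0 f1 f2 : ℝ) (Q : ℕ → ℕ → ℝ) (n : Mo B)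
    (v : Bk B → ℝ) : ∑ k, nbDt Z r f0 f1 f2 Q n k * v k ^ 2 =
      f1 * Q (ja Z n / 2) (lz Z n / 2) * (((ja Z n : ℝ) + r) *
        ∑ k ∈ (zb Z)ᶜ, v k ^ 2 / ((nb n k : ℝ) + if k = none then 1 else 2)) -
      ∑ k, (if k ∈ zb Z then f0 else f2) * v k ^ 2 := by
  rw [← Finset.sum_add_sum_compl (zb Z), ← Finset.sum_add_sum_compl (zb Z)
    (fun k => (if k ∈ zb Z then f0 else f2) * v k ^ 2)]
  have e1 : ∑ k ∈ (zb Z)ᶜ, nbDt Z r f0 f1 f2 Q n k * v k ^ 2 =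
      f1 * Q (ja Z n / 2) (lz Z n / 2) * (((ja Z n : ℝ) + r) *
        ∑ k ∈ (zb Z)ᶜ, v k ^ 2 / ((nb n k : ℝ) + if k = none then 1 else 2)) -
      ∑ k ∈ (zb Z)ᶜ, (if k ∈ zb Z then f0 else f2) * v k ^ 2 := by
    rw [Finset.mul_sum, Finset.mul_sum, ← Finset.sum_sub_distrib]
    refine Finset.sum_congr rfl fun k hk => ?_
    unfold nbDt
    rw [if_neg (Finset.mem_compl.1 hk), if_neg (Finset.mem_compl.1 hk)]
    ring
  have e2 : ∑ k ∈ zb Z, nbDt Z r f0 f1 f2 Q n k * v k ^ 2 =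
      - ∑ k ∈ zb Z, (if k ∈ zb Z then f0 else f2) * v k ^ 2 := by
    rw [← Finset.sum_neg_distrib]
    refine Finset.sum_congr rfl fun k hk => ?_
    unfold nbDt
    rw [if_pos hk, if_pos hk]
    ring
  rw [e1, e2]
  ring

/-- `wt`, charge-free. -/
private theorem nbb_wt {n : Mo B} (h : ¬ ∃ k, eb n k ≠ 0) (k : Fin B) :
    wt n (some k) = (nb n (some k) : ℝ) ^ 2 := by
  have h0 : eb n k = 0 := by
    by_contra hne
    exact h ⟨k, hne⟩
  simp only [wt, h0]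
  ring

/-- The own coefficient minus the shifted terms. -/
private theorem nbb_cn (Z : Finset (Fin B)) (r : ℕ) (f0 f1 f2 : ℝ) (Q : ℕ → ℕ → ℝ) {n : Mo B}
    (h : ¬ ∃ k, eb n k ≠ 0) (hn1 : nb n none ≠ 1) :
    cn (VP2 Z f0 f1 f2) (VP1 Z f1 f2) (fun _ _ => 0) n - ∑ k, wt n k * nbDu Z r f0 f1 f2 Q n k =
      f2 * ((ja Z n : ℝ) ^ 2 - ja Z n) + 2 * f1 * ja Z n * lz Z n + f0 * (lz Z n : ℝ) ^ 2 -
        f1 * lz Z n - f1 * Q (ja Z n / 2 - 1) (lz Z n / 2) * (ja Z n : ℝ) *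
          ((ja Z n : ℝ) - 2 + r) := by
  have h0 : ∀ k, eb n k = 0 := by
    intro k
    by_contra hne
    exact h ⟨k, hne⟩
  have ej : ((ja Z n : ℕ) : ℝ) = ∑ k ∈ (zb Z)ᶜ, (nb n k : ℝ) := by
    unfold ja
    push_cast
    rfl
  have el : ((lz Z n : ℕ) : ℝ) = ∑ k ∈ zb Z, (nb n k : ℝ) := by
    unfold lz
    push_cast
    rfl
  unfold cn
  rw [nbb_quad Z f0 f1 f2 (fun k => (nb n k : ℝ)), ← ej, ← el]
  have e1 : ∑ k, VP1 Z f1 f2 k * ((nb n (some k) : ℝ) - eb n k ^ 2) =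
      f1 * lz Z n + f2 * (ja Z n - nb n none) := by
    rw [← Finset.sum_add_sum_compl Z, ej, el, nbb_sumc, nbb_sum, add_sub_cancel_left,
      Finset.mul_sum, Finset.mul_sum]
    congr 1
    · refine Finset.sum_congr rfl fun k hk => ?_
      unfold VP1
      rw [if_pos hk, h0]
      ring
    · refine Finset.sum_congr rfl fun k hk => ?_
      unfold VP1
      rw [if_neg (Finset.mem_compl.1 hk), h0]
      ring
  have e2 : ∑ j, ∑ k ∈ Finset.univ.erase j, (fun _ _ => (0 : ℝ)) j k * (eb n j * eb n k) = 0 := by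
    refine Finset.sum_eq_zero fun j _ => Finset.sum_eq_zero fun k _ => ?_
    simp
  have e3 : ∑ k, wt n k * nbDu Z r f0 f1 f2 Q n k =
      f1 * Q (ja Z n / 2 - 1) (lz Z n / 2) * (ja Z n : ℝ) * ((ja Z n : ℝ) - 2 + r) -
        ∑ k, (if k ∈ zb Z then f0 else f2) * (nb n k : ℝ) ^ 2 + f2 * nb n none := by
    set c : ℝ := f1 * Q (ja Z n / 2 - 1) (lz Z n / 2) * ((ja Z n : ℝ) - 2 + r) with hc
    have g1 : ∑ k ∈ Zᶜ, wt n (some k) * nbDu Z r f0 f1 f2 Q n (some k) =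
        c * ∑ k ∈ Zᶜ, (nb n (some k) : ℝ) -
          ∑ k ∈ Zᶜ, (if (some k : Bk B) ∈ zb Z then f0 else f2) * (nb n (some k) : ℝ) ^ 2 := by
      rw [Finset.mul_sum, ← Finset.sum_sub_distrib]
      refine Finset.sum_congr rfl fun k hk => ?_
      have hk' : (some k : Bk B) ∉ zb Z := fun hm => Finset.mem_compl.1 hk ((nbb_mem Z k).1 hm)
      rw [nbb_wt h, if_neg hk']
      unfold nbDu
      rw [if_neg hk', ← hc, if_neg (by simp), sub_zero]
      by_cases hz : (nb n (some k) : ℝ) = 0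
      · rw [hz]
        ring
      · field_simp
    have g2 : ∑ k ∈ Z, wt n (some k) * nbDu Z r f0 f1 f2 Q n (some k) =
        - ∑ k ∈ Z, (if (some k : Bk B) ∈ zb Z then f0 else f2) * (nb n (some k) : ℝ) ^ 2 := by
      rw [← Finset.sum_neg_distrib]
      refine Finset.sum_congr rfl fun k hk => ?_
      rw [nbb_wt h, if_pos ((nbb_mem Z k).2 hk)]
      unfold nbDu
      rw [if_pos ((nbb_mem Z k).2 hk)]
      ring
    have g3 : wt n none * nbDu Z r f0 f1 f2 Q n none =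
        c * nb n none - (f2 * (nb n none : ℝ) ^ 2) + f2 * nb n none := by
      unfold nbDu
      rw [if_neg (nbb_none Z), ← hc, if_pos rfl]
      have hne : (nb n none : ℝ) - 1 ≠ 0 := by
        intro h1
        apply hn1
        have : (nb n none : ℝ) = 1 := by linarith
        exact_mod_cast this
      have hw : wt n none = (nb n none : ℝ) * ((nb n none : ℝ) - 1) := rfl
      rw [hw]
      field_simp
      ring
    rw [Fintype.sum_option, Fintype.sum_option, ← Finset.sum_add_sum_compl Z,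
      ← Finset.sum_add_sum_compl Z
        (fun k => (if (some k : Bk B) ∈ zb Z then f0 else f2) * (nb n (some k) : ℝ) ^ 2),
      g1, g2, g3, if_neg (nbb_none Z)]
    have ej2 : (ja Z n : ℝ) = nb n none + ∑ k ∈ Zᶜ, (nb n (some k) : ℝ) := by
      rw [ej, nbb_sumc]
    have hS : ∑ k ∈ Zᶜ, (nb n (some k) : ℝ) = ja Z n - nb n none := by
      rw [ej2]
      ring
    rw [hS]
    have hcc : f1 * Q (ja Z n / 2 - 1) (lz Z n / 2) * (ja Z n : ℝ) * ((ja Z n : ℝ) - 2 + r) =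
        c * ja Z n := by
      rw [hc]
      ring
    rw [hcc]
    ring
  rw [e1, e2, e3]
  ring

private theorem nbb_core (M : ℕ) (F : Mo B → ℂ) (hF : ∀ n, F n = ∑ k, F (upo n k)) (hz : F 0 = 0)
    (Z : Finset (Fin B)) (r : ℕ) (hr : r + 2 * Z.card = 2 * B + 1)
    (f0 f1 f2 a b : ℝ) (hf1 : 0 ≤ f1) (hf2 : f2 = f1 * (1 + a))
    (hf0 : f0 = f1 * (1 - b)) (P Q : ℕ → ℕ → ℝ) (hb0 : 0 ≤ b) (hb1 : b ≤ 1)
    (hP : ∀ j l, 1 ≤ j + l → 0 < P j l)
    (hQ : ∀ j l, 1 ≤ j + l → a - b * (1 - 1 / P j l) ≤ Q j l) (hQ0 : a - b ≤ Q 0 0)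
    (hQn : ∀ j l, 0 ≤ Q j l)
    (hc : ∀ j l : ℕ, 1 ≤ j + l → 0 ≤ 2 * ((j : ℝ) + l) - 1 + a * (4 * (j : ℝ) ^ 2 - 2 * (j : ℝ)) -
      b * (4 * (l : ℝ) ^ 2) + b * (1 - P j l) * (2 * ((j : ℝ) + l) - 1) ^ 2 -
      Q (j - 1) l * (2 * (j : ℝ)) * (2 * (j : ℝ) - 2 + r)) :
    0 ≤ Qf (VP2 Z f0 f1 f2) (VP1 Z f1 f2) (fun _ _ => 0) M F (fun n => ¬ ∃ k, eb n k ≠ 0) := by
  have hhalf : ∀ (q : ℕ) (n : Mo B), n ∈ levo B (2 * q) → (¬ ∃ k, eb n k ≠ 0) →
      ja Z n = 2 * (ja Z n / 2) ∧ lz Z n = 2 * (lz Z n / 2) ∧ ja Z n / 2 + lz Z n / 2 = q := by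
    intro q n hn hp
    obtain ⟨⟨x, hx⟩, ⟨y, hy⟩⟩ := neutral_even_j Z hn hp
    have := ja_add_lz Z hn
    omega
  have hII0 : ∀ (n : Mo B) (v : Bk B → ℝ) (t : ℝ),
      f1 * (a * (∑ k ∈ (zb Z)ᶜ, v k) ^ 2 - b * (∑ k ∈ zb Z, v k) ^ 2) ≤
        t * (∑ k, v k) ^ 2 + f1 * (Q (ja Z n / 2) (lz Z n / 2) * (∑ k ∈ (zb Z)ᶜ, v k) ^ 2) →
      ∑ j, ∑ k ∈ Finset.univ.erase j, VP2 Z f0 f1 f2 j k * (v j * v k) ≤
        (f1 + t) * (∑ k, v k) ^ 2 + ∑ k, nbDt Z r f0 f1 f2 Q n k * v k ^ 2 := by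
    intro n v t ht
    rw [nbb_quad, nbb_sumDt]
    have hs : ∑ k, v k = ∑ k ∈ (zb Z)ᶜ, v k + ∑ k ∈ zb Z, v k := by
      rw [add_comm, Finset.sum_add_sum_compl]
    have hcau := nbb_cauchy Z hr n v
    have h1 := mul_le_mul_of_nonneg_left hcau (mul_nonneg hf1 (hQn (ja Z n / 2) (lz Z n / 2)))
    rw [hf2, hf0] at *
    rw [hs] at ht ⊢
    set x := ∑ k ∈ (zb Z)ᶜ, v k
    set y := ∑ k ∈ zb Z, v k
    nlinarith [h1, ht]
  refine abs_nonneg' _ _ _ M F hF _ (fun n k => by simp only [eb_upo]) (nbT Z f1 b P)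
    (nbDt Z r f0 f1 f2 Q) (nbDu Z r f0 f1 f2 Q) (fun q n k _ _ => nbb_Du Z r f0 f1 f2 Q n k)
    ?_ ?_ ?_ ?_
  · intro q n hn hp
    obtain ⟨_, _, h3⟩ := hhalf (q + 1) n hn hp
    have hPp := hP (ja Z n / 2) (lz Z n / 2) (by omega)
    unfold nbT
    apply mul_nonneg hf1
    nlinarith [mul_nonneg hb0 hPp.le]
  · intro q n hn hp
    obtain ⟨hj, hl, h3⟩ := hhalf (q + 1) n hn hp
    have hn1 : nb n none ≠ 1 := by
      have he := neutral_even (q := q + 1) hn hp none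
      intro h1
      rw [h1] at he
      exact absurd he (by decide)
    have hcc := hc (ja Z n / 2) (lz Z n / 2) (by omega)
    have hcn := nbb_cn Z r f0 f1 f2 Q hp hn1
    have hjr : (ja Z n : ℝ) = 2 * ((ja Z n / 2 : ℕ) : ℝ) := by exact_mod_cast hj
    have hlr : (lz Z n : ℝ) = 2 * ((lz Z n / 2 : ℕ) : ℝ) := by exact_mod_cast hl
    have hqr : ((ja Z n / 2 : ℕ) : ℝ) + ((lz Z n / 2 : ℕ) : ℝ) = (q : ℝ) + 1 := by exact_mod_cast h3
    have hkey := mul_nonneg hf1 hcc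
    unfold nbT
    rw [hf2, hf0] at hcn ⊢
    rw [hjr, hlr] at hcn
    set j : ℝ := ((ja Z n / 2 : ℕ) : ℝ)
    set l : ℝ := ((lz Z n / 2 : ℕ) : ℝ)
    have hq' : (q : ℝ) = j + l - 1 := by linarith
    rw [hq']
    set PP := P (ja Z n / 2) (lz Z n / 2)
    set QQ := Q (ja Z n / 2 - 1) (lz Z n / 2)
    nlinarith [hkey, hcn]
  · intro q n hn hp v
    obtain ⟨_, _, h3⟩ := hhalf (q + 1) n hn hp
    have hjl1 : 1 ≤ ja Z n / 2 + lz Z n / 2 := by omega
    have hPp := hP _ _ hjl1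
    have hQq := hQ _ _ hjl1
    have hs : ∑ k, v k = ∑ k ∈ (zb Z)ᶜ, v k + ∑ k ∈ zb Z, v k := by
      rw [add_comm, Finset.sum_add_sum_compl]
    have h5 := hII0 n v (f1 * (b * (P (ja Z n / 2) (lz Z n / 2) - 1))) (by
      rw [hs]
      set P' := P (ja Z n / 2) (lz Z n / 2)
      set Q' := Q (ja Z n / 2) (lz Z n / 2)
      set x := ∑ k ∈ (zb Z)ᶜ, v k
      set y := ∑ k ∈ zb Z, v k
      have h3 : (1 - P') * (x + y) ^ 2 + (1 - 1 / P') * x ^ 2 ≤ y ^ 2 := by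
        have h4 : y ^ 2 - ((1 - P') * (x + y) ^ 2 + (1 - 1 / P') * x ^ 2) =
            (P' * (x + y) - x) ^ 2 / P' := by
          field_simp
          ring
        have h5 : 0 ≤ (P' * (x + y) - x) ^ 2 / P' := div_nonneg (sq_nonneg _) hPp.le
        linarith
      have h6 := mul_le_mul_of_nonneg_left h3 hb0
      have h7 := mul_le_mul_of_nonneg_right hQq (sq_nonneg x)
      have h8 : a * x ^ 2 - b * y ^ 2 ≤ b * (P' - 1) * (x + y) ^ 2 + Q' * x ^ 2 := by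
        nlinarith [h6, h7]
      have h9 := mul_le_mul_of_nonneg_left h8 hf1
      nlinarith [h9])
    refine h5.trans (le_of_eq ?_)
    unfold nbT
    ring
  · intro _
    refine ⟨hz, fun v hv => ?_⟩
    have h5 := hII0 0 v (-f1) (by
      have hs : ∑ k, v k = ∑ k ∈ (zb Z)ᶜ, v k + ∑ k ∈ zb Z, v k := by
        rw [add_comm, Finset.sum_add_sum_compl]
      have hj0 : ja Z (0 : Mo B) = 0 := by
        have := ja_add_lz Z (zero_mem (B := B))
        omega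
      have hl0 : lz Z (0 : Mo B) = 0 := by
        have := ja_add_lz Z (zero_mem (B := B))
        omega
      rw [hj0, hl0, Nat.zero_div]
      rw [hv] at hs ⊢
      set x := ∑ k ∈ (zb Z)ᶜ, v k
      set y := ∑ k ∈ zb Z, v k
      have hy : y = -x := by linarith
      rw [hy]
      have h7 := mul_le_mul_of_nonneg_left
        (mul_le_mul_of_nonneg_right hQ0 (sq_nonneg x)) hf1
      nlinarith [h7])
    rw [hv] at h5
    linarith [h5]

/-- The numbers. -/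
private theorem nbb_num (M : ℕ) (F : Mo B → ℂ) (hF : ∀ n, F n = ∑ k, F (upo n k)) (hz : F 0 = 0)
    (Z : Finset (Fin B)) (r : ℕ) (hr : r + 2 * Z.card = 2 * B + 1) (f1 : ℝ) (hf1 : 0 ≤ f1) :
    0 ≤ Qf (VP2 Z (f1 * (1 - 1 / ((r : ℝ) + 3))) f1 (f1 * (1 + 1 / (r : ℝ))))
      (VP1 Z f1 (f1 * (1 + 1 / (r : ℝ)))) (fun _ _ => 0) M F (fun n => ¬ ∃ k, eb n k ≠ 0) := by
  have hr1 : 1 ≤ r := by omega
  have hodd : r % 2 = 1 := by omega
  have hr0 : (1 : ℝ) ≤ r := by exact_mod_cast hr1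
  have hrp : (0 : ℝ) < r := by linarith
  have hba : 1 / ((r : ℝ) + 3) ≤ 1 / (r : ℝ) := by
    apply one_div_le_one_div_of_le hrp
    linarith
  have hb0 : 0 < 1 / ((r : ℝ) + 3) := by positivity
  apply nbb_core M F hF hz Z r hr (f1 * (1 - 1 / ((r : ℝ) + 3))) f1 (f1 * (1 + 1 / (r : ℝ)))
    (1 / (r : ℝ)) (1 / ((r : ℝ) + 3)) hf1 rfl rfl
    (fun j l => if l = 0 then (if 2 * j < r then 2 else 1) else
      (2 * (j : ℝ) + r) / (2 * ((j : ℝ) + l) - 1))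
    (fun j l => if l = 0 then (if j = 0 then 1 / (r : ℝ) - 1 / ((r : ℝ) + 3) else
        if 2 * j < r then 1 / (r : ℝ) - 1 / ((r : ℝ) + 3) / 2 else 1 / (r : ℝ)) else
      1 / (r : ℝ) - 1 / ((r : ℝ) + 3) +
        1 / ((r : ℝ) + 3) * (2 * ((j : ℝ) + l) - 1) / (2 * (j : ℝ) + r))
  · exact hb0.le
  · rw [div_le_one (by positivity)]
    linarith
  · intro j l hjl
    have h3 : (0 : ℝ) ≤ l := by positivity
    have h3' : (0 : ℝ) ≤ j := by positivity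
    have h4 : (1 : ℝ) ≤ (j : ℝ) + l := by exact_mod_cast hjl
    split_ifs with hl hj
    · norm_num
    · norm_num
    · apply div_pos (by positivity)
      linarith
  · intro j l hjl
    have h3 : (0 : ℝ) ≤ l := by positivity
    have h3' : (0 : ℝ) ≤ j := by positivity
    have h4 : (1 : ℝ) ≤ (j : ℝ) + l := by exact_mod_cast hjl
    by_cases hl : l = 0
    · have hj : j ≠ 0 := by omega
      simp only [if_pos hl, if_neg hj]
      by_cases hj2 : 2 * j < r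
      · simp only [if_pos hj2]
        apply le_of_eq
        ring
      · simp only [if_neg hj2]
        apply le_of_eq
        ring
    · simp only [if_neg hl]
      have h6 : (0 : ℝ) < 2 * ((j : ℝ) + l) - 1 := by linarith
      have h7 : (0 : ℝ) < 2 * (j : ℝ) + r := by positivity
      apply le_of_eq
      field_simp
      ring
  · simp
  · intro j l
    have h3 : (0 : ℝ) ≤ l := by positivity
    have h3' : (0 : ℝ) ≤ j := by positivity
    split_ifs with hl hj hj2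
    · linarith
    · linarith
    · positivity
    · have h5 : (1 : ℝ) ≤ l := by exact_mod_cast Nat.one_le_iff_ne_zero.2 hl
      have h6 : 0 ≤ 1 / ((r : ℝ) + 3) * (2 * ((j : ℝ) + l) - 1) / (2 * (j : ℝ) + r) := by
        apply div_nonneg _ (by positivity)
        apply mul_nonneg (by positivity)
        linarith
      linarith
  · intro j l hjl
    have h3 : (0 : ℝ) ≤ l := by positivity
    have h3' : (0 : ℝ) ≤ j := by positivity
    have h4 : (1 : ℝ) ≤ (j : ℝ) + l := by exact_mod_cast hjl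
    by_cases hl : l = 0
    · subst hl
      have hj1 : 1 ≤ j := by omega
      have hj1r : (1 : ℝ) ≤ j := by exact_mod_cast hj1
      have hjm : ((j - 1 : ℕ) : ℝ) = (j : ℝ) - 1 := by
        push_cast [Nat.cast_sub hj1]
        ring
      simp only [if_true]
      rcases Nat.eq_or_lt_of_le hj1 with hj | hj
      · -- `j = 2`
        subst hj
        have e : ∀ p : ℝ, 2 * (((1 : ℕ) : ℝ) + ((0 : ℕ) : ℝ)) - 1 +
            1 / (r : ℝ) * (4 * ((1 : ℕ) : ℝ) ^ 2 - 2 * ((1 : ℕ) : ℝ)) -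
            1 / ((r : ℝ) + 3) * (4 * ((0 : ℕ) : ℝ) ^ 2) +
            1 / ((r : ℝ) + 3) * (1 - p) * (2 * (((1 : ℕ) : ℝ) + ((0 : ℕ) : ℝ)) - 1) ^ 2 -
            (1 / (r : ℝ) - 1 / ((r : ℝ) + 3)) * (2 * ((1 : ℕ) : ℝ)) *
              (2 * ((1 : ℕ) : ℝ) - 2 + r) =
            ((r : ℝ) ^ 2 + 6 - p * r) / ((r : ℝ) * ((r : ℝ) + 3)) := by
          intro p
          push_cast
          field_simp
          ring
        have hp : (if 2 * 1 < r then (2 : ℝ) else 1) ≤ 2 := by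
          split_ifs <;> norm_num
        rw [Nat.sub_self, if_pos rfl, e]
        apply div_nonneg _ (by positivity)
        nlinarith [sq_nonneg ((r : ℝ) - 1), mul_le_mul_of_nonneg_right hp hrp.le]
      · have hjm1 : j - 1 ≠ 0 := by omega
        have hj2r : (2 : ℝ) ≤ j := by exact_mod_cast hj
        rw [if_neg hjm1]
        rcases Nat.lt_or_ge (2 * j) r with hjr | hjr
        · -- `4 ≤ j < r`
          have hjr' : 2 * (j - 1) < r := by omega
          rw [if_pos hjr, if_pos hjr']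
          have h5 : 2 * (j : ℝ) + 1 ≤ r := by exact_mod_cast (by omega : 2 * j + 1 ≤ r)
          have e : 2 * ((j : ℝ) + ((0 : ℕ) : ℝ)) - 1 +
              1 / (r : ℝ) * (4 * (j : ℝ) ^ 2 - 2 * (j : ℝ)) -
              1 / ((r : ℝ) + 3) * (4 * ((0 : ℕ) : ℝ) ^ 2) +
              1 / ((r : ℝ) + 3) * (1 - 2) * (2 * ((j : ℝ) + ((0 : ℕ) : ℝ)) - 1) ^ 2 -
              (1 / (r : ℝ) - 1 / ((r : ℝ) + 3) / 2) * (2 * (j : ℝ)) *
                (2 * (j : ℝ) - 2 + r) =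
              (-(r : ℝ) ^ 2 - 4 * r + 4 * j * r + 6 * j - 2 * j ^ 2 * r + j * r ^ 2) /
                ((r : ℝ) * ((r : ℝ) + 3)) := by
            push_cast
            field_simp
            ring
          rw [e]
          apply div_nonneg _ (by positivity)
          nlinarith [mul_nonneg (sub_nonneg.2 hj2r) (sub_nonneg.2 h5),
            mul_nonneg hrp.le (mul_nonneg (sub_nonneg.2 hj2r) (sub_nonneg.2 h5)), sq_nonneg ((r : ℝ) - 2)]
        · rcases Nat.lt_or_ge (2 * (j - 1)) r with hjr2 | hjr2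
          · -- `j = r + 1`
            rw [if_neg (not_lt.2 hjr), if_pos hjr2]
            have h5 : (r : ℝ) ≤ 2 * (j : ℝ) := by exact_mod_cast hjr
            have e : 2 * ((j : ℝ) + ((0 : ℕ) : ℝ)) - 1 +
                1 / (r : ℝ) * (4 * (j : ℝ) ^ 2 - 2 * (j : ℝ)) -
                1 / ((r : ℝ) + 3) * (4 * ((0 : ℕ) : ℝ) ^ 2) +
                1 / ((r : ℝ) + 3) * (1 - 1) * (2 * ((j : ℝ) + ((0 : ℕ) : ℝ)) - 1) ^ 2 -
                (1 / (r : ℝ) - 1 / ((r : ℝ) + 3) / 2) * (2 * (j : ℝ)) *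
                  (2 * (j : ℝ) - 2 + r) =
                (2 * (j : ℝ) - r) / r + 1 / ((r : ℝ) + 3) * j * (2 * (j : ℝ) - 2 + r) := by
              push_cast
              field_simp
              ring
            rw [e]
            apply add_nonneg
            · apply div_nonneg _ hrp.le
              linarith
            · apply mul_nonneg (by positivity)
              linarith
          · -- `j ≥ r + 2`
            rw [if_neg (not_lt.2 hjr), if_neg (not_lt.2 hjr2)]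
            have h5 : (r : ℝ) ≤ 2 * (j : ℝ) := by exact_mod_cast hjr
            have e : 2 * ((j : ℝ) + ((0 : ℕ) : ℝ)) - 1 +
                1 / (r : ℝ) * (4 * (j : ℝ) ^ 2 - 2 * (j : ℝ)) -
                1 / ((r : ℝ) + 3) * (4 * ((0 : ℕ) : ℝ) ^ 2) +
                1 / ((r : ℝ) + 3) * (1 - 1) * (2 * ((j : ℝ) + ((0 : ℕ) : ℝ)) - 1) ^ 2 -
                1 / (r : ℝ) * (2 * (j : ℝ)) * (2 * (j : ℝ) - 2 + r) =
                (2 * (j : ℝ) - r) / r := by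
              push_cast
              field_simp
              ring
            rw [e]
            apply div_nonneg _ hrp.le
            linarith
    · have hl1 : (1 : ℝ) ≤ l := by exact_mod_cast Nat.one_le_iff_ne_zero.2 hl
      simp only [if_neg hl]
      have h6 : (0 : ℝ) < 2 * ((j : ℝ) + l) - 1 := by linarith
      rcases Nat.eq_zero_or_pos j with hj | hj
      · subst hj
        have h7 : (0 : ℝ) < 2 * (l : ℝ) - 1 := by linarith
        have e : 2 * (((0 : ℕ) : ℝ) + l) - 1 +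
            1 / (r : ℝ) * (4 * ((0 : ℕ) : ℝ) ^ 2 - 2 * ((0 : ℕ) : ℝ)) -
            1 / ((r : ℝ) + 3) * (4 * (l : ℝ) ^ 2) +
            1 / ((r : ℝ) + 3) * (1 - (2 * ((0 : ℕ) : ℝ) + r) / (2 * (((0 : ℕ) : ℝ) + l) - 1)) *
              (2 * (((0 : ℕ) : ℝ) + l) - 1) ^ 2 -
            (1 / (r : ℝ) - 1 / ((r : ℝ) + 3) +
              1 / ((r : ℝ) + 3) * (2 * (((0 - 1 : ℕ) : ℝ) + l) - 1) /
                (2 * ((0 - 1 : ℕ) : ℝ) + r)) * (2 * ((0 : ℕ) : ℝ)) *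
              (2 * ((0 : ℕ) : ℝ) - 2 + r) = 2 * ((l : ℝ) - 1) / ((r : ℝ) + 3) := by
          push_cast
          simp only [mul_zero, zero_mul, zero_add, sub_zero]
          field_simp
          ring
        rw [e]
        apply div_nonneg _ (by positivity)
        linarith
      · have hjm : ((j - 1 : ℕ) : ℝ) = (j : ℝ) - 1 := by
          push_cast [Nat.cast_sub hj]
          ring
        have hj1r : (1 : ℝ) ≤ j := by exact_mod_cast hj
        rw [hjm]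
        have h8 : (0 : ℝ) < 2 * ((j : ℝ) - 1) + r := by linarith
        have e : 2 * ((j : ℝ) + l) - 1 + 1 / (r : ℝ) * (4 * (j : ℝ) ^ 2 - 2 * (j : ℝ)) -
            1 / ((r : ℝ) + 3) * (4 * (l : ℝ) ^ 2) +
            1 / ((r : ℝ) + 3) * (1 - (2 * (j : ℝ) + r) / (2 * ((j : ℝ) + l) - 1)) *
              (2 * ((j : ℝ) + l) - 1) ^ 2 -
            (1 / (r : ℝ) - 1 / ((r : ℝ) + 3) +
              1 / ((r : ℝ) + 3) * (2 * ((j : ℝ) - 1 + l) - 1) / (2 * ((j : ℝ) - 1) + r)) *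
              (2 * (j : ℝ)) * (2 * (j : ℝ) - 2 + r) =
            2 * (j : ℝ) / r + 2 * ((l : ℝ) - 1) / ((r : ℝ) + 3) := by
          have h9 : 2 * (j : ℝ) - 2 + r = 2 * ((j : ℝ) - 1) + r := by ring
          rw [h9]
          field_simp
          ring
        rw [e]
        apply add_nonneg
        · positivity
        · apply div_nonneg _ (by positivity)
          linarith

theorem neu_P2 (Z : Finset (Fin B)) {r m : ℕ} (hm : Z.card = m) (hr : r + 2 * m = 2 * B + 1)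
    {f0 f1 f2 : ℝ} (h : IsP2 r f0 f1 f2) (M : ℕ) (F : Mo B → ℂ)
    (hF : ∀ n, F n = ∑ k, F (upo n k)) (hz : F 0 = 0) :
    0 ≤ Qf (VP2 Z f0 f1 f2) (VP1 Z f1 f2) (fun _ _ => 0) M F (fun n => ¬ ∃ k, eb n k ≠ 0) := by
  obtain ⟨hf1, hf2, hf0⟩ := h
  have hr1 : 1 ≤ r := by omega
  have hr0 : (1 : ℝ) ≤ r := by exact_mod_cast hr1
  have hrp : (0 : ℝ) < r := by linarith
  have e2 : f2 = f1 * (1 + 1 / (r : ℝ)) := by
    field_simp
    linarith
  have e0 : f0 = f1 * (1 - 1 / ((r : ℝ) + 3)) := by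
    field_simp
    linarith
  rw [e2, e0]
  exact nbb_num M F hF hz Z r (by rw [hm]; exact hr) f1 hf1

end Pool.Agent.H35.ODD
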