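import Mathlib
import Pool.Agent.H35.ODD.OAbs
import Pool.Agent.H35.ODD.OVer

set_option autoImplicit false

/-!
# ONeC: the charge-free modes at a vertex, general scheme

`abs_nonneg'` with `T n = TT0 f1 0 Am Bp j l/(N-1)²` (`N = j + l`, `j = ja Z n`, `l = lz Z n`;
`N - 1 = 2q + 1` on `levo B (2q+2)`, `ja_add_lz`), `Dt = Dv Z f0 f2 0 Am Bp 0`, `Du = Dw Z f0 f2 0 Am Bp 0`
(`Dw_upo`); `ver_I` (`eb = 0`: the cross cost is `0`; `cn` with `X2 = 0`), `ver_II`, `ver_0`.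
-/

open Pool.Agent.H89.CZ

noncomputable section

namespace Pool.Agent.H35.ODD

variable {B : ℕ}

theorem neu_gen (Z : Finset (Fin B)) {r m : ℕ} (hm : Z.card = m) (hr : r + 2 * m = 2 * B + 1)
    {f0 f1 f2 Am Bp : ℝ} (hAm : 0 ≤ Am) (hBp : 0 ≤ Bp) (h2 : f2 = f1 - Am) (h0 : f0 = f1 - Bp)
    (hQ : ∀ j l : ℕ, 2 ≤ j + l →
      0 ≤ TT0 f1 0 Am Bp j l ∧ ∀ x y : ℝ, 0 ≤ QQf r m f1 0 Am Bp 0 j l x y)
    (M : ℕ) (F : Mo B → ℂ) (hF : ∀ n, F n = ∑ k, F (upo n k)) (hz : F 0 = 0) :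
    0 ≤ Qf (VP2 Z f0 f1 f2) (VP1 Z f1 f2) (fun _ _ => 0) M F (fun n => ¬ ∃ k, eb n k ≠ 0) := by
  have h2' : f2 = f1 + 0 - Am := by rw [h2]; ring
  have h0' : f0 = f1 - Bp + 0 := by rw [h0]; ring
  have hjl : ∀ (q : ℕ) (n : Mo B), n ∈ levo B (2 * q + 2) → ja Z n + lz Z n = 2 * q + 2 :=
    fun q n hn => ja_add_lz Z hn
  refine abs_nonneg' (VP2 Z f0 f1 f2) (VP1 Z f1 f2) (fun _ _ => 0) M F hF _ ?_
    (fun n => TT0 f1 0 Am Bp (ja Z n) (lz Z n) / ((ja Z n : ℝ) + lz Z n - 1) ^ 2)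
    (Dv Z f0 f2 0 Am Bp 0) (Dw Z f0 f2 0 Am Bp 0) ?_ ?_ ?_ ?_ ?_
  · intro n k
    simp only [eb_upo]
  · intro q n k _ _
    exact Dw_upo Z f0 f2 0 Am Bp 0 n k
  · intro q n hn _
    have h := hjl q n hn
    exact div_nonneg (hQ (ja Z n) (lz Z n) (by omega)).1 (sq_nonneg _)
  · intro q n hn hp
    have he : ∀ k, eb n k = 0 := by
      intro k
      by_contra hk
      exact hp ⟨k, hk⟩
    have h := ver_I Z (le_refl (0 : ℝ)) hAm hBp (le_refl (0 : ℝ)) h2' h0' n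
    have hN : ((ja Z n : ℝ) + lz Z n - 1) = 2 * (q : ℝ) + 1 := by
      have h3 : ((ja Z n : ℝ) + lz Z n) = 2 * (q : ℝ) + 2 := by exact_mod_cast hjl q n hn
      rw [h3]
      ring
    have hq : (2 * (q : ℝ) + 1) ^ 2 ≠ 0 := by positivity
    simp only [hN]
    rw [mul_div_cancel₀ _ hq]
    unfold cn
    simp only [he] at h ⊢
    simp only [zero_mul, mul_zero, Finset.sum_const_zero, add_zero, ne_eq, OfNat.ofNat_ne_zero,
      not_false_eq_true, zero_pow, zero_div] at h ⊢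
    exact h
  · intro q n hn _ v
    have h := hjl q n hn
    exact ver_II Z hm hr (le_refl (0 : ℝ)) hAm hBp (le_refl (0 : ℝ)) h2' h0' n (by omega)
      (hQ (ja Z n) (lz Z n) (by omega)).2 v
  · intro _
    exact ⟨hz, fun v hv => ver_0 Z hAm hBp h2 h0 v hv⟩

end Pool.Agent.H35.ODD
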