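import Mathlib
import Pool.Agent.H35.ODD.ONeA
import Pool.Agent.H35.ODD.ONeB
import Pool.Agent.H35.ODD.ONeC
import Pool.Agent.H35.ODD.OEz
import Pool.Agent.H89.ODD.QLem

set_option autoImplicit false

/-!
# ONeu: the charge-free modes

`neu_vert`: `Good0` splits `(f0, f1, f2)` in an `IsP1`, an `IsP2` (or zero) and an `IsMP` part; `VP2`, `VP1`
are additive in `(f0, f1, f2)` (`Qf_add`), zero part: `Qf = 0`; `neu_P1`, `neu_P2`, `neu_gen` with `Am = f1 - f2`,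
`Bp = f1 - f0` and `qpos_mp` (file `QPos`).
`neutral_nonneg`: `Qf_neutral`, `AP2 = EZ (p2 φ Z)`, `Qf_EZ`, for each `Z` with `PZ ≠ 0`: `hok Z`: `m = |Z| ≥ 1`:
`p2_vert`, `p1_vert`, `Qf_congr`, `neu_vert`; `m = 0`: `p2 = φ 0 = VP2 Z φ0 φ0 φ0` and `neu_gen` with
`Am = Bp = 0` (`QQf = φ 0 (x+y)²/(N-1)`).
-/

open Pool.Agent.H89.CZ

noncomputable section

namespace Pool.Agent.H35.ODD

variable {B : ℕ}

private theorem VP2_add (Z : Finset (Fin B)) (a0 a1 a2 b0 b1 b2 : ℝ) (j k : Bk B) :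
    VP2 Z (a0 + b0) (a1 + b1) (a2 + b2) j k = VP2 Z a0 a1 a2 j k + VP2 Z b0 b1 b2 j k := by
  unfold VP2
  split_ifs <;> rfl

private theorem VP1_add (Z : Finset (Fin B)) (a1 a2 b1 b2 : ℝ) (k : Fin B) :
    VP1 Z (a1 + b1) (a2 + b2) k = VP1 Z a1 a2 k + VP1 Z b1 b2 k := by
  unfold VP1
  split_ifs <;> rfl

private theorem QfV_add (Z : Finset (Fin B)) (a0 a1 a2 b0 b1 b2 : ℝ) (M : ℕ) (F : Mo B → ℂ)
    (p : Mo B → Prop) [DecidablePred p] :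
    Qf (VP2 Z (a0 + b0) (a1 + b1) (a2 + b2)) (VP1 Z (a1 + b1) (a2 + b2)) (fun _ _ => 0) M F p =
      Qf (VP2 Z a0 a1 a2) (VP1 Z a1 a2) (fun _ _ => 0) M F p +
        Qf (VP2 Z b0 b1 b2) (VP1 Z b1 b2) (fun _ _ => 0) M F p := by
  rw [← Qf_add]
  exact Qf_congr (fun j k _ => VP2_add Z a0 a1 a2 b0 b1 b2 j k)
    (fun k => VP1_add Z a1 a2 b1 b2 k) (fun j k _ => by simp) M F p

private theorem QfV_zero (Z : Finset (Fin B)) (M : ℕ) (F : Mo B → ℂ)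
    (p : Mo B → Prop) [DecidablePred p] :
    Qf (VP2 Z 0 0 0) (VP1 Z 0 0) (fun _ _ => 0) M F p = 0 := by
  have h := QfV_add Z 0 0 0 0 0 0 M F p
  simp only [add_zero] at h
  linarith

theorem neu_vert (Z : Finset (Fin B)) {r m : ℕ} (hm : Z.card = m) (hm1 : 1 ≤ m)
    (hr : r + 2 * m = 2 * B + 1) {f0 f1 f2 : ℝ} (h : Good0 r m f0 f1 f2) (M : ℕ) (F : Mo B → ℂ)
    (hF : ∀ n, F n = ∑ k, F (upo n k)) (hz : F 0 = 0) :
    0 ≤ Qf (VP2 Z f0 f1 f2) (VP1 Z f1 f2) (fun _ _ => 0) M F (fun n => ¬ ∃ k, eb n k ≠ 0) := by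
  have hmB : m ≤ B := by
    rw [← hm]
    exact (Finset.card_le_univ Z).trans (le_of_eq (Fintype.card_fin B))
  have hr1 : 1 ≤ r := by omega
  obtain ⟨a0, a1, a2, b0, b1, b2, d0, d1, d2, ha, hb, hd, rfl, rfl, rfl⟩ := h
  rw [QfV_add, QfV_add]
  have h1 := neu_P1 Z hm hm1 ha M F hF hz
  have h2 : 0 ≤ Qf (VP2 Z b0 b1 b2) (VP1 Z b1 b2) (fun _ _ => 0) M F
      (fun n => ¬ ∃ k, eb n k ≠ 0) := by
    rcases hb with hb | ⟨rfl, rfl, rfl⟩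
    · exact neu_P2 Z hm hr hb M F hF hz
    · exact (QfV_zero Z M F _).ge
  have h3 : 0 ≤ Qf (VP2 Z d0 d1 d2) (VP1 Z d1 d2) (fun _ _ => 0) M F
      (fun n => ¬ ∃ k, eb n k ≠ 0) := by
    obtain ⟨hd1, hd2, hd3, hd4, hd5⟩ := hd
    exact neu_gen Z hm hr (Am := d1 - d2) (Bp := d1 - d0) (by linarith) (by linarith)
      (by ring) (by ring)
      (Pool.Agent.H89.ODD.qpos_mp hr1 hm1 hd1 (by linarith) (by linarith) (by linarith)
        (by linarith)) M F hF hz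
  linarith

private theorem neu_empty (Z : Finset (Fin B)) (hZ : Z.card = 0) {f : ℝ} (hf : 0 ≤ f) (M : ℕ)
    (F : Mo B → ℂ) (hF : ∀ n, F n = ∑ k, F (upo n k)) (hz : F 0 = 0) :
    0 ≤ Qf (VP2 Z f f f) (VP1 Z f f) (fun _ _ => 0) M F (fun n => ¬ ∃ k, eb n k ≠ 0) := by
  refine neu_gen (r := 2 * B + 1) (m := 0) (Am := 0) (Bp := 0) Z hZ (by ring) le_rfl le_rfl
    (by ring) (by ring) (fun j l hjl => ?_) M F hF hz
  have hN : (2 : ℝ) ≤ (j : ℝ) + l := by exact_mod_cast hjl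
  constructor
  · unfold TT0
    have h1 : 0 ≤ f * ((j : ℝ) + l) * ((j : ℝ) + l - 1) :=
      mul_nonneg (mul_nonneg hf (by linarith)) (by linarith)
    linarith
  · intro x y
    have e : QQf (2 * B + 1) 0 f 0 0 0 0 j l x y =
        f * ((j : ℝ) + l - 1) / ((j : ℝ) + l - 1) ^ 2 * (x + y) ^ 2 := by
      unfold QQf
      ring
    rw [e]
    exact mul_nonneg (div_nonneg (mul_nonneg hf (by linarith)) (sq_nonneg _)) (sq_nonneg _)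

private theorem neu_at (Z : Finset (Fin B)) (φ : ℕ → ℝ) (h : OkAt φ B Z.card) (M : ℕ)
    (F : Mo B → ℂ) (hF : ∀ n, F n = ∑ k, F (upo n k)) (hz : F 0 = 0) :
    0 ≤ Qf (p2 φ Z) (p1 φ Z) (fun _ _ => 0) M F (fun n => ¬ ∃ k, eb n k ≠ 0) := by
  have hmB : Z.card ≤ B := (Finset.card_le_univ Z).trans (le_of_eq (Fintype.card_fin B))
  rcases h with ⟨h0, hφ⟩ | ⟨hm1, f0, f1, f2, ht, e1, e2, e0⟩
  · have hZ : Z = ∅ := Finset.card_eq_zero.1 h0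
    have hr : ∀ k : Bk B, rmv (∅ : Finset (Fin B)) k = ∅ := by
      intro k
      cases k <;> simp [rmv]
    rw [Qf_congr (P2' := VP2 Z (φ 0) (φ 0) (φ 0)) (P1' := VP1 Z (φ 0) (φ 0))
      (X2' := fun _ _ => 0) (fun j k _ => ?_) (fun k => ?_) (fun j k _ => rfl) M F]
    · exact neu_empty Z h0 hφ M F hF hz
    · subst hZ
      simp [p2, VP2, hr]
    · subst hZ
      simp [p1, VP1]
  · rw [Qf_congr (P2' := VP2 Z f0 f1 f2) (P1' := VP1 Z f1 f2)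
      (X2' := fun _ _ => 0) (fun j k hjk => p2_vert Z φ (fun _ => e1) e2 e0 hjk)
      (fun k => p1_vert Z φ (fun _ => e1) e2 k) (fun j k _ => rfl) M F]
    exact neu_vert Z rfl hm1 (by omega) ht.2 M F hF hz

theorem neutral_nonneg {c : Fin B → ℝ} (hc : ∀ k, 0 ≤ c k ∧ c k ≤ 1) (φ : ℕ → ℝ)
    (hok : ∀ Z, PZ (fun k => c k ^ 2) Z ≠ 0 → OkAt φ B Z.card) (M : ℕ) (F : Mo B → ℂ)
    (hF : ∀ n, F n = ∑ k, F (upo n k)) (hz : F 0 = 0) :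
    0 ≤ Qf (AP2 c φ) (AP1 c φ) (AX2 c φ) M F (fun n => ¬ ∃ k, eb n k ≠ 0) := by
  rw [Qf_neutral]
  have e : Qf (AP2 c φ) (AP1 c φ) (fun _ _ => 0) M F (fun n => ¬ ∃ k, eb n k ≠ 0) =
      EZ (fun k => c k ^ 2) (fun Z => Qf (p2 φ Z) (p1 φ Z) (fun _ _ => 0) M F
        (fun n => ¬ ∃ k, eb n k ≠ 0)) :=
    Qf_EZ (fun k => c k ^ 2) (p2 φ) (p1 φ) M F (fun n => ¬ ∃ k, eb n k ≠ 0)
  rw [e]
  unfold EZ
  refine Finset.sum_nonneg fun Z _ => ?_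
  by_cases hZ : PZ (fun k => c k ^ 2) Z = 0
  · rw [hZ, zero_mul]
  · refine mul_nonneg (PZ_nonneg (fun k => ⟨sq_nonneg _, ?_⟩) Z) (neu_at Z φ (hok Z hZ) M F hF hz)
    exact pow_le_one₀ (hc k).1 (hc k).2

end Pool.Agent.H35.ODD
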