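import Mathlib
import Pool.Agent.H35.ODD.OExp
import Pool.Agent.H35.ODD.OCha
import Pool.Agent.H35.ODD.ONeu
import Pool.Agent.H35.ISO.Cor

set_option autoImplicit false

/-!
# OCor: the kernel inequality (model: `H35/ISO/Cor.lean`)

`0 ≤ Q(M) = -(∑∑ λ_j λ_k num(u_j,u_k) tr M (t_jk))` by `expando`, `Qf_split`, `charged_nonneg`,
`neutral_nonneg` (`FFo_up`, `FFo_zero`).  `M → ∞`: if `|t_jk| < 1`, `tr M (t) → 1/√(1-t²)`
(`hasSum_inv_sqrt`, as in `ISO/Cor`); if `|t_jk| = 1` then `u_k = ± u_j` (unit vectors; equality in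
Cauchy-Schwarz) and `num = 0` (`im2 u u = 0`, `rho_j rho_k - re2_j re2_k = 0`), the term is `0` for every
`M`, and `x/0 = 0`.  `|t_jk| ≤ 1` always.
-/

open MeasureTheory Pool.Agent.H89.CZ
open Pool.Agent.H35.ISO (tr)
open scoped ComplexConjugate

noncomputable section

namespace Pool.Agent.H35.ODD

variable {B : ℕ}

/-! ### The truncated form -/

theorem OCor_trunc {c : Fin B → ℝ} (hc : ∀ k, 0 ≤ c k ∧ c k ≤ 1) (φ : ℕ → ℝ)
    (hok : ∀ Z, PZ (fun k => c k ^ 2) Z ≠ 0 → OkAt φ B Z.card) {N : ℕ} (u : Fin N → Vc B)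
    (hu : ∀ j, ∑ k, rho (u j) k = 1) (lam : Fin N → ℝ) (hl : ∑ j, lam j = 0) (M : ℕ) :
    ∑ j, ∑ k, lam j * lam k *
      (num (AP2 c φ) (AP1 c φ) (AX2 c φ) (u j) (u k) * tr M (tto (u j) (u k))) ≤ 0 := by
  have h := expando (AP2 c φ) (AP1 c φ) (AX2 c φ) M u lam
  have hF := FFo_up u hu lam
  have h0 : FFo u lam 0 = 0 := by
    rw [FFo_zero, hl]
    simp
  have h1 := charged_nonneg hc φ hok M (FFo u lam) hF
  have h2 := neutral_nonneg hc φ hok M (FFo u lam) hF h0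
  have h3 := Qf_split (AP2 c φ) (AP1 c φ) (AX2 c φ) M (FFo u lam)
  linarith

/-! ### Unit vectors with `|t| ≥ 1` -/

theorem OCor_eq_of_le {a b : Vc B} (ha : ∑ k, rho a k = 1) (hb : ∑ k, rho b k = 1)
    (h : 1 ≤ tto a b) : b = a := by
  have ha' : a.2 ^ 2 + ∑ k, ‖a.1 k‖ ^ 2 = 1 := by
    rw [← ha, Fintype.sum_option]
    rfl
  have hb' : b.2 ^ 2 + ∑ k, ‖b.1 k‖ ^ 2 = 1 := by
    rw [← hb, Fintype.sum_option]
    rfl
  have ht : tto a b = a.2 * b.2 + ∑ k, (a.1 k * conj (b.1 k)).re := by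
    unfold tto
    rw [Fintype.sum_option]
    rfl
  have e : (b.2 - a.2) ^ 2 + ∑ k, ‖b.1 k - a.1 k‖ ^ 2 = 2 - 2 * tto a b := by
    have h1 : ∀ k, ‖b.1 k - a.1 k‖ ^ 2 =
        ‖b.1 k‖ ^ 2 + ‖a.1 k‖ ^ 2 - 2 * (a.1 k * conj (b.1 k)).re := by
      intro k
      rw [Complex.sq_norm, Complex.sq_norm, Complex.sq_norm, Complex.normSq_sub]
      have : (b.1 k * conj (a.1 k)).re = (a.1 k * conj (b.1 k)).re := by
        simp [Complex.mul_re]
        ring
      rw [this]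
    rw [Finset.sum_congr rfl (fun k _ => h1 k), Finset.sum_sub_distrib,
      Finset.sum_add_distrib, ← Finset.mul_sum, ht]
    linear_combination ha' + hb'
  have hn : 0 ≤ ∑ k, ‖b.1 k - a.1 k‖ ^ 2 := Finset.sum_nonneg (fun k _ => by positivity)
  have h0 : ∑ k, ‖b.1 k - a.1 k‖ ^ 2 = 0 := by
    have := sq_nonneg (b.2 - a.2)
    linarith
  have h2 : (b.2 - a.2) ^ 2 = 0 := by
    have := sq_nonneg (b.2 - a.2)
    linarith
  refine Prod.ext ?_ ?_
  · funext k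
    have h1 := (Finset.sum_eq_zero_iff_of_nonneg (fun k _ => by positivity)).1 h0 k
      (Finset.mem_univ k)
    have h3 : ‖b.1 k - a.1 k‖ = 0 := by
      simpa using h1
    exact sub_eq_zero.1 (norm_eq_zero.1 h3)
  · exact sub_eq_zero.1 (pow_eq_zero_iff (two_ne_zero)|>.1 h2)

theorem OCor_rho_neg (b : Vc B) (k : Bk B) : rho (-b) k = rho b k := by
  cases k <;> simp [rho]

theorem OCor_re2_neg (a b : Vc B) (k : Bk B) : re2 a (-b) k = -re2 a b k := by
  cases k <;> simp [re2]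

theorem OCor_im2_neg (a b : Vc B) (k : Fin B) : im2 a (-b) k = -im2 a b k := by
  simp [im2]

theorem OCor_tto_neg (a b : Vc B) : tto a (-b) = -tto a b := by
  unfold tto
  simp only [OCor_re2_neg, Finset.sum_neg_distrib]

theorem OCor_num_neg (P2 : Bk B → Bk B → ℝ) (P1 : Fin B → ℝ) (X2 : Fin B → Fin B → ℝ)
    (a b : Vc B) : num P2 P1 X2 a (-b) = num P2 P1 X2 a b := by
  unfold num
  simp only [OCor_re2_neg, OCor_im2_neg, OCor_rho_neg, neg_sq, neg_mul_neg]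

theorem OCor_re2_self (a : Vc B) (k : Bk B) : re2 a a k = rho a k := by
  cases k with
  | none => simp only [re2, rho]; ring
  | some k => simp only [re2, rho]; rw [Complex.mul_conj, Complex.sq_norm, Complex.ofReal_re]

theorem OCor_im2_self (a : Vc B) (k : Fin B) : im2 a a k = 0 := by
  unfold im2
  rw [Complex.mul_conj, Complex.ofReal_im]

theorem OCor_num_self (P2 : Bk B → Bk B → ℝ) (P1 : Fin B → ℝ) (X2 : Fin B → Fin B → ℝ)
    (a : Vc B) : num P2 P1 X2 a a = 0 := by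
  unfold num
  simp only [OCor_re2_self, OCor_im2_self, sub_self, mul_zero, Finset.sum_const_zero, ne_eq,
    OfNat.ofNat_ne_zero, not_false_eq_true, zero_pow, add_zero]

theorem OCor_num_zero (P2 : Bk B → Bk B → ℝ) (P1 : Fin B → ℝ) (X2 : Fin B → Fin B → ℝ)
    {a b : Vc B} (ha : ∑ k, rho a k = 1) (hb : ∑ k, rho b k = 1) (h : 1 ≤ |tto a b|) :
    num P2 P1 X2 a b = 0 := by
  rcases le_abs.1 h with h | h
  · rw [OCor_eq_of_le ha hb h]
    exact OCor_num_self _ _ _ a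
  · have hb' : ∑ k, rho (-b) k = 1 := by
      simpa only [OCor_rho_neg] using hb
    have := OCor_eq_of_le ha hb' (by rw [OCor_tto_neg]; exact h)
    rw [← OCor_num_neg, this]
    exact OCor_num_self _ _ _ a

/-! ### The limit -/

theorem OCor_lim (P2 : Bk B → Bk B → ℝ) (P1 : Fin B → ℝ) (X2 : Fin B → Fin B → ℝ)
    {a b : Vc B} (ha : ∑ k, rho a k = 1) (hb : ∑ k, rho b k = 1) :
    Filter.Tendsto (fun M => num P2 P1 X2 a b * tr M (tto a b)) Filter.atTop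
      (nhds (num P2 P1 X2 a b / √(1 - tto a b ^ 2))) := by
  by_cases h : |tto a b| < 1
  · have h1 := (hasSum_inv_sqrt h).tendsto_sum_nat
    have h2 := (h1.comp (Filter.tendsto_add_atTop_nat 1)).const_mul (num P2 P1 X2 a b)
    rw [mul_one_div] at h2
    exact h2
  · rw [OCor_num_zero P2 P1 X2 ha hb (not_lt.1 h)]
    simp

theorem coro {c : Fin B → ℝ} (hc : ∀ k, 0 ≤ c k ∧ c k ≤ 1) (φ : ℕ → ℝ)
    (hok : ∀ Z, PZ (fun k => c k ^ 2) Z ≠ 0 → OkAt φ B Z.card) {N : ℕ} (u : Fin N → Vc B)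
    (hu : ∀ j, ∑ k, rho (u j) k = 1) (lam : Fin N → ℝ) (hl : ∑ j, lam j = 0) :
    ∑ j, ∑ k, lam j * lam k *
      (num (AP2 c φ) (AP1 c φ) (AX2 c φ) (u j) (u k) / √(1 - tto (u j) (u k) ^ 2)) ≤ 0 := by
  have h : Filter.Tendsto
      (fun M => ∑ j, ∑ k, lam j * lam k *
        (num (AP2 c φ) (AP1 c φ) (AX2 c φ) (u j) (u k) * tr M (tto (u j) (u k))))
      Filter.atTop
      (nhds (∑ j, ∑ k, lam j * lam k *
        (num (AP2 c φ) (AP1 c φ) (AX2 c φ) (u j) (u k) / √(1 - tto (u j) (u k) ^ 2)))) :=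
    tendsto_finsetSum _ (fun j _ => tendsto_finsetSum _ (fun k _ =>
      (OCor_lim _ _ _ (hu j) (hu k)).const_mul (lam j * lam k)))
  exact le_of_tendsto' h (fun M => OCor_trunc hc φ hok u hu lam hl M)

end Pool.Agent.H35.ODD
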