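import Mathlib
import Pool.Agent.H35.ODD.Defs
import Pool.Agent.H35.ISO.Lnk
import Pool.Agent.H35.ISO.Pol
import Pool.Agent.H35.NI.Lin
import Pool.Agent.H35.NI.NFa
import Pool.Agent.H35.NI.NF
import Pool.Agent.H35.NI.Dua
import Pool.Agent.H89.ODD.LnkG

set_option autoImplicit false

/-!
# OLnk: the link of an orthonormal family `W` of odd size

From `link_gen` (`H89/ODD/LnkG.lean`, both parities).
-/

open MeasureTheory Pool.Agent.H61.UProj Pool.Agent.H89.CZ Pool.Agent.H35.NI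
open scoped ComplexConjugate

noncomputable section

namespace Pool.Agent.H35.ODD

variable {n : ℕ}

theorem link_odd {m : ℕ} (hodd : Odd m) (W : Fin m → Cn n) (hW : Orthonormal ℝ W) :
    ∃ (B : ℕ) (c : Fin B → ℝ) (ζ : Cn n →ₗ[ℝ] Vc B), m + (2 * B + 1) = 2 * n ∧
      (∀ k, 0 ≤ c k ∧ c k ≤ 1) ∧ n ≤ m + (Finset.univ.filter (fun k => c k = 1)).card ∧
      (∀ u v : Cn n, (∀ a, (inner ℝ (W a) u : ℝ) = 0) → (∀ a, (inner ℝ (W a) v : ℝ) = 0) →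
        tto (ζ u) (ζ v) = inner ℝ u v) ∧
      ∀ u v : Cn n, (∀ a, (inner ℝ (W a) u : ℝ) = 0) → (∀ a, (inner ℝ (W a) v : ℝ) = 0) →
        ∀ s : ℝ, (1 + s ^ 2) ^ n *
            dz (Fin.cons u (Fin.cons v W : Fin (m + 1) → Cn n) : Fin (m + 2) → Cn n) s =
          (1 + s ^ 2) ^ (m + 2) * num (Q2 c (s ^ 2)) (Q1 c (s ^ 2)) (QX c (s ^ 2)) (ζ u) (ζ v) := by
  obtain ⟨B, c, ζ, h1, h2⟩ := Pool.Agent.H89.ODD.link_gen W hW
  refine ⟨B, c, ζ, ?_, h2⟩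
  rcases h1 with h | ⟨h, -⟩
  · exact h
  · obtain ⟨a, rfl⟩ := hodd
    omega

end Pool.Agent.H35.ODD
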