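import Mathlib
import Pool.Agent.H35.ODD.OBri
import Pool.Agent.H35.ODD.OFun
import Pool.Agent.H89.ODD.Num

set_option autoImplicit false

/-!
# OOk: the numbers at the vertices of the link

`i = m + 2`, `z = |Z|`, `2B + 1 = 2n - m`.  Case `i ≤ n`: `gg_dec` for `e` (`lam_q ≥ 0`), `k = z + i - n ≥ 2`,
`2k ≤ i + 1`, `2B + 1 - 2z = i + 2 - 2k`: `φ (z-1) = ∑ lam_q Fq n i q (k-1)` etc. (`Fq`, `gg_symm` not needed:
`gg (vf n q) (vf n k) = Fq n i q k`), `num_tri fh` with `m := z` (`z + i = k + n`) for each `q`, sum with weights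
(`Tri.add`, `Tri.smul`, helper89's `Num.lean`).  `z < B ↔ 2k ≤ i`.
Case `i > n`: `i' = 2n - i` odd, `3 ≤ i' ≤ n`, complement `e'` (`exists_cpl`), `φ x = gg e' (vf n x)` (`gg_dual`,
`x < B → 2x ≤ i'`), `gg_dec` for `e'`; `z ≥ 2`: `k = z`, `2B + 1 - 2z = i' + 2 - 2k`, `num_tri` (`z + i' ≤ k + n`);
`z = 1`: `num_pair` (`2B + 1 - 2 = i'`, `B ≥ 2`); `z = 0`: `φ 0 = gg … ≥ 0`.
-/

open MeasureTheory Pool.Agent.H61.UProj Pool.Agent.H89.CZ Pool.Agent.H35.NI Pool.Agent.H89.EN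

noncomputable section

namespace Pool.Agent.H35.ODD

private theorem tri_sum {r m : ℕ} (S : ℕ) (lam g0 g1 g2 : ℕ → ℝ) (hl : ∀ q, 0 ≤ lam q)
    (h : ∀ q, q ≤ S → Tri r m (g0 q) (g1 q) (g2 q)) :
    Tri r m (∑ q ∈ Finset.range (S + 1), lam q * g0 q)
      (∑ q ∈ Finset.range (S + 1), lam q * g1 q) (∑ q ∈ Finset.range (S + 1), lam q * g2 q) := by
  induction S with
  | zero =>
    rw [Finset.sum_range_one, Finset.sum_range_one, Finset.sum_range_one]
    exact Pool.Agent.H89.ODD.Tri.smul (hl 0) (h 0 le_rfl)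
  | succ S ih =>
    rw [Finset.sum_range_succ, Finset.sum_range_succ _ (S + 1), Finset.sum_range_succ _ (S + 1)]
    exact Pool.Agent.H89.ODD.Tri.add (ih fun q hq => h q (by omega))
      (Pool.Agent.H89.ODD.Tri.smul (hl (S + 1)) (h (S + 1) le_rfl))

/-- Sum of `num_tri`. -/
private theorem main_tri {n i k z : ℕ} (hodd : Odd i) (hin : i ≤ n) (hk : 2 ≤ k)
    (hk' : 2 * k ≤ i + 1) (hm : 1 ≤ z) (hm' : z + i ≤ k + n) (lam : ℕ → ℝ)
    (hl : ∀ q, 0 ≤ lam q) :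
    ∃ f2 : ℝ, (2 * k ≤ i → f2 = ∑ q ∈ Finset.range (i / 2 + 1), lam q * Fq n i q k) ∧
      Tri (i + 2 - 2 * k) z (∑ q ∈ Finset.range (i / 2 + 1), lam q * Fq n i q (k - 2))
        (∑ q ∈ Finset.range (i / 2 + 1), lam q * Fq n i q (k - 1)) f2 := by
  have h1 : ∀ q, ∃ f2, q ≤ i / 2 → (2 * k ≤ i → f2 = Fq n i q k) ∧
      Tri (i + 2 - 2 * k) z (Fq n i q (k - 2)) (Fq n i q (k - 1)) f2 := by
    intro q
    by_cases hq : q ≤ i / 2
    · obtain ⟨f2, h⟩ := Pool.Agent.H89.ODD.num_tri fh hodd hin (by omega : 2 * q ≤ i) hk hk' hm hm'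
      exact ⟨f2, fun _ => h⟩
    · exact ⟨0, fun h => absurd h hq⟩
  choose f2 hf2 using h1
  refine ⟨∑ q ∈ Finset.range (i / 2 + 1), lam q * f2 q, fun h => ?_, ?_⟩
  · refine Finset.sum_congr rfl fun q hq => ?_
    rw [(hf2 q (by have := Finset.mem_range.1 hq; omega)).1 h]
  · exact tri_sum (i / 2) lam _ _ _ hl fun q hq => (hf2 q hq).2

/-- Sum of `num_pair`. -/
private theorem main_pair {n i : ℕ} (hodd : Odd i) (h3 : 3 ≤ i) (hin : i ≤ n) (lam : ℕ → ℝ)
    (hl : ∀ q, 0 ≤ lam q) :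
    ∃ f0 : ℝ, Tri i 1 f0 (∑ q ∈ Finset.range (i / 2 + 1), lam q * Fq n i q 0)
        (∑ q ∈ Finset.range (i / 2 + 1), lam q * Fq n i q 1) := by
  have h1 : ∀ q, ∃ f0, q ≤ i / 2 → Tri i 1 f0 (Fq n i q 0) (Fq n i q 1) := by
    intro q
    by_cases hq : q ≤ i / 2
    · obtain ⟨f0, h⟩ := Pool.Agent.H89.ODD.num_pair fh hodd h3 hin (by omega : 2 * q ≤ i)
      exact ⟨f0, fun _ => h⟩
    · exact ⟨0, fun h => absurd h hq⟩
  choose f0 hf0 using h1
  exact ⟨∑ q ∈ Finset.range (i / 2 + 1), lam q * f0 q,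
    tri_sum (i / 2) lam _ _ _ hl fun q hq => hf0 q hq⟩

theorem ok_at {n m B : ℕ} (hodd : Odd m) (hm : m + 3 < 2 * n) (hB : m + (2 * B + 1) = 2 * n)
    {e : Fin (m + 2) → Cn n} (he : Orthonormal ℝ e) (φ : ℕ → ℝ)
    (hφ : ∀ x, x < B → n ≤ x + (m + 2) →
      φ x = gg e (fun a : Fin (m + 2) => vf n (x + (m + 2) - n) a))
    {z : ℕ} (hz : n ≤ m + z) (hzB : z ≤ B) : OkAt φ B z := by
  rcases le_or_gt (m + 2) n with hin | hin
  · -- `i ≤ n`
    obtain ⟨lam, hl, -, hd⟩ := gg_dec (n := n) (by omega : 0 < m + 2) hin he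
    have hφ' : ∀ x, x < B → n ≤ x + (m + 2) → φ x =
        ∑ q ∈ Finset.range ((m + 2) / 2 + 1), lam q * Fq n (m + 2) q (x + (m + 2) - n) := by
      intro x hx hnx
      rw [hφ x hx hnx, hd]
      rfl
    obtain ⟨k, hk⟩ : ∃ k, z + (m + 2) = n + k := ⟨z + (m + 2) - n, by omega⟩
    obtain ⟨t, ht⟩ := hodd
    have hodd' : Odd (m + 2) := ⟨t + 1, by omega⟩
    obtain ⟨f2, h2, hT⟩ := main_tri (n := n) (k := k) (z := z) hodd' hin (by omega) (by omega)
      (by omega) (by omega) lam hl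
    refine Or.inr ⟨by omega,
      ∑ q ∈ Finset.range ((m + 2) / 2 + 1), lam q * Fq n (m + 2) q (k - 2),
      ∑ q ∈ Finset.range ((m + 2) / 2 + 1), lam q * Fq n (m + 2) q (k - 1), f2, ?_, ?_, ?_, ?_⟩
    · have e1 : 2 * B + 1 - 2 * z = m + 2 + 2 - 2 * k := by omega
      rw [e1]
      exact hT
    · rw [hφ' (z - 1) (by omega) (by omega)]
      have e1 : z - 1 + (m + 2) - n = k - 1 := by omega
      rw [e1]
    · intro hlt
      rw [h2 (by omega), hφ' z hlt (by omega)]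
      have e1 : z + (m + 2) - n = k := by omega
      rw [e1]
    · intro h2z
      rw [hφ' (z - 2) (by omega) (by omega)]
      have e1 : z - 2 + (m + 2) - n = k - 2 := by omega
      rw [e1]
  · -- `i > n`
    obtain ⟨t, ht⟩ := hodd
    obtain ⟨i', hi'⟩ : ∃ i', m + 2 + i' = 2 * n := ⟨2 * n - (m + 2), by omega⟩
    have hodd' : Odd i' := ⟨n - t - 2, by omega⟩
    have h3 : 3 ≤ i' := by omega
    have hin' : i' ≤ n := by omega
    obtain ⟨e', hc⟩ := exists_cpl hi' he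
    obtain ⟨lam, hl, -, hd⟩ := gg_dec (n := n) (by omega : 0 < i') hin' hc.2.1
    have hφ' : ∀ x, x < B → φ x = ∑ q ∈ Finset.range (i' / 2 + 1), lam q * Fq n i' q x := by
      intro x hx
      rw [hφ x hx (by omega), gg_dual hi' (by omega) (by omega) (by omega) hc, hd]
      rfl
    rcases Nat.lt_or_ge z 2 with hz2 | hz2
    · rcases Nat.eq_zero_or_pos z with h0 | h0
      · subst h0
        refine Or.inl ⟨rfl, ?_⟩
        rw [hφ 0 (by omega) (by omega)]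
        exact gg_nonneg _ _
      · have h1 : z = 1 := by omega
        subst h1
        obtain ⟨f0, hT⟩ := main_pair (n := n) hodd' h3 hin' lam hl
        refine Or.inr ⟨le_rfl, f0, ∑ q ∈ Finset.range (i' / 2 + 1), lam q * Fq n i' q 0,
          ∑ q ∈ Finset.range (i' / 2 + 1), lam q * Fq n i' q 1, ?_, ?_, ?_, ?_⟩
        · have e1 : 2 * B + 1 - 2 * 1 = i' := by omega
          rw [e1]
          exact hT
        · rw [hφ' (1 - 1) (by omega)]
        · intro hlt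
          rw [hφ' 1 hlt]
        · intro h
          omega
    · obtain ⟨f2, h2, hT⟩ := main_tri (n := n) (k := z) (z := z) hodd' hin' hz2 (by omega)
        (by omega) (by omega) lam hl
      refine Or.inr ⟨by omega, ∑ q ∈ Finset.range (i' / 2 + 1), lam q * Fq n i' q (z - 2),
        ∑ q ∈ Finset.range (i' / 2 + 1), lam q * Fq n i' q (z - 1), f2, ?_, ?_, ?_, ?_⟩
      · have e1 : 2 * B + 1 - 2 * z = i' + 2 - 2 * z := by omega
        rw [e1]
        exact hT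
      · rw [hφ' (z - 1) (by omega)]
      · intro hlt
        rw [h2 (by omega), hφ' z hlt]
      · intro h2z
        rw [hφ' (z - 2) (by omega)]

end Pool.Agent.H35.ODD
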