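import Mathlib
import Pool.Agent.H35.ODD.OHyp
import Pool.Agent.H35.ODD.OLow
import Pool.Agent.H35.ISO.Main
import Pool.Agent.H35.NI.BMI
import Pool.Agent.H61.UProj.StmtEquiv

set_option autoImplicit false

/-!
# OMain: assembly (as `ISO/Main`)

`i = m + 2`.  `i + 1 = 2n`: the complement of `e` is one vector (`exists_cpl`), isotropic: `mainISO`.
Else `i + 1 < 2n` (`i` odd): `hyp_odd`, `low_odd`, `bm_zonoidI`.
-/

open MeasureTheory Pool.Agent.H61.UProj Pool.Agent.H89.CZ Pool.Agent.H35.NI
open scoped ENNReal Pointwise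

noncomputable section

namespace Pool.Agent.H35.ODD

theorem mainODD (n i : ℕ) (hi : 3 ≤ i) (hodd : Odd i) (hin : i < 2 * n) (E : Submodule ℝ (Cn n))
    (e : Fin i → Cn n) (he : SD.IsONB e E) : SD.HasBMZonoid E := by
  rcases Nat.lt_or_ge (i + 1) (2 * n) with hlt | hge
  · obtain ⟨m, rfl⟩ : ∃ m, i = m + 2 := ⟨i - 2, by omega⟩
    have hm : Odd m := by
      rcases hodd with ⟨t, ht⟩
      exact ⟨t - 1, by omega⟩
    obtain ⟨hon, hsp⟩ := he
    obtain ⟨J, hJe, hJ⟩ := exists_iso hon
    rw [hsp] at hJ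
    have hfr : Module.finrank ℝ E = m + 2 := by
      rw [← hsp, finrank_span_eq_card hon.linearIndependent, Fintype.card_fin]
    have hJe' : (fun k => J (EuclideanSpace.single k 1)) = e := by
      funext k
      rw [hJe, Finset.sum_eq_single k]
      · simp
      · intro j _ hj
        simp [hj]
      · intro hk
        exact absurd (Finset.mem_univ k) hk
    intro K L hK hL hKz hLz
    have h4 := bm_zonoidI J (by
        obtain ⟨C, hC, hlow⟩ := low_odd hodd hin hon
        refine ⟨C, hC, fun w => ?_⟩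
        rw [hJe']
        exact hlow w) (by
        intro W N p u t ht
        simp only [hJe']
        exact hyp_odd hm (by omega) hon W p u t ht) hKz hLz
    have hp : (1 / (Module.finrank ℝ E : ℝ)) = 1 / ((m : ℝ) + 2) := by
      rw [hfr]
      push_cast
      ring
    rw [hp, Stmt.VE_eq, Stmt.VE_eq, Stmt.VE_eq]
    rw [hJ] at h4
    exact h4
  · have h1 : i + 1 = 2 * n := by omega
    obtain ⟨e', he'⟩ := exists_cpl (i := i) (j := 1) h1 he.1
    refine ISO.mainISO n i (by omega) hin E e he (Or.inr ⟨1, e', h1, he', ?_⟩)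
    intro a b
    rw [Subsingleton.elim a b]
    exact om_self _

end Pool.Agent.H35.ODD
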